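import Mathlib

set_option autoImplicit false

namespace Pool.Agent.MP_f8284b_co.U85

open Classical in
/-- The U-polynomial of Noble and Welsh of a simple graph on `Fin n`: the sum over edge subsets `A`
of the product, over the components `C` of the spanning subgraph with edge set `A`, of the variable
`x_{|C|}` (here `X (some |C|)`), times `(y - 1) ^ (|A| - r(A))` (here `y = X none`), where
`r(A) = n - number of components`. -/
noncomputable def Upoly {n : ℕ} (G : SimpleGraph (Fin n)) : MvPolynomial (Option ℕ) ℤ :=
  ∑ A ∈ G.edgeFinset.powerset,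
    (∏ C : (SimpleGraph.fromEdgeSet (A : Set (Sym2 (Fin n)))).ConnectedComponent,
        MvPolynomial.X (some (Nat.card C.supp))) *
      (MvPolynomial.X none - 1) ^ (A.card -
        (n - Nat.card (SimpleGraph.fromEdgeSet (A : Set (Sym2 (Fin n)))).ConnectedComponent))

/-- The substitution `y ↦ y`, `x_s ↦ (y - 1) ^ (s - 1) * (z_1 ^ s + ... + z_t ^ s + [s = 1])`,
into polynomials in the `t + 1` variables `y = X none`, `z_k = X (some k)`. -/
noncomputable def subst (t : ℕ) : Option ℕ → MvPolynomial (Option (Fin t)) ℤ
  | none => MvPolynomial.X none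
  | some s => (MvPolynomial.X none - 1) ^ (s - 1) *
      ((∑ k : Fin t, MvPolynomial.X (some k) ^ s) + (if s = 1 then 1 else 0))

/-- The specialisation of the U-polynomial to `t + 1` variables. -/
noncomputable def Uspec (t : ℕ) {n : ℕ} (G : SimpleGraph (Fin n)) :
    MvPolynomial (Option (Fin t)) ℤ :=
  MvPolynomial.aeval (subst t) (Upoly G)

end Pool.Agent.MP_f8284b_co.U85
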