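import Mathlib
import Pool.Agent.MP_f8284b_co.U85.Defs

set_option autoImplicit false

/-! Definitions and row statements for: almost all graphs are determined by a specialisation of
the U-polynomial. A graph is a map `ω : Sym2 V → Bool` (diagonal values are irrelevant). -/

namespace Pool.Agent.MP_f8284b_co.U85

open Finset

/-! ### Counting edges -/

/-- unordered pairs of distinct vertices of `W` -/
def prs {V : Type} [DecidableEq V] (W : Finset V) : Finset (Sym2 V) :=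
  W.offDiag.image Sym2.mk.uncurry

/-- number of coordinates of `F` that are on -/
def cnt {E : Type} (ω : E → Bool) (F : Finset E) : ℕ := (F.filter (fun e => ω e = true)).card

/-- number of edges inside `W` -/
def ein {V : Type} [DecidableEq V] (ω : Sym2 V → Bool) (W : Finset V) : ℕ := cnt ω (prs W)

/-- number of edges between `X` and `Y` (used for disjoint `X`, `Y`) -/
def lab {V : Type} (ω : Sym2 V → Bool) (X Y : Finset V) : ℕ :=
  ∑ v ∈ X, (Y.filter (fun x => ω s(v, x) = true)).card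

/-- number of tuples of disjoint sets with sizes `c` and `z` inner edges in total -/
def dat {V : Type} [Fintype V] [DecidableEq V] (ω : Sym2 V → Bool) {κ : Type} [Fintype κ]
    [DecidableEq κ] (c : κ → ℕ) (z : ℕ) : ℕ :=
  (univ.filter (fun W : κ → Finset V => (∀ k, (W k).card = c k) ∧
    (∀ k l, k ≠ l → Disjoint (W k) (W l)) ∧ ∑ k, ein ω (W k) = z)).card

/-- same data for all tuples of length at most `t` -/
def Same {V : Type} [Fintype V] [DecidableEq V] (t : ℕ) (ω ω' : Sym2 V → Bool) : Prop :=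
  ∀ (κ : Type) [Fintype κ] [DecidableEq κ], Fintype.card κ ≤ t →
    ∀ (c : κ → ℕ) (z : ℕ), dat ω c z = dat ω' c z

/-- pairs of disjoint subsets of `U` with given sizes and `z` inner edges in total -/
def dat2 {V : Type} [DecidableEq V] (ω : Sym2 V → Bool) (U : Finset V) (β β' z : ℕ) : ℕ :=
  ((U.powersetCard β ×ˢ U.powersetCard β').filter
    (fun W => Disjoint W.1 W.2 ∧ ein ω W.1 + ein ω W.2 = z)).card

/-- roots in `U`: the empty set (`r = 0`), the vertices (`r = 1`), the edges (`r = 2`) -/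
def rts {V : Type} [DecidableEq V] (ω : Sym2 V → Bool) (U : Finset V) (r : ℕ) :
    Finset (Finset V) :=
  (U.powersetCard r).filter (fun ρ => ein ω ρ = r - 1)

/-- binomial moments of the number of edges of `U` avoiding a root -/
def kel {V : Type} [DecidableEq V] (ω : Sym2 V → Bool) (U : Finset V) (r s : ℕ) : ℕ :=
  ∑ ρ ∈ rts ω U r, (ein ω (U \ ρ)).choose s

/-- isolated blocks: a non-empty `B i` is the densest set of size `sz i` with gap above `g` -/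
def Iso {V I : Type} [DecidableEq V] (ω : Sym2 V → Bool) (sz : I → ℕ) (g : ℕ)
    (B : I → Finset V) : Prop :=
  (∀ i, (B i).Nonempty → (B i).card = sz i ∧
    ∀ W : Finset V, W.card = sz i → W ≠ B i → ein ω W + g < ein ω (B i)) ∧
  ∀ i i', i ≠ i' → Disjoint (B i) (B i')

/-! ### Generating series -/

/-- series of a root against one block -/
noncomputable def gen1 {V : Type} [DecidableEq V] (ω : Sym2 V → Bool) (ρ Y : Finset V) :
    PowerSeries ℚ :=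
  (if Disjoint ρ Y then (1 + PowerSeries.X) ^ lab ω ρ Y else 0) - 1

/-- series of a root in slot `k` at the index `o` -/
noncomputable def gen {V K R : Type} [DecidableEq V] (ω : Sym2 V → Bool) (B : K × R → Finset V)
    (ρ : Finset V) (k : K) : Option R → PowerSeries ℚ
  | none => PowerSeries.X
  | some r => if (B (k, r)).Nonempty then gen1 ω ρ (B (k, r)) else 0

/-- the tensor read off the data -/
noncomputable def ten {V K R : Type} [Fintype V] [DecidableEq V] [Fintype K]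
    (ω : Sym2 V → Bool) (B : K × R → Finset V) (r : ℕ) (x : K → Option R) : PowerSeries ℚ :=
  ∑ ρ ∈ rts ω univ r, (1 + PowerSeries.X) ^ ein ω (univ \ ρ) * ∏ k, gen ω B ρ k (x k)

/-- the weights `l` kill every product of coefficients of the root `ρ` -/
def Kills {V R : Type} [DecidableEq V] [Fintype R] {p : ℕ} (ω : Sym2 V → Bool) (j : ℕ)
    (Y : Fin p → R → Finset V) (l : (Fin p → R) → ℚ) (ρ : Finset V) : Prop :=
  ∀ c : Fin p → ℕ, (∀ k, c k ≤ j) →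
    ∑ r : Fin p → R, l r * ∏ k, PowerSeries.coeff (c k) (gen1 ω ρ (Y k (r k))) = 0

/-- weights that see the pair `u, w` and kill every root missing `u` -/
def Kil {V R : Type} [DecidableEq V] [Fintype R] {p : ℕ} (ω : Sym2 V → Bool) (j : ℕ) (u w : V)
    (Y : Fin p → R → Finset V) : Prop :=
  ∃ l : (Fin p → R) → ℚ,
    (∀ r, l r ≠ 0 → ∀ k, (Y k (r k)).Nonempty ∧ u ∉ Y k (r k) ∧ w ∉ Y k (r k)) ∧
    (∑ r : Fin p → R, l r * ∏ k, (lab ω {u, w} (Y k (r k)) : ℚ) ≠ 0) ∧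
    ∀ ρ : Finset V, ρ.card ≤ 2 → u ∉ ρ → Kills ω j Y l ρ

/-- slots: three thirds of `p + 1` slots -/
abbrev Sl (p : ℕ) : Type := Fin 3 × Fin (p + 1)

/-- genericity of the labels -/
def Gen {V R : Type} [DecidableEq V] [Fintype R] {p : ℕ} (ω : Sym2 V → Bool)
    (B : Sl p × R → Finset V) : Prop :=
  ∀ (u w : V) (a : Fin 3) (k0 : Fin (p + 1)),
    Kil ω (3 * (p + 1)) u w (fun k r => B ((a, k0.succAbove k), r))

/-- two block families of the same shape -/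
def Shape {V I : Type} [DecidableEq V] (B B' : I → Finset V) : Prop :=
  (∀ i i', i ≠ i' → Disjoint (B i) (B i')) ∧ (∀ i i', i ≠ i' → Disjoint (B' i) (B' i')) ∧
    ∀ i, (B' i).card = (B i).card

/-- the good event -/
def Good {V : Type} [Fintype V] [DecidableEq V] (p : ℕ) {R : Type} [Fintype R]
    (sz : Sl p × R → ℕ) (g : ℕ) (ω : Sym2 V → Bool) : Prop :=
  ∃ B : Sl p × R → Finset V, Iso ω sz g B ∧ Gen ω B ∧ ∀ u, 0 < ein ω (univ \ {u})

/-! ### Deterministic rows -/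

def RowPAD : Prop := ∀ (V : Type) [Fintype V] [DecidableEq V] (t : ℕ) (ω ω' : Sym2 V → Bool),
  (∀ (c : Fin t → ℕ) (z : ℕ), dat ω c z = dat ω' c z) → Same t ω ω'

def RowINH : Prop := ∀ (V I : Type) [Fintype V] [DecidableEq V] (t g : ℕ) (ω ω' : Sym2 V → Bool)
  (sz : I → ℕ) (B : I → Finset V), 2 ≤ t → Same t ω ω' → Iso ω sz g B →
  ∃ B' : I → Finset V, Iso ω' sz g B' ∧
    ∀ i, (B' i).card = (B i).card ∧ ein ω' (B' i) = ein ω (B i)

def RowTOP : Prop := ∀ (V I : Type) [Fintype V] [DecidableEq V] [DecidableEq I] (t g : ℕ)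
  (ω ω' : Sym2 V → Bool) (sz : I → ℕ) (B B' : I → Finset V) (J : Finset I) (β β' z : ℕ),
  Same t ω ω' → Iso ω sz g B → Iso ω' sz g B' →
  (∀ i, (B' i).card = (B i).card ∧ ein ω' (B' i) = ein ω (B i)) →
  J.card + 2 ≤ t → β.choose 2 + β'.choose 2 ≤ g →
  dat2 ω (univ \ J.biUnion B) β β' z = dat2 ω' (univ \ J.biUnion B') β β' z

/-- Kelly counting for one graph: sum over `β`-sets against sums over edge sets by vertex span -/
def RowKE1 : Prop := ∀ (V : Type) [DecidableEq V] (ω : Sym2 V → Bool) (s : ℕ),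
  ∃ ψ : Finset V → ℕ, (∀ Y, 2 * s < Y.card → ψ Y = 0) ∧
    ∀ W : Finset V, (ein ω W).choose s = ∑ Y ∈ W.powerset, ψ Y

def RowKEL : Prop := RowKE1 → ∀ (V : Type) [DecidableEq V] (ω ω' : Sym2 V → Bool)
  (U U' : Finset V) (j : ℕ), U'.card = U.card →
  (∀ β β' z, β ≤ 2 * j → β' ≤ 2 → dat2 ω U β β' z = dat2 ω' U' β β' z) →
  ∀ r s, r ≤ 2 → s ≤ j → kel ω U r s = kel ω' U' r s

/-- edge bookkeeping -/
def RowEDG : Prop := ∀ (V I : Type) [Fintype V] [DecidableEq V] [DecidableEq I]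
  (ω : Sym2 V → Bool) (B : I → Finset V) (J : Finset I) (ρ : Finset V),
  (∀ i i', i ≠ i' → Disjoint (B i) (B i')) → Disjoint ρ (J.biUnion B) →
  ein ω ((univ \ J.biUnion B) \ ρ) + ein ω univ =
    ein ω (univ \ ρ) + ein ω (univ \ J.biUnion B) + ∑ i ∈ J, lab ω ρ (B i)

def RowTEN : Prop := RowEDG → ∀ (V K R : Type) [Fintype V] [DecidableEq V] [Fintype K]
  [DecidableEq K] [DecidableEq R] (ω ω' : Sym2 V → Bool) (B B' : K × R → Finset V) (j : ℕ),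
  1 ≤ j → Shape B B' →
  (∀ J : Finset (K × R), J.card ≤ Fintype.card K → ∀ r s, r ≤ 2 → s ≤ j →
    kel ω (univ \ J.biUnion B) r s = kel ω' (univ \ J.biUnion B') r s) →
  ∀ r s, r ≤ 2 → s ≤ j → ∀ x : K → Option R,
    PowerSeries.coeff s (ten ω B r x) = PowerSeries.coeff s (ten ω' B' r x)

/-- low coefficients of a product of series without constant term -/
def RowCF : Prop := ∀ (K : Type) (S : Finset K) (f : K → PowerSeries ℚ) (P : PowerSeries ℚ),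
  (∀ k ∈ S, PowerSeries.coeff 0 (f k) = 0) →
  (∀ s, s < S.card → PowerSeries.coeff s (P * ∏ k ∈ S, f k) = 0) ∧
  PowerSeries.coeff S.card (P * ∏ k ∈ S, f k) =
    PowerSeries.coeff 0 P * ∏ k ∈ S, PowerSeries.coeff 1 (f k) ∧
  PowerSeries.coeff (S.card + 1) (P * ∏ k ∈ S, f k) =
    PowerSeries.coeff 0 P * PowerSeries.coeff (S.card + 1) (∏ k ∈ S, f k) +
      PowerSeries.coeff 1 P * ∏ k ∈ S, PowerSeries.coeff 1 (f k)

/-- what killing weights also kill -/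
def RowSP : Prop := ∀ (V R : Type) [DecidableEq V] [Fintype R] (p j : ℕ) (ω : Sym2 V → Bool)
  (Y : Fin p → R → Finset V) (l : (Fin p → R) → ℚ) (ρ : Finset V), 1 ≤ j → Kills ω j Y l ρ →
  (∀ α β : Fin p → ℚ, ∑ r : Fin p → R, l r * ∏ k,
    (α k * PowerSeries.coeff 0 (gen1 ω ρ (Y k (r k))) +
      β k * PowerSeries.coeff 1 (gen1 ω ρ (Y k (r k)))) = 0) ∧
  ∀ (P : PowerSeries ℚ) (s : ℕ), s ≤ j →
    ∑ r : Fin p → R, l r * PowerSeries.coeff s (P * ∏ k, gen1 ω ρ (Y k (r k))) = 0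

/-- uniqueness of a three-way decomposition with independent factors -/
def RowLU : Prop := ∀ (U U' X : Type) [Fintype U] [Fintype U'] (x y z : U → X → ℚ)
  (x' y' z' : U' → X → ℚ), Fintype.card U' ≤ Fintype.card U →
  LinearIndependent ℚ x → LinearIndependent ℚ y → LinearIndependent ℚ z →
  (∀ a b c, ∑ u, x u a * y u b * z u c = ∑ u, x' u a * y' u b * z' u c) →
  ∃ e : U ≃ U', ∀ u a b c, x u a * y u b * z u c = x' (e u) a * y' (e u) b * z' (e u) c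

/-- independence of product functions attached to vertices -/
def RowIND : Prop := RowSP → ∀ (V R U : Type) [DecidableEq V] [Fintype R] [Fintype U] (p : ℕ)
  (ω : Sym2 V → Bool) (B : Sl p × R → Finset V) (a : Fin 3) (ι : U → V)
  (f : U → Fin (p + 1) → Option R → ℚ), Gen ω B → Function.Injective ι →
  (∀ u, ∃ k0 o, f u k0 o ≠ 0 ∧ ∀ k, k ≠ k0 → ∀ r, (B ((a, k), r)).Nonempty →
    ι u ∉ B ((a, k), r) → f u k (some r) = lab ω {ι u} (B ((a, k), r))) →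
  (∀ u k, ∃ α β : ℚ, ∀ r, (B ((a, k), r)).Nonempty → f u k (some r) =
    α * PowerSeries.coeff 0 (gen1 ω {ι u} (B ((a, k), r))) +
      β * PowerSeries.coeff 1 (gen1 ω {ι u} (B ((a, k), r)))) →
  LinearIndependent ℚ (fun u => fun y : Fin (p + 1) → Option R => ∏ k, f u k (y k))

/-- conclusion of step A -/
def OutA {V K R : Type} [DecidableEq V] (ω ω' : Sym2 V → Bool) (B B' : K × R → Finset V) : Prop :=
  ∃ e : {u : V // ∃ i, u ∈ B i} ≃ {u : V // ∃ i, u ∈ B' i}, ∀ u i, u.1 ∈ B i →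
    (e u).1 ∈ B' i ∧ ∀ k, k ≠ i.1 → ∀ o, gen ω B {u.1} k o = gen ω' B' {(e u).1} k o

/-- conclusion of step B -/
def OutB {V I : Type} [DecidableEq V] (ω ω' : Sym2 V → Bool) (B B' : I → Finset V)
    (φ : V ≃ V) : Prop :=
  ∀ u i, (u ∈ B i ↔ φ u ∈ B' i) ∧ (u ∉ B i → lab ω {u} (B i) = lab ω' {φ u} (B' i))

def RowSA : Prop := RowCF → RowLU → RowIND → RowSP →
  ∀ (V R : Type) [Fintype V] [DecidableEq V] [Fintype R] [DecidableEq R] (p : ℕ)
  (ω ω' : Sym2 V → Bool) (B B' : Sl p × R → Finset V), Shape B B' → Gen ω B →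
  (∀ x, PowerSeries.coeff (3 * p + 2) (ten ω B 1 x) = PowerSeries.coeff (3 * p + 2) (ten ω' B' 1 x)) →
  OutA ω ω' B B'

def RowSB : Prop := RowCF → RowLU → RowIND → RowSP →
  ∀ (V R : Type) [Fintype V] [DecidableEq V] [Fintype R] [DecidableEq R] (p : ℕ)
  (ω ω' : Sym2 V → Bool) (B B' : Sl p × R → Finset V), Shape B B' → Gen ω B →
  (∀ u, 0 < ein ω (univ \ {u})) → OutA ω ω' B B' →
  (∀ x, PowerSeries.coeff (3 * (p + 1)) (ten ω B 1 x) =
    PowerSeries.coeff (3 * (p + 1)) (ten ω' B' 1 x)) →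
  ∃ φ : V ≃ V, OutB ω ω' B B' φ

def RowSC : Prop := RowCF → RowSP →
  ∀ (V R : Type) [Fintype V] [DecidableEq V] [Fintype R] [DecidableEq R] (p : ℕ)
  (ω ω' : Sym2 V → Bool) (B B' : Sl p × R → Finset V) (φ : V ≃ V), Shape B B' → Gen ω B →
  OutB ω ω' B B' φ →
  (∀ x, PowerSeries.coeff (3 * (p + 1)) (ten ω B 2 x) =
    PowerSeries.coeff (3 * (p + 1)) (ten ω' B' 2 x)) →
  ∀ u w, u ≠ w → ω s(u, w) = ω' s(φ u, φ w)

/-! ### From the polynomial to the data -/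

open Classical in
/-- the indicator of the edge set -/
noncomputable def om {V : Type} (G : SimpleGraph V) : Sym2 V → Bool :=
  fun e => decide (e ∈ G.edgeSet)

/-- rank is at most size, and component sizes add up -/
def RowUD1 : Prop := ∀ (n : ℕ) (A : Finset (Sym2 (Fin n)))
  [Fintype (SimpleGraph.fromEdgeSet (A : Set (Sym2 (Fin n)))).ConnectedComponent],
  (A.card - (n - Nat.card (SimpleGraph.fromEdgeSet (A : Set (Sym2 (Fin n)))).ConnectedComponent)) +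
    ∑ C : (SimpleGraph.fromEdgeSet (A : Set (Sym2 (Fin n)))).ConnectedComponent,
      (Nat.card C.supp - 1) = A.card

open Classical in
/-- product over components as a sum over colourings -/
def RowUD2 : Prop := ∀ (n t : ℕ) (A : Finset (Sym2 (Fin n)))
  [Fintype (SimpleGraph.fromEdgeSet (A : Set (Sym2 (Fin n)))).ConnectedComponent],
  (∀ e ∈ A, ¬ e.IsDiag) →
  (∏ C : (SimpleGraph.fromEdgeSet (A : Set (Sym2 (Fin n)))).ConnectedComponent,
    (((∑ k : Fin t, MvPolynomial.X (some k) ^ Nat.card C.supp) +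
      (if Nat.card C.supp = 1 then 1 else 0) : MvPolynomial (Option (Fin t)) ℤ))) =
  ∑ κ : Fin n → Option (Fin t),
    if (∀ u w, s(u, w) ∈ A → κ u = κ w ∧ κ u ≠ none) then
      ∏ k : Fin t, MvPolynomial.X (some k) ^ (univ.filter (fun v => κ v = some k)).card else 0

/-- the specialisation as a sum over colourings -/
def RowUD3 : Prop := RowUD1 → RowUD2 → ∀ (n t : ℕ) (G : SimpleGraph (Fin n)),
  Uspec t G = ∑ κ : Fin n → Option (Fin t),
    (∏ k : Fin t, MvPolynomial.X (some k) ^ (univ.filter (fun v => κ v = some k)).card) *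
      MvPolynomial.X none ^ (∑ k : Fin t, ein (om G) (univ.filter (fun v => κ v = some k)))

def RowUD4 : Prop := ∀ (n t : ℕ) (ω ω' : Sym2 (Fin n) → Bool),
  (∑ κ : Fin n → Option (Fin t),
    (∏ k : Fin t, MvPolynomial.X (some k) ^ (univ.filter (fun v => κ v = some k)).card) *
      MvPolynomial.X none ^ (∑ k : Fin t, ein ω (univ.filter (fun v => κ v = some k))) :
        MvPolynomial (Option (Fin t)) ℤ) =
  ∑ κ : Fin n → Option (Fin t),
    (∏ k : Fin t, MvPolynomial.X (some k) ^ (univ.filter (fun v => κ v = some k)).card) *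
      MvPolynomial.X none ^ (∑ k : Fin t, ein ω' (univ.filter (fun v => κ v = some k))) →
  ∀ (c : Fin t → ℕ) (z : ℕ), dat ω c z = dat ω' c z

/-! ### Probability -/

open Classical in
/-- uniform probability -/
noncomputable def Pr {Ω : Type} [Fintype Ω] (A : Ω → Prop) : ℝ :=
  ((univ.filter A).card : ℝ) / Fintype.card Ω

/-- the event depends only on the coordinates in `F` -/
def Dep {E : Type} (A : (E → Bool) → Prop) (F : Finset E) : Prop :=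
  ∀ ω ω' : E → Bool, (∀ e ∈ F, ω e = ω' e) → A ω → A ω'

noncomputable def psi (l : ℝ) : ℝ := Real.log ((1 + Real.exp l) / 2)

noncomputable def tail (N T : ℕ) : ℝ := (∑ k ∈ Icc T N, (N.choose k : ℝ)) / 2 ^ N

noncomputable def thr (n : ℕ) (δ : ℝ) (b : ℕ) : ℕ :=
  sInf {T : ℕ | (n.choose b : ℝ) * tail (b.choose 2) T ≤ δ}

noncomputable def xx (n : ℕ) (δ : ℝ) (b : ℕ) : ℝ := (thr n δ b : ℝ) / (b.choose 2 : ℕ) - 1 / 2

noncomputable def lam (n : ℕ) (δ : ℝ) (b : ℕ) : ℝ :=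
  Real.log ((thr n δ b : ℝ) / ((b.choose 2 : ℕ) - (thr n δ b : ℝ)))

noncomputable def rho (b0 : ℕ) : ℝ := Real.sqrt (6 * b0 * Real.log (2 * b0))

structure Par (n b0 D0 g : ℕ) (δ : ℝ) : Prop where
  big : 10 ^ 9 * Real.log (2 * b0) ≤ Real.log n
  gap : 10 ^ 4 * Real.log n ≤ D0
  gapb : D0 ≤ b0
  dlo : 1 ≤ δ * b0
  dhi : δ ≤ 1
  gb : 100 * g + 1000 ≤ b0
  gb2 : 2 ^ (g + 2) ≤ b0

/-- facts on one threshold -/
structure XF (n b0 g : ℕ) (δ : ℝ) (b : ℕ) : Prop where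
  xpos : 0 < xx n δ b
  lt : thr n δ b < b.choose 2
  up : (n.choose b : ℝ) * tail (b.choose 2) (thr n δ b) ≤ δ
  lo : δ / 2 ^ (g + 1) ≤ (n.choose b : ℝ) * tail (b.choose 2) (thr n δ b + g)
  x1 : 97 / 100 * Real.log n ≤ xx n δ b ^ 2 * b
  x2 : xx n δ b ^ 2 * b ≤ 121 / 100 * Real.log n
  l1 : 4 * xx n δ b ≤ lam n δ b
  l2 : lam n δ b ≤ 44 / 10 * xx n δ b
  lp : Real.exp (lam n δ b) / (1 + Real.exp (lam n δ b)) = (thr n δ b : ℝ) / (b.choose 2 : ℕ)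
  types : Real.exp ((b.choose 2 : ℕ) * psi (lam n δ b) - lam n δ b * thr n δ b) ≤
    ((b.choose 2 : ℕ) + 1) * tail (b.choose 2) (thr n δ b)
  r1 : 11000 * rho b0 ≤ xx n δ b * b
  r2 : 400 * (xx n δ b * rho b0) ≤ Real.log n
  r3 : Real.log (2 * b0) ≤ xx n δ b * rho b0

/-- sharp two-sided bounds on one threshold -/
structure XS (n b0 : ℕ) (δ : ℝ) (b : ℕ) : Prop where
  xpos : 0 < xx n δ b
  sU : xx n δ b ^ 2 * (b - 1) ≤ Real.log (n.choose b) / b + 2 * Real.log (2 * b0) / b0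
  sL : Real.log (n.choose b) / b - 2 * Real.log (2 * b0) / b0 ≤
    xx n δ b ^ 2 * (b - 1) * (1 + 3 * xx n δ b ^ 2)

/-- no proper subset of `B` is much denser than its share -/
def Flat {V : Type} [DecidableEq V] (ω : Sym2 V → Bool) (T : ℕ) (ρ : ℝ) (B : Finset V) : Prop :=
  ∀ W ⊆ B, W ≠ B → (ein ω W : ℝ) ≤ (T : ℝ) / (B.card.choose 2 : ℕ) * (W.card.choose 2 : ℕ) +
    (min W.card (B.card - W.card) : ℕ) * ρ

/-- sizes in the window, far apart -/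
def Spaced {I : Type} (b0 D0 : ℕ) (sz : I → ℕ) : Prop :=
  (∀ i, b0 ≤ sz i ∧ sz i ≤ 2 * b0) ∧ ∀ i i', i ≠ i' → sz i + D0 ≤ sz i' ∨ sz i' + D0 ≤ sz i

/-- independence, exponential tilting, binomial tail -/
def RowPB : Prop := ∀ (E : Type) [Fintype E] [DecidableEq E],
  (∀ (A C : (E → Bool) → Prop) (F F' : Finset E), Dep A F → Dep C F' → Disjoint F F' →
    Pr (fun ω => A ω ∧ C ω) = Pr A * Pr C) ∧
  (∀ (C : (E → Bool) → Prop) (F : Finset E) (θ : E → ℝ) (c : ℝ),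
    (∀ ω, C ω → c ≤ ∑ e ∈ F, if ω e = true then θ e else 0) →
    Pr C ≤ Real.exp (∑ e ∈ F, psi (θ e) - c)) ∧
  ∀ (F : Finset E) (T : ℕ), Pr (fun ω : E → Bool => T ≤ cnt ω F) = tail F.card T

def RowAN1 : Prop :=
  (∀ l θ : ℝ, psi (l + θ) ≤ psi l + θ * (Real.exp l / (1 + Real.exp l)) + θ ^ 2 / 8) ∧
  (∀ l : ℝ, l / 2 ≤ psi l) ∧ (∀ l : ℝ, l / 2 + l ^ 2 / 8 - l ^ 4 / 64 ≤ psi l) ∧
  ∀ x : ℝ, 0 ≤ x → x ≤ 1 / 25 →
    4 * x ≤ Real.log ((1 / 2 + x) / (1 / 2 - x)) ∧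
      Real.log ((1 / 2 + x) / (1 / 2 - x)) ≤ 44 / 10 * x

def RowAN2 : Prop :=
  (∀ N T : ℕ, 0 < T → T < N →
    Real.exp (N * psi (Real.log ((T : ℝ) / (N - T))) - Real.log ((T : ℝ) / (N - T)) * T) ≤
      (N + 1) * tail N T) ∧
  (∀ N T : ℕ, 2 * T ≤ N → 1 ≤ (N + 1) * tail N T) ∧
  (∀ N T : ℕ, 5 * T + 7 ≤ 3 * N → tail N T ≤ 2 * tail N (T + 1)) ∧
  ∀ (N T : ℕ) (θ : ℝ), 0 ≤ θ → tail N T ≤ Real.exp (N * psi θ - θ * T)

def RowAN3 : Prop :=
  (∀ n b : ℕ, 0 < b → b ≤ n → b * (Real.log n - Real.log b) ≤ Real.log (n.choose b) ∧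
    Real.log (n.choose b) ≤ b * Real.log n) ∧
  (∀ n b b' : ℕ, 0 < b' → b' ≤ b → b ≤ n →
    Real.log (n.choose b) / b ≤ Real.log (n.choose b') / b') ∧
  ∀ n b w : ℕ, w ≤ b → 2 * b ≤ n → 0 < n →
    (n.choose (b - w) : ℝ) ≤ n.choose b * (2 * b / n) ^ w

def RowXS : Prop := RowAN1 → RowAN2 → RowAN3 → ∀ (n b0 D0 g : ℕ) (δ : ℝ) (b : ℕ),
  Par n b0 D0 g δ → b0 ≤ b → b ≤ 2 * b0 → XS n b0 δ b

def RowXF : Prop := RowAN1 → RowAN2 → RowAN3 → ∀ (n b0 D0 g : ℕ) (δ : ℝ) (b : ℕ),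
  Par n b0 D0 g δ → b0 ≤ b → b ≤ 2 * b0 → XS n b0 δ b → XF n b0 g δ b

def RowX2 : Prop := RowAN3 → ∀ (n b0 D0 g : ℕ) (δ : ℝ) (b b' : ℕ),
  Par n b0 D0 g δ → b0 ≤ b' → b' + D0 ≤ b → b ≤ 2 * b0 → XS n b0 δ b → XS n b0 δ b' →
  XF n b0 g δ b' → ((b : ℝ) - b') * xx n δ b ≤ 6 * b * (xx n δ b' - xx n δ b)

def RowFL1 : Prop := RowPB → RowAN1 → ∀ (V : Type) [Fintype V] [DecidableEq V]
  (n b0 D0 g : ℕ) (δ : ℝ) (B W : Finset V), Par n b0 D0 g δ → b0 ≤ B.card → B.card ≤ 2 * b0 →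
  XF n b0 g δ B.card → W ⊆ B →
  Pr (fun ω : Sym2 V → Bool => thr n δ B.card ≤ ein ω B ∧
    (thr n δ B.card : ℝ) / (B.card.choose 2 : ℕ) * (W.card.choose 2 : ℕ) +
      (min W.card (B.card - W.card) : ℕ) * rho b0 < ein ω W) ≤
    ((B.card.choose 2 : ℕ) + 1) * tail (B.card.choose 2) (thr n δ B.card) *
      Real.exp (-6 * Real.log (2 * b0) * (min W.card (B.card - W.card) : ℕ))

/-- conclusion of the flatness rows -/
def OutFL (V : Type) [Fintype V] [DecidableEq V] (n b0 : ℕ) (δ : ℝ) : Prop :=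
  ∀ B : Finset V, b0 ≤ B.card → B.card ≤ 2 * b0 →
  Pr (fun ω : Sym2 V → Bool => thr n δ B.card ≤ ein ω B ∧ ¬ Flat ω (thr n δ B.card) (rho b0) B) ≤
    tail (B.card.choose 2) (thr n δ B.card) / (2 * b0) ^ 2

def RowFL2 : Prop := RowFL1 → RowPB → RowAN1 → ∀ (V : Type) [Fintype V] [DecidableEq V]
  (n b0 D0 g : ℕ) (δ : ℝ), Par n b0 D0 g δ → (∀ b, b0 ≤ b → b ≤ 2 * b0 → XF n b0 g δ b) →
  OutFL V n b0 δ

/-- `B` is flat and above its threshold, `B'` is above its threshold -/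
def Both {V : Type} [DecidableEq V] (n b0 : ℕ) (δ : ℝ) (B B' : Finset V) (ω : Sym2 V → Bool) :
    Prop :=
  (thr n δ B.card ≤ ein ω B ∧ Flat ω (thr n δ B.card) (rho b0) B) ∧ thr n δ B'.card ≤ ein ω B'

def RowOVS : Prop := RowPB → RowAN1 → ∀ (V : Type) [Fintype V] [DecidableEq V]
  (n b0 D0 g : ℕ) (δ : ℝ) (B B' : Finset V), Par n b0 D0 g δ → b0 ≤ B'.card → B'.card ≤ B.card →
  XF n b0 g δ B.card → XF n b0 g δ B'.card → xx n δ B.card ≤ xx n δ B'.card →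
  10 * (B ∩ B').card ≤ B'.card →
  Pr (Both n b0 δ B B') ≤ tail (B.card.choose 2) (thr n δ B.card) *
    (((B'.card.choose 2 : ℕ) + 1) * tail (B'.card.choose 2) (thr n δ B'.card) *
      Real.exp (28 / 100 * Real.log n * (B ∩ B').card))

def RowOVL : Prop := RowPB → RowAN1 → ∀ (V : Type) [Fintype V] [DecidableEq V]
  (n b0 D0 g : ℕ) (δ : ℝ) (B B' : Finset V), Par n b0 D0 g δ → b0 ≤ B'.card → B'.card ≤ B.card →
  B.card ≤ 2 * b0 → XF n b0 g δ B.card → XF n b0 g δ B'.card →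
  ((B.card : ℝ) - B'.card) * xx n δ B.card ≤ 6 * B.card * (xx n δ B'.card - xx n δ B.card) →
  B' ≠ B → B'.card < 10 * (B ∩ B').card →
  Pr (Both n b0 δ B B') ≤ tail (B.card.choose 2) (thr n δ B.card) *
    Real.exp (-(Real.log n + 4 * Real.log (2 * b0)) * ((B'.card : ℝ) - (B ∩ B').card) -
      4 * Real.log (2 * b0) * ((B.card : ℝ) - B'.card))

/-- conclusion of the overlap rows -/
def OutOV (V : Type) [Fintype V] [DecidableEq V] (n b0 D0 : ℕ) (δ : ℝ) : Prop :=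
  ∀ (B : Finset V) (b' : ℕ), b0 ≤ b' → B.card ≤ 2 * b0 → (b' = B.card ∨ b' + D0 ≤ B.card) →
  ∑ B' ∈ (univ.powersetCard b').filter (fun B' => B' ≠ B ∧ ¬ Disjoint B B'),
    Pr (Both n b0 δ B B') ≤ tail (B.card.choose 2) (thr n δ B.card) / (b0 : ℝ) ^ 2

def RowOVT : Prop := RowOVS → RowOVL → RowPB → RowAN1 → RowAN3 →
  ∀ (V : Type) [Fintype V] [DecidableEq V] (n b0 D0 g : ℕ) (δ : ℝ), Fintype.card V = n →
  Par n b0 D0 g δ → (∀ b, b0 ≤ b → b ≤ 2 * b0 → XF n b0 g δ b) →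
  (∀ b b', b0 ≤ b' → b' + D0 ≤ b → b ≤ 2 * b0 →
    ((b : ℝ) - b') * xx n δ b ≤ 6 * b * (xx n δ b' - xx n δ b)) →
  OutOV V n b0 D0 δ

/-- sets above their thresholds are unique per size and pairwise disjoint -/
def Sep {V I : Type} [DecidableEq V] (n : ℕ) (δ : ℝ) (sz : I → ℕ) (ω : Sym2 V → Bool) : Prop :=
  ∀ (i i' : I) (W W' : Finset V), W.card = sz i → W'.card = sz i' →
    thr n δ (sz i) ≤ ein ω W → thr n δ (sz i') ≤ ein ω W' →
    (i = i' → W = W') ∧ (i ≠ i' → Disjoint W W')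

def RowBAD : Prop := RowPB → ∀ (V I : Type) [Fintype V] [DecidableEq V] [Fintype I]
  (n b0 D0 g : ℕ) (δ : ℝ) (sz : I → ℕ), Fintype.card V = n → Par n b0 D0 g δ →
  (∀ b, b0 ≤ b → b ≤ 2 * b0 → XF n b0 g δ b) → OutFL V n b0 δ → OutOV V n b0 D0 δ →
  Spaced b0 D0 sz →
  Pr (fun ω : Sym2 V → Bool => ¬ Sep n δ sz ω) ≤
    2 * (Fintype.card I : ℝ) ^ 2 * δ / (b0 : ℝ) ^ 2 + Fintype.card I * δ ^ 2

open Classical in
/-- second moment bound -/
def RowCH : Prop := ∀ (Ω A : Type) [Fintype Ω] [Nonempty Ω] (S : Finset A) (Ev : A → Ω → Prop)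
  (dep : A → A → Prop) (μ Δ : ℝ), 0 < μ → 0 ≤ Δ → μ ≤ ∑ a ∈ S, Pr (Ev a) →
  (∀ a ∈ S, ∀ a' ∈ S, a ≠ a' → ¬ dep a a' →
    Pr (fun ω => Ev a ω ∧ Ev a' ω) ≤ Pr (Ev a) * Pr (Ev a')) →
  ∑ a ∈ S, ∑ a' ∈ S.filter (fun a' => a ≠ a' ∧ dep a a'), Pr (fun ω => Ev a ω ∧ Ev a' ω) ≤ Δ →
  Pr (fun ω => ((S.filter (fun a => Ev a ω)).card : ℝ) < μ / 2) ≤ 4 / μ + 4 * Δ / μ ^ 2

def RowMANY : Prop := RowCH → RowPB → ∀ (V R : Type) [Fintype V] [DecidableEq V] [Fintype R]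
  (n b0 D0 g : ℕ) (δ : ℝ) (sz : R → ℕ), Fintype.card V = n → Par n b0 D0 g δ →
  (∀ b, b0 ≤ b → b ≤ 2 * b0 → XF n b0 g δ b) → OutFL V n b0 δ → OutOV V n b0 D0 δ →
  Spaced b0 D0 sz → (Fintype.card R : ℝ) ^ 2 * δ ≤ (b0 : ℝ) ^ 2 →
  1 ≤ Fintype.card R * δ / 2 ^ (g + 2) →
  Pr (fun ω : Sym2 V → Bool =>
    (((univ : Finset (R × Finset V)).filter
      (fun a => a.2.card = sz a.1 ∧ thr n δ (sz a.1) + g ≤ ein ω a.2)).card : ℝ) <
        Fintype.card R * δ / 2 ^ (g + 2) / 2) ≤ 12 / (Fintype.card R * δ / 2 ^ (g + 2))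

open Classical in
/-- few product vectors over affine cubes lie in a small subspace -/
def RowODL : Prop := ∀ (R : Type) [Fintype R] [DecidableEq R] (p m : ℕ) (act : Fin p → R → Prop)
  (c : Fin p → R → ℚ) (S : Submodule ℚ ((Fin p → R) → ℚ)),
  (∀ k, 2 * m ≤ (univ.filter (fun r => act k r)).card) → Module.finrank ℚ S < m ^ p →
  Pr (fun β : Fin p → R → Bool => (fun r : Fin p → R => ∏ k,
    (if act k (r k) then c k (r k) + (if β k (r k) = true then 1 else 0) else 0)) ∈ S) ≤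
    p / 2 ^ m

open Classical in
/-- resampling coordinates chosen by the other coordinates -/
def RowSW : Prop := ∀ (E I : Type) [Fintype E] [DecidableEq E] [Fintype I] [DecidableEq I]
  (F : Finset E) (pos : (E → Bool) → I → Option E) (Bad : (E → Bool) → Prop) (η : ℝ),
  (∀ ω ω' : E → Bool, (∀ e, e ∉ F → ω e = ω' e) → pos ω = pos ω') →
  (∀ ω i e, pos ω i = some e → e ∈ F) →
  (∀ ω i i' e, pos ω i = some e → pos ω i' = some e → i = i') →
  (∀ ω : E → Bool, Pr (fun β : I → Bool => Bad (fun e =>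
    if h : ∃ i, pos ω i = some e then β h.choose else ω e)) ≤ η) →
  Pr Bad ≤ η

def RowKILL : Prop := RowODL → RowSW → ∀ (V R : Type) [Fintype V] [DecidableEq V] [Fintype R]
  [DecidableEq R] (p m j : ℕ) (u w : V) (Y : (Sym2 V → Bool) → Fin p → R → Finset V),
  (∀ ω ω' : Sym2 V → Bool, (∀ e, u ∉ e → ω e = ω' e) → Y ω = Y ω') → (∀ ω k r, u ∉ Y ω k r) →
  (Fintype.card V + 1) ^ 2 * (j + 1) ^ p < m ^ p →
  Pr (fun ω : Sym2 V → Bool =>
    (∀ k r k' r', (k, r) ≠ (k', r') → Disjoint (Y ω k r) (Y ω k' r')) ∧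
    (∀ k, 2 * m ≤ (univ.filter (fun r => (Y ω k r).Nonempty ∧ w ∉ Y ω k r)).card) ∧
    ¬ Kil ω j u w (Y ω)) ≤ p / 2 ^ m

/-- conclusion of the probabilistic rows -/
def RowGOOD : Prop := RowKILL → RowODL → RowSW →
  ∀ (V R : Type) [Fintype V] [DecidableEq V] [Fintype R] [DecidableEq R]
  (n b0 D0 g p m : ℕ) (δ μ η1 η2 : ℝ) (sz : Sl p × R → ℕ), Fintype.card V = n → 1 ≤ g → 1 ≤ b0 →
  Spaced b0 D0 sz → 4 * m + 4 ≤ μ → (n + 1) ^ 2 * (3 * (p + 1) + 1) ^ p < m ^ p →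
  Pr (fun ω : Sym2 V → Bool => ¬ Sep n δ sz ω) ≤ η1 →
  (∀ k : Sl p, Pr (fun ω : Sym2 V → Bool =>
    (((univ : Finset (R × Finset V)).filter
      (fun a => a.2.card = sz (k, a.1) ∧ thr n δ (sz (k, a.1)) + g ≤ ein ω a.2)).card : ℝ) <
        μ / 2) ≤ η2) →
  Pr (fun ω : Sym2 V → Bool => ¬ Good p sz g ω) ≤
    η1 + 3 * (p + 1) * η2 + n ^ 2 * (3 * (p + 1)) * (p / 2 ^ m)

/-- choice of the parameters: `m ^ A ≤ n < (m + 1) ^ A`, `p = 2 A + 1`, `b0 = m ^ 7`, `D0 = m`,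
`δ = m ^ (-3)`, `m ^ 5` sizes per slot -/
def RowNUM : Prop := ∀ (A p g : ℕ), 10 ^ 10 ≤ A → p = 2 * A + 1 → ∀ ε : ℝ, 0 < ε →
  ∀ᶠ n : ℕ in Filter.atTop,
  ∃ m : ℕ, Par n (m ^ 7) m g (1 / (m : ℝ) ^ 3) ∧ 3 * (p + 1) ≤ m ∧
    4 * (m : ℝ) + 4 ≤ (m : ℝ) ^ 2 / 2 ^ (g + 2) ∧
    (n + 1) ^ 2 * (3 * (p + 1) + 1) ^ p < m ^ p ∧
    (2 * (3 * (p + 1) * (m : ℝ) ^ 5) ^ 2 * (1 / (m : ℝ) ^ 3) / ((m : ℝ) ^ 7) ^ 2 +
      3 * (p + 1) * (m : ℝ) ^ 5 * (1 / (m : ℝ) ^ 3) ^ 2) +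
      3 * (p + 1) * (12 / ((m : ℝ) ^ 2 / 2 ^ (g + 2))) +
      (n : ℝ) ^ 2 * (3 * (p + 1)) * (p / 2 ^ m) ≤ ε

/-- from maps on pairs to simple graphs -/
def RowTR : Prop := ∀ (n : ℕ) (P : SimpleGraph (Fin n) → Prop) (Q : (Sym2 (Fin n) → Bool) → Prop),
  (∀ (ω : Sym2 (Fin n) → Bool) (G : SimpleGraph (Fin n)),
    (∀ u w, G.Adj u w ↔ u ≠ w ∧ ω s(u, w) = true) → Q ω → P G) →
  1 - Pr (fun ω => ¬ Q ω) ≤
    (Nat.card {G : SimpleGraph (Fin n) // P G} : ℝ) / (Nat.card (SimpleGraph (Fin n)) : ℝ)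

end Pool.Agent.MP_f8284b_co.U85
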