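import Mathlib
import Pool.Agent.MP_f8284b_co.U85.Spec

set_option autoImplicit false

/-! Small facts shared by the rows. -/

namespace Pool.Agent.MP_f8284b_co.U85

open Finset

section Edges
variable {V : Type} [DecidableEq V]

lemma card_prs (W : Finset V) : (prs W).card = W.card.choose 2 := Sym2.card_image_offDiag W

lemma mk_mem_prs {W : Finset V} {u w : V} : s(u, w) ∈ prs W ↔ u ∈ W ∧ w ∈ W ∧ u ≠ w := by
  unfold prs
  simp only [mem_image, mem_offDiag, Prod.exists, Function.uncurry, Sym2.eq_iff]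
  constructor
  · rintro ⟨a, b, ⟨ha, hb, hab⟩, h | h⟩
    · obtain ⟨rfl, rfl⟩ := h; exact ⟨ha, hb, hab⟩
    · obtain ⟨rfl, rfl⟩ := h; exact ⟨hb, ha, fun h => hab h.symm⟩
  · rintro ⟨ha, hb, hab⟩; exact ⟨u, w, ⟨ha, hb, hab⟩, Or.inl ⟨rfl, rfl⟩⟩

lemma mem_prs {W : Finset V} {e : Sym2 V} : e ∈ prs W ↔ ¬ e.IsDiag ∧ ∀ v ∈ e, v ∈ W := by
  induction e using Sym2.ind with
  | _ u w =>
    rw [mk_mem_prs, Sym2.mk_isDiag_iff]
    simp only [Sym2.mem_iff, forall_eq_or_imp, forall_eq]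
    tauto

lemma prs_mono {W W' : Finset V} (h : W ⊆ W') : prs W ⊆ prs W' := fun _ he =>
  mem_prs.2 ⟨(mem_prs.1 he).1, fun v hv => h ((mem_prs.1 he).2 v hv)⟩

lemma prs_inter (W W' : Finset V) : prs (W ∩ W') = prs W ∩ prs W' := by
  ext e; simp only [mem_inter, mem_prs]
  constructor
  · rintro ⟨h, h'⟩; exact ⟨⟨h, fun v hv => (h' v hv).1⟩, ⟨h, fun v hv => (h' v hv).2⟩⟩
  · rintro ⟨⟨h, h1⟩, ⟨_, h2⟩⟩; exact ⟨h, fun v hv => ⟨h1 v hv, h2 v hv⟩⟩

@[simp] lemma prs_empty : prs (∅ : Finset V) = ∅ := by simp [prs]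

@[simp] lemma prs_singleton (u : V) : prs ({u} : Finset V) = ∅ := by
  rw [← card_eq_zero, card_prs]; simp

lemma prs_pair {u w : V} (h : u ≠ w) : prs ({u, w} : Finset V) = {s(u, w)} := by
  symm
  apply eq_of_subset_of_card_le
  · intro e he
    rw [mem_singleton] at he
    subst he
    exact mk_mem_prs.2 ⟨by simp, by simp, h⟩
  · rw [card_prs, card_pair h]; simp

lemma disjoint_prs {W W' : Finset V} (h : Disjoint W W') : Disjoint (prs W) (prs W') := by
  rw [disjoint_iff_inter_eq_empty, ← prs_inter, disjoint_iff_inter_eq_empty.1 h, prs_empty]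

lemma cnt_le {E : Type} (ω : E → Bool) (F : Finset E) : cnt ω F ≤ F.card := card_filter_le _ _

lemma cnt_mono {E : Type} (ω : E → Bool) {F F' : Finset E} (h : F ⊆ F') : cnt ω F ≤ cnt ω F' :=
  card_le_card (filter_subset_filter _ h)

lemma cnt_congr {E : Type} {ω ω' : E → Bool} {F : Finset E} (h : ∀ e ∈ F, ω e = ω' e) :
    cnt ω F = cnt ω' F := by
  unfold cnt; rw [filter_congr (fun e he => by rw [h e he])]

lemma cnt_union {E : Type} [DecidableEq E] (ω : E → Bool) {F F' : Finset E} (h : Disjoint F F') :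
    cnt ω (F ∪ F') = cnt ω F + cnt ω F' := by
  unfold cnt; rw [filter_union, card_union_of_disjoint (disjoint_filter_filter h)]

lemma cnt_sdiff_add {E : Type} [DecidableEq E] (ω : E → Bool) {F F' : Finset E} (h : F ⊆ F') :
    cnt ω (F' \ F) + cnt ω F = cnt ω F' := by
  rw [← cnt_union ω sdiff_disjoint, sdiff_union_of_subset h]

lemma sum_ite_const {E : Type} (ω : E → Bool) (F : Finset E) (θ : ℝ) :
    (∑ e ∈ F, if ω e = true then θ else 0) = θ * cnt ω F := by
  rw [← sum_filter, sum_const, nsmul_eq_mul, mul_comm]; rfl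

lemma ein_le (ω : Sym2 V → Bool) (W : Finset V) : ein ω W ≤ W.card.choose 2 := by
  rw [← card_prs]; exact cnt_le _ _

lemma ein_mono (ω : Sym2 V → Bool) {W W' : Finset V} (h : W ⊆ W') : ein ω W ≤ ein ω W' :=
  cnt_mono ω (prs_mono h)

lemma ein_congr {ω ω' : Sym2 V → Bool} {W : Finset V} (h : ∀ e ∈ prs W, ω e = ω' e) :
    ein ω W = ein ω' W := cnt_congr h

@[simp] lemma ein_empty (ω : Sym2 V → Bool) : ein ω (∅ : Finset V) = 0 := by simp [ein, cnt]

@[simp] lemma ein_singleton (ω : Sym2 V → Bool) (u : V) : ein ω {u} = 0 := by simp [ein, cnt]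

lemma ein_pair (ω : Sym2 V → Bool) {u w : V} (h : u ≠ w) :
    ein ω {u, w} = if ω s(u, w) = true then 1 else 0 := by
  unfold ein cnt; rw [prs_pair h, filter_singleton]; split_ifs <;> simp

lemma ein_inter_add (ω : Sym2 V → Bool) (B B' : Finset V) :
    cnt ω (prs B' \ prs (B ∩ B')) + ein ω (B ∩ B') = ein ω B' :=
  cnt_sdiff_add ω (prs_mono inter_subset_right)

lemma disjoint_new (B B' : Finset V) : Disjoint (prs B) (prs B' \ prs (B ∩ B')) := by
  rw [disjoint_left]; intro e he he'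
  rw [mem_sdiff, prs_inter, mem_inter] at he'
  exact he'.2 ⟨he, he'.1⟩

omit [DecidableEq V] in
lemma lab_eq_sum (ω : Sym2 V → Bool) (X Y : Finset V) : lab ω X Y = ∑ v ∈ X, lab ω {v} Y := by
  simp [lab]

omit [DecidableEq V] in
@[simp] lemma lab_empty (ω : Sym2 V → Bool) (X : Finset V) : lab ω X ∅ = 0 := by simp [lab]

omit [DecidableEq V] in
lemma lab_congr {ω ω' : Sym2 V → Bool} {X Y : Finset V}
    (h : ∀ v ∈ X, ∀ x ∈ Y, ω s(v, x) = ω' s(v, x)) : lab ω X Y = lab ω' X Y := by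
  unfold lab
  exact sum_congr rfl fun v hv => by rw [filter_congr (fun x hx => by rw [h v hv x hx])]

lemma mem_rts {ω : Sym2 V → Bool} {U ρ : Finset V} {r : ℕ} :
    ρ ∈ rts ω U r ↔ ρ ⊆ U ∧ ρ.card = r ∧ ein ω ρ = r - 1 := by
  simp [rts, and_assoc]

lemma rts_zero (ω : Sym2 V → Bool) (U : Finset V) : rts ω U 0 = {∅} := by
  ext ρ; rw [mem_rts, card_eq_zero, mem_singleton]
  constructor
  · exact fun h => h.2.1
  · rintro rfl; simp

lemma sum_rts_one {M : Type} [AddCommMonoid M] (ω : Sym2 V → Bool) (U : Finset V)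
    (f : Finset V → M) : ∑ ρ ∈ rts ω U 1, f ρ = ∑ u ∈ U, f {u} := by
  have : rts ω U 1 = U.map ⟨fun u => ({u} : Finset V), singleton_injective⟩ := by
    ext ρ; rw [mem_rts, card_eq_one, mem_map]
    constructor
    · rintro ⟨h, ⟨a, rfl⟩, _⟩; exact ⟨a, singleton_subset_iff.1 h, rfl⟩
    · rintro ⟨a, ha, rfl⟩; exact ⟨singleton_subset_iff.2 ha, ⟨a, rfl⟩, ein_singleton ω a⟩
  rw [this, sum_map]; rfl

lemma flat_congr {ω ω' : Sym2 V → Bool} {T : ℕ} {ρ : ℝ} {B : Finset V}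
    (h : ∀ e ∈ prs B, ω e = ω' e) (hf : Flat ω T ρ B) : Flat ω' T ρ B := fun W hW hne => by
  rw [← ein_congr (fun e he => h e (prs_mono hW he))]; exact hf W hW hne

lemma card_compl_biUnion {I : Type} [Fintype V] [DecidableEq I] {B B' : I → Finset V}
    (h : Shape B B') (J : Finset I) :
    (univ \ J.biUnion B').card = (univ \ J.biUnion B).card := by
  rw [card_sdiff_of_subset (subset_univ _), card_sdiff_of_subset (subset_univ _),
    card_biUnion (fun i _ i' _ hii => h.1 i i' hii),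
    card_biUnion (fun i _ i' _ hii => h.2.1 i i' hii), sum_congr rfl (fun i _ => h.2.2 i)]

lemma Shape.nonempty_iff {I : Type} {B B' : I → Finset V} (h : Shape B B') (i : I) :
    (B' i).Nonempty ↔ (B i).Nonempty := by
  rw [← card_pos, ← card_pos, h.2.2 i]

end Edges

section Series

lemma coeff_pow_one_add (a s : ℕ) :
    PowerSeries.coeff s ((1 + PowerSeries.X : PowerSeries ℚ) ^ a) = (a.choose s : ℚ) := by
  have h : ((1 + PowerSeries.X : PowerSeries ℚ) ^ a) =
      (((1 + Polynomial.X : Polynomial ℚ) ^ a : Polynomial ℚ) : PowerSeries ℚ) := by simp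
  rw [h, Polynomial.coeff_coe, Polynomial.coeff_one_add_X_pow]

variable {V : Type} [DecidableEq V]

lemma coeff_zero_gen1 (ω : Sym2 V → Bool) (ρ Y : Finset V) :
    PowerSeries.coeff 0 (gen1 ω ρ Y) = if Disjoint ρ Y then 0 else -1 := by
  unfold gen1; split_ifs
  · rw [map_sub, coeff_pow_one_add]; simp
  · simp

lemma coeff_one_gen1 (ω : Sym2 V → Bool) (ρ Y : Finset V) :
    PowerSeries.coeff 1 (gen1 ω ρ Y) = if Disjoint ρ Y then (lab ω ρ Y : ℚ) else 0 := by
  unfold gen1; split_ifs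
  · rw [map_sub, coeff_pow_one_add]; simp [PowerSeries.coeff_one]
  · simp [PowerSeries.coeff_one]

lemma gen1_of_not_disjoint (ω : Sym2 V → Bool) {ρ Y : Finset V} (h : ¬ Disjoint ρ Y) :
    gen1 ω ρ Y = -1 := by simp [gen1, h]

@[simp] lemma gen_none {K R : Type} (ω : Sym2 V → Bool) (B : K × R → Finset V) (ρ : Finset V)
    (k : K) : gen ω B ρ k none = PowerSeries.X := rfl

lemma gen_some {K R : Type} (ω : Sym2 V → Bool) (B : K × R → Finset V) (ρ : Finset V) (k : K)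
    (r : R) : gen ω B ρ k (some r) =
      if (B (k, r)).Nonempty then gen1 ω ρ (B (k, r)) else 0 := rfl

lemma prod_Sl {M : Type} [CommMonoid M] {p : ℕ} (f : Sl p → M) :
    ∏ k, f k = (∏ k, f (0, k)) * (∏ k, f (1, k)) * ∏ k, f (2, k) := by
  rw [Fintype.prod_prod_type, Fin.prod_univ_three]

lemma card_Sl (p : ℕ) : Fintype.card (Sl p) = 3 * (p + 1) := by simp [Sl]

end Series

section Prob
variable {Ω : Type} [Fintype Ω]

lemma Pr_nonneg (A : Ω → Prop) : 0 ≤ Pr A := by unfold Pr; positivity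

lemma Pr_mono {A C : Ω → Prop} (h : ∀ ω, A ω → C ω) : Pr A ≤ Pr C := by
  classical
  unfold Pr
  refine div_le_div_of_nonneg_right ?_ (by positivity)
  exact_mod_cast card_le_card fun ω hω => by
    simp only [mem_filter, mem_univ, true_and] at hω ⊢; exact h ω hω

lemma Pr_congr {A C : Ω → Prop} (h : ∀ ω, A ω ↔ C ω) : Pr A = Pr C :=
  le_antisymm (Pr_mono fun ω => (h ω).1) (Pr_mono fun ω => (h ω).2)

lemma Pr_eq_zero {A : Ω → Prop} (h : ∀ ω, ¬ A ω) : Pr A = 0 := by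
  classical
  unfold Pr
  rw [filter_eq_empty_iff.2 (fun ω _ => h ω)]; simp

lemma Pr_eq_sum (A : Ω → Prop) [DecidablePred A] :
    Pr A = (∑ ω, if A ω then (1 : ℝ) else 0) / Fintype.card Ω := by
  unfold Pr
  rw [sum_boole, filter_congr_decidable]

lemma Pr_or_le (A C : Ω → Prop) : Pr (fun ω => A ω ∨ C ω) ≤ Pr A + Pr C := by
  classical
  rw [Pr_eq_sum, Pr_eq_sum, Pr_eq_sum, ← add_div, ← sum_add_distrib]
  refine div_le_div_of_nonneg_right (sum_le_sum fun ω _ => ?_) (by positivity)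
  by_cases h1 : A ω <;> by_cases h2 : C ω <;> simp [h1, h2]

lemma Pr_exists_le {I : Type} (S : Finset I) (A : I → Ω → Prop) :
    Pr (fun ω => ∃ i ∈ S, A i ω) ≤ ∑ i ∈ S, Pr (A i) := by
  classical
  induction S using Finset.induction_on with
  | empty => rw [Pr_eq_zero (by simp)]; simp
  | insert a S ha ih =>
    rw [sum_insert ha]
    refine le_trans (Pr_mono (C := fun ω => A a ω ∨ ∃ i ∈ S, A i ω) ?_) ?_
    · rintro ω ⟨i, hi, h⟩
      rcases mem_insert.1 hi with rfl | hi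
      · exact Or.inl h
      · exact Or.inr ⟨i, hi, h⟩
    · exact le_trans (Pr_or_le _ _) (add_le_add le_rfl ih)

lemma Pr_add_not [Nonempty Ω] (A : Ω → Prop) : Pr A + Pr (fun ω => ¬ A ω) = 1 := by
  classical
  have hc : (0 : ℝ) < Fintype.card Ω := by exact_mod_cast Fintype.card_pos
  rw [Pr_eq_sum, Pr_eq_sum, ← add_div, ← sum_add_distrib, div_eq_one_iff_eq hc.ne']
  rw [sum_congr rfl (g := fun _ => (1 : ℝ)) (fun ω _ => by by_cases h : A ω <;> simp [h])]
  simp

lemma Pr_le_add {A C : Ω → Prop} : Pr A ≤ Pr (fun ω => A ω ∧ C ω) + Pr (fun ω => A ω ∧ ¬ C ω) :=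
  le_trans (Pr_mono fun ω h => by by_cases hc : C ω <;> simp [h, hc]) (Pr_or_le _ _)

lemma Pr_comp_equiv {Ω' : Type} [Fintype Ω'] (e : Ω ≃ Ω') (A : Ω' → Prop) :
    Pr (fun ω => A (e ω)) = Pr A := by
  classical
  rw [Pr_eq_sum, Pr_eq_sum, Fintype.card_congr e, ← e.sum_comp]

lemma tail_nonneg (N T : ℕ) : 0 ≤ tail N T := by unfold tail; positivity

lemma rho_nonneg (b0 : ℕ) : 0 ≤ rho b0 := Real.sqrt_nonneg _

lemma Par.facts {n b0 D0 g : ℕ} {δ : ℝ} (h : Par n b0 D0 g δ) :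
    7 ≤ Real.log (2 * b0) ∧ 0 < δ ∧ 2 * b0 ≤ n ∧ 1 ≤ D0 ∧
      rho b0 ^ 2 = 6 * b0 * Real.log (2 * b0) ∧ Real.exp (Real.log (2 * b0)) = 2 * b0 ∧
      Real.exp (Real.log n) = n := by
  have hb : (1000 : ℝ) ≤ b0 := by exact_mod_cast le_trans (Nat.le_add_left _ _) h.gb
  have h7 : 7 ≤ Real.log (2 * b0) := by
    rw [Real.le_log_iff_exp_le (by linarith)]
    have h1 : Real.exp 7 = Real.exp 1 ^ 7 := by rw [← Real.exp_nat_mul]; norm_num
    have h2 : Real.exp 1 ^ 7 ≤ 2.72 ^ 7 :=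
      pow_le_pow_left₀ (Real.exp_pos 1).le (by have := Real.exp_one_lt_d9; linarith) 7
    have h3 : (2.72 : ℝ) ^ 7 ≤ 2000 := by norm_num
    linarith
  have hL : Real.log (2 * b0) ≤ Real.log n := by have := h.big; nlinarith
  have hn : (0 : ℝ) < n := by
    rcases Nat.eq_zero_or_pos n with h0 | h0
    · subst h0; simp at hL; linarith
    · exact_mod_cast h0
  refine ⟨h7, ?_, ?_, ?_, ?_, Real.exp_log (by linarith), Real.exp_log hn⟩
  · by_contra hc
    have := h.dlo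
    nlinarith [not_lt.1 hc]
  · have := (Real.log_le_log_iff (by linarith) hn).1 hL
    exact_mod_cast this
  · have : (1 : ℝ) ≤ D0 := by have := h.gap; nlinarith
    exact_mod_cast this
  · unfold rho; rw [Real.sq_sqrt (by positivity)]

end Prob

end Pool.Agent.MP_f8284b_co.U85
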