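import Mathlib
import Pool.Agent.MP_f8284b_co.U85.Basic

set_option autoImplicit false

namespace Pool.Agent.MP_f8284b_co.U85

namespace PB

open Finset

variable {E : Type} [Fintype E] [DecidableEq E]

theorem card_pos' : (0 : ℝ) < Fintype.card (E → Bool) := by exact_mod_cast Fintype.card_pos

theorem indep (A C : (E → Bool) → Prop) (F F' : Finset E) (hA : Dep A F) (hC : Dep C F')
    (hd : Disjoint F F') : Pr (fun ω => A ω ∧ C ω) = Pr A * Pr C := by
  classical
  let mix : (E → Bool) → (E → Bool) → E → Bool := fun ω ω' e => if e ∈ F then ω e else ω' e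
  let σ : (E → Bool) × (E → Bool) → (E → Bool) × (E → Bool) := fun q => (mix q.1 q.2, mix q.2 q.1)
  have hσ : Function.Involutive σ := by
    rintro ⟨ω, ω'⟩
    refine Prod.ext (funext fun e => ?_) (funext fun e => ?_) <;>
      by_cases he : e ∈ F <;> simp [σ, mix, he]
  have h1 : ∀ ω ω', A (mix ω ω') ↔ A ω := fun ω ω' =>
    ⟨hA _ _ fun e he => by simp [mix, he], hA _ _ fun e he => by simp [mix, he]⟩
  have h2 : ∀ ω ω', C (mix ω ω') ↔ C ω' := fun ω ω' =>
    ⟨hC _ _ fun e he => by simp [mix, disjoint_right.1 hd he],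
      hC _ _ fun e he => by simp [mix, disjoint_right.1 hd he]⟩
  have h3 := Equiv.sum_comp hσ.toPerm
    (fun q : (E → Bool) × (E → Bool) => if A q.1 ∧ C q.1 then (1 : ℝ) else 0)
  have h4 : (∑ ω, if A ω then (1 : ℝ) else 0) * (∑ ω, if C ω then (1 : ℝ) else 0) =
      (∑ ω, if A ω ∧ C ω then (1 : ℝ) else 0) * Fintype.card (E → Bool) := by
    rw [sum_mul_sum, ← Fintype.sum_prod_type', sum_mul]
    calc _ = ∑ q : (E → Bool) × (E → Bool),
          if A (hσ.toPerm σ q).1 ∧ C (hσ.toPerm σ q).1 then (1 : ℝ) else 0 := by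
          refine sum_congr rfl fun q _ => ?_
          simp only [Function.Involutive.coe_toPerm, σ, h1, h2]
          by_cases a : A q.1 <;> by_cases c : C q.2 <;> simp [a, c]
      _ = _ := by
          rw [h3, Fintype.sum_prod_type]
          refine sum_congr rfl fun ω _ => ?_
          by_cases h : A ω ∧ C ω <;> simp [h]
  have hp := card_pos' (E := E)
  rw [Pr_eq_sum, Pr_eq_sum, Pr_eq_sum, div_mul_div_comm, h4]
  field_simp

theorem avg_prod (F : Finset E) (g : E → Bool → ℝ) :
    (∑ ω : E → Bool, ∏ e ∈ F, g e (ω e)) / Fintype.card (E → Bool) =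
      ∏ e ∈ F, (g e true + g e false) / 2 := by
  have h1 : ∀ ω : E → Bool, ∏ e ∈ F, g e (ω e) = ∏ e, if e ∈ F then g e (ω e) else 1 := fun ω => by
    rw [prod_ite_mem, univ_inter]
  have h2 := prod_univ_sum (fun _ : E => (univ : Finset Bool))
    (fun e b => if e ∈ F then g e b else 1)
  rw [Fintype.piFinset_univ] at h2
  have h3 : (Fintype.card (E → Bool) : ℝ) = ∏ _e : E, (2 : ℝ) := by simp
  simp only [h1]
  rw [← h2, h3, ← prod_div_distrib, ← univ_inter F, ← prod_ite_mem]
  refine prod_congr rfl fun e _ => ?_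
  rw [univ_inter]
  by_cases he : e ∈ F <;> simp [he]

theorem tilt (C : (E → Bool) → Prop) (F : Finset E) (θ : E → ℝ) (c : ℝ)
    (h : ∀ ω, C ω → c ≤ ∑ e ∈ F, if ω e = true then θ e else 0) :
    Pr C ≤ Real.exp (∑ e ∈ F, psi (θ e) - c) := by
  classical
  have h1 := avg_prod F fun e b => Real.exp (if b = true then θ e else 0)
  have h2 : ∏ e ∈ F, (Real.exp (if true = true then θ e else 0) +
      Real.exp (if false = true then θ e else 0)) / 2 = Real.exp (∑ e ∈ F, psi (θ e)) := by
    rw [Real.exp_sum]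
    refine prod_congr rfl fun e _ => ?_
    unfold psi
    rw [Real.exp_log (by positivity)]
    simp [add_comm]
  rw [Pr_eq_sum, Real.exp_sub, ← h2, ← h1, div_right_comm, sum_div _ _ (Real.exp c)]
  refine div_le_div_of_nonneg_right (sum_le_sum fun ω _ => ?_) (card_pos' (E := E)).le
  rw [← Real.exp_sum, ← Real.exp_sub]
  split_ifs with hc
  · exact Real.one_le_exp (sub_nonneg.2 (h ω hc))
  · exact (Real.exp_pos _).le

theorem tail_eq (F : Finset E) (T : ℕ) : Pr (fun ω : E → Bool => T ≤ cnt ω F) = tail F.card T := by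
  classical
  have h1 : ∀ ω : E → Bool, (if T ≤ cnt ω F then (1 : ℝ) else 0) =
      ∑ S ∈ F.powerset.filter (fun S => T ≤ S.card),
        ∏ e ∈ F, if (ω e = true ↔ e ∈ S) then (1 : ℝ) else 0 := by
    intro ω
    have h0 : ∀ S ∈ F.powerset.filter (fun S => T ≤ S.card),
        (∏ e ∈ F, if (ω e = true ↔ e ∈ S) then (1 : ℝ) else 0) =
          if F.filter (fun e => ω e = true) = S then 1 else 0 := by
      intro S hS
      have hS' := mem_powerset.1 (mem_filter.1 hS).1
      rw [prod_boole]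
      have key : (∀ e ∈ F, (ω e = true ↔ e ∈ S)) ↔ F.filter (fun e => ω e = true) = S := by
        refine ⟨fun h => ?_, fun h e he => ?_⟩
        · ext e
          rw [mem_filter]
          exact ⟨fun q => (h e q.1).1 q.2, fun q => ⟨hS' q, (h e (hS' q)).2 q⟩⟩
        · rw [← h, mem_filter]
          exact ⟨fun q => ⟨he, q⟩, fun q => q.2⟩
      simp only [key]
    rw [sum_congr rfl h0, sum_ite_eq]
    refine if_congr ?_ rfl rfl
    simp only [mem_filter, mem_powerset, filter_subset, true_and, cnt]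
  have h2 : ∀ S : Finset E, (∑ ω : E → Bool,
      ∏ e ∈ F, if (ω e = true ↔ e ∈ S) then (1 : ℝ) else 0) / Fintype.card (E → Bool) =
      1 / 2 ^ F.card := by
    intro S
    rw [avg_prod F fun e b => if (b = true ↔ e ∈ S) then (1 : ℝ) else 0, ← one_div_pow,
      ← prod_const]
    refine prod_congr rfl fun e _ => ?_
    by_cases he : e ∈ S <;> simp [he]
  have h3 : (F.powerset.filter (fun S => T ≤ S.card)).card = ∑ k ∈ Icc T F.card, F.card.choose k := by
    rw [card_eq_sum_card_fiberwise (f := Finset.card) (t := Icc T F.card)]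
    · refine sum_congr rfl fun k hk => ?_
      rw [← card_powersetCard]
      congr 1
      ext S
      simp only [mem_filter, mem_powerset, mem_powersetCard]
      exact ⟨fun q => ⟨q.1.1, q.2⟩, fun q => ⟨⟨q.1, q.2 ▸ (mem_Icc.1 hk).1⟩, q.2⟩⟩
    · intro S hS
      have := mem_filter.1 (mem_coe.1 hS)
      exact mem_coe.2 (mem_Icc.2 ⟨this.2, card_le_card (mem_powerset.1 this.1)⟩)
  rw [Pr_eq_sum]
  simp only [h1]
  rw [sum_comm, sum_div]
  simp only [h2]
  rw [sum_const, h3, nsmul_eq_mul]
  unfold tail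
  push_cast
  ring

end PB

theorem rowPB : RowPB := fun _ _ _ => ⟨PB.indep, PB.tilt, PB.tail_eq⟩

end Pool.Agent.MP_f8284b_co.U85
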