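import Pool.Agent.MP_f8284b_co.U85.Basic

set_option autoImplicit false

/-! Transfer from uniform labellings of unordered pairs to uniform graphs. -/

namespace Pool.Agent.MP_f8284b_co.U85

open Finset

namespace TR

/-- The graph read off a labelling of unordered pairs. -/
def gr {n : ℕ} (ω : Sym2 (Fin n) → Bool) : SimpleGraph (Fin n) where
  Adj u w := u ≠ w ∧ ω s(u, w) = true
  symm := ⟨fun u w h => ⟨fun e => h.1 e.symm, by rw [Sym2.eq_swap]; exact h.2⟩⟩
  loopless := ⟨fun u h => h.1 rfl⟩

open Classical in
/-- The labelling built from a graph and labels on the diagonal. -/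
noncomputable def lb {n : ℕ} (G : SimpleGraph (Fin n)) (d : Fin n → Bool) :
    Sym2 (Fin n) → Bool :=
  Sym2.lift ⟨fun u w => if u = w then d u else decide (G.Adj u w), by
    intro u w
    by_cases h : u = w
    · subst h; rfl
    · have h' : ¬ w = u := fun e => h e.symm
      simp only [h, h', if_false, G.adj_comm]⟩

open Classical in
lemma lb_mk {n : ℕ} (G : SimpleGraph (Fin n)) (d : Fin n → Bool) (u w : Fin n) :
    lb G d s(u, w) = if u = w then d u else decide (G.Adj u w) := rfl

/-- Labellings are graphs together with diagonal labels. -/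
noncomputable def eqv (n : ℕ) :
    (Sym2 (Fin n) → Bool) ≃ SimpleGraph (Fin n) × (Fin n → Bool) where
  toFun ω := (gr ω, fun v => ω s(v, v))
  invFun x := lb x.1 x.2
  left_inv ω := by
    funext e
    induction e using Sym2.ind with
    | _ u w =>
      show lb _ _ s(u, w) = _
      rw [lb_mk]
      by_cases h : u = w
      · subst h; simp
      · rw [if_neg h]
        have : (gr ω).Adj u w ↔ ω s(u, w) = true := ⟨fun h' => h'.2, fun h' => ⟨h, h'⟩⟩
        cases hω : ω s(u, w) <;> simp [this, hω]
  right_inv x := by
    obtain ⟨G, d⟩ := x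
    refine Prod.ext ?_ ?_
    · ext u w
      show (u ≠ w ∧ lb G d s(u, w) = true) ↔ G.Adj u w
      rw [lb_mk]
      constructor
      · rintro ⟨h, h'⟩
        rw [if_neg h] at h'
        simpa using h'
      · intro h
        refine ⟨h.ne, ?_⟩
        rw [if_neg h.ne]
        simpa using h
    · funext v
      show lb G d s(v, v) = d v
      rw [lb_mk, if_pos rfl]

lemma Pr_fst {A B : Type} [Fintype A] [Fintype B] [Nonempty B] (P : A → Prop) :
    Pr (fun x : A × B => P x.1) = (Nat.card {a : A // P a} : ℝ) / (Nat.card A : ℝ) := by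
  classical
  unfold Pr
  have h1 : (univ.filter fun x : A × B => P x.1) = (univ.filter P) ×ˢ (univ : Finset B) := by
    ext x; simp
  have hB : (Fintype.card B : ℝ) ≠ 0 := by exact_mod_cast Fintype.card_ne_zero
  have h2 : Nat.card {a : A // P a} = (univ.filter P).card := by
    rw [Nat.card_eq_fintype_card, Fintype.card_subtype]
  rw [h2, Nat.card_eq_fintype_card, Fintype.card_prod]
  have h3 : ((univ.filter fun x : A × B => P x.1).card : ℝ)
      = ((univ.filter P).card : ℝ) * Fintype.card B := by
    rw [h1, card_product, card_univ]; push_cast; ring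
  push_cast
  rw [← mul_div_mul_right ((univ.filter P).card : ℝ) _ hB, ← h3]

end TR

theorem rowTR : RowTR := by
  classical
  intro n P Q hPQ
  have h1 : 1 - Pr (fun ω => ¬ Q ω) = Pr Q := by
    have := Pr_add_not Q
    linarith
  rw [h1, ← TR.Pr_fst (B := Fin n → Bool) P,
    ← Pr_comp_equiv (TR.eqv n) (fun x => P x.1)]
  exact Pr_mono fun ω hω => hPQ ω (TR.gr ω) (fun u w => Iff.rfl) hω

end Pool.Agent.MP_f8284b_co.U85
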