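import Mathlib
import Pool.Agent.MP_f8284b_co.U85.Basic

set_option autoImplicit false

namespace Pool.Agent.MP_f8284b_co.U85

namespace AN1

open Finset Real

/-- A function vanishing at `0` whose derivative has the sign of the argument is nonnegative. -/
theorem nonneg_of_deriv_sign (f f' : ℝ → ℝ) (hf : ∀ t, HasDerivAt f (f' t) t) (h0 : f 0 = 0)
    (hs : ∀ t, 0 ≤ f' t * t) (t : ℝ) : 0 ≤ f t := by
  rcases lt_trichotomy t 0 with ht | ht | ht
  · obtain ⟨c, hc, e⟩ := exists_hasDerivAt_eq_slope f f' ht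
      (fun x _ => (hf x).continuousAt.continuousWithinAt) (fun x _ => hf x)
    have h1 : f' c ≤ 0 := by
      by_contra h
      have := hs c
      nlinarith [hc.2, not_le.1 h]
    rw [e, h0, div_nonpos_iff] at h1
    rcases h1 with h | h
    · linarith [h.2]
    · linarith [h.1]
  · rw [ht, h0]
  · obtain ⟨c, hc, e⟩ := exists_hasDerivAt_eq_slope f f' ht
      (fun x _ => (hf x).continuousAt.continuousWithinAt) (fun x _ => hf x)
    have h1 : 0 ≤ f' c := by
      by_contra h
      have := hs c
      nlinarith [hc.1, not_le.1 h]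
    rw [e, h0, div_nonneg_iff] at h1
    rcases h1 with h | h
    · linarith [h.1]
    · linarith [h.2]

theorem mix_pos (p t : ℝ) (h0 : 0 ≤ p) (h1 : p ≤ 1) : 0 < 1 - p + p * exp t := by
  have := exp_pos t
  rcases eq_or_lt_of_le h0 with h | h
  · rw [← h]; norm_num
  · have := mul_pos h this
    linarith

/-- Hoeffding's lemma for a Bernoulli variable. -/
theorem hoef_mix (p t : ℝ) (h0 : 0 ≤ p) (h1 : p ≤ 1) :
    log (1 - p + p * exp t) ≤ p * t + t ^ 2 / 8 := by
  have hD : ∀ s, HasDerivAt (fun s => 1 - p + p * exp s) (p * exp s) s := fun s =>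
    ((hasDerivAt_exp s).const_mul p).const_add _
  have hg : ∀ s, HasDerivAt (fun s => p + s / 4 - p * exp s / (1 - p + p * exp s))
      (1 / 4 - (p * exp s * (1 - p + p * exp s) - p * exp s * (p * exp s)) /
        (1 - p + p * exp s) ^ 2) s := fun s =>
    (((hasDerivAt_id s).div_const 4).const_add p).sub
      (((hasDerivAt_exp s).const_mul p).div (hD s) (mix_pos p s h0 h1).ne')
  have hmono : Monotone (fun s => p + s / 4 - p * exp s / (1 - p + p * exp s)) := by
    refine monotone_of_deriv_nonneg (fun s => (hg s).differentiableAt) fun s => ?_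
    rw [(hg s).deriv, sub_nonneg, div_le_iff₀ (pow_pos (mix_pos p s h0 h1) 2)]
    nlinarith [sq_nonneg (1 - p - p * exp s)]
  have hz : p + (0 : ℝ) / 4 - p * exp 0 / (1 - p + p * exp 0) = 0 := by simp
  have := nonneg_of_deriv_sign (fun s => p * s + s ^ 2 / 8 - log (1 - p + p * exp s))
    (fun s => p + s / 4 - p * exp s / (1 - p + p * exp s)) (fun s => by
      have a1 : HasDerivAt (fun s : ℝ => p * s + s ^ 2 / 8) (p + s / 4) s := by
        have := ((hasDerivAt_id s).const_mul p).add (((hasDerivAt_id s).pow 2).div_const 8)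
        refine this.congr_deriv ?_
        simp only [id]
        norm_num
        ring
      exact a1.sub ((hD s).log (mix_pos p s h0 h1).ne')) (by simp) (fun s => by
      rcases le_total 0 s with h | h
      · have := hmono h
        simp only [hz] at this
        exact mul_nonneg this h
      · have := hmono h
        simp only [hz] at this
        exact mul_nonneg_of_nonpos_of_nonpos this h) t
  linarith

/-- `HOEF`, upper part. -/
theorem hoef_up (l t : ℝ) :
    log ((1 + exp (l + t)) / 2) ≤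
      log ((1 + exp l) / 2) + t * (exp l / (1 + exp l)) + t ^ 2 / 8 := by
  have hl := exp_pos l
  have h1 : 0 < 1 + exp l := by linarith
  have hp0 : 0 ≤ exp l / (1 + exp l) := by positivity
  have hp1 : exp l / (1 + exp l) ≤ 1 := by rw [div_le_one h1]; linarith
  have := hoef_mix _ t hp0 hp1
  have e : (1 + exp (l + t)) / 2 =
      (1 + exp l) / 2 * (1 - exp l / (1 + exp l) + exp l / (1 + exp l) * exp t) := by
    rw [exp_add]; field_simp; ring
  rw [e, log_mul (by positivity) (mix_pos _ t hp0 hp1).ne']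
  linarith

/-- `HOEF`, lower part. -/
theorem hoef_low (l : ℝ) : l / 2 + l ^ 2 / 8 - l ^ 4 / 128 ≤ log ((1 + exp l) / 2) := by
  have e1 : (1 + exp l) / 2 = exp (l / 2) * cosh (l / 2) := by
    rw [cosh_eq, ← mul_div_assoc, mul_add, ← exp_add, ← exp_add]
    norm_num
    ring
  have e2 : cosh (l / 2) = 1 + 2 * sinh (l / 4) ^ 2 := by
    have := cosh_two_mul (l / 4)
    rw [show 2 * (l / 4) = l / 2 by ring, cosh_sq] at this
    linarith
  have e3 : (l / 4) ^ 2 ≤ sinh (l / 4) ^ 2 := by
    rcases le_total 0 (l / 4) with h | h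
    · exact pow_le_pow_left₀ h (self_le_sinh_iff.2 h) 2
    · have := sinh_le_self_iff.2 h
      nlinarith
  have e4 : 1 + l ^ 2 / 8 ≤ cosh (l / 2) := by rw [e2]; nlinarith
  have e5 := le_log_one_add_of_nonneg (show 0 ≤ l ^ 2 / 8 by positivity)
  have e6 : l ^ 2 / 8 - l ^ 4 / 128 ≤ 2 * (l ^ 2 / 8) / (l ^ 2 / 8 + 2) := by
    rw [le_div_iff₀ (by positivity)]
    nlinarith [pow_nonneg (sq_nonneg l) 3]
  rw [e1, log_mul (exp_pos _).ne' (cosh_pos _).ne', log_exp]
  have := log_le_log (by positivity) e4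
  linarith

theorem half_le (l : ℝ) : l / 2 ≤ log ((1 + exp l) / 2) := by
  have e1 : (1 + exp l) / 2 = exp (l / 2) * cosh (l / 2) := by
    rw [cosh_eq, ← mul_div_assoc, mul_add, ← exp_add, ← exp_add]
    norm_num
    ring
  rw [e1, log_mul (exp_pos _).ne' (cosh_pos _).ne', log_exp]
  have := log_nonneg (one_le_cosh (l / 2))
  linarith

theorem ratio (x : ℝ) (h0 : 0 ≤ x) (h1 : x ≤ 1 / 25) :
    4 * x ≤ log ((1 / 2 + x) / (1 / 2 - x)) ∧ log ((1 / 2 + x) / (1 / 2 - x)) ≤ 44 / 10 * x := by
  have hd : 0 < 1 / 2 - x := by linarith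
  have e : (1 / 2 + x) / (1 / 2 - x) = 1 + 2 * x / (1 / 2 - x) := by
    rw [one_add_div hd.ne']; congr 1; ring
  have hv : 0 ≤ 2 * x / (1 / 2 - x) := by positivity
  constructor
  · rw [e]
    refine le_trans ?_ (le_log_one_add_of_nonneg hv)
    have hm : 2 * x / (1 / 2 - x) * (1 / 2 - x) = 2 * x := div_mul_cancel₀ _ hd.ne'
    rw [le_div_iff₀ (by positivity)]
    nlinarith
  · refine (log_le_sub_one_of_pos (by positivity)).trans ?_
    rw [e, add_sub_cancel_left, div_le_iff₀ hd]
    nlinarith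

end AN1

theorem rowAN1 : RowAN1 := by
  refine ⟨fun l θ => AN1.hoef_up l θ, AN1.half_le, fun l => ?_, AN1.ratio⟩
  have h1 := AN1.hoef_low l
  have h2 : 0 ≤ l ^ 4 := by positivity
  unfold psi
  linarith

end Pool.Agent.MP_f8284b_co.U85
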