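import Mathlib
import Pool.Agent.MP_f8284b_co.U85.Basic

set_option autoImplicit false

namespace Pool.Agent.MP_f8284b_co.U85

namespace AN2

open Finset Real

/-- The term at `T` is the largest term of the binomial sum tilted by `T / (N - T)`. -/
theorem mode_le (N T : ℕ) (hT : T < N) (k : ℕ) :
    (N.choose k : ℝ) * ((T : ℝ) / (N - T)) ^ k ≤ N.choose T * ((T : ℝ) / (N - T)) ^ T := by
  have hNT : (0 : ℝ) < N - T := sub_pos.2 (Nat.cast_lt.2 hT)
  have hr : (0 : ℝ) ≤ (T : ℝ) / (N - T) := by positivity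
  set r : ℝ := (T : ℝ) / (N - T) with hrd
  have hrm : r * (N - T) = T := by rw [hrd]; field_simp
  have key : ∀ k : ℕ, k ≤ N → (N.choose (k + 1) : ℝ) * (k + 1) = N.choose k * (N - k) := by
    intro k hk
    have := Nat.choose_succ_right_eq N k
    have h2 : ((N.choose (k + 1) * (k + 1) : ℕ) : ℝ) = ((N.choose k * (N - k) : ℕ) : ℝ) := by
      rw [this]
    push_cast [Nat.cast_sub hk] at h2
    exact h2
  rcases le_total k T with h | h
  · induction h using Nat.decreasingInduction with
    | self => exact le_rfl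
    | of_succ k hk ih =>
      refine le_trans ?_ ih
      have hk1 : (k : ℝ) + 1 ≤ T := by exact_mod_cast hk
      have h3 := key k (by omega)
      have hc : (0 : ℝ) ≤ N.choose k := Nat.cast_nonneg _
      have hk0 : (0 : ℝ) ≤ k := Nat.cast_nonneg _
      have h4 : (N.choose k : ℝ) ≤ N.choose (k + 1) * r := by
        refine le_of_mul_le_mul_right ?_ (show (0 : ℝ) < (k + 1) * (N - T) by positivity)
        calc (N.choose k : ℝ) * ((k + 1) * (N - T)) ≤ N.choose k * ((N - k) * T) := by
              refine mul_le_mul_of_nonneg_left ?_ hc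
              nlinarith
          _ = N.choose (k + 1) * (k + 1) * (r * (N - T)) := by rw [h3, hrm]; ring
          _ = _ := by ring
      rw [pow_succ]
      nlinarith [mul_le_mul_of_nonneg_right h4 (pow_nonneg hr k)]
  · induction k, h using Nat.le_induction with
    | base => exact le_rfl
    | succ k hk ih =>
      refine le_trans ?_ ih
      rcases lt_or_ge N (k + 1) with h5 | h5
      · rw [Nat.choose_eq_zero_of_lt h5]
        simp only [Nat.cast_zero, zero_mul]
        positivity
      have hk1 : (T : ℝ) ≤ k := by exact_mod_cast hk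
      have hk2 : (k : ℝ) + 1 ≤ N := by exact_mod_cast h5
      have h3 := key k (by omega)
      have hc : (0 : ℝ) ≤ N.choose k := Nat.cast_nonneg _
      have hk0 : (0 : ℝ) ≤ T := Nat.cast_nonneg _
      have h4 : N.choose (k + 1) * r ≤ (N.choose k : ℝ) := by
        refine le_of_mul_le_mul_right ?_ (show (0 : ℝ) < (k + 1) * (N - T) by
          have : (0 : ℝ) < k + 1 := by linarith
          positivity)
        calc (N.choose (k + 1) : ℝ) * r * ((k + 1) * (N - T))
            = N.choose (k + 1) * (k + 1) * (r * (N - T)) := by ring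
          _ = N.choose k * ((N - k) * T) := by rw [h3, hrm]; ring
          _ ≤ _ := by
              refine mul_le_mul_of_nonneg_left ?_ hc
              nlinarith
      rw [pow_succ]
      nlinarith [mul_le_mul_of_nonneg_right h4 (pow_nonneg hr k)]

/-- `TYPES`: the tilted binomial sum is at most `N + 1` times its largest term. -/
theorem types_choose (N T : ℕ) (h0 : 0 < T) (hT : T < N) :
    exp (N * log ((1 + exp (log ((T : ℝ) / (N - T)))) / 2) - log ((T : ℝ) / (N - T)) * T) ≤
      (N + 1) * ((N.choose T : ℝ) / 2 ^ N) := by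
  have hNT : (0 : ℝ) < N - T := sub_pos.2 (Nat.cast_lt.2 hT)
  have hT0 : (0 : ℝ) < T := Nat.cast_pos.2 h0
  have hr : (0 : ℝ) < (T : ℝ) / (N - T) := by positivity
  have hm := mode_le N T hT
  set r : ℝ := (T : ℝ) / (N - T) with hrd
  have e1 : exp (N * log ((1 + exp (log r)) / 2) - log r * T) = ((1 + r) / 2) ^ N / r ^ T := by
    rw [exp_log hr, exp_sub, mul_comm (log r), ← log_pow, ← log_pow, exp_log (by positivity),
      exp_log (by positivity)]
  have e2 : (1 + r) ^ N ≤ (N + 1) * (N.choose T * r ^ T) := by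
    rw [add_comm 1 r, add_pow]
    calc ∑ m ∈ range (N + 1), r ^ m * 1 ^ (N - m) * (N.choose m : ℝ)
        ≤ ∑ _m ∈ range (N + 1), (N.choose T : ℝ) * r ^ T :=
          sum_le_sum fun m _ => by rw [one_pow, mul_one, mul_comm]; exact hm m
      _ = _ := by rw [sum_const, card_range, nsmul_eq_mul]; push_cast; ring
  rw [e1, div_pow, div_div, div_le_iff₀ (by positivity)]
  refine e2.trans (le_of_eq ?_)
  field_simp

theorem choose_le_tail (N T k : ℕ) (h1 : T ≤ k) (h2 : k ≤ N) :
    (N.choose k : ℝ) / 2 ^ N ≤ tail N T := by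
  unfold tail
  refine div_le_div_of_nonneg_right ?_ (by positivity)
  exact single_le_sum (f := fun k => (N.choose k : ℝ)) (fun _ _ => Nat.cast_nonneg _)
    (mem_Icc.2 ⟨h1, h2⟩)

theorem half (N T : ℕ) (h : 2 * T ≤ N) : 1 ≤ (N + 1) * tail N T := by
  have h1 := choose_le_tail N T (N / 2) (by omega) (Nat.div_le_self _ _)
  have h2 : (2 : ℝ) ^ N ≤ (N + 1) * N.choose (N / 2) := by
    have : 2 ^ N ≤ (N + 1) * N.choose (N / 2) := by
      rw [← Nat.sum_range_choose]
      refine (sum_le_card_nsmul _ _ _ fun k _ => Nat.choose_le_middle k N).trans ?_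
      rw [card_range, smul_eq_mul]
    exact_mod_cast this
  refine le_trans ?_ (mul_le_mul_of_nonneg_left h1 (by positivity))
  rw [← mul_div_assoc, le_div_iff₀ (by positivity), one_mul]
  exact h2

theorem step (N T : ℕ) (h : 5 * T + 7 ≤ 3 * N) :
    N.choose T ≤ N.choose (T + 1) + N.choose (T + 2) := by
  obtain ⟨d, rfl⟩ : ∃ d, N = T + 2 + d := ⟨N - (T + 2), by omega⟩
  have h1 := Nat.choose_succ_right_eq (T + 2 + d) T
  have h2 := Nat.choose_succ_right_eq (T + 2 + d) (T + 1)
  rw [show T + 2 + d - T = d + 2 by omega] at h1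
  rw [show T + 2 + d - (T + 1) = d + 1 by omega] at h2
  generalize (T + 2 + d).choose T = a at *
  generalize (T + 2 + d).choose (T + 1) = b at *
  generalize (T + 2 + d).choose (T + 1 + 1) = c at *
  have h3 : 2 * T + 1 ≤ 3 * d := by omega
  refine Nat.le_of_mul_le_mul_right ?_ (show 0 < (T + 1) * (T + 2) by positivity)
  have e : (b + c) * ((T + 1) * (T + 2)) = a * ((d + 2) * (T + 2 + (d + 1))) := by
    calc _ = b * (T + 1) * (T + 2) + c * (T + 1 + 1) * (T + 1) := by ring
      _ = b * (T + 1) * (T + 2) + b * (T + 1) * (d + 1) := by rw [h2]; ring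
      _ = _ := by rw [h1]; ring
  rw [e]
  refine Nat.mul_le_mul_left _ ?_
  nlinarith

theorem halving (N T : ℕ) (h : 5 * T + 7 ≤ 3 * N) : tail N T ≤ 2 * tail N (T + 1) := by
  have hN : T + 2 ≤ N := by omega
  have e1 : Icc T N = insert T (Icc (T + 1) N) := by
    ext k; simp only [mem_Icc, mem_insert]; omega
  have h1 : ((N.choose (T + 1) : ℝ) + N.choose (T + 2)) ≤ ∑ k ∈ Icc (T + 1) N, (N.choose k : ℝ) := by
    rw [← sum_pair (f := fun k => (N.choose k : ℝ)) (show T + 1 ≠ T + 2 by omega)]
    refine sum_le_sum_of_subset_of_nonneg (fun k hk => ?_) fun _ _ _ => Nat.cast_nonneg _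
    simp only [mem_insert, mem_singleton] at hk
    simp only [mem_Icc]
    omega
  have h2 : (N.choose T : ℝ) ≤ N.choose (T + 1) + N.choose (T + 2) := by
    exact_mod_cast step N T h
  unfold tail
  rw [e1, sum_insert (by simp), ← mul_div_assoc]
  refine div_le_div_of_nonneg_right ?_ (by positivity)
  linarith

theorem chernoff (N T : ℕ) (θ : ℝ) (hθ : 0 ≤ θ) : tail N T ≤ exp (N * psi θ - θ * T) := by
  have e1 : exp (N * psi θ - θ * T) = (exp θ + 1) ^ N * exp (-(θ * T)) / 2 ^ N := by
    unfold psi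
    rw [sub_eq_add_neg, exp_add, ← log_pow, exp_log (by positivity), div_pow, add_comm 1]
    ring
  rw [e1, add_pow, sum_mul]
  unfold tail
  refine div_le_div_of_nonneg_right ?_ (by positivity)
  calc ∑ k ∈ Icc T N, (N.choose k : ℝ)
      ≤ ∑ k ∈ Icc T N, exp θ ^ k * 1 ^ (N - k) * (N.choose k : ℝ) * exp (-(θ * T)) := by
        refine sum_le_sum fun k hk => ?_
        have hk' : (T : ℝ) ≤ k := by exact_mod_cast (mem_Icc.1 hk).1
        have : 1 ≤ exp θ ^ k * exp (-(θ * T)) := by
          rw [← exp_nat_mul, ← exp_add]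
          exact one_le_exp (by nlinarith)
        rw [one_pow, mul_one, mul_right_comm]
        exact le_mul_of_one_le_left (Nat.cast_nonneg _) this
    _ ≤ _ := by
        refine sum_le_sum_of_subset_of_nonneg (fun k hk => ?_) fun _ _ _ => by positivity
        exact mem_range.2 (Nat.lt_succ_of_le (mem_Icc.1 hk).2)

end AN2

theorem rowAN2 : RowAN2 := by
  refine ⟨fun N T h0 hT => ?_, AN2.half, AN2.halving, AN2.chernoff⟩
  refine (AN2.types_choose N T h0 hT).trans ?_
  exact mul_le_mul_of_nonneg_left (AN2.choose_le_tail N T T le_rfl hT.le) (by positivity)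

end Pool.Agent.MP_f8284b_co.U85
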