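import Pool.Agent.MP_f8284b_co.U85.Basic

set_option autoImplicit false

/-! Elementary bounds on binomial coefficients. -/

namespace Pool.Agent.MP_f8284b_co.U85

namespace AN3

theorem low (b : ℕ) : ∀ n : ℕ, b ≤ n → ((n : ℝ) / b) ^ b ≤ n.choose b := by
  induction b with
  | zero => intro n _; simp
  | succ b ih =>
    intro n hn
    obtain ⟨m, rfl⟩ : ∃ m, n = m + 1 := ⟨n - 1, by omega⟩
    have hb : b ≤ m := by omega
    have h1 := ih m hb
    have h2 : ((m + 1 : ℕ) : ℝ) * m.choose b = (m + 1).choose (b + 1) * ((b + 1 : ℕ) : ℝ) := by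
      exact_mod_cast Nat.add_one_mul_choose_eq m b
    have p : (0 : ℝ) < ((b + 1 : ℕ) : ℝ) := by positivity
    have h3 : (((m + 1 : ℕ) : ℝ) / ((b + 1 : ℕ) : ℝ)) ^ b ≤ ((m : ℝ) / b) ^ b := by
      rcases Nat.eq_zero_or_pos b with rfl | b0
      · simp
      refine pow_le_pow_left₀ (by positivity) ?_ _
      have b1 : (0 : ℝ) < b := by exact_mod_cast b0
      have b2 : (b : ℝ) ≤ m := by exact_mod_cast hb
      rw [div_le_div_iff₀ p b1]
      push_cast
      nlinarith
    have h4 : ((m + 1).choose (b + 1) : ℝ) =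
        m.choose b * (((m + 1 : ℕ) : ℝ) / ((b + 1 : ℕ) : ℝ)) := by
      rw [← mul_div_assoc, eq_div_iff p.ne', ← h2, mul_comm]
    rw [pow_succ, h4]
    exact mul_le_mul_of_nonneg_right (h3.trans h1) (by positivity)

theorem step (n k : ℕ) (h : k ≤ n) :
    (n.choose (k + 1) : ℝ) * (k + 1) = n.choose k * ((n : ℝ) - k) := by
  have := Nat.choose_succ_right_eq n k
  rw [← Nat.cast_sub h]
  exact_mod_cast this

theorem up (n b : ℕ) (hb : 0 < b) (d : ℕ) (h : b + d ≤ n) :
    (n.choose (b + d) : ℝ) ≤ n.choose b * ((n : ℝ) / b) ^ d := by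
  induction d with
  | zero => simp
  | succ d ih =>
    have h1 := ih (by omega)
    have h2 := step n (b + d) (by omega)
    have b1 : (0 : ℝ) < b := by exact_mod_cast hb
    have h3 : (n.choose (b + d + 1) : ℝ) ≤ n.choose (b + d) * ((n : ℝ) / b) := by
      rw [← mul_div_assoc, le_div_iff₀ b1]
      push_cast at h2
      have c1 : (0 : ℝ) ≤ n.choose (b + d + 1) := by positivity
      have c2 : (0 : ℝ) ≤ n.choose (b + d) := by positivity
      have c3 : (0 : ℝ) ≤ d := by positivity
      nlinarith [mul_nonneg c1 c3, mul_nonneg c2 c3, mul_nonneg c2 b1.le]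
    rw [pow_succ, ← mul_assoc]
    exact h3.trans (mul_le_mul_of_nonneg_right h1 (by positivity))

theorem one (n b : ℕ) (hb : 0 < b) (h : b ≤ n) :
    b * (Real.log n - Real.log b) ≤ Real.log (n.choose b) := by
  have b1 : (0 : ℝ) < b := by exact_mod_cast hb
  have n1 : (0 : ℝ) < n := by exact_mod_cast hb.trans_le h
  rw [← Real.log_div n1.ne' b1.ne', ← Real.log_pow]
  exact Real.log_le_log (by positivity) (low b n h)

theorem three (n b : ℕ) (h2 : 2 * b ≤ n) (hn : 0 < n) (w : ℕ) (hw : w ≤ b) :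
    (n.choose (b - w) : ℝ) ≤ n.choose b * (2 * b / n) ^ w := by
  induction w with
  | zero => simp
  | succ w ih =>
    have h1 := ih (by omega)
    obtain ⟨k, hk⟩ : ∃ k, b = k + (w + 1) := ⟨b - (w + 1), by omega⟩
    have e1 : b - (w + 1) = k := by omega
    have e2 : b - w = k + 1 := by omega
    rw [e2] at h1
    have h3 := step n k (by omega)
    have n1 : (0 : ℝ) < n := by exact_mod_cast hn
    have k1 : (k : ℝ) + 1 ≤ b := by exact_mod_cast (by omega : k + 1 ≤ b)
    have k2 : 2 * (b : ℝ) ≤ n := by exact_mod_cast h2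
    have h4 : (n.choose k : ℝ) ≤ n.choose (k + 1) * (2 * b / n) := by
      rw [← mul_div_assoc, le_div_iff₀ n1]
      have c1 : (0 : ℝ) ≤ n.choose (k + 1) := by positivity
      have c2 : (0 : ℝ) ≤ n.choose k := by positivity
      nlinarith [mul_le_mul_of_nonneg_left k1 c1,
        mul_nonneg c2 (show (0 : ℝ) ≤ n - 2 * k by linarith)]
    rw [e1, pow_succ, ← mul_assoc]
    exact h4.trans (mul_le_mul_of_nonneg_right h1 (by positivity))

end AN3

theorem rowAN3 : RowAN3 := by
  refine ⟨fun n b hb h => ⟨AN3.one n b hb h, ?_⟩, fun n b b' hb h1 h2 => ?_,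
    fun n b w h1 h2 h3 => AN3.three n b h2 h3 w h1⟩
  · rw [← Real.log_pow]
    refine Real.log_le_log (by exact_mod_cast Nat.choose_pos h) ?_
    exact_mod_cast Nat.choose_le_pow n b
  · obtain ⟨d, rfl⟩ := Nat.exists_eq_add_of_le h1
    have b1 : (0 : ℝ) < b' := by exact_mod_cast hb
    have n1 : (0 : ℝ) < n := by exact_mod_cast (by omega : 0 < n)
    have c0 : (0 : ℝ) < n.choose b' := by exact_mod_cast Nat.choose_pos (by omega : b' ≤ n)
    have k1 := Real.log_le_log (by exact_mod_cast Nat.choose_pos h2) (AN3.up n b' hb d h2)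
    rw [Real.log_mul c0.ne' (by positivity), Real.log_pow, Real.log_div n1.ne' b1.ne'] at k1
    have k2 := AN3.one n b' hb (by omega)
    have d0 : (0 : ℝ) ≤ d := by positivity
    rw [div_le_div_iff₀ (by positivity) b1]
    push_cast
    nlinarith [mul_le_mul_of_nonneg_left k2 d0, mul_le_mul_of_nonneg_right k1 b1.le]

end Pool.Agent.MP_f8284b_co.U85
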