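import Mathlib
import Pool.Agent.MP_f8284b_co.U85.Basic

set_option autoImplicit false

/-! The union bound for the separation event. -/

namespace Pool.Agent.MP_f8284b_co.U85

open Finset

namespace BAD

variable {V : Type} [Fintype V] [DecidableEq V]

omit [DecidableEq V] in
lemma sum_pc {n b : ℕ} (hn : Fintype.card V = n) {f : Finset V → ℝ} {t : ℝ}
    (h : ∀ W : Finset V, W.card = b → f W ≤ t) :
    ∑ W ∈ (univ : Finset V).powersetCard b, f W ≤ (n.choose b : ℝ) * t := by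
  refine (sum_le_card_nsmul _ _ t fun W hW => h W (mem_powersetCard.1 hW).2).trans_eq ?_
  rw [card_powersetCard, card_univ, hn, nsmul_eq_mul]

lemma one {n b0 g b : ℕ} {δ : ℝ} (hn : Fintype.card V = n) (hx : XF n b0 g δ b)
    (hF : OutFL V n b0 δ) (h1 : b0 ≤ b) (h2 : b ≤ 2 * b0) :
    Pr (fun ω : Sym2 V → Bool => ∃ W ∈ (univ : Finset V).powersetCard b,
      thr n δ W.card ≤ ein ω W ∧ ¬ Flat ω (thr n δ W.card) (rho b0) W) ≤ δ / (2 * b0) ^ 2 := by
  refine (Pr_exists_le _ _).trans ((sum_pc hn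
    (t := tail (b.choose 2) (thr n δ b) / (2 * b0) ^ 2) fun W hW => ?_).trans ?_)
  · subst hW; exact hF W h1 h2
  · rw [← mul_div_assoc]
    exact div_le_div_of_nonneg_right hx.up (by positivity)

lemma two {n b0 D0 g b b' : ℕ} {δ : ℝ} (hn : Fintype.card V = n) (hx : XF n b0 g δ b)
    (hO : OutOV V n b0 D0 δ) (h1 : b0 ≤ b') (h2 : b ≤ 2 * b0) (h3 : b' = b ∨ b' + D0 ≤ b) :
    Pr (fun ω : Sym2 V → Bool => ∃ W ∈ (univ : Finset V).powersetCard b,
      ∃ W' ∈ ((univ : Finset V).powersetCard b').filter (fun W' => W' ≠ W ∧ ¬ Disjoint W W'),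
        Both n b0 δ W W' ω) ≤ δ / (b0 : ℝ) ^ 2 := by
  refine (Pr_exists_le _ _).trans ((sum_pc hn
    (t := tail (b.choose 2) (thr n δ b) / (b0 : ℝ) ^ 2) fun W hW => ?_).trans ?_)
  · subst hW; exact (Pr_exists_le _ _).trans (hO W b' h1 h2 h3)
  · rw [← mul_div_assoc]
    exact div_le_div_of_nonneg_right hx.up (by positivity)

omit [Fintype V] in
lemma dep (T : ℕ) (W : Finset V) : Dep (fun ω : Sym2 V → Bool => T ≤ ein ω W) (prs W) :=
  fun _ _ h hω => le_of_le_of_eq hω (ein_congr h)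

lemma three (hP : RowPB) {n b0 g b : ℕ} {δ : ℝ} (hn : Fintype.card V = n) (hx : XF n b0 g δ b) :
    Pr (fun ω : Sym2 V → Bool => ∃ W ∈ (univ : Finset V).powersetCard b,
      ∃ W' ∈ (univ : Finset V).powersetCard b,
        Disjoint W W' ∧ thr n δ b ≤ ein ω W ∧ thr n δ b ≤ ein ω W') ≤ δ ^ 2 := by
  obtain ⟨p1, -, p3⟩ := hP (Sym2 V)
  have t0 := tail_nonneg (b.choose 2) (thr n δ b)
  refine (Pr_exists_le _ _).trans ((sum_pc hn (t := (n.choose b : ℝ) *
    (tail (b.choose 2) (thr n δ b) * tail (b.choose 2) (thr n δ b))) fun W hW => ?_).trans ?_)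
  · refine (Pr_exists_le _ _).trans (sum_pc hn fun W' hW' => ?_)
    by_cases hd : Disjoint W W'
    · refine (Pr_mono fun ω h => h.2).trans_eq ?_
      rw [p1 _ _ _ _ (dep _ W) (dep _ W') (disjoint_prs hd)]
      have a := p3 (prs W) (thr n δ b)
      have a' := p3 (prs W') (thr n δ b)
      rw [card_prs, hW] at a
      rw [card_prs, hW'] at a'
      exact congrArg₂ (· * ·) a a'
    · rw [Pr_eq_zero fun ω h => hd h.1]; positivity
  · have u := hx.up
    have u0 : 0 ≤ (n.choose b : ℝ) * tail (b.choose 2) (thr n δ b) := by positivity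
    nlinarith [mul_self_le_mul_self u0 u]

end BAD

open BAD in
theorem rowBAD : RowBAD := by
  intro hP V I _ _ _ n b0 D0 g δ sz hn hp hx hF hO hs
  classical
  obtain ⟨-, δ0, -, D1, -⟩ := hp.facts
  have hX := fun i => hx (sz i) (hs.1 i).1 (hs.1 i).2
  set J : Finset (I × I) := univ.filter (fun a => sz a.2 = sz a.1 ∨ sz a.2 + D0 ≤ sz a.1) with hJ
  have key : ∀ ω : Sym2 V → Bool, ¬ Sep n δ sz ω →
      ((∃ i ∈ (univ : Finset I), ∃ W ∈ (univ : Finset V).powersetCard (sz i),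
        thr n δ W.card ≤ ein ω W ∧ ¬ Flat ω (thr n δ W.card) (rho b0) W) ∨
      ∃ a ∈ J, ∃ W ∈ (univ : Finset V).powersetCard (sz a.1),
        ∃ W' ∈ ((univ : Finset V).powersetCard (sz a.2)).filter
          (fun W' => W' ≠ W ∧ ¬ Disjoint W W'), Both n b0 δ W W' ω) ∨
      ∃ i ∈ (univ : Finset I), ∃ W ∈ (univ : Finset V).powersetCard (sz i),
        ∃ W' ∈ (univ : Finset V).powersetCard (sz i),
          Disjoint W W' ∧ thr n δ (sz i) ≤ ein ω W ∧ thr n δ (sz i) ≤ ein ω W' := by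
    intro ω hω
    by_contra hc
    simp only [not_or] at hc
    obtain ⟨⟨c1, c2⟩, c3⟩ := hc
    have pc : ∀ {W : Finset V} {b : ℕ}, W.card = b → W ∈ (univ : Finset V).powersetCard b :=
      fun h => mem_powersetCard.2 ⟨subset_univ _, h⟩
    have main : ∀ (i i' : I) (W W' : Finset V), W.card = sz i → W'.card = sz i' →
        thr n δ (sz i) ≤ ein ω W → thr n δ (sz i') ≤ ein ω W' →
        (sz i' = sz i ∨ sz i' + D0 ≤ sz i) → W' ≠ W → Disjoint W W' := by
      intro i i' W W' e e' a a' h hne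
      by_contra hd
      have f : Flat ω (thr n δ W.card) (rho b0) W := by
        by_contra f
        exact c1 ⟨i, mem_univ _, W, pc e, e ▸ a, f⟩
      exact c2 ⟨(i, i'), mem_filter.2 ⟨mem_univ _, h⟩, W, pc e, W',
        mem_filter.2 ⟨pc e', hne, hd⟩, ⟨e ▸ a, f⟩, e' ▸ a'⟩
    refine hω fun i i' W W' e e' a a' => ⟨fun h => ?_, fun h => ?_⟩
    · subst h
      by_contra hne
      exact c3 ⟨i, mem_univ _, W, pc e, W', pc e',
        main i i W W' e e' a a' (Or.inl rfl) (fun h => hne h.symm), a, a'⟩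
    · rcases hs.2 i i' h with k | k
      · exact (main i' i W' W e' e a' a (Or.inr k) (fun h => by subst h; omega)).symm
      · exact main i i' W W' e e' a a' (Or.inr k) (fun h => by subst h; omega)
  refine (Pr_mono key).trans ((Pr_or_le _ _).trans (add_le_add ((Pr_or_le _ _).trans ?_) ?_))
  · have b1 := (Pr_exists_le (univ : Finset I) _).trans (sum_le_card_nsmul _ _ _ fun i _ =>
      one hn (hX i) hF (hs.1 i).1 (hs.1 i).2)
    have b2 := (Pr_exists_le J _).trans (sum_le_card_nsmul _ _ _ fun a ha =>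
      two hn (hX a.1) hO (hs.1 a.2).1 (hs.1 a.1).2 (mem_filter.1 ha).2)
    refine (add_le_add b1 b2).trans ?_
    rw [nsmul_eq_mul, nsmul_eq_mul, card_univ]
    have k1 : (J.card : ℝ) ≤ (Fintype.card I : ℝ) ^ 2 := by
      have : J.card ≤ Fintype.card I * Fintype.card I := by
        rw [← Fintype.card_prod]; exact card_le_univ _
      rw [sq]; exact_mod_cast this
    have k2 : (Fintype.card I : ℝ) ≤ (Fintype.card I : ℝ) ^ 2 := by
      exact_mod_cast Nat.le_self_pow two_ne_zero _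
    have q0 : 0 ≤ δ / (b0 : ℝ) ^ 2 := by positivity
    have q1 : δ / (2 * b0 : ℝ) ^ 2 = δ / (b0 : ℝ) ^ 2 / 4 := by ring
    have q2 : 2 * (Fintype.card I : ℝ) ^ 2 * δ / (b0 : ℝ) ^ 2 =
        2 * (Fintype.card I : ℝ) ^ 2 * (δ / (b0 : ℝ) ^ 2) := by ring
    rw [q1, q2]
    nlinarith [mul_le_mul_of_nonneg_right k1 q0, mul_le_mul_of_nonneg_right k2 q0,
      mul_nonneg (Nat.cast_nonneg (α := ℝ) (Fintype.card I)) q0]
  · refine ((Pr_exists_le (univ : Finset I) _).trans (sum_le_card_nsmul _ _ _ fun i _ =>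
      three hP hn (hX i))).trans_eq ?_
    rw [nsmul_eq_mul, card_univ]

end Pool.Agent.MP_f8284b_co.U85
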