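import Pool.Agent.MP_f8284b_co.U85.Basic

set_option autoImplicit false

/-! Row CF: low coefficients of a product of series without constant term. -/

namespace Pool.Agent.MP_f8284b_co.U85

open Finset PowerSeries

theorem rowCF : RowCF := by
  intro K S f P h
  obtain ⟨g, hg⟩ : ∃ g : K → PowerSeries ℚ, g = fun k => mk fun n => coeff (n + 1) (f k) := ⟨_, rfl⟩
  have e : ∏ k ∈ S, f k = X ^ S.card * ∏ k ∈ S, g k := by
    rw [← prod_const, ← prod_mul_distrib]
    refine prod_congr rfl fun k hk => ?_
    conv_lhs => rw [eq_X_mul_shift_add_const (f k)]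
    rw [← coeff_zero_eq_constantCoeff_apply, h k hk, map_zero, add_zero, hg]
  have c : constantCoeff (∏ k ∈ S, g k) = ∏ k ∈ S, coeff 1 (f k) := by
    rw [map_prod]
    exact prod_congr rfl fun k _ => by rw [← coeff_zero_eq_constantCoeff_apply, hg, coeff_mk]
  rw [e, mul_left_comm]
  simp only [coeff_X_pow_mul']
  refine ⟨fun s hs => if_neg hs.not_ge, ?_, ?_⟩
  · rw [if_pos le_rfl, Nat.sub_self, coeff_zero_eq_constantCoeff_apply, map_mul, c,
      coeff_zero_eq_constantCoeff_apply]
  · rw [if_pos (Nat.le_succ _), if_pos (Nat.le_succ _), Nat.add_sub_cancel_left, coeff_one_mul, c,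
      coeff_zero_eq_constantCoeff_apply]
    ring

end Pool.Agent.MP_f8284b_co.U85
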