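import Pool.Agent.MP_f8284b_co.U85.Basic

set_option autoImplicit false

/-! The second moment bound. -/

namespace Pool.Agent.MP_f8284b_co.U85

open Finset

namespace CH

variable {Ω : Type} [Fintype Ω] [Nonempty Ω]

lemma sum_eq (B : Ω → Prop) [DecidablePred B] :
    (∑ ω, if B ω then (1 : ℝ) else 0) = Fintype.card Ω * Pr B := by
  have hc : (0 : ℝ) < Fintype.card Ω := by exact_mod_cast Fintype.card_pos
  rw [Pr_eq_sum, mul_div_cancel₀ _ hc.ne']

/-- Chebyshev by counting -/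
lemma cheb (X : Ω → ℝ) (M Q μ : ℝ) (hμ : μ ≤ M) (h0 : 0 < μ) (h1 : ∑ ω, X ω = Fintype.card Ω * M)
    (h2 : ∑ ω, X ω ^ 2 ≤ Fintype.card Ω * (Q + M ^ 2)) :
    Pr (fun ω => X ω < μ / 2) * (M ^ 2 / 4) ≤ Q := by
  classical
  have hc : (0 : ℝ) < Fintype.card Ω := by exact_mod_cast Fintype.card_pos
  have h3 : ∑ ω, (X ω - M) ^ 2 = ∑ ω, X ω ^ 2 - 2 * M * ∑ ω, X ω + Fintype.card Ω * M ^ 2 := by
    rw [mul_sum, ← sum_sub_distrib, ← card_univ, ← nsmul_eq_mul, ← sum_const, ← sum_add_distrib]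
    exact sum_congr rfl fun ω _ => by ring
  have h4 : (∑ ω, if X ω < μ / 2 then (1 : ℝ) else 0) * (M ^ 2 / 4) ≤ ∑ ω, (X ω - M) ^ 2 := by
    rw [sum_mul]
    refine sum_le_sum fun ω _ => ?_
    split_ifs with h
    · nlinarith
    · rw [zero_mul]; exact sq_nonneg _
  rw [sum_eq, h3, h1] at h4
  refine le_of_mul_le_mul_left ?_ hc
  nlinarith

end CH

open CH in
theorem rowCH : RowCH := by
  classical
  intro Ω A _ _ S Ev dep μ Δ h0 hΔ hμ hi hd
  obtain ⟨M, hM⟩ : ∃ M, M = ∑ a ∈ S, Pr (Ev a) := ⟨_, rfl⟩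
  rw [← hM] at hμ
  have hX : ∀ ω, ((S.filter (fun a => Ev a ω)).card : ℝ) =
      ∑ a ∈ S, if Ev a ω then (1 : ℝ) else 0 := fun ω => by rw [sum_boole]
  have h3 : ∑ a ∈ S, ∑ a' ∈ S, Pr (fun ω => Ev a ω ∧ Ev a' ω) ≤ M + Δ + M ^ 2 := by
    refine le_trans ?_ (add_le_add (add_le_add le_rfl hd) le_rfl)
    rw [sq, hM, sum_mul_sum, ← sum_add_distrib, ← sum_add_distrib]
    refine sum_le_sum fun a ha => ?_
    have e : Pr (Ev a) = ∑ a' ∈ S, if a = a' then Pr (Ev a) else 0 := by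
      rw [sum_ite_eq, if_pos ha]
    rw [sum_filter]
    nth_rewrite 1 [e]
    rw [← sum_add_distrib, ← sum_add_distrib]
    refine sum_le_sum fun a' ha' => ?_
    have p := mul_nonneg (Pr_nonneg (Ev a)) (Pr_nonneg (Ev a'))
    by_cases c : a = a'
    · have := Pr_mono (A := fun ω => Ev a ω ∧ Ev a' ω) (C := Ev a) fun _ h => h.1
      rw [if_pos c, if_neg fun h => h.1 c]
      linarith
    by_cases c' : dep a a'
    · rw [if_neg c, if_pos ⟨c, c'⟩]
      linarith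
    · rw [if_neg c, if_neg fun h => c' h.2]
      linarith [hi a ha a' ha' c c']
  have h4 := cheb (fun ω => ((S.filter (fun a => Ev a ω)).card : ℝ)) M (M + Δ) μ hμ h0 (by
    simp only [hX]
    rw [sum_comm, hM, mul_sum]
    exact sum_congr rfl fun a _ => sum_eq _) (by
    refine le_trans (le_of_eq ?_) (mul_le_mul_of_nonneg_left h3 (by positivity))
    simp only [hX, sq, sum_mul_sum]
    simp only [mul_sum]
    rw [sum_comm]
    refine sum_congr rfl fun a _ => ?_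
    rw [sum_comm]
    refine sum_congr rfl fun a' _ => ?_
    rw [← sum_eq]
    refine sum_congr rfl fun ω _ => ?_
    by_cases c : Ev a ω <;> by_cases c' : Ev a' ω <;> simp [c, c'])
  have M0 : 0 < M := h0.trans_le hμ
  have h5 : 4 / M + 4 * Δ / M ^ 2 ≤ 4 / μ + 4 * Δ / μ ^ 2 := by gcongr
  refine le_trans ?_ h5
  rw [show 4 / M + 4 * Δ / M ^ 2 = (M + Δ) / (M ^ 2 / 4) by field_simp, le_div_iff₀ (by positivity)]
  exact h4

end Pool.Agent.MP_f8284b_co.U85
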