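import Mathlib
import Pool.Agent.MP_f8284b_co.U85.Basic

set_option autoImplicit false

/-! Edge bookkeeping. -/

namespace Pool.Agent.MP_f8284b_co.U85

open Finset

namespace EDG

variable {V : Type} [DecidableEq V]

lemma ein_insert (ω : Sym2 V → Bool) {v : V} {W : Finset V} (h : v ∉ W) :
    ein ω (insert v W) = ein ω W + (W.filter (fun x => ω s(v, x) = true)).card := by
  have h1 : prs (insert v W) = prs W ∪ W.image (fun x => s(v, x)) := by
    ext e
    induction e using Sym2.ind with
    | _ a b =>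
      simp only [mk_mem_prs, mem_union, mem_insert, mem_image, Sym2.eq_iff]
      constructor
      · rintro ⟨rfl | ha, rfl | hb, hab⟩
        · exact absurd rfl hab
        · exact Or.inr ⟨b, hb, Or.inl ⟨rfl, rfl⟩⟩
        · exact Or.inr ⟨a, ha, Or.inr ⟨rfl, rfl⟩⟩
        · exact Or.inl ⟨ha, hb, hab⟩
      · rintro (⟨ha, hb, hab⟩ | ⟨x, hx, ⟨rfl, rfl⟩ | ⟨rfl, rfl⟩⟩)
        · exact ⟨Or.inr ha, Or.inr hb, hab⟩
        · exact ⟨Or.inl rfl, Or.inr hx, fun c => h (c ▸ hx)⟩
        · exact ⟨Or.inr hx, Or.inl rfl, fun c => h (c ▸ hx)⟩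
  have h2 : Disjoint (prs W) (W.image (fun x => s(v, x))) := by
    rw [disjoint_left]
    intro e he he'
    obtain ⟨x, -, rfl⟩ := mem_image.1 he'
    exact h (mk_mem_prs.1 he).1
  rw [ein, h1, cnt_union ω h2, ein]
  congr 1
  rw [cnt, filter_image, card_image_of_injective _ fun x y e => Sym2.congr_right.1 e]

lemma lab_union (ω : Sym2 V → Bool) (X : Finset V) {Y Y' : Finset V} (h : Disjoint Y Y') :
    lab ω X (Y ∪ Y') = lab ω X Y + lab ω X Y' := by
  unfold lab
  rw [← sum_add_distrib]
  exact sum_congr rfl fun v _ => by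
    rw [filter_union, card_union_of_disjoint (disjoint_filter_filter h)]

lemma ein_union (ω : Sym2 V → Bool) {X Y : Finset V} (h : Disjoint X Y) :
    ein ω (X ∪ Y) = ein ω X + ein ω Y + lab ω X Y := by
  induction X using Finset.induction_on with
  | empty => simp [lab]
  | insert v X hv ih =>
    obtain ⟨h1, h2⟩ := disjoint_insert_left.1 h
    rw [insert_union, ein_insert ω (by simp [hv, h1]), ih h2, ein_insert ω hv, filter_union,
      card_union_of_disjoint (disjoint_filter_filter h2), lab, lab, sum_insert hv]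
    omega

lemma lab_biUnion {I : Type} [DecidableEq I] (ω : Sym2 V → Bool) (X : Finset V)
    {B : I → Finset V} (h : ∀ i i', i ≠ i' → Disjoint (B i) (B i')) (J : Finset I) :
    lab ω X (J.biUnion B) = ∑ i ∈ J, lab ω X (B i) := by
  induction J using Finset.induction_on with
  | empty => simp
  | insert i J hi ih =>
    rw [biUnion_insert, lab_union ω X ((disjoint_biUnion_right _ _ _).2 fun j hj =>
      h i j fun c => hi (c ▸ hj)), ih, sum_insert hi]

end EDG

open EDG in
theorem rowEDG : RowEDG := by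
  intro V I _ _ _ ω B J ρ hB hρ
  rw [← lab_biUnion ω ρ hB]
  generalize J.biUnion B = Y at hρ
  have hd := disjoint_left.1 hρ
  have d1 : Disjoint Y ((univ \ Y) \ ρ) := by
    rw [disjoint_left]; intro x hx; simp [hx]
  have d2 : Disjoint ρ ((univ \ Y) \ ρ) := disjoint_sdiff
  have e1 : univ \ ρ = Y ∪ ((univ \ Y) \ ρ) := by
    ext x
    have := @hd x
    simp only [mem_sdiff, mem_univ, true_and, mem_union]
    tauto
  have e2 : univ \ Y = ρ ∪ ((univ \ Y) \ ρ) := by
    ext x
    have := @hd x
    simp only [mem_sdiff, mem_univ, true_and, mem_union]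
    tauto
  have e3 : univ = ρ ∪ (Y ∪ ((univ \ Y) \ ρ)) := by
    rw [← e1, union_sdiff_of_subset (subset_univ _)]
  have f1 := congrArg (ein ω) e1
  have f2 := congrArg (ein ω) e2
  have f3 := congrArg (ein ω) e3
  rw [ein_union ω d1] at f1
  rw [ein_union ω d2] at f2
  rw [ein_union ω (disjoint_union_right.2 ⟨hρ, d2⟩), ein_union ω d1, lab_union ω ρ d1] at f3
  omega

end Pool.Agent.MP_f8284b_co.U85
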