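import Pool.Agent.MP_f8284b_co.U85.Basic

set_option autoImplicit false

/-! One dense subset of a dense block is unlikely. -/

namespace Pool.Agent.MP_f8284b_co.U85

open Finset

namespace FL1

lemma tilt (pb : RowPB) {E : Type} [Fintype E] [DecidableEq E] {F G : Finset E} (h : G ⊆ F)
    {a θ : ℝ} (m : ℝ) (T : ℕ) (ha : 0 ≤ a) (hθ : 0 ≤ θ) :
    Pr (fun ω : E → Bool => T ≤ cnt ω F ∧ m < cnt ω G) ≤
      Real.exp (G.card * psi (a + θ) + ((F.card : ℝ) - G.card) * psi a - (a * T + θ * m)) := by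
  refine ((pb E).2.1 _ F (fun e => if e ∈ G then a + θ else a) (a * T + θ * m) ?_).trans
    (le_of_eq ?_)
  · rintro ω ⟨h1, h2⟩
    rw [← sum_sdiff h, sum_congr rfl fun e he => by rw [if_neg (mem_sdiff.1 he).2],
      sum_congr (s₁ := G) rfl fun e he => by rw [if_pos he], sum_ite_const, sum_ite_const]
    have h3 : (cnt ω (F \ G) : ℝ) + cnt ω G = cnt ω F := by exact_mod_cast cnt_sdiff_add ω h
    have h4 : (T : ℝ) ≤ cnt ω F := by exact_mod_cast h1
    have h5 := mul_le_mul_of_nonneg_left h4 ha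
    have h6 := mul_le_mul_of_nonneg_left h2.le hθ
    rw [← h3] at h5
    linarith
  · rw [← sum_sdiff h, sum_congr rfl fun e he => by rw [if_neg (mem_sdiff.1 he).2],
      sum_congr (s₁ := G) rfl fun e he => by rw [if_pos he], sum_const, sum_const,
      card_sdiff_of_subset h, nsmul_eq_mul, nsmul_eq_mul, Nat.cast_sub (card_le_card h), add_comm]

lemma fin {b b0 L ρ M μ : ℝ} (hb : 0 < b) (h : b ≤ 2 * b0) (hL : 0 ≤ L) (hμ : 0 ≤ μ)
    (hρ : ρ ^ 2 = 6 * b0 * L) (hM : M ≤ μ * b) :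
    M * ((4 * ρ / b) ^ 2 / 8) - 4 * ρ / b * (μ * ρ) ≤ -6 * L * μ := by
  have h1 : M * ((4 * ρ / b) ^ 2 / 8) ≤ μ * b * ((4 * ρ / b) ^ 2 / 8) :=
    mul_le_mul_of_nonneg_right hM (by positivity)
  have h2 : μ * b * ((4 * ρ / b) ^ 2 / 8) - 4 * ρ / b * (μ * ρ) = -(2 * μ * ρ ^ 2 / b) := by
    field_simp
    ring
  have h3 : 6 * L * μ ≤ 2 * μ * ρ ^ 2 / b := by
    rw [le_div_iff₀ hb, hρ]
    have := mul_le_mul_of_nonneg_left h (mul_nonneg hL hμ)
    linarith
  linarith

end FL1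

open FL1 in
theorem rowFL1 : RowFL1 := by
  intro pb an V _ _ n b0 D0 g δ B W par h1 h2 xf hW
  obtain ⟨h7, _, _, _, hρ, _⟩ := par.facts
  have hb : (0 : ℝ) < B.card := by
    have := par.gb
    exact_mod_cast (by omega : 0 < B.card)
  have hb2 : (B.card : ℝ) ≤ 2 * b0 := by exact_mod_cast h2
  have hw : W.card ≤ B.card := card_le_card hW
  have hw' : (W.card : ℝ) ≤ B.card := by exact_mod_cast hw
  have hw0 : (0 : ℝ) ≤ W.card := Nat.cast_nonneg _
  have hθ : 0 ≤ 4 * rho b0 / B.card := div_nonneg (by linarith [rho_nonneg b0]) hb.le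
  have hl : 4 * rho b0 / B.card ≤ lam n δ B.card := by
    refine le_trans ?_ xf.l1
    rw [div_le_iff₀ hb]
    linarith [xf.r1, rho_nonneg b0]
  have hN : (0 : ℝ) < (B.card.choose 2 : ℕ) := by exact_mod_cast Nat.zero_lt_of_lt xf.lt
  have hT : (thr n δ B.card : ℝ) / (B.card.choose 2 : ℕ) * (B.card.choose 2 : ℕ) =
      thr n δ B.card := div_mul_cancel₀ _ hN.ne'
  have hNb := Nat.cast_choose_two ℝ B.card
  have hNw := Nat.cast_choose_two ℝ W.card
  have key : ∀ x : ℝ, x ≤ (B.card.choose 2 : ℕ) * psi (lam n δ B.card) -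
      lam n δ B.card * thr n δ B.card +
        -6 * Real.log (2 * b0) * (min W.card (B.card - W.card) : ℕ) →
      Real.exp x ≤ ((B.card.choose 2 : ℕ) + 1) * tail (B.card.choose 2) (thr n δ B.card) *
        Real.exp (-6 * Real.log (2 * b0) * (min W.card (B.card - W.card) : ℕ)) := fun x hx => by
    refine (Real.exp_le_exp.2 hx).trans ?_
    rw [Real.exp_add]
    exact mul_le_mul_of_nonneg_right xf.types (Real.exp_pos _).le
  rcases le_total W.card (B.card - W.card) with e | e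
  · refine (tilt pb (prs_mono hW) _ _ (hθ.trans hl) hθ).trans (key _ ?_)
    have a1 := an.1 (lam n δ B.card) (4 * rho b0 / B.card)
    rw [xf.lp] at a1
    have a2 := mul_le_mul_of_nonneg_left a1 (Nat.cast_nonneg (α := ℝ) (W.card.choose 2))
    have a3 := fin (M := (W.card.choose 2 : ℕ)) (μ := W.card) hb hb2 (by linarith) hw0 hρ
      (by rw [hNw]; nlinarith)
    rw [card_prs, card_prs, min_eq_left e]
    linarith
  · refine (tilt pb (prs_mono hW) _ _ (sub_nonneg.2 hl) hθ).trans (key _ ?_)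
    have a1 := an.1 (lam n δ B.card) (-(4 * rho b0 / B.card))
    rw [xf.lp, neg_sq, ← sub_eq_add_neg] at a1
    have a0 : (0 : ℝ) ≤ (B.card.choose 2 : ℕ) - (W.card.choose 2 : ℕ) :=
      sub_nonneg.2 (by exact_mod_cast Nat.choose_le_choose 2 hw)
    have a2 := mul_le_mul_of_nonneg_left a1 a0
    have a3 := fin (M := (B.card.choose 2 : ℕ) - (W.card.choose 2 : ℕ))
      (μ := (B.card : ℝ) - W.card) hb hb2 (by linarith) (by linarith) hρ
      (by rw [hNw, hNb]; nlinarith)
    have a4 := congrArg (fun x => 4 * rho b0 / B.card * x) hT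
    rw [card_prs, card_prs, min_eq_right e, sub_add_cancel, Nat.cast_sub hw]
    linarith

end Pool.Agent.MP_f8284b_co.U85
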