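import Pool.Agent.MP_f8284b_co.U85.Basic

set_option autoImplicit false

/-! A dense block is flat. -/

namespace Pool.Agent.MP_f8284b_co.U85

open Finset

namespace FL2

lemma choose_le {b w : ℕ} (h : w ≤ b) : b.choose w ≤ b ^ min w (b - w) := by
  rcases le_total w (b - w) with e | e
  · rw [min_eq_left e]; exact Nat.choose_le_pow _ _
  · rw [min_eq_right e, ← Nat.choose_symm h]; exact Nat.choose_le_pow _ _

lemma grp {b w : ℕ} {L y : ℝ} (hL : 0 ≤ L) (hy : Real.exp L = y) (hb : (b : ℝ) ≤ y) (h1 : 1 ≤ w)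
    (h2 : w < b) :
    (b.choose w : ℝ) * Real.exp (-6 * L * (min w (b - w) : ℕ)) ≤ 1 / y ^ 5 := by
  have a1 : (b.choose w : ℝ) ≤ (b : ℝ) ^ min w (b - w) := by exact_mod_cast choose_le h2.le
  have a2 : (b : ℝ) ^ min w (b - w) ≤ y ^ min w (b - w) :=
    pow_le_pow_left₀ (Nat.cast_nonneg _) hb _
  have a3 : (1 : ℝ) ≤ (min w (b - w) : ℕ) := by exact_mod_cast le_min h1 (by omega)
  refine (mul_le_mul_of_nonneg_right (a1.trans a2) (Real.exp_pos _).le).trans ?_
  rw [← hy, ← Real.exp_nat_mul, ← Real.exp_nat_mul, ← Real.exp_add, one_div, ← Real.exp_neg,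
    Real.exp_le_exp]
  have := mul_le_mul_of_nonneg_left a3 hL
  push_cast at this ⊢
  linarith

end FL2

open FL2 in
theorem rowFL2 : RowFL2 := by
  intro fl pb an V _ _ n b0 D0 g δ par xf B h1 h2
  obtain ⟨h7, _, _, _, _, hy, _⟩ := par.facts
  have hb2 : (B.card : ℝ) ≤ 2 * b0 := by exact_mod_cast h2
  have hy0 : (0 : ℝ) < 2 * b0 := hy ▸ Real.exp_pos _
  have ht := tail_nonneg (B.card.choose 2) (thr n δ B.card)
  have hb : (1 : ℝ) ≤ B.card := by
    have := par.gb
    exact_mod_cast (by omega : 1 ≤ B.card)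
  have hN : ((B.card.choose 2 : ℕ) : ℝ) + 1 ≤ (2 * b0) ^ 2 := by
    rw [Nat.cast_choose_two]
    nlinarith
  refine (Pr_mono (C := fun ω => ∃ w ∈ Ico 1 B.card, ∃ W ∈ B.powersetCard w,
    thr n δ B.card ≤ ein ω B ∧
    (thr n δ B.card : ℝ) / (B.card.choose 2 : ℕ) * (W.card.choose 2 : ℕ) +
      (min W.card (B.card - W.card) : ℕ) * rho b0 < ein ω W) ?_).trans ?_
  · rintro ω ⟨e, hf⟩
    unfold Flat at hf
    push Not at hf
    obtain ⟨W, hW, hne, hlt⟩ := hf
    refine ⟨W.card, mem_Ico.2 ⟨card_pos.2 (nonempty_iff_ne_empty.2 ?_),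
      card_lt_card (ssubset_of_subset_of_ne hW hne)⟩, W, mem_powersetCard.2 ⟨hW, rfl⟩, e, hlt⟩
    rintro rfl
    simp at hlt
  · refine (Pr_exists_le _ _).trans ((sum_le_card_nsmul _ _
      ((2 * b0) ^ 2 * tail (B.card.choose 2) (thr n δ B.card) * (1 / (2 * b0) ^ 5))
      fun w hw => ?_).trans ?_)
    · obtain ⟨w1, w2⟩ := mem_Ico.1 hw
      refine (Pr_exists_le _ _).trans ((sum_le_card_nsmul _ _
        ((2 * b0) ^ 2 * tail (B.card.choose 2) (thr n δ B.card) *
          Real.exp (-6 * Real.log (2 * b0) * (min w (B.card - w) : ℕ))) fun W hW => ?_).trans ?_)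
      · obtain ⟨hW1, rfl⟩ := mem_powersetCard.1 hW
        exact (fl pb an V n b0 D0 g δ B W par h1 h2 (xf _ h1 h2) hW1).trans
          (mul_le_mul_of_nonneg_right (mul_le_mul_of_nonneg_right hN ht) (Real.exp_pos _).le)
      · rw [card_powersetCard, nsmul_eq_mul, mul_left_comm]
        exact mul_le_mul_of_nonneg_left (grp (by linarith) hy hb2 w1 w2) (by positivity)
    · rw [Nat.card_Ico, nsmul_eq_mul]
      have a : ((B.card - 1 : ℕ) : ℝ) ≤ 2 * b0 := le_trans (by exact_mod_cast Nat.sub_le _ _) hb2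
      refine (mul_le_mul_of_nonneg_right a (by positivity)).trans (le_of_eq ?_)
      field_simp

end Pool.Agent.MP_f8284b_co.U85
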