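import Pool.Agent.MP_f8284b_co.U85.Basic

set_option autoImplicit false

/-! The good event is likely. -/

namespace Pool.Agent.MP_f8284b_co.U85

open Finset

namespace GOOD

variable {V : Type} [Fintype V] [DecidableEq V]

/-- the union of the dense sets of size `s` -/
def Bl (T s : ℕ) (ω : Sym2 V → Bool) : Finset V :=
  (univ.filter fun W : Finset V => W.card = s ∧ T ≤ ein ω W).biUnion id

/-- the union of the dense sets of size `s` that miss `u` -/
def Yu (T s : ℕ) (u : V) (ω : Sym2 V → Bool) : Finset V :=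
  (univ.filter fun W : Finset V => u ∉ W ∧ W.card = s ∧ T ≤ ein ω W).biUnion id

variable {T s : ℕ} {u x : V} {ω : Sym2 V → Bool}

lemma mem_Bl : x ∈ Bl T s ω ↔ ∃ W : Finset V, (W.card = s ∧ T ≤ ein ω W) ∧ x ∈ W := by
  simp [Bl]

lemma mem_Yu : x ∈ Yu T s u ω ↔ ∃ W : Finset V, (u ∉ W ∧ W.card = s ∧ T ≤ ein ω W) ∧ x ∈ W := by
  simp [Yu]

lemma Yu_sub : Yu T s u ω ⊆ Bl T s ω := fun _ h =>
  let ⟨W, a, b⟩ := mem_Yu.1 h; mem_Bl.2 ⟨W, a.2, b⟩

lemma not_mem_Yu : u ∉ Yu T s u ω := fun h => let ⟨_, a, b⟩ := mem_Yu.1 h; a.1 b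

lemma Yu_congr {ω' : Sym2 V → Bool} (h : ∀ e, u ∉ e → ω e = ω' e) : Yu T s u ω = Yu T s u ω' := by
  unfold Yu
  congr 1
  refine filter_congr fun W _ => and_congr_right fun a => ?_
  rw [ein_congr (ω' := ω') fun e he => h e fun b => a ((mem_prs.1 he).2 u b)]

/-- at most one dense set -/
def Uq (T s : ℕ) (ω : Sym2 V → Bool) : Prop := ∀ W W' : Finset V, W.card = s ∧ T ≤ ein ω W →
  W'.card = s ∧ T ≤ ein ω W' → W = W'

lemma Bl_eq (h : Uq T s ω) {W : Finset V} (a : W.card = s ∧ T ≤ ein ω W) : Bl T s ω = W := by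
  ext x
  exact mem_Bl.trans ⟨fun ⟨W', b, c⟩ => h _ _ b a ▸ c, fun c => ⟨W, a, c⟩⟩

lemma Bl_hi (h : Uq T s ω) (a : (Bl T s ω).Nonempty) :
    (Bl T s ω).card = s ∧ T ≤ ein ω (Bl T s ω) := by
  obtain ⟨x, hx⟩ := a
  obtain ⟨W, b, -⟩ := mem_Bl.1 hx
  rwa [Bl_eq h b]

lemma Yu_eq (a : u ∉ Bl T s ω) : Yu T s u ω = Bl T s ω :=
  Subset.antisymm Yu_sub fun _ h =>
    let ⟨W, b, c⟩ := mem_Bl.1 h; mem_Yu.2 ⟨W, ⟨fun d => a (mem_Bl.2 ⟨W, b, d⟩), b⟩, c⟩

lemma Yu_eq' (h : Uq T s ω) (a : (Yu T s u ω).Nonempty) : Yu T s u ω = Bl T s ω := by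
  obtain ⟨x, hx⟩ := a
  obtain ⟨W, b, -⟩ := mem_Yu.1 hx
  exact Yu_eq (by rw [Bl_eq h b.2]; exact b.1)

omit [Fintype V] in
lemma drop {R : Type} [DecidableEq R] (S : Finset R) {f : R → Finset V}
    (h : ∀ r r', r ≠ r' → Disjoint (f r) (f r')) (v : V) :
    S.card ≤ (S.filter fun r => v ∉ f r).card + 1 := by
  have a : (S.filter fun r => v ∈ f r).card ≤ 1 := card_le_one.2 fun r hr r' hr' => by
    by_contra c
    exact disjoint_left.1 (h r r' c) (mem_filter.1 hr).2 (mem_filter.1 hr').2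
  have b := card_filter_add_card_filter_not (s := S) fun r => v ∈ f r
  omega

omit [Fintype V] in
lemma kil_congr {R : Type} [Fintype R] {p j : ℕ} {w : V} {Y Y' : Fin p → R → Finset V}
    (h : ∀ k r, (Y k r).Nonempty → Y k r = Y' k r) (a : Kil ω j u w Y) : Kil ω j u w Y' := by
  obtain ⟨l, a1, a2, a3⟩ := a
  have e : ∀ F : Fin p → Finset V → ℚ, ∑ r : Fin p → R, l r * ∏ k, F k (Y' k (r k)) =
      ∑ r : Fin p → R, l r * ∏ k, F k (Y k (r k)) := fun F => sum_congr rfl fun r _ => by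
    by_cases c : l r = 0
    · rw [c, zero_mul, zero_mul]
    · rw [prod_congr rfl fun k _ => by rw [← h k _ (a1 r c k).1]]
  refine ⟨l, fun r c k => h k _ (a1 r c k).1 ▸ a1 r c k, ?_, fun ρ b1 b2 c hc => ?_⟩
  · rwa [e fun _ Z => (lab ω {u, w} Z : ℚ)]
  · rw [e fun k Z => PowerSeries.coeff (c k) (gen1 ω ρ Z)]
    exact a3 ρ b1 b2 c hc

variable {I : Type} {n g : ℕ} {δ : ℝ} {sz : I → ℕ}

omit [Fintype V] in
lemma sep_uq (h : Sep n δ sz ω) (i : I) : Uq (thr n δ (sz i) + g) (sz i) ω := fun W W' a b =>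
  (h i i W W' a.1 b.1 (le_of_add_le_left a.2) (le_of_add_le_left b.2)).1 rfl

lemma sep_iso (h : Sep n δ sz ω) : Iso ω sz g fun i => Bl (thr n δ (sz i) + g) (sz i) ω := by
  refine ⟨fun i a => ?_, fun i i' c => ?_⟩
  · have b := Bl_hi (sep_uq h i) a
    refine ⟨b.1, fun W c d => ?_⟩
    have : ein ω W < thr n δ (sz i) := lt_of_not_ge fun e =>
      d ((h i i _ _ c b.1 e (le_of_add_le_left b.2)).1 rfl)
    exact lt_of_lt_of_le (Nat.add_lt_add_right this g) b.2
  · refine disjoint_left.2 fun x a b => ?_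
    have a' := Bl_hi (sep_uq h i) ⟨x, a⟩
    have b' := Bl_hi (sep_uq h i') ⟨x, b⟩
    exact disjoint_left.1
      ((h i i' _ _ a'.1 b'.1 (le_of_add_le_left a'.2) (le_of_add_le_left b'.2)).2 c) a b

/-- the number of blocks in a slot -/
lemma slot {K R : Type} [Fintype R] [DecidableEq R] {sz : K × R → ℕ} (h : Sep n δ sz ω)
    (pos : ∀ i, 1 ≤ sz i) (k : K) : ((univ : Finset (R × Finset V)).filter
      (fun a => a.2.card = sz (k, a.1) ∧ thr n δ (sz (k, a.1)) + g ≤ ein ω a.2)).card ≤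
    (univ.filter fun r => (Bl (thr n δ (sz (k, r)) + g) (sz (k, r)) ω).Nonempty).card := by
  refine card_le_card_of_injOn Prod.fst (fun a ha => ?_) fun a ha b hb e => ?_
  · have := (mem_filter.1 ha).2
    refine mem_filter.2 ⟨mem_univ _, ?_⟩
    rw [Bl_eq (sep_uq h (k, a.1)) this, ← card_pos, this.1]
    exact pos _
  · have a' := (mem_filter.1 ha).2
    have b' := (mem_filter.1 hb).2
    rw [← show a.1 = b.1 from e] at b'
    exact Prod.ext e (sep_uq h (k, a.1) _ _ a' b')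

end GOOD

open GOOD in
theorem rowGOOD : RowGOOD := by
  intro kill odl sw V R _ _ _ _ n b0 D0 g p m δ μ η1 η2 sz hn hg hb sp hμ hm h1 h2
  have k := fun x : V × V × Sl p => kill odl sw V R p m (3 * (p + 1)) x.1 x.2.1
    (fun ω k r => Yu (thr n δ (sz ((x.2.2.1, x.2.2.2.succAbove k), r)) + g)
      (sz ((x.2.2.1, x.2.2.2.succAbove k), r)) x.1 ω)
    (fun ω ω' h => funext fun k => funext fun r => Yu_congr h) (fun ω k r => not_mem_Yu) (hn ▸ hm)
  have s2 := (Pr_exists_le univ _).trans (sum_le_sum fun k _ => h2 k)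
  have s3 := (Pr_exists_le univ _).trans (sum_le_sum fun x _ => k x)
  rw [sum_const, card_univ, card_Sl, nsmul_eq_mul] at s2
  rw [sum_const, card_univ, Fintype.card_prod, Fintype.card_prod V, card_Sl, hn, nsmul_eq_mul] at s3
  have s := (Pr_or_le _ _).trans (add_le_add ((Pr_or_le _ _).trans (add_le_add h1 s2)) s3)
  refine le_trans (Pr_mono fun ω bad => ?_) (s.trans_eq (by push_cast; ring))
  by_contra c
  rw [not_or, not_or, not_not] at c
  obtain ⟨⟨c1, c2⟩, c3⟩ := c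
  have iso := sep_iso (g := g) c1
  have many : ∀ k : Sl p, 2 * m + 2 ≤
      (univ.filter fun r => (Bl (thr n δ (sz (k, r)) + g) (sz (k, r)) ω).Nonempty).card := fun k => by
    refine le_trans ?_ (slot c1 (fun i => hb.trans (sp.1 i).1) k)
    have := le_of_not_gt fun a => c2 ⟨k, mem_univ _, a⟩
    exact_mod_cast (show (2 * m + 2 : ℝ) ≤ μ / 2 by linarith).trans this
  have dj : ∀ (k : Sl p) (r r' : R), r ≠ r' → Disjoint (Bl (thr n δ (sz (k, r)) + g) (sz (k, r)) ω)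
      (Bl (thr n δ (sz (k, r')) + g) (sz (k, r')) ω) := fun k r r' a =>
    iso.2 (k, r) (k, r') fun e => a (congrArg Prod.snd e)
  refine bad ⟨_, iso, fun u w a k0 => ?_, fun u => ?_⟩
  · refine kil_congr (fun k r => Yu_eq' (u := u) (sep_uq c1 ((a, k0.succAbove k), r))) ?_
    by_contra d
    refine c3 ⟨(u, w, a, k0), mem_univ _, fun k r k' r' e => ?_, fun k => ?_, d⟩
    · refine (iso.2 ((a, k0.succAbove k), r) ((a, k0.succAbove k'), r') fun f => e ?_).mono
        Yu_sub Yu_sub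
      rw [Fin.succAbove_right_injective (congrArg (fun z => z.1.2) f),
        show r = r' from congrArg Prod.snd f]
    · have a1 := many (a, k0.succAbove k)
      have a2 := a1.trans (drop _ (dj (a, k0.succAbove k)) u)
      have a3 := a2.trans (Nat.add_le_add_right (drop _ (dj (a, k0.succAbove k)) w) 1)
      refine le_trans (Nat.le_of_add_le_add_right (b := 2) a3) (card_le_card fun r hr => ?_)
      obtain ⟨b1, b2⟩ := mem_filter.1 hr
      obtain ⟨b1, b3⟩ := mem_filter.1 b1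
      refine mem_filter.2 ⟨mem_univ _, ?_⟩
      rw [Yu_eq b3]
      exact ⟨(mem_filter.1 b1).2, b2⟩
  · have a2 := (many (0, 0)).trans (drop _ (dj (0, 0)) u)
    obtain ⟨r, hr⟩ := card_pos.1 (lt_of_lt_of_le (show 0 < 2 * m + 1 by omega)
      (Nat.le_of_add_le_add_right (b := 1) a2))
    obtain ⟨b1, b2⟩ := mem_filter.1 hr
    have b3 := Bl_hi (sep_uq c1 ((0, 0), r)) (mem_filter.1 b1).2
    refine lt_of_lt_of_le (lt_of_lt_of_le (by omega) b3.2) (ein_mono ω fun x hx => ?_)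
    exact mem_sdiff.2 ⟨mem_univ _, fun e => b2 (mem_singleton.1 e ▸ hx)⟩

end Pool.Agent.MP_f8284b_co.U85
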