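import Mathlib
import Pool.Agent.MP_f8284b_co.U85.Basic

set_option autoImplicit false

/-! Assembly of the rows. -/

namespace Pool.Agent.MP_f8284b_co.U85

open Finset Filter Topology

theorem det (hINH : RowINH) (hTOP : RowTOP) (hKE1 : RowKE1) (hKEL : RowKEL) (hEDG : RowEDG)
    (hTEN : RowTEN) (hCF : RowCF) (hSP : RowSP) (hLU : RowLU) (hIND : RowIND) (hSA : RowSA)
    (hSB : RowSB) (hSC : RowSC) {V R : Type} [Fintype V] [DecidableEq V] [Fintype R]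
    [DecidableEq R] (p : ℕ) (sz : Sl p × R → ℕ) (ω ω' : Sym2 V → Bool)
    (hs : Same (3 * (p + 1) + 2) ω ω')
    (hg : Good p sz ((2 * (3 * (p + 1))).choose 2 + 1) ω) :
    ∃ φ : V ≃ V, ∀ u w, u ≠ w → ω s(u, w) = ω' s(φ u, φ w) := by
  obtain ⟨B, hI, hG, hE⟩ := hg
  obtain ⟨B', hI', hc⟩ := hINH V _ _ _ ω ω' sz B (by omega) hs hI
  have hsh : Shape B B' := ⟨hI.2, hI'.2, fun i => (hc i).1⟩
  have hk : ∀ J : Finset (Sl p × R), J.card ≤ Fintype.card (Sl p) → ∀ r s, r ≤ 2 →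
      s ≤ 3 * (p + 1) →
      kel ω (univ \ J.biUnion B) r s = kel ω' (univ \ J.biUnion B') r s := by
    intro J hJ
    rw [card_Sl] at hJ
    refine hKEL hKE1 V ω ω' _ _ (3 * (p + 1)) (card_compl_biUnion hsh J) ?_
    intro β β' z hβ hβ'
    refine hTOP V _ _ _ ω ω' sz B B' J β β' z hs hI hI' hc (by omega) ?_
    have h1 : β.choose 2 ≤ (2 * (3 * (p + 1))).choose 2 := Nat.choose_le_choose 2 hβ
    have h2 : β'.choose 2 ≤ Nat.choose 2 2 := Nat.choose_le_choose 2 hβ'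
    rw [Nat.choose_self] at h2
    omega
  have ht := hTEN hEDG V (Sl p) R ω ω' B B' (3 * (p + 1)) (by omega) hsh hk
  have hA := hSA hCF hLU hIND hSP V R p ω ω' B B' hsh hG (ht 1 _ (by omega) (by omega))
  obtain ⟨φ, hB⟩ := hSB hCF hLU hIND hSP V R p ω ω' B B' hsh hG hE hA (ht 1 _ (by omega) le_rfl)
  exact ⟨φ, hSC hCF hSP V R p ω ω' B B' φ hsh hG hB (ht 2 _ le_rfl le_rfl)⟩

lemma exists_spaced (I : Type) [Fintype I] (b0 D0 : ℕ) (h : D0 * Fintype.card I ≤ b0) :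
    ∃ sz : I → ℕ, Spaced b0 D0 sz := by
  let e := Fintype.equivFin I
  refine ⟨fun i => b0 + D0 * (e i : ℕ), fun i => ⟨Nat.le_add_right _ _, ?_⟩, fun i i' hii => ?_⟩
  · have := Nat.mul_le_mul_left D0 (e i).2.le
    show b0 + D0 * (e i : ℕ) ≤ 2 * b0
    omega
  · have hne : (e i : ℕ) ≠ (e i' : ℕ) := fun h => hii (e.injective (Fin.ext h))
    show b0 + D0 * (e i : ℕ) + D0 ≤ b0 + D0 * (e i' : ℕ) ∨
      b0 + D0 * (e i' : ℕ) + D0 ≤ b0 + D0 * (e i : ℕ)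
    rcases Nat.lt_or_gt_of_ne hne with h1 | h1
    · left
      have := Nat.mul_le_mul_left D0 (Nat.succ_le_of_lt h1)
      rw [Nat.mul_succ] at this; omega
    · right
      have := Nat.mul_le_mul_left D0 (Nat.succ_le_of_lt h1)
      rw [Nat.mul_succ] at this; omega

theorem prob (hPB : RowPB) (h1 : RowAN1) (h2 : RowAN2) (h3 : RowAN3) (hXS : RowXS) (hXF : RowXF)
    (hX2 : RowX2) (hFL1 : RowFL1) (hFL2 : RowFL2) (hOVS : RowOVS) (hOVL : RowOVL) (hOVT : RowOVT)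
    (hBAD : RowBAD) (hCH : RowCH) (hMANY : RowMANY) (hODL : RowODL) (hSW : RowSW)
    (hKILL : RowKILL) (hGOOD : RowGOOD) (hNUM : RowNUM) (A p g : ℕ) (hA : 10 ^ 10 ≤ A)
    (hp : p = 2 * A + 1) (hg : 1 ≤ g) (ε : ℝ) (hε : 0 < ε) :
    ∀ᶠ n : ℕ in atTop, ∃ (m : ℕ) (sz : Sl p × Fin (m ^ 5) → ℕ),
      Pr (fun ω : Sym2 (Fin n) → Bool => ¬ Good p sz g ω) ≤ ε := by
  filter_upwards [hNUM A p g hA hp ε hε] with n ⟨m, hP, hm, hμ, hd, he⟩
  have hm1 : 1 ≤ m := by omega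
  have hmR : (1 : ℝ) ≤ m := by exact_mod_cast hm1
  have hcard : Fintype.card (Sl p × Fin (m ^ 5)) = 3 * (p + 1) * m ^ 5 := by
    rw [Fintype.card_prod, card_Sl, Fintype.card_fin]
  obtain ⟨sz, hsz⟩ := exists_spaced (Sl p × Fin (m ^ 5)) (m ^ 7) m (by
    rw [hcard]
    calc m * (3 * (p + 1) * m ^ 5) ≤ m * (m * m ^ 5) :=
          Nat.mul_le_mul_left _ (Nat.mul_le_mul_right _ hm)
      _ = m ^ 7 := by ring)
  refine ⟨m, sz, ?_⟩
  have xs : ∀ b, m ^ 7 ≤ b → b ≤ 2 * m ^ 7 → XS n (m ^ 7) (1 / (m : ℝ) ^ 3) b :=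
    fun b hb hb' => hXS h1 h2 h3 n _ _ g _ b hP hb hb'
  have xf : ∀ b, m ^ 7 ≤ b → b ≤ 2 * m ^ 7 → XF n (m ^ 7) g (1 / (m : ℝ) ^ 3) b :=
    fun b hb hb' => hXF h1 h2 h3 n _ _ g _ b hP hb hb' (xs b hb hb')
  have fl := hFL2 hFL1 hPB h1 (Fin n) n _ _ g _ hP xf
  have ov := hOVT hOVS hOVL hPB h1 h3 (Fin n) n _ _ g _ (Fintype.card_fin n) hP xf
    (fun b b' a1 a2 a3 => hX2 h3 n _ _ g _ b b' hP a1 a2 a3 (xs b (by omega) a3)
      (xs b' a1 (by omega)) (xf b' a1 (by omega)))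
  have bad := hBAD hPB (Fin n) _ n _ _ g _ sz (Fintype.card_fin n) hP xf fl ov hsz
  have hq : ((m ^ 5 : ℕ) : ℝ) * (1 / (m : ℝ) ^ 3) = (m : ℝ) ^ 2 := by
    push_cast; field_simp
  have many : ∀ k : Sl p, Pr (fun ω : Sym2 (Fin n) → Bool =>
      (((univ : Finset (Fin (m ^ 5) × Finset (Fin n))).filter
        (fun a => a.2.card = sz (k, a.1) ∧
          thr n (1 / (m : ℝ) ^ 3) (sz (k, a.1)) + g ≤ ein ω a.2)).card : ℝ) <
          (m : ℝ) ^ 2 / 2 ^ (g + 2) / 2) ≤ 12 / ((m : ℝ) ^ 2 / 2 ^ (g + 2)) := by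
    intro k
    have := hMANY hCH hPB (Fin n) (Fin (m ^ 5)) n _ _ g _ (fun r => sz (k, r))
      (Fintype.card_fin n) hP xf fl ov
      ⟨fun r => hsz.1 _, fun r r' hr => hsz.2 _ _ (fun h => hr (Prod.mk.inj h).2)⟩
      (by
        rw [Fintype.card_fin]; push_cast
        have e1 : ((m : ℝ) ^ 5) ^ 2 * (1 / (m : ℝ) ^ 3) = (m : ℝ) ^ 7 := by field_simp
        rw [e1, ← pow_mul]
        exact pow_le_pow_right₀ hmR (by norm_num))
      (by rw [Fintype.card_fin, hq]; linarith)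
    rw [Fintype.card_fin, hq] at this
    exact this
  have good := hGOOD hKILL hODL hSW (Fin n) (Fin (m ^ 5)) n (m ^ 7) m g p m _ _ _ _ sz
    (Fintype.card_fin n) hg (Nat.one_le_pow _ _ hm1) hsz hμ hd bad many
  refine le_trans good (le_trans (le_of_eq ?_) he)
  rw [hcard]; push_cast; ring

lemma om_mk {V : Type} (G : SimpleGraph V) (u w : V) : om G s(u, w) = true ↔ G.Adj u w := by
  simp [om]

lemma dat_congr {V κ : Type} [Fintype V] [DecidableEq V] [Fintype κ] [DecidableEq κ]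
    {ω ω' : Sym2 V → Bool} (h : ∀ W, ein ω W = ein ω' W) (c : κ → ℕ) (z : ℕ) :
    dat ω c z = dat ω' c z := by
  unfold dat
  exact congrArg card (filter_congr fun W _ => by simp only [h])

theorem glue (hPAD : RowPAD) (hINH : RowINH) (hTOP : RowTOP) (hKE1 : RowKE1) (hKEL : RowKEL)
    (hEDG : RowEDG) (hTEN : RowTEN) (hCF : RowCF) (hSP : RowSP) (hLU : RowLU) (hIND : RowIND)
    (hSA : RowSA) (hSB : RowSB) (hSC : RowSC) (hU1 : RowUD1) (hU2 : RowUD2) (hU3 : RowUD3)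
    (hU4 : RowUD4) (hPB : RowPB) (h1 : RowAN1) (h2 : RowAN2) (h3 : RowAN3) (hXS : RowXS)
    (hXF : RowXF) (hX2 : RowX2) (hFL1 : RowFL1) (hFL2 : RowFL2) (hOVS : RowOVS) (hOVL : RowOVL)
    (hOVT : RowOVT) (hBAD : RowBAD) (hCH : RowCH) (hMANY : RowMANY) (hODL : RowODL) (hSW : RowSW)
    (hKILL : RowKILL) (hGOOD : RowGOOD) (hNUM : RowNUM) (hTR : RowTR) :
    ∃ t : ℕ, Tendsto (fun n : ℕ =>
      (Nat.card {G : SimpleGraph (Fin n) //
          ∀ H : SimpleGraph (Fin n), Uspec t G = Uspec t H → Nonempty (G ≃g H)} : ℝ) /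
        (Nat.card (SimpleGraph (Fin n)) : ℝ)) atTop (𝓝 1) := by
  obtain ⟨A, hA⟩ : ∃ A : ℕ, 10 ^ 10 ≤ A := ⟨_, le_rfl⟩
  obtain ⟨p, hp⟩ : ∃ p : ℕ, p = 2 * A + 1 := ⟨_, rfl⟩
  refine ⟨3 * (p + 1) + 2, ?_⟩
  rw [tendsto_order]
  refine ⟨fun a ha => ?_, fun a ha => Eventually.of_forall fun n => lt_of_le_of_lt ?_ ha⟩
  · filter_upwards [prob hPB h1 h2 h3 hXS hXF hX2 hFL1 hFL2 hOVS hOVL hOVT hBAD hCH hMANY hODL
      hSW hKILL hGOOD hNUM A p ((2 * (3 * (p + 1))).choose 2 + 1) hA hp (by omega)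
      ((1 - a) / 2) (by linarith)] with n ⟨m, sz, hpr⟩
    refine lt_of_lt_of_le ?_ (hTR n _ (Good p sz ((2 * (3 * (p + 1))).choose 2 + 1)) ?_)
    · linarith
    · intro ω G hG hgood H hGH
      rw [hU3 hU1 hU2, hU3 hU1 hU2] at hGH
      have hd := hU4 n _ _ _ hGH
      have hom : ∀ W : Finset (Fin n), ein ω W = ein (om G) W := fun W => ein_congr fun e he => by
        induction e using Sym2.ind with
        | _ u w =>
          have hne := (mk_mem_prs.1 he).2.2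
          have := hG u w
          rw [Bool.eq_iff_iff, om_mk, this]
          exact ⟨fun h => ⟨hne, h⟩, fun h => h.2⟩
      have hd' : ∀ (c : Fin (3 * (p + 1) + 2) → ℕ) (z : ℕ), dat ω c z = dat (om H) c z := by
        intro c z
        rw [← hd c z]
        exact dat_congr hom c z
      obtain ⟨φ, hφ⟩ := det hINH hTOP hKE1 hKEL hEDG hTEN hCF hSP hLU hIND hSA hSB hSC p sz ω
        (om H) (hPAD (Fin n) _ _ _ hd') hgood
      refine ⟨⟨φ, fun {u w} => ?_⟩⟩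
      by_cases huw : u = w
      · subst huw; simp
      · rw [hG u w, hφ u w huw, om_mk]
        exact ⟨fun h => ⟨huw, h⟩, fun h => h.2⟩
  · refine div_le_one_of_le₀ ?_ (by positivity)
    exact_mod_cast Finite.card_subtype_le _

end Pool.Agent.MP_f8284b_co.U85
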