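import Pool.Agent.MP_f8284b_co.U85.Basic

set_option autoImplicit false

/-! Independence of the product functions attached to vertices. -/

namespace Pool.Agent.MP_f8284b_co.U85

open Finset

theorem rowIND : RowIND := by
  intro hSP V R U _ _ _ p ω B a ι f hG hι h1 h2
  classical
  rw [Fintype.linearIndependent_iff]
  intro g hg u
  obtain ⟨k0, o, ho, hk⟩ := h1 u
  obtain ⟨l, hl1, hl2, hl3⟩ := hG (ι u) (ι u) a k0
  have e : ∀ r : Fin p → R,
      ∑ v, g v * (f v k0 o * ∏ k : Fin p, f v (k0.succAbove k) (some (r k))) = 0 := by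
    intro r
    have := congrFun hg (Fin.insertNth (α := fun _ => Option R) k0 o (fun k => some (r k)))
    rw [Finset.sum_apply] at this
    simp only [Pi.smul_apply, smul_eq_mul, Pi.zero_apply] at this
    rw [← this]
    refine sum_congr rfl fun v _ => ?_
    rw [Fin.prod_univ_succAbove _ k0]
    simp only [Fin.insertNth_apply_same, Fin.insertNth_apply_succAbove]
  have e2 : ∑ v, g v * f v k0 o *
      ∑ r : Fin p → R, l r * ∏ k : Fin p, f v (k0.succAbove k) (some (r k)) = 0 := by
    have : ∑ r : Fin p → R, l r *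
        ∑ v, g v * (f v k0 o * ∏ k : Fin p, f v (k0.succAbove k) (some (r k))) = 0 :=
      sum_eq_zero fun r _ => by rw [e r, mul_zero]
    rw [← this]
    simp only [mul_sum]
    rw [sum_comm]
    exact sum_congr rfl fun r _ => sum_congr rfl fun v _ => by ring
  have hne : ∀ v, v ≠ u →
      ∑ r : Fin p → R, l r * ∏ k : Fin p, f v (k0.succAbove k) (some (r k)) = 0 := by
    intro v hv
    choose α β hαβ using h2 v
    have hK := hl3 {ι v} (by simp) (by
      rw [mem_singleton]
      exact fun h => hv (hι h).symm)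
    have := (hSP V R p (3 * (p + 1)) ω _ l {ι v} (by omega) hK).1
      (fun k => α (k0.succAbove k)) (fun k => β (k0.succAbove k))
    rw [← this]
    refine sum_congr rfl fun r _ => ?_
    by_cases h0 : l r = 0
    · rw [h0, zero_mul, zero_mul]
    · congr 1
      exact prod_congr rfl fun k _ => hαβ _ _ (hl1 r h0 k).1
  have hu : ∑ r : Fin p → R, l r * ∏ k : Fin p, f u (k0.succAbove k) (some (r k)) ≠ 0 := by
    intro h
    apply hl2
    rw [← h]
    refine sum_congr rfl fun r _ => ?_
    by_cases h0 : l r = 0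
    · rw [h0, zero_mul, zero_mul]
    · congr 1
      refine prod_congr rfl fun k _ => ?_
      rw [hk _ (Fin.succAbove_ne k0 k) _ (hl1 r h0 k).1 (hl1 r h0 k).2.1, pair_eq_singleton]
  rw [sum_eq_single u (fun v _ hv => by rw [hne v hv, mul_zero]) (by simp)] at e2
  exact (mul_eq_zero.1 ((mul_eq_zero.1 e2).resolve_right hu)).resolve_right ho

end Pool.Agent.MP_f8284b_co.U85
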