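import Mathlib
import Pool.Agent.MP_f8284b_co.U85.Basic

set_option autoImplicit false

/-! Isolated blocks are inherited by a graph with the same data. -/

namespace Pool.Agent.MP_f8284b_co.U85

open Finset

namespace INH

variable {V : Type} [Fintype V] [DecidableEq V] {t g : ℕ} {ω ω' : Sym2 V → Bool}

lemma dat_unit (ω : Sym2 V → Bool) (c z : ℕ) : dat ω (fun _ : Unit => c) z =
    (univ.filter fun W : Finset V => W.card = c ∧ ein ω W = z).card := by
  unfold dat
  refine card_equiv (Equiv.funUnique Unit (Finset V)) fun W => ?_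
  simp [Unique.forall_iff]

lemma dat_pos {κ : Type} [Fintype κ] [DecidableEq κ] {c : κ → ℕ} {z : ℕ} : 0 < dat ω c z ↔
    ∃ W : κ → Finset V, (∀ k, (W k).card = c k) ∧ (∀ k l, k ≠ l → Disjoint (W k) (W l)) ∧
      ∑ k, ein ω (W k) = z := by
  unfold dat
  rw [card_pos, filter_nonempty_iff]
  simp only [mem_univ, true_and]

lemma one (ht : 2 ≤ t) (h : Same t ω ω') {c : ℕ} {B : Finset V} (hc : B.card = c)
    (hB : ∀ W : Finset V, W.card = c → W ≠ B → ein ω W + g < ein ω B) :
    ∃ B' : Finset V, B'.card = c ∧ ein ω' B' = ein ω B ∧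
      ∀ W : Finset V, W.card = c → W ≠ B' → ein ω' W + g < ein ω' B' := by
  have e : ∀ z, (univ.filter fun W : Finset V => W.card = c ∧ ein ω W = z).card =
      (univ.filter fun W : Finset V => W.card = c ∧ ein ω' W = z).card := fun z => by
    rw [← dat_unit, ← dat_unit]
    exact h Unit (by simpa using le_trans one_le_two ht) _ z
  have e1 : (univ.filter fun W : Finset V => W.card = c ∧ ein ω W = ein ω B) = {B} := by
    ext W
    simp only [mem_filter, mem_univ, true_and, mem_singleton]
    refine ⟨fun k => by_contra fun n => ?_, fun k => by rw [k]; exact ⟨hc, rfl⟩⟩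
    have := hB W k.1 n
    omega
  have e2 := e (ein ω B)
  rw [e1, card_singleton] at e2
  obtain ⟨B', hB'⟩ := card_eq_one.1 e2.symm
  have m : ∀ W : Finset V, W.card = c ∧ ein ω' W = ein ω B ↔ W = B' := fun W => by
    simpa using Finset.ext_iff.1 hB' W
  obtain ⟨a, b⟩ := (m B').2 rfl
  refine ⟨B', a, b, fun W hW n => ?_⟩
  obtain ⟨W₀, k⟩ : (univ.filter fun X : Finset V => X.card = c ∧ ein ω X = ein ω' W).Nonempty := by
    rw [← card_pos, e, card_pos]
    exact ⟨W, by simp [hW]⟩
  obtain ⟨k1, k2⟩ := (mem_filter.1 k).2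
  by_cases q : W₀ = B
  · exact absurd ((m W).1 ⟨hW, by rw [← k2, q]⟩) n
  · rw [b, ← k2]
    exact hB W₀ k1 q

lemma two (ht : 2 ≤ t) (h : Same t ω ω') {X Y X' Y' : Finset V} (d : Disjoint X Y)
    (eX : ein ω' X' = ein ω X) (eY : ein ω' Y' = ein ω Y)
    (hX : ∀ W : Finset V, W.card = X.card → W ≠ X' → ein ω' W + g < ein ω' X')
    (hY : ∀ W : Finset V, W.card = Y.card → W ≠ Y' → ein ω' W + g < ein ω' Y') :
    Disjoint X' Y' := by
  have e := h Bool (by simpa using ht) (fun b => if b = true then X.card else Y.card)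
    (ein ω X + ein ω Y)
  have p : 0 < dat ω (fun b : Bool => if b = true then X.card else Y.card) (ein ω X + ein ω Y) :=
    dat_pos.2 ⟨fun b => if b = true then X else Y, fun b => by cases b <;> simp,
      fun a b n => by cases a <;> cases b <;> simp_all [d.symm], by simp⟩
  rw [e] at p
  obtain ⟨W, k1, k2, k3⟩ := dat_pos.1 p
  have a := hX (W true) (by simpa using k1 true)
  have b := hY (W false) (by simpa using k1 false)
  rw [Fintype.sum_bool] at k3
  have a' : ein ω' (W true) ≤ ein ω' X' := by
    by_cases q : W true = X'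
    · rw [q]
    · have := a q; omega
  have b' : ein ω' (W false) ≤ ein ω' Y' := by
    by_cases q : W false = Y'
    · rw [q]
    · have := b q; omega
  have c1 : W true = X' := by_contra fun q => by have := a q; omega
  have c2 : W false = Y' := by_contra fun q => by have := b q; omega
  rw [← c1, ← c2]
  exact k2 true false (by simp)

end INH

theorem rowINH : RowINH := by
  intro V I _ _ t g ω ω' sz B ht h hB
  have ex : ∀ i, ∃ B' : Finset V, B'.card = (B i).card ∧ ein ω' B' = ein ω (B i) ∧
      ((B i).Nonempty → ∀ W : Finset V, W.card = sz i → W ≠ B' → ein ω' W + g < ein ω' B') :=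
    fun i => by
      rcases (B i).eq_empty_or_nonempty with e | e
      · exact ⟨∅, by simp [e], by simp [e], fun n => absurd e n.ne_empty⟩
      · obtain ⟨B', a, b, c⟩ := INH.one ht h (hB.1 i e).1 (hB.1 i e).2
        exact ⟨B', a.trans (hB.1 i e).1.symm, b, fun _ => c⟩
  choose B' a b c using ex
  have n : ∀ i, (B' i).Nonempty → (B i).Nonempty := fun i k => by
    rwa [← card_pos, a, card_pos] at k
  refine ⟨B', ⟨fun i k => ⟨(a i).trans (hB.1 i (n i k)).1, c i (n i k)⟩, fun i i' ne => ?_⟩,
    fun i => ⟨a i, b i⟩⟩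
  rcases (B' i).eq_empty_or_nonempty with e | e
  · simp [e]
  rcases (B' i').eq_empty_or_nonempty with e' | e'
  · simp [e']
  exact INH.two (g := g) ht h (hB.2 i i' ne) (b i) (b i')
    (fun W k => c i (n i e) W (k.trans (hB.1 i (n i e)).1))
    fun W k => c i' (n i' e') W (k.trans (hB.1 i' (n i' e')).1)

end Pool.Agent.MP_f8284b_co.U85
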