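import Pool.Agent.MP_f8284b_co.U85.Basic

set_option autoImplicit false

/-! Counting sets of edges by their vertex span. -/

namespace Pool.Agent.MP_f8284b_co.U85

open Finset

theorem rowKE1 : RowKE1 := by
  intro V _ ω s
  refine ⟨fun Y => ((((prs Y).filter fun e => ω e = true).powersetCard s).filter
    fun F => F.biUnion Sym2.toFinset = Y).card, fun Y hY => ?_, fun W => ?_⟩
  · refine card_eq_zero.2 (filter_eq_empty_iff.2 fun F hF e => ?_)
    have h := card_biUnion_le_card_mul F Sym2.toFinset 2 fun a _ => by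
      rw [Sym2.card_toFinset]
      split_ifs <;> omega
    rw [e, (mem_powersetCard.1 hF).2] at h
    omega
  · rw [ein, cnt, ← card_powersetCard, card_eq_sum_card_fiberwise
      (f := fun F => F.biUnion Sym2.toFinset) (t := W.powerset)]
    · refine sum_congr rfl fun Y hY => congrArg card (Finset.ext fun F => ?_)
      simp only [mem_filter, mem_powersetCard]
      refine and_congr_left fun e => and_congr_left fun _ => ⟨fun h a ha => ?_, fun h =>
        h.trans (filter_subset_filter _ (prs_mono (mem_powerset.1 hY)))⟩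
      obtain ⟨h1, h2⟩ := mem_filter.1 (h ha)
      exact mem_filter.2 ⟨mem_prs.2 ⟨(mem_prs.1 h1).1, fun v hv =>
        e ▸ mem_biUnion.2 ⟨a, ha, Sym2.mem_toFinset.2 hv⟩⟩, h2⟩
    · intro F hF
      refine mem_coe.2 (mem_powerset.2 fun v hv => ?_)
      obtain ⟨a, ha, h⟩ := mem_biUnion.1 hv
      exact (mem_prs.1 (mem_filter.1 ((mem_powersetCard.1 (mem_coe.1 hF)).1 ha)).1).2 v
        (Sym2.mem_toFinset.1 h)

end Pool.Agent.MP_f8284b_co.U85
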