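import Pool.Agent.MP_f8284b_co.U85.Basic

set_option autoImplicit false

/-! Kelly counting: binomial moments of edge counts off a root, from the pair data. -/

namespace Pool.Agent.MP_f8284b_co.U85

open Finset

namespace KEL

variable {V : Type} [DecidableEq V]

/-- sums over pairs in terms of the data -/
lemma pair_sum (ω : Sym2 V → Bool) (U : Finset V) (β r : ℕ) (f : ℕ → ℕ) :
    ∑ ρ ∈ U.powersetCard r, ∑ W ∈ (U \ ρ).powersetCard β, f (ein ω W + ein ω ρ) =
      ∑ z ∈ range (β.choose 2 + r.choose 2 + 1), dat2 ω U β r z * f z := by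
  have e1 : ∑ ρ ∈ U.powersetCard r, ∑ W ∈ (U \ ρ).powersetCard β, f (ein ω W + ein ω ρ) =
      ∑ W ∈ (U.powersetCard β ×ˢ U.powersetCard r).filter (fun W => Disjoint W.1 W.2),
        f (ein ω W.1 + ein ω W.2) := by
    symm
    refine sum_finset_product_right _ _ _ fun W => ?_
    simp only [mem_filter, mem_product, mem_powersetCard, subset_sdiff]
    tauto
  rw [e1, ← sum_fiberwise_of_maps_to' (g := fun W : Finset V × Finset V => ein ω W.1 + ein ω W.2)
    (t := range (β.choose 2 + r.choose 2 + 1))]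
  · refine sum_congr rfl fun z _ => ?_
    rw [sum_const, smul_eq_mul, filter_filter, dat2]
  · intro W hW
    simp only [mem_filter, mem_product, mem_powersetCard] at hW
    have h1 := ein_le ω W.1
    have h2 := ein_le ω W.2
    rw [hW.1.1.2] at h1
    rw [hW.1.2.2] at h2
    exact mem_range.2 (by omega)

/-- moments over sets of a given size avoiding a root -/
def Phi (ω : Sym2 V → Bool) (U : Finset V) (r s β : ℕ) : ℕ :=
  ∑ ρ ∈ rts ω U r, ∑ W ∈ (U \ ρ).powersetCard β, (ein ω W).choose s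

lemma Phi_low (ω : Sym2 V → Bool) (U : Finset V) {r : ℕ} (hr : r ≤ 1) (s β : ℕ) :
    Phi ω U r s β =
      ∑ z ∈ range (β.choose 2 + r.choose 2 + 1), dat2 ω U β r z * z.choose s := by
  have h0 : ∀ ρ ∈ U.powersetCard r, ein ω ρ = 0 := fun ρ hρ => by
    have h := ein_le ω ρ
    rw [(mem_powersetCard.1 hρ).2, Nat.choose_eq_zero_of_lt (by omega)] at h
    omega
  rw [← pair_sum ω U β r fun z => z.choose s, Phi, rts,
    filter_true_of_mem fun ρ hρ => by rw [h0 ρ hρ]; omega]
  exact sum_congr rfl fun ρ hρ => by rw [h0 ρ hρ]; rfl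

lemma Phi_two (ω : Sym2 V → Bool) (U : Finset V) (s β : ℕ) :
    Phi ω U 2 s β + (U.card - β).choose 2 * Phi ω U 0 (s + 1) β =
      ∑ z ∈ range (β.choose 2 + Nat.choose 2 2 + 1), dat2 ω U β 2 z * z.choose (s + 1) := by
  have e1 : (U.card - β).choose 2 * Phi ω U 0 (s + 1) β =
      ∑ ρ ∈ U.powersetCard 2, ∑ W ∈ (U \ ρ).powersetCard β, (ein ω W).choose (s + 1) := by
    rw [Phi, rts_zero, sum_singleton, sdiff_empty, mul_sum,
      sum_comm' (t' := U.powersetCard β) (s' := fun W => (U \ W).powersetCard 2)]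
    · refine sum_congr rfl fun W hW => ?_
      obtain ⟨h1, h2⟩ := mem_powersetCard.1 hW
      rw [sum_const, smul_eq_mul, card_powersetCard, card_sdiff_of_subset h1, h2]
    · intro ρ W
      simp only [mem_powersetCard, subset_sdiff, disjoint_comm (a := ρ)]
      tauto
  rw [← pair_sum ω U β 2 fun z => z.choose (s + 1), e1, Phi, rts, sum_filter, ← sum_add_distrib]
  refine sum_congr rfl fun ρ hρ => ?_
  have h := ein_le ω ρ
  rw [(mem_powersetCard.1 hρ).2, Nat.choose_self] at h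
  split_ifs with k
  · rw [← sum_add_distrib, k]
    exact sum_congr rfl fun W _ => (Nat.choose_succ_succ' _ _).symm
  · rw [zero_add, (by omega : ein ω ρ = 0)]
    rfl

lemma fib (X : Finset V) (M : ℕ) (F : Finset V → ℕ) (h : ∀ Y ⊆ X, M ≤ Y.card → F Y = 0) :
    ∑ Y ∈ X.powerset, F Y = ∑ w ∈ range M, ∑ Y ∈ X.powersetCard w, F Y := by
  simp only [powersetCard_eq_filter]
  rw [sum_fiberwise_eq_sum_filter, sum_filter_of_ne]
  intro Y hY ne
  by_contra k
  exact ne (h Y (mem_powerset.1 hY) (by simpa using k))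

lemma between (X : Finset V) (β : ℕ) (ψ : Finset V → ℕ) :
    ∑ W ∈ X.powersetCard β, ∑ Y ∈ W.powerset, ψ Y =
      ∑ w ∈ range (β + 1), (X.card - w).choose (β - w) * ∑ Y ∈ X.powersetCard w, ψ Y := by
  rw [sum_congr rfl fun W hW => fib W (β + 1) ψ fun Y hY k => by
    have := card_le_card hY
    rw [(mem_powersetCard.1 hW).2] at this
    omega, sum_comm]
  refine sum_congr rfl fun w hw => ?_
  rw [mul_sum, sum_comm' (t' := X.powersetCard w)
    (s' := fun Y => (X.powersetCard β).filter fun W => Y ⊆ W)]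
  · refine sum_congr rfl fun Y hY => ?_
    obtain ⟨h1, h2⟩ := mem_powersetCard.1 hY
    rw [sum_const, smul_eq_mul, card_filter_powersetCard_subset _ _ _ h1
      (by rw [h2]; exact Nat.lt_succ_iff.1 (mem_range.1 hw)), h2]
  · intro W Y
    simp only [mem_filter, mem_powersetCard]
    exact ⟨fun k => ⟨⟨k.1, k.2.1⟩, k.2.1.trans k.1.1, k.2.2⟩, fun k => ⟨k.1.1, k.1.2, k.2.2⟩⟩

/-- triangular form of both quantities -/
lemma tri (ke : RowKE1) (ω : Sym2 V → Bool) (U : Finset V) (r s : ℕ) : ∃ Ψ : ℕ → ℕ,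
    (∀ β, Phi ω U r s β = ∑ w ∈ range β, (U.card - r - w).choose (β - w) * Ψ w + Ψ β) ∧
      kel ω U r s = ∑ w ∈ range (2 * s + 1), Ψ w := by
  obtain ⟨ψ, h1, h2⟩ := ke V ω s
  refine ⟨fun w => ∑ ρ ∈ rts ω U r, ∑ Y ∈ (U \ ρ).powersetCard w, ψ Y, fun β => ?_, ?_⟩
  · simp only [Phi, h2, between, mul_sum (rts ω U r)]
    rw [sum_comm (s := range β), ← sum_add_distrib]
    refine sum_congr rfl fun ρ hρ => ?_
    obtain ⟨k1, k2, -⟩ := mem_rts.1 hρ
    rw [sum_range_succ, Nat.sub_self, Nat.choose_zero_right, one_mul, card_sdiff_of_subset k1, k2]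
  · rw [kel, sum_comm]
    exact sum_congr rfl fun ρ _ => by rw [h2, fib _ _ ψ fun Y _ k => h1 Y k]

end KEL

theorem rowKEL : RowKEL := by
  intro ke V _ ω ω' U U' j hc hd r s hr hs
  have low : ∀ r s β, r ≤ 1 → β ≤ 2 * j → KEL.Phi ω U r s β = KEL.Phi ω' U' r s β := by
    intro r s β hr hβ
    rw [KEL.Phi_low ω U hr, KEL.Phi_low ω' U' hr]
    exact sum_congr rfl fun z _ => by rw [hd β r z hβ (by omega)]
  have all : ∀ β, β ≤ 2 * j → KEL.Phi ω U r s β = KEL.Phi ω' U' r s β := by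
    intro β hβ
    rcases Nat.lt_or_eq_of_le hr with h | rfl
    · exact low r s β (by omega) hβ
    · have e1 := KEL.Phi_two ω U s β
      have e2 := KEL.Phi_two ω' U' s β
      rw [hc, ← low 0 (s + 1) β zero_le_one hβ,
        sum_congr rfl fun z _ => by rw [← hd β 2 z hβ le_rfl], ← e1] at e2
      omega
  obtain ⟨Ψ, a1, a2⟩ := KEL.tri ke ω U r s
  obtain ⟨Ψ', b1, b2⟩ := KEL.tri ke ω' U' r s
  have eq : ∀ w, w ≤ 2 * j → Ψ w = Ψ' w := by
    intro w
    induction w using Nat.strong_induction_on with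
    | _ w ih =>
      intro hw
      have e := all w hw
      rw [a1, b1, hc, sum_congr rfl fun x hx => by
        rw [ih x (mem_range.1 hx) ((mem_range.1 hx).le.trans hw)]] at e
      omega
  rw [a2, b2]
  exact sum_congr rfl fun w hw => eq w (by have := mem_range.1 hw; omega)

end Pool.Agent.MP_f8284b_co.U85
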