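import Mathlib
import Pool.Agent.MP_f8284b_co.U85.Basic

set_option autoImplicit false

namespace Pool.Agent.MP_f8284b_co.U85

namespace KILL

open Finset

variable {V R : Type} [DecidableEq V] {p : ℕ}

/-- usable blocks -/
def act (w : V) (Z : Fin p → R → Finset V) (k : Fin p) (r : R) : Prop :=
  (Z k r).Nonempty ∧ w ∉ Z k r

/-- pairwise disjoint blocks -/
def Dis (Z : Fin p → R → Finset V) : Prop :=
  ∀ k r k' r', (k, r) ≠ (k', r') → Disjoint (Z k r) (Z k' r')

open Classical in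
/-- a chosen vertex of a block -/
noncomputable def vx (u : V) (Y : Finset V) : V := if h : Y.Nonempty then h.choose else u

omit [DecidableEq V] in
theorem vx_mem (u : V) {Y : Finset V} (h : Y.Nonempty) : vx u Y ∈ Y := by
  unfold vx; rw [dif_pos h]; exact h.choose_spec

open Classical in
/-- the resampled edge of a block -/
noncomputable def pos (u w : V) (Z : Fin p → R → Finset V) (i : Fin p × R) : Option (Sym2 V) :=
  if Dis Z ∧ act w Z i.1 i.2 then some s(u, vx u (Z i.1 i.2)) else none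

omit [DecidableEq V] in
theorem pos_eq {u w : V} {Z : Fin p → R → Finset V} {i : Fin p × R} {e : Sym2 V} :
    pos u w Z i = some e ↔ (Dis Z ∧ act w Z i.1 i.2) ∧ s(u, vx u (Z i.1 i.2)) = e := by
  unfold pos
  split_ifs with h <;> simp [h]

omit [DecidableEq V] in
theorem pos_inj {u w : V} {Z : Fin p → R → Finset V} {i i' : Fin p × R} {e : Sym2 V}
    (h : pos u w Z i = some e) (h' : pos u w Z i' = some e) : i = i' := by
  obtain ⟨⟨hd, ha⟩, he⟩ := pos_eq.1 h
  obtain ⟨⟨-, ha'⟩, he'⟩ := pos_eq.1 h'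
  by_contra hne
  have e1 : vx u (Z i.1 i.2) = vx u (Z i'.1 i'.2) := Sym2.congr_right.1 (he.trans he'.symm)
  exact disjoint_left.1 (hd i.1 i.2 i'.1 i'.2 hne) (vx_mem u ha.1) (e1 ▸ vx_mem u ha'.1)

open Classical in
/-- the resampled graph -/
noncomputable def res (u w : V) (Z : Fin p → R → Finset V) (ω : Sym2 V → Bool)
    (β : Fin p × R → Bool) : Sym2 V → Bool :=
  fun e => if h : ∃ i, pos u w Z i = some e then β h.choose else ω e

omit [DecidableEq V] in
theorem res_off {u w : V} {Z : Fin p → R → Finset V} (ω : Sym2 V → Bool) (β : Fin p × R → Bool)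
    {e : Sym2 V} (he : u ∉ e) : res u w Z ω β e = ω e := by
  unfold res
  rw [dif_neg]
  rintro ⟨i, hi⟩
  exact he ((pos_eq.1 hi).2 ▸ Sym2.mem_mk_left _ _)

theorem res_at {u w : V} {Z : Fin p → R → Finset V} (ω : Sym2 V → Bool) (β : Fin p × R → Bool)
    (hd : Dis Z) {k : Fin p} {r : R} (ha : act w Z k r) {x : V} (hx : x ∈ Z k r) :
    res u w Z ω β s(u, x) = if x = vx u (Z k r) then β (k, r) else ω s(u, x) := by
  unfold res
  split_ifs with h1 h2 h2
  · rw [pos_inj h1.choose_spec (pos_eq.2 ⟨⟨hd, ha⟩, by rw [h2]⟩ : pos u w Z (k, r) = some s(u, x))]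
  · obtain ⟨i, hi⟩ := h1
    obtain ⟨⟨-, ha'⟩, he⟩ := pos_eq.1 hi
    have e1 : vx u (Z i.1 i.2) = x := Sym2.congr_right.1 he
    by_cases hik : (i.1, i.2) = (k, r)
    · obtain ⟨a, b⟩ := Prod.mk.inj hik
      rw [a, b] at e1
      exact absurd e1.symm h2
    · exact absurd hx (disjoint_left.1 (hd _ _ _ _ hik) (e1 ▸ vx_mem u ha'.1))
  · exact absurd ⟨(k, r), pos_eq.2 ⟨⟨hd, ha⟩, by rw [h2]⟩⟩ h1
  · rfl

theorem lab_res {u w : V} {Z : Fin p → R → Finset V} (ω : Sym2 V → Bool) (β : Fin p × R → Bool)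
    (hd : Dis Z) {k : Fin p} {r : R} (ha : act w Z k r) (hu : u ∉ Z k r) :
    (lab (res u w Z ω β) {u, w} (Z k r) : ℚ) =
      ((lab ω {u, w} (Z k r) : ℚ) - if ω s(u, vx u (Z k r)) = true then 1 else 0) +
        if β (k, r) = true then 1 else 0 := by
  have hv := vx_mem u ha.1
  have hu' : u ∈ ({u, w} : Finset V) := mem_insert_self _ _
  unfold lab
  simp only [card_filter]
  push_cast
  rw [← add_sum_erase _ _ hu', ← add_sum_erase _ _ hu', ← add_sum_erase _ _ hv,
    ← add_sum_erase _ _ hv, res_at ω β hd ha hv, if_pos rfl]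
  have e1 : ∑ x ∈ (Z k r).erase (vx u (Z k r)),
      (if res u w Z ω β s(u, x) = true then (1 : ℚ) else 0) =
      ∑ x ∈ (Z k r).erase (vx u (Z k r)), (if ω s(u, x) = true then (1 : ℚ) else 0) :=
    sum_congr rfl fun x hx => by
      rw [res_at ω β hd ha (mem_of_mem_erase hx), if_neg (ne_of_mem_erase hx)]
  have e2 : ∑ v ∈ ({u, w} : Finset V).erase u, ∑ x ∈ Z k r,
      (if res u w Z ω β s(v, x) = true then (1 : ℚ) else 0) =
      ∑ v ∈ ({u, w} : Finset V).erase u, ∑ x ∈ Z k r,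
        (if ω s(v, x) = true then (1 : ℚ) else 0) :=
    sum_congr rfl fun v hv => sum_congr rfl fun x hx => by
      rw [res_off ω β]
      rw [Sym2.mem_iff]
      rintro (h | h)
      · exact ne_of_mem_erase hv h.symm
      · exact hu (h ▸ hx)
  rw [e1, e2]
  ring

theorem gen1_res {u w : V} {Z : Fin p → R → Finset V} (ω : Sym2 V → Bool) (β : Fin p × R → Bool)
    {ρ Y : Finset V} (h1 : u ∉ ρ) (h2 : u ∉ Y) : gen1 (res u w Z ω β) ρ Y = gen1 ω ρ Y := by
  unfold gen1
  rw [lab_congr (ω' := ω) fun v hv x hx => res_off ω β ?_]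
  rw [Sym2.mem_iff]
  rintro (h | h)
  · exact h1 (h ▸ hv)
  · exact h2 (h ▸ hx)

theorem exists_opts {ρ : Finset V} (h : ρ.card ≤ 2) :
    ∃ q : Option V × Option V, q.1.toFinset ∪ q.2.toFinset = ρ := by
  obtain h | h | h : ρ.card = 0 ∨ ρ.card = 1 ∨ ρ.card = 2 := by omega
  · exact ⟨(none, none), by simp [card_eq_zero.1 h]⟩
  · obtain ⟨a, rfl⟩ := card_eq_one.1 h
    exact ⟨(some a, none), by simp⟩
  · obtain ⟨a, b, -, rfl⟩ := card_eq_two.1 h
    exact ⟨(some a, some b), by ext; simp⟩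

open Classical in
/-- the vectors to be killed -/
noncomputable def piece (w : V) (Z : Fin p → R → Finset V) (ω : Sym2 V → Bool) (j : ℕ)
    (q : (Option V × Option V) × (Fin p → Fin (j + 1))) : (Fin p → R) → ℚ :=
  fun r => if ∀ k, act w Z k (r k) then
    ∏ k, PowerSeries.coeff (q.2 k) (gen1 ω (q.1.1.toFinset ∪ q.1.2.toFinset) (Z k (r k))) else 0

open Classical in
theorem kil_of_notMem [Fintype R] {u w : V} {Z : Fin p → R → Finset V} (ω : Sym2 V → Bool)
    (β : Fin p × R → Bool) (j : ℕ) (hd : Dis Z) (hu : ∀ k r, u ∉ Z k r)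
    (h : (fun r : Fin p → R => ∏ k, (if act w Z k (r k) then
      ((lab ω {u, w} (Z k (r k)) : ℚ) - if ω s(u, vx u (Z k (r k))) = true then 1 else 0) +
        (if β (k, r k) = true then 1 else 0) else 0)) ∉
      Submodule.span ℚ (Set.range (piece w Z ω j))) : Kil (res u w Z ω β) j u w Z := by
  obtain ⟨φ, h1, h2⟩ := Submodule.exists_dual_map_eq_bot_of_notMem h inferInstance
  have h3 : ∀ q, φ (piece w Z ω j q) = 0 := fun q =>
    (Submodule.mem_bot ℚ).1 (h2 ▸ Submodule.mem_map_of_mem (Submodule.subset_span ⟨q, rfl⟩))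
  have h4 : ∀ y : (Fin p → R) → ℚ, ∑ r : Fin p → R,
      (if ∀ k, act w Z k (r k) then φ (fun s => if r = s then 1 else 0) else 0) * y r =
        φ (fun r => if ∀ k, act w Z k (r k) then y r else 0) := by
    intro y
    rw [LinearMap.pi_apply_eq_sum_univ φ (fun r => if ∀ k, act w Z k (r k) then y r else 0)]
    refine sum_congr rfl fun r _ => ?_
    split_ifs <;> simp [mul_comm]
  refine ⟨fun r => if ∀ k, act w Z k (r k) then φ (fun s => if r = s then 1 else 0) else 0,
    fun r hr k => ?_, ?_, fun ρ hρ huρ c hc => ?_⟩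
  · have : ∀ k, act w Z k (r k) := by
      by_contra hh
      exact hr (if_neg hh)
    exact ⟨(this k).1, hu _ _, (this k).2⟩
  · rw [h4]
    refine fun h5 => h1 ((congrArg φ (funext fun r => ?_)).trans h5)
    rw [Fintype.prod_ite_zero]
    split_ifs with h6
    · exact prod_congr rfl fun k _ => (lab_res ω β hd (h6 k) (hu _ _)).symm
    · rfl
  · obtain ⟨q, rfl⟩ := exists_opts hρ
    rw [h4]
    refine (congrArg φ (funext fun r => ?_)).trans (h3 (q, fun k => ⟨c k, Nat.lt_succ_of_le (hc k)⟩))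
    unfold piece
    simp only [gen1_res ω β huρ (hu _ _)]

end KILL

theorem rowKILL : RowKILL := by
  classical
  intro hODL hSW V R _ _ _ _ p m j u w Y hY hu hc
  have hη : (0 : ℝ) ≤ p / 2 ^ m := by positivity
  refine hSW (Sym2 V) (Fin p × R) (Finset.univ.filter fun e => u ∈ e)
    (fun ω => KILL.pos u w (Y ω)) _ _ (fun ω ω' h => ?_) (fun ω i e h => ?_)
    (fun ω i i' e h h' => KILL.pos_inj h h') fun ω => ?_
  · rw [hY ω ω' fun e he => h e (by simpa using he)]
  · exact Finset.mem_filter.2 ⟨Finset.mem_univ _, (KILL.pos_eq.1 h).2 ▸ Sym2.mem_mk_left _ _⟩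
  have hres : ∀ β, Y (KILL.res u w (Y ω) ω β) = Y ω := fun β =>
    hY _ _ fun e he => KILL.res_off ω β he
  have hfun : ∀ (β : Fin p × R → Bool) (inst : ∀ e, Decidable (∃ i, KILL.pos u w (Y ω) i = some e)),
      (fun e => @dite _ _ (inst e) (fun h => β h.choose) fun _ => ω e) =
        KILL.res u w (Y ω) ω β := fun β inst => funext fun e => by
    unfold KILL.res
    congr
  simp only [hfun, hres]
  by_cases hg : KILL.Dis (Y ω) ∧
      ∀ k, 2 * m ≤ (Finset.univ.filter (fun r => KILL.act w (Y ω) k r)).card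
  · have hS : Module.finrank ℚ (Submodule.span ℚ (Set.range (KILL.piece w (Y ω) ω j))) < m ^ p := by
      refine lt_of_le_of_lt (finrank_range_le_card _) (lt_of_le_of_lt (le_of_eq ?_) hc)
      simp [sq]
    have := hODL R p m (KILL.act w (Y ω)) (fun k r => (lab ω {u, w} (Y ω k r) : ℚ) -
      if ω s(u, KILL.vx u (Y ω k r)) = true then 1 else 0) _ hg.2 hS
    rw [← Pr_comp_equiv (Equiv.curry (Fin p) R Bool)] at this
    refine le_trans (Pr_mono fun β hβ => ?_) this
    by_contra hn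
    exact hβ.2.2 (KILL.kil_of_notMem ω β j hg.1 (hu ω) hn)
  · rw [Pr_eq_zero]
    · exact hη
    intro β hβ
    refine hg ⟨hβ.1, fun k => (hβ.2.1 k).trans (le_of_eq (congrArg Finset.card ?_))⟩
    ext r
    simp only [Finset.mem_filter, KILL.act]

end Pool.Agent.MP_f8284b_co.U85
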