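import Mathlib
import Pool.Agent.MP_f8284b_co.U85.Basic

set_option autoImplicit false

/-! Many sets are above their thresholds, by the second moment bound. -/

namespace Pool.Agent.MP_f8284b_co.U85

open Finset

namespace MANY

variable {V R : Type} [Fintype V] [DecidableEq V] [Fintype R]

/-- pairs of an index and a set of the right size -/
def SS (V : Type) [Fintype V] [DecidableEq V] {R : Type} [Fintype R] (sz : R → ℕ) :
    Finset (R × Finset V) := univ.filter (fun a => a.2.card = sz a.1)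

lemma mem_SS {sz : R → ℕ} {a : R × Finset V} : a ∈ SS V sz ↔ a.2.card = sz a.1 := by
  simp [SS]

lemma sum_SS (sz : R → ℕ) (F : R × Finset V → ℝ) :
    ∑ a ∈ SS V sz, F a = ∑ r, ∑ W ∈ (univ : Finset V).powersetCard (sz r), F (r, W) := by
  unfold SS
  rw [sum_filter, Fintype.sum_prod_type]
  refine sum_congr rfl fun r _ => ?_
  rw [powersetCard_eq_filter, powerset_univ, sum_filter]

lemma sum_SS_const (sz : R → ℕ) (F : R → ℝ) :
    ∑ a ∈ SS V sz, F a.1 = ∑ r, ((Fintype.card V).choose (sz r) : ℝ) * F r := by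
  rw [sum_SS sz (fun a => F a.1)]
  refine sum_congr rfl fun r _ => ?_
  simp only [sum_const, card_powersetCard, card_univ, nsmul_eq_mul]

/-- the event attached to a pair -/
def Ev (n b0 g : ℕ) (δ : ℝ) (sz : R → ℕ) (a : R × Finset V) (ω : Sym2 V → Bool) : Prop :=
  thr n δ (sz a.1) + g ≤ ein ω a.2 ∧ Flat ω (thr n δ (sz a.1)) (rho b0) a.2

omit [Fintype V] [Fintype R] in
lemma dep_Ev (n b0 g : ℕ) (δ : ℝ) (sz : R → ℕ) (a : R × Finset V) :
    Dep (Ev n b0 g δ sz a) (prs a.2) := fun _ _ h hE =>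
  ⟨by rw [← ein_congr h]; exact hE.1, flat_congr h hE.2⟩

omit [Fintype R] in
lemma Pr_Ev (hpb : RowPB) {n b0 g : ℕ} {δ : ℝ} {sz : R → ℕ} (hfl : OutFL V n b0 δ)
    (a : R × Finset V) (ha : a.2.card = sz a.1) (h1 : b0 ≤ sz a.1) (h2 : sz a.1 ≤ 2 * b0) :
    tail ((sz a.1).choose 2) (thr n δ (sz a.1) + g) -
      tail ((sz a.1).choose 2) (thr n δ (sz a.1)) / (2 * b0) ^ 2 ≤ Pr (Ev n b0 g δ sz a) := by
  have h3 := (hpb (Sym2 V)).2.2 (prs a.2) (thr n δ (sz a.1) + g)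
  rw [card_prs, ha] at h3
  have h4 := hfl a.2 (by rw [ha]; exact h1) (by rw [ha]; exact h2)
  rw [ha] at h4
  have h5 : Pr (fun ω : Sym2 V → Bool => thr n δ (sz a.1) + g ≤ cnt ω (prs a.2)) ≤ _ :=
    Pr_le_add (C := fun ω => Flat ω (thr n δ (sz a.1)) (rho b0) a.2)
  have h6 : Pr (fun ω : Sym2 V → Bool => thr n δ (sz a.1) + g ≤ cnt ω (prs a.2) ∧
      ¬ Flat ω (thr n δ (sz a.1)) (rho b0) a.2) ≤
      Pr (fun ω : Sym2 V → Bool => thr n δ (sz a.1) ≤ ein ω a.2 ∧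
      ¬ Flat ω (thr n δ (sz a.1)) (rho b0) a.2) :=
    Pr_mono fun ω h => ⟨le_trans (Nat.le_add_right _ _) h.1, h.2⟩
  have h7 : Pr (fun ω : Sym2 V → Bool => thr n δ (sz a.1) + g ≤ cnt ω (prs a.2) ∧
      Flat ω (thr n δ (sz a.1)) (rho b0) a.2) = Pr (Ev n b0 g δ sz a) := rfl
  linarith

lemma mean (hpb : RowPB) {n b0 D0 g : ℕ} {δ : ℝ} {sz : R → ℕ} (hn : Fintype.card V = n)
    (hpar : Par n b0 D0 g δ) (hxf : ∀ b, b0 ≤ b → b ≤ 2 * b0 → XF n b0 g δ b)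
    (hfl : OutFL V n b0 δ) (hsp : Spaced b0 D0 sz) :
    Fintype.card R * δ / 2 ^ (g + 2) ≤ ∑ a ∈ SS V sz, Pr (Ev n b0 g δ sz a) := by
  have hδ := hpar.facts.2.1
  have hb : (2 : ℝ) ^ (g + 2) ≤ b0 := by exact_mod_cast hpar.gb2
  have hb1 : (1000 : ℝ) ≤ b0 := by exact_mod_cast le_trans (Nat.le_add_left _ _) hpar.gb
  have h1 : ∑ a ∈ SS V sz, (fun r => tail ((sz r).choose 2) (thr n δ (sz r) + g) -
      tail ((sz r).choose 2) (thr n δ (sz r)) / (2 * b0) ^ 2) a.1 ≤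
      ∑ a ∈ SS V sz, Pr (Ev n b0 g δ sz a) :=
    sum_le_sum fun a ha => Pr_Ev hpb hfl a (mem_SS.1 ha) (hsp.1 _).1 (hsp.1 _).2
  refine le_trans ?_ h1
  rw [sum_SS_const sz (fun r => tail ((sz r).choose 2) (thr n δ (sz r) + g) -
      tail ((sz r).choose 2) (thr n δ (sz r)) / (2 * b0) ^ 2), hn]
  have h2 : (Fintype.card R : ℝ) * δ / 2 ^ (g + 2) = ∑ _r : R, δ / 2 ^ (g + 2) := by
    rw [sum_const, card_univ, nsmul_eq_mul, mul_div_assoc]
  rw [h2]
  refine sum_le_sum fun r _ => ?_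
  have hx := hxf (sz r) (hsp.1 r).1 (hsp.1 r).2
  have h3 : (n.choose (sz r) : ℝ) * tail ((sz r).choose 2) (thr n δ (sz r)) / (2 * b0) ^ 2 ≤
      δ / 2 ^ (g + 2) :=
    div_le_div₀ hδ.le hx.up (by positivity) (by nlinarith)
  have h4 : δ / 2 ^ (g + 1) = 2 * (δ / 2 ^ (g + 2)) := by field_simp; ring
  have h5 := hx.lo
  rw [mul_sub, ← mul_div_assoc]
  linarith

open Classical in
/-- the bound on an ordered pair, larger set first -/
noncomputable def ff (n b0 D0 : ℕ) (δ : ℝ) (sz : R → ℕ) (a a' : R × Finset V) : ℝ :=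
  if (sz a'.1 = sz a.1 ∨ sz a'.1 + D0 ≤ sz a.1) ∧ a'.2 ≠ a.2 ∧ ¬ Disjoint a.2 a'.2 then
    Pr (Both n b0 δ a.2 a'.2) else 0

omit [Fintype R] in
lemma ff_nonneg (n b0 D0 : ℕ) (δ : ℝ) (sz : R → ℕ) (a a' : R × Finset V) :
    0 ≤ ff n b0 D0 δ sz a a' := by
  unfold ff; split_ifs
  · exact Pr_nonneg _
  · exact le_rfl

omit [Fintype R] in
lemma pair_le {n b0 D0 g : ℕ} {δ : ℝ} {sz : R → ℕ} (hD : 1 ≤ D0) (hsp : Spaced b0 D0 sz)
    {a a' : R × Finset V} (ha : a.2.card = sz a.1) (ha' : a'.2.card = sz a'.1) (hne : a ≠ a')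
    (hd : ¬ Disjoint a.2 a'.2) :
    Pr (fun ω => Ev n b0 g δ sz a ω ∧ Ev n b0 g δ sz a' ω) ≤
      ff n b0 D0 δ sz a a' + ff n b0 D0 δ sz a' a := by
  have hW : a'.2 ≠ a.2 := by
    intro h
    by_cases hr : a.1 = a'.1
    · exact hne (Prod.ext hr h.symm)
    · have := hsp.2 _ _ hr
      rw [h] at ha'
      omega
  have hcase : (sz a'.1 = sz a.1 ∨ sz a'.1 + D0 ≤ sz a.1) ∨
      (sz a.1 = sz a'.1 ∨ sz a.1 + D0 ≤ sz a'.1) := by
    by_cases hr : a.1 = a'.1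
    · rw [hr]; exact Or.inl (Or.inl rfl)
    · rcases hsp.2 _ _ hr with h | h
      · exact Or.inr (Or.inr h)
      · exact Or.inl (Or.inr h)
  rcases hcase with h | h
  · have h1 : ff n b0 D0 δ sz a a' = Pr (Both n b0 δ a.2 a'.2) := by
      unfold ff; rw [if_pos ⟨h, hW, hd⟩]
    have h2 := ff_nonneg n b0 D0 δ sz a' a
    have h3 : Pr (fun ω => Ev n b0 g δ sz a ω ∧ Ev n b0 g δ sz a' ω) ≤
        Pr (Both n b0 δ a.2 a'.2) := Pr_mono fun ω hω => by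
      unfold Both; rw [ha, ha']
      exact ⟨⟨le_trans (Nat.le_add_right _ _) hω.1.1, hω.1.2⟩,
        le_trans (Nat.le_add_right _ _) hω.2.1⟩
    linarith
  · have h1 : ff n b0 D0 δ sz a' a = Pr (Both n b0 δ a'.2 a.2) := by
      unfold ff; rw [if_pos ⟨h, hW.symm, fun hh => hd hh.symm⟩]
    have h2 := ff_nonneg n b0 D0 δ sz a a'
    have h3 : Pr (fun ω => Ev n b0 g δ sz a ω ∧ Ev n b0 g δ sz a' ω) ≤
        Pr (Both n b0 δ a'.2 a.2) := Pr_mono fun ω hω => by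
      unfold Both; rw [ha, ha']
      exact ⟨⟨le_trans (Nat.le_add_right _ _) hω.2.1, hω.2.2⟩,
        le_trans (Nat.le_add_right _ _) hω.1.1⟩
    linarith

lemma row_le {n b0 D0 : ℕ} {δ : ℝ} {sz : R → ℕ} (hov : OutOV V n b0 D0 δ)
    (hsp : Spaced b0 D0 sz) {a : R × Finset V} (ha : a.2.card = sz a.1) :
    ∑ a' ∈ SS V sz, ff n b0 D0 δ sz a a' ≤
      Fintype.card R * (tail ((sz a.1).choose 2) (thr n δ (sz a.1)) / (b0 : ℝ) ^ 2) := by
  rw [sum_SS, ← card_univ, ← nsmul_eq_mul, ← sum_const]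
  refine sum_le_sum fun r _ => ?_
  by_cases h : sz r = sz a.1 ∨ sz r + D0 ≤ sz a.1
  · have h1 := hov a.2 (sz r) (hsp.1 r).1 (by rw [ha]; exact (hsp.1 _).2) (by rw [ha]; exact h)
    rw [ha, sum_filter] at h1
    refine le_trans (le_of_eq (sum_congr rfl fun W _ => ?_)) h1
    unfold ff
    simp only [h, true_and]
  · rw [sum_eq_zero fun W _ => by unfold ff; rw [if_neg fun hh => h hh.1]]
    exact div_nonneg (tail_nonneg _ _) (by positivity)

lemma total_le {n b0 D0 g : ℕ} {δ : ℝ} {sz : R → ℕ} (hn : Fintype.card V = n)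
    (hpar : Par n b0 D0 g δ) (hxf : ∀ b, b0 ≤ b → b ≤ 2 * b0 → XF n b0 g δ b)
    (hov : OutOV V n b0 D0 δ) (hsp : Spaced b0 D0 sz)
    (hR : (Fintype.card R : ℝ) ^ 2 * δ ≤ (b0 : ℝ) ^ 2) :
    ∑ a ∈ SS V sz, ∑ a' ∈ SS V sz, ff n b0 D0 δ sz a a' ≤ 1 := by
  have hb1 : (1000 : ℝ) ≤ b0 := by exact_mod_cast le_trans (Nat.le_add_left _ _) hpar.gb
  have h1 : ∑ a ∈ SS V sz, ∑ a' ∈ SS V sz, ff n b0 D0 δ sz a a' ≤ ∑ a ∈ SS V sz,
      (fun r => (Fintype.card R : ℝ) *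
        (tail ((sz r).choose 2) (thr n δ (sz r)) / (b0 : ℝ) ^ 2)) a.1 :=
    sum_le_sum fun a ha => row_le hov hsp (mem_SS.1 ha)
  rw [sum_SS_const sz (fun r => (Fintype.card R : ℝ) *
        (tail ((sz r).choose 2) (thr n δ (sz r)) / (b0 : ℝ) ^ 2)), hn] at h1
  have h2 : ∑ r, (n.choose (sz r) : ℝ) * ((Fintype.card R : ℝ) *
      (tail ((sz r).choose 2) (thr n δ (sz r)) / (b0 : ℝ) ^ 2)) ≤
      ∑ _r : R, (Fintype.card R : ℝ) * δ / (b0 : ℝ) ^ 2 := by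
    refine sum_le_sum fun r _ => ?_
    have hx := (hxf (sz r) (hsp.1 r).1 (hsp.1 r).2).up
    have h3 : (n.choose (sz r) : ℝ) * ((Fintype.card R : ℝ) *
        (tail ((sz r).choose 2) (thr n δ (sz r)) / (b0 : ℝ) ^ 2)) = (Fintype.card R : ℝ) *
        ((n.choose (sz r) : ℝ) * tail ((sz r).choose 2) (thr n δ (sz r))) / (b0 : ℝ) ^ 2 := by
      ring
    rw [h3]
    exact div_le_div_of_nonneg_right (mul_le_mul_of_nonneg_left hx (by positivity))
      (by positivity)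
  rw [sum_const, card_univ, nsmul_eq_mul] at h2
  have h4 : (Fintype.card R : ℝ) * ((Fintype.card R : ℝ) * δ / (b0 : ℝ) ^ 2) ≤ 1 := by
    rw [← mul_div_assoc, div_le_one (by positivity)]
    nlinarith
  linarith

end MANY

open MANY in
theorem rowMANY : RowMANY := by
  intro hch hpb V R _ _ _ n b0 D0 g δ sz hn hpar hxf hfl hov hsp hR hμ
  classical
  have hD := hpar.facts.2.2.2.1
  have key := hch (Sym2 V → Bool) (R × Finset V) (SS V sz) (Ev n b0 g δ sz)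
    (fun a a' => ¬ Disjoint a.2 a'.2) (Fintype.card R * δ / 2 ^ (g + 2)) 2 (by linarith)
    (by norm_num) (mean hpb hn hpar hxf hfl hsp)
    (fun a _ a' _ _ hd => le_of_eq ((hpb (Sym2 V)).1 _ _ _ _ (dep_Ev n b0 g δ sz a)
      (dep_Ev n b0 g δ sz a') (disjoint_prs (not_not.1 hd))))
    (by
      have h1 := total_le hn hpar hxf hov hsp hR
      have h2 : ∑ a ∈ SS V sz, ∑ a' ∈ SS V sz, (ff n b0 D0 δ sz a a' + ff n b0 D0 δ sz a' a) ≤
          2 := by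
        simp only [sum_add_distrib]
        rw [sum_comm (f := fun a a' => ff n b0 D0 δ sz a' a)]
        linarith
      refine le_trans (sum_le_sum fun a ha => ?_) h2
      rw [sum_filter]
      refine sum_le_sum fun a' ha' => ?_
      split_ifs with h
      · exact pair_le hD hsp (mem_SS.1 ha) (mem_SS.1 ha') h.1 h.2
      · exact add_nonneg (ff_nonneg _ _ _ _ _ _ _) (ff_nonneg _ _ _ _ _ _ _))
  refine le_trans (Pr_mono fun ω hω => ?_) (le_trans key ?_)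
  · refine lt_of_le_of_lt ?_ hω
    exact_mod_cast card_le_card fun a ha => by
      rw [mem_filter] at ha ⊢
      exact ⟨mem_univ _, mem_SS.1 ha.1, ha.2.1⟩
  · generalize (Fintype.card R : ℝ) * δ / 2 ^ (g + 2) = μ at hμ ⊢
    have h0 : 0 < μ := by linarith
    have h1 : 4 * 2 / μ ^ 2 ≤ 8 / μ := by
      rw [div_le_div_iff₀ (by positivity) h0]; nlinarith
    have h2 : 12 / μ = 4 / μ + 8 / μ := by ring
    linarith

end Pool.Agent.MP_f8284b_co.U85
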