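import Mathlib
import Pool.Agent.MP_f8284b_co.U85.Basic

set_option autoImplicit false

/-! Choice of the parameters. -/

namespace Pool.Agent.MP_f8284b_co.U85

open Filter

namespace NUM

lemma exists_root {A : ℕ} (hA : 1 ≤ A) (M n : ℕ) (h : M ^ A ≤ n) :
    ∃ m : ℕ, M ≤ m ∧ m ^ A ≤ n ∧ n < (m + 1) ^ A := by
  have hex : ∃ m : ℕ, n < (m + 1) ^ A :=
    ⟨n, lt_of_lt_of_le (Nat.lt_succ_self n) (Nat.le_self_pow (by omega) _)⟩
  classical
  have h1 := Nat.find_spec hex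
  refine ⟨Nat.find hex, ?_, ?_, h1⟩
  · have h2 : M ^ A < (Nat.find hex + 1) ^ A := lt_of_le_of_lt h h1
    exact Nat.lt_succ_iff.1 (lt_of_pow_lt_pow_left₀ A (Nat.zero_le _) h2)
  · rcases Nat.eq_zero_or_pos (Nat.find hex) with h0 | h0
    · rw [h0, zero_pow (by omega)]; exact Nat.zero_le _
    · have h3 := Nat.find_min hex (m := Nat.find hex - 1) (by omega)
      rw [Nat.sub_add_cancel h0] at h3
      exact not_lt.1 h3

lemma ev_log (c : ℝ) (hc : 0 < c) : ∀ᶠ m : ℕ in atTop, c * Real.log ((m : ℝ) + 1) ≤ m := by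
  have h1 : Tendsto (fun m : ℕ => (m : ℝ) + 1) atTop atTop :=
    tendsto_atTop_add_const_right _ _ tendsto_natCast_atTop_atTop
  have h2 := h1.eventually (Real.isLittleO_log_id_atTop.bound (c := 1 / (2 * c)) (by positivity))
  filter_upwards [h2, eventually_ge_atTop 1] with m hm h1m
  have h3 : (1 : ℝ) ≤ m := by exact_mod_cast h1m
  rw [Real.norm_eq_abs, Real.norm_eq_abs, id, abs_of_nonneg (by linarith : (0 : ℝ) ≤ (m : ℝ) + 1)]
    at hm
  have h4 := le_trans (le_abs_self _) hm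
  calc c * Real.log ((m : ℝ) + 1) ≤ c * (1 / (2 * c) * ((m : ℝ) + 1)) :=
        mul_le_mul_of_nonneg_left h4 hc.le
    _ = ((m : ℝ) + 1) / 2 := by field_simp
    _ ≤ m := by linarith

lemma ev_div (c ε : ℝ) (hε : 0 < ε) : ∀ᶠ m : ℕ in atTop, c / (m : ℝ) ≤ ε :=
  (tendsto_const_div_atTop_nhds_zero_nat c).eventually (ge_mem_nhds hε)

lemma ev_pow (c ε : ℝ) (hε : 0 < ε) (k : ℕ) :
    ∀ᶠ m : ℕ in atTop, c * ((m : ℝ) ^ k / 2 ^ m) ≤ ε := by
  have h1 := (tendsto_pow_const_div_const_pow_of_one_lt k (r := 2) (by norm_num)).const_mul c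
  rw [mul_zero] at h1
  exact h1.eventually (ge_mem_nhds hε)

lemma par {A g m n : ℕ} (hA : 10 ^ 10 ≤ A) (h2 : 2 ≤ m) (hg1 : 100 * g + 1000 ≤ m)
    (hg2 : 2 ^ (g + 2) ≤ m) (hlog : 10 ^ 4 * (A : ℝ) * Real.log ((m : ℝ) + 1) ≤ m)
    (h3 : m ^ A ≤ n) (h4 : n < (m + 1) ^ A) : Par n (m ^ 7) m g (1 / (m : ℝ) ^ 3) := by
  have hm : (2 : ℝ) ≤ m := by exact_mod_cast h2
  have hA' : (10 : ℝ) ^ 10 ≤ A := by exact_mod_cast hA
  have h7 : m ≤ m ^ 7 := Nat.le_self_pow (by norm_num) _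
  have hpos : 0 < m ^ A := Nat.pow_pos (by omega)
  have hn : (0 : ℝ) < n := by exact_mod_cast lt_of_lt_of_le hpos h3
  have hl : 0 ≤ Real.log m := Real.log_nonneg (by linarith)
  refine ⟨?_, ?_, h7, ?_, ?_, le_trans hg1 h7, le_trans hg2 h7⟩
  · have e1 : Real.log (2 * ((m ^ 7 : ℕ) : ℝ)) ≤ 8 * Real.log m := by
      have e2 : Real.log ((m : ℝ) ^ 8) = 8 * Real.log m := by rw [Real.log_pow]; norm_num
      rw [← e2]
      push_cast
      refine Real.log_le_log (by positivity) ?_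
      calc 2 * (m : ℝ) ^ 7 ≤ m * (m : ℝ) ^ 7 := by gcongr
        _ = (m : ℝ) ^ 8 := by ring
    have e3 : A * Real.log m ≤ Real.log n := by
      rw [← Real.log_pow]
      exact Real.log_le_log (by positivity) (by exact_mod_cast h3)
    have e4 : (10 : ℝ) ^ 10 * Real.log m ≤ A * Real.log m := mul_le_mul_of_nonneg_right hA' hl
    linarith
  · have e3 : Real.log n ≤ A * Real.log ((m : ℝ) + 1) := by
      rw [← Real.log_pow]
      exact Real.log_le_log hn (by exact_mod_cast h4.le)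
    linarith
  · push_cast
    have e1 : 1 / (m : ℝ) ^ 3 * (m : ℝ) ^ 7 = (m : ℝ) ^ 4 := by field_simp
    rw [e1]
    exact one_le_pow₀ (by linarith)
  · rw [div_le_one (by positivity)]
    exact one_le_pow₀ (by linarith)

lemma sq_le {A m n : ℕ} (h1 : 1 ≤ m) (h4 : n < (m + 1) ^ A) :
    (n + 1) ^ 2 ≤ 4 ^ A * m ^ (2 * A) := by
  have e1 : n + 1 ≤ (2 * m) ^ A := le_trans h4 (Nat.pow_le_pow_left (by omega) _)
  calc (n + 1) ^ 2 ≤ ((2 * m) ^ A) ^ 2 := Nat.pow_le_pow_left e1 _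
    _ = ((2 * m) ^ 2) ^ A := by rw [← pow_mul, ← pow_mul, Nat.mul_comm A 2]
    _ = (4 * m ^ 2) ^ A := by rw [mul_pow]; norm_num
    _ = 4 ^ A * m ^ (2 * A) := by rw [mul_pow, ← pow_mul]

end NUM

open NUM in
theorem rowNUM : RowNUM := by
  intro A p g hA hp ε hε
  have hA1 : 1 ≤ A := le_trans (by norm_num) hA
  have hA0 : (0 : ℝ) < 10 ^ 4 * (A : ℝ) := by
    have : (1 : ℝ) ≤ A := by exact_mod_cast hA1
    positivity
  have hε4 : 0 < ε / 4 := by positivity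
  have key := (eventually_ge_atTop 2).and ((eventually_ge_atTop (100 * g + 1000)).and
    ((eventually_ge_atTop (8 * 2 ^ (g + 2))).and ((eventually_ge_atTop (3 * (p + 1))).and
    ((eventually_gt_atTop (4 ^ A * (3 * (p + 1) + 1) ^ p)).and ((ev_log _ hA0).and
    ((ev_div (18 * ((p : ℝ) + 1) ^ 2) _ hε4).and ((ev_div (3 * ((p : ℝ) + 1)) _ hε4).and
    ((ev_div (36 * ((p : ℝ) + 1) * 2 ^ (g + 2)) _ hε4).and
    (ev_pow (4 ^ A * (3 * ((p : ℝ) + 1)) * p) _ hε4 (2 * A))))))))))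
  obtain ⟨M, hM⟩ := eventually_atTop.1 key
  refine eventually_atTop.2 ⟨M ^ A, fun n hn => ?_⟩
  obtain ⟨m, hm, h3, h4⟩ := exists_root hA1 M n hn
  obtain ⟨k1, k2, k3, k4, k5, k6, k7, k8, k9, k10⟩ := hM m hm
  have hm2 : (2 : ℝ) ≤ m := by exact_mod_cast k1
  have hm0 : (0 : ℝ) < m := by linarith
  have hsq := sq_le (by omega) h4
  have hK : (0 : ℝ) < 2 ^ (g + 2) := by positivity
  refine ⟨m, par hA k1 k2 (by omega) k6 h3 h4, k4, ?_, ?_, ?_⟩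
  · rw [le_div_iff₀ hK]
    have e1 : 8 * (2 : ℝ) ^ (g + 2) ≤ m := by exact_mod_cast k3
    generalize (2 : ℝ) ^ (g + 2) = K at hK e1
    nlinarith
  · have e1 : m ^ p = m ^ (2 * A) * m := by rw [hp, pow_succ]
    have e2 : 0 < m ^ (2 * A) := Nat.pow_pos (by omega)
    rw [e1]
    calc (n + 1) ^ 2 * (3 * (p + 1) + 1) ^ p
        ≤ 4 ^ A * m ^ (2 * A) * (3 * (p + 1) + 1) ^ p := Nat.mul_le_mul_right _ hsq
      _ = m ^ (2 * A) * (4 ^ A * (3 * (p + 1) + 1) ^ p) := by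
          rw [Nat.mul_comm (4 ^ A), Nat.mul_assoc]
      _ < m ^ (2 * A) * m := Nat.mul_lt_mul_of_pos_left k5 e2
  · have hp0 : (0 : ℝ) ≤ p := Nat.cast_nonneg p
    have e1 : 2 * (3 * (p + 1) * (m : ℝ) ^ 5) ^ 2 * (1 / (m : ℝ) ^ 3) / ((m : ℝ) ^ 7) ^ 2 ≤
        18 * ((p : ℝ) + 1) ^ 2 / m := by
      have e : 2 * (3 * (p + 1) * (m : ℝ) ^ 5) ^ 2 * (1 / (m : ℝ) ^ 3) / ((m : ℝ) ^ 7) ^ 2 =
          18 * ((p : ℝ) + 1) ^ 2 / (m : ℝ) ^ 7 := by field_simp; ring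
      rw [e]
      exact div_le_div_of_nonneg_left (by positivity) hm0 (le_self_pow₀ (by linarith) (by norm_num))
    have e2 : 3 * (p + 1) * (m : ℝ) ^ 5 * (1 / (m : ℝ) ^ 3) ^ 2 = 3 * ((p : ℝ) + 1) / m := by
      field_simp
    have e3 : 3 * (p + 1) * (12 / ((m : ℝ) ^ 2 / 2 ^ (g + 2))) ≤
        36 * ((p : ℝ) + 1) * 2 ^ (g + 2) / m := by
      generalize (2 : ℝ) ^ (g + 2) = K at hK
      have e : 3 * (p + 1) * (12 / ((m : ℝ) ^ 2 / K)) = 36 * ((p : ℝ) + 1) * K / (m : ℝ) ^ 2 := by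
        field_simp; ring
      rw [e]
      exact div_le_div_of_nonneg_left (by positivity) hm0 (le_self_pow₀ (by linarith) (by norm_num))
    have e4 : (n : ℝ) ^ 2 * (3 * (p + 1)) * (p / 2 ^ m) ≤
        4 ^ A * (3 * ((p : ℝ) + 1)) * p * ((m : ℝ) ^ (2 * A) / 2 ^ m) := by
      have e5 : (n : ℝ) ^ 2 ≤ 4 ^ A * (m : ℝ) ^ (2 * A) := by
        exact_mod_cast le_trans (Nat.pow_le_pow_left (Nat.le_succ n) 2) hsq
      generalize (4 : ℝ) ^ A = a at e5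
      generalize (m : ℝ) ^ (2 * A) = b at e5
      calc (n : ℝ) ^ 2 * (3 * (p + 1)) * (p / 2 ^ m) ≤ a * b * (3 * (p + 1)) * (p / 2 ^ m) := by
            gcongr
        _ = a * (3 * ((p : ℝ) + 1)) * p * (b / 2 ^ m) := by ring
    linarith

end Pool.Agent.MP_f8284b_co.U85
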