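import Pool.Agent.MP_f8284b_co.U85.Basic

set_option autoImplicit false

/-! Two dense sets with a large overlap. -/

namespace Pool.Agent.MP_f8284b_co.U85

open Finset

namespace OVL

lemma key {b b' w x x' ρ L Λ : ℝ} (h0 : 1000 ≤ b') (h1 : b' ≤ b) (h2 : b ≤ 2 * b')
    (h3 : b' ≤ 10 * w) (h4 : w ≤ b') (hx : 0 < x) (hx' : 0 < x') (hΛ : 0 ≤ Λ)
    (hyp : (b - b') * x ≤ 6 * b * (x' - x)) (r1 : 11000 * ρ ≤ x * b)
    (x1 : 97 / 100 * L ≤ x' ^ 2 * b') (r2 : 400 * (x' * ρ) ≤ L) (r3 : Λ ≤ x' * ρ)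
    (big : 10 ^ 9 * Λ ≤ L) :
    (b' * (b' - 1) / 2 - w * (w - 1) / 2) * (4 * x' / 2 + (4 * x') ^ 2 / 8) -
      4 * x' * ((1 / 2 + x') * (b' * (b' - 1) / 2) -
        ((1 / 2 + x) * (w * (w - 1) / 2) + (b - w) * ρ)) ≤
      -(L + 4 * Λ) * (b' - w) - 4 * Λ * (b - b') := by
  have hD : 0 ≤ b - b' := by linarith
  have hy : 0 ≤ b' - w := by linarith
  have hb : 0 < b := by linarith
  have a1 : b ^ 2 / 900 ≤ w * (w - 1) / 2 := by
    have : b / 20 * (49 / 1000 * b) ≤ w * (w - 1) :=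
      mul_le_mul (by linarith) (by linarith) (by positivity) (by linarith)
    nlinarith
  have a2 : 0 ≤ x' - x := by
    have := mul_nonneg hD hx.le
    exact nonneg_of_mul_nonneg_right (a := 6 * b) (by linarith) (by positivity)
  have a3 : 2 * ((b - b') * ρ) ≤ (x' - x) * (w * (w - 1) / 2) := by
    have hρ : 0 ≤ ρ := nonneg_of_mul_nonneg_right (hΛ.trans r3) hx'
    calc 2 * ((b - b') * ρ) ≤ (b - b') * (11000 * ρ) / 5400 := by
          have := mul_nonneg hD hρ
          linarith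
      _ ≤ (b - b') * (x * b) / 5400 := by gcongr
      _ = (b - b') * x * b / 5400 := by ring
      _ ≤ 6 * b * (x' - x) * b / 5400 := by gcongr
      _ = (x' - x) * (b ^ 2 / 900) := by ring
      _ ≤ _ := by gcongr
  have a4 := mul_le_mul_of_nonneg_left a3 hx'.le
  have a5 := mul_le_mul_of_nonneg_left r3 hD
  have a6 : (b' - w) * (x' ^ 2 * (109 / 100 * b')) ≤ (b' - w) * (x' ^ 2 * (b' + w - 1)) := by
    gcongr
    linarith
  have a7 := mul_le_mul_of_nonneg_left x1 hy
  have a8 := mul_le_mul_of_nonneg_left r2 hy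
  have a9 := mul_le_mul_of_nonneg_left big hy
  have a10 := mul_nonneg hy hΛ
  linarith

end OVL

theorem rowOVL : RowOVL := by
  intro pb an V _ _ n b0 D0 g δ B B' par h1 h2 h3 xf xf' hyp ne hw
  obtain ⟨pb1, pb2, pb3⟩ := pb (Sym2 V)
  have hb0 : 1000 ≤ b0 := le_trans (Nat.le_add_left _ _) par.gb
  have hwb : (B ∩ B').card ≤ B'.card := card_le_card inter_subset_right
  have hW : B ∩ B' ≠ B := fun e => ne (eq_of_subset_of_card_le (inter_eq_left.1 e) h2).symm
  have hN : (0 : ℝ) < (B'.card.choose 2 : ℕ) := by exact_mod_cast (Nat.zero_le _).trans_lt xf'.lt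
  set x := xx n δ B.card with hx
  set x' := xx n δ B'.card with hx'
  set F := prs B' \ prs (B ∩ B') with hF
  set c : ℝ := thr n δ B'.card - ((1 / 2 + x) * ((B ∩ B').card.choose 2 : ℕ) +
    ((B.card : ℝ) - (B ∩ B').card) * rho b0) with hc
  have s1 : ∀ ω, Both n b0 δ B B' ω → thr n δ B.card ≤ cnt ω (prs B) ∧ c ≤ cnt ω F := by
    rintro ω ⟨⟨k1, k2⟩, k3⟩
    refine ⟨k1, ?_⟩
    have k4 := k2 _ inter_subset_left hW
    have k5 : (cnt ω F : ℝ) + ein ω (B ∩ B') = ein ω B' := by exact_mod_cast ein_inter_add ω B B'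
    have k6 : (thr n δ B'.card : ℝ) ≤ ein ω B' := by exact_mod_cast k3
    have k7 : ((min (B ∩ B').card (B.card - (B ∩ B').card) : ℕ) : ℝ) ≤
        (B.card : ℝ) - (B ∩ B').card := by
      rw [← Nat.cast_sub (hwb.trans h2)]
      exact_mod_cast min_le_right _ _
    have k8 := mul_le_mul_of_nonneg_right k7 (rho_nonneg b0)
    have k9 : (thr n δ B.card : ℝ) / (B.card.choose 2 : ℕ) = 1 / 2 + x := by rw [hx, xx]; ring
    rw [k9] at k4
    linarith
  refine (Pr_mono s1).trans ?_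
  rw [pb1 _ _ (prs B) F (fun ω ω' e k => cnt_congr e ▸ k) (fun ω ω' e k => cnt_congr e ▸ k)
    (disjoint_new B B'), pb3, card_prs]
  refine mul_le_mul_of_nonneg_left ((pb2 _ F (fun _ => 4 * x') (4 * x' * c) fun ω k => ?_).trans
    (Real.exp_le_exp.2 ?_)) (tail_nonneg _ _)
  · rw [sum_ite_const]
    exact mul_le_mul_of_nonneg_left k (by have := xf'.xpos; positivity)
  · have e1 : (F.card : ℝ) = (B'.card.choose 2 : ℕ) - ((B ∩ B').card.choose 2 : ℕ) := by
      rw [hF, card_sdiff_of_subset (prs_mono inter_subset_right),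
        Nat.cast_sub (card_le_card (prs_mono inter_subset_right)), card_prs, card_prs]
    have e2 : (thr n δ B'.card : ℝ) = (1 / 2 + x') * (B'.card.choose 2 : ℕ) := by
      rw [hx', xx]; field_simp; ring
    have e3 : psi (4 * x') ≤ 4 * x' / 2 + (4 * x') ^ 2 / 8 := by
      have := an.1 0 (4 * x')
      rw [zero_add, psi.eq_1 0, Real.exp_zero] at this
      norm_num at this
      linarith
    have e4 := mul_le_mul_of_nonneg_left e3 (Nat.cast_nonneg (α := ℝ) F.card)
    have e5 := OVL.key (b := B.card) (b' := B'.card) (w := (B ∩ B').card)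
      (by exact_mod_cast hb0.trans h1) (by exact_mod_cast h2)
      (by exact_mod_cast (by omega : B.card ≤ 2 * B'.card)) (by exact_mod_cast hw.le)
      (by exact_mod_cast hwb) xf.xpos xf'.xpos (by linarith [par.facts.1]) hyp xf.r1 xf'.x1 xf'.r2
      xf'.r3 par.big
    rw [sum_const, nsmul_eq_mul]
    rw [← Nat.cast_choose_two ℝ, ← Nat.cast_choose_two ℝ, ← e1, ← e2] at e5
    exact (sub_le_sub_right e4 _).trans e5

end Pool.Agent.MP_f8284b_co.U85
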