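import Mathlib
import Pool.Agent.MP_f8284b_co.U85.Basic

set_option autoImplicit false

/-! Small overlaps. -/

namespace Pool.Agent.MP_f8284b_co.U85

open Finset

namespace OVS

lemma num (L x x' l ρ w b' Nw : ℝ) (hL : 0 ≤ L) (hx : 0 < x) (hxx : x ≤ x') (_hl0 : 0 ≤ l)
    (hl : l ≤ 44 / 10 * x') (hρ : 0 ≤ ρ) (hw : 0 ≤ w) (hN0 : 0 ≤ Nw) (hN : Nw ≤ w * b' / 20)
    (h2 : x' ^ 2 * b' ≤ 121 / 100 * L) (hr : 400 * (x' * ρ) ≤ L) :
    l * (x * Nw) + l * (w * ρ) ≤ 28 / 100 * L * w := by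
  have hx' : 0 < x' := lt_of_lt_of_le hx hxx
  have a1 : l * (x * Nw) ≤ (44 / 10 * x') * (x' * (w * b' / 20)) :=
    mul_le_mul hl (mul_le_mul hxx hN hN0 hx'.le) (by positivity) (by positivity)
  have a2 : l * (w * ρ) ≤ (44 / 10 * x') * (w * ρ) :=
    mul_le_mul_of_nonneg_right hl (by positivity)
  have a3 : w * (x' ^ 2 * b') ≤ w * (121 / 100 * L) := mul_le_mul_of_nonneg_left h2 hw
  have a4 : w * (400 * (x' * ρ)) ≤ w * L := mul_le_mul_of_nonneg_left hr hw
  have a5 : 0 ≤ w * L := mul_nonneg hw hL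
  have e1 : (44 / 10 * x') * (x' * (w * b' / 20)) = 22 / 100 * (w * (x' ^ 2 * b')) := by ring
  have e2 : (44 / 10 * x') * (w * ρ) = 11 / 1000 * (w * (400 * (x' * ρ))) := by ring
  have e3 : w * (121 / 100 * L) = 121 / 100 * (w * L) := by ring
  have e4 : 28 / 100 * L * w = 28 / 100 * (w * L) := by ring
  linarith

end OVS

theorem rowOVS : RowOVS := by
  intro hPB hAN V _ _ n b0 D0 g δ B B' hP hb0 hbb hX hX' hxx hw
  obtain ⟨hP1, hP2, hP3⟩ := hPB (Sym2 V)
  have hgb := hP.gb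
  have hne : B ∩ B' ≠ B := by
    intro h
    rw [h] at hw
    omega
  set T := thr n δ B.card with hT
  set T' := thr n δ B'.card with hT'
  set l := lam n δ B'.card with hl
  set w := (B ∩ B').card with hwdef
  set F := prs B' \ prs (B ∩ B') with hF
  set z : ℝ := (T : ℝ) / (B.card.choose 2 : ℕ) * (w.choose 2 : ℕ) + w * rho b0 with hz
  have hρ := rho_nonneg b0
  have hl0 : 0 ≤ l := by have := hX'.l1; have := hX'.xpos; linarith
  let A : (Sym2 V → Bool) → Prop := fun ω => T ≤ ein ω B ∧ Flat ω T (rho b0) B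
  let C : (Sym2 V → Bool) → Prop := fun ω => (T' : ℝ) - z ≤ cnt ω F
  have hA : Dep A (prs B) := fun ω ω' h hω =>
    ⟨by rw [← ein_congr h]; exact hω.1, flat_congr h hω.2⟩
  have hC : Dep C F := fun ω ω' h hω => by
    show (T' : ℝ) - z ≤ cnt ω' F
    rw [← cnt_congr h]; exact hω
  have h1 : Pr (Both n b0 δ B B') ≤ Pr (fun ω => A ω ∧ C ω) := by
    refine Pr_mono fun ω hω => ⟨hω.1, ?_⟩
    have hf := hω.1.2 (B ∩ B') inter_subset_left hne
    have hm : ((min w (B.card - w) : ℕ) : ℝ) * rho b0 ≤ w * rho b0 :=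
      mul_le_mul_of_nonneg_right (by exact_mod_cast min_le_left _ _) hρ
    have he : (cnt ω F : ℝ) + ein ω (B ∩ B') = ein ω B' := by exact_mod_cast ein_inter_add ω B B'
    have hT2 : (T' : ℝ) ≤ ein ω B' := by exact_mod_cast hω.2
    show (T' : ℝ) - z ≤ cnt ω F
    rw [← hwdef] at hf
    linarith
  have h2 : Pr A ≤ tail (B.card.choose 2) T := by
    rw [← card_prs, ← hP3 (prs B) T]
    exact Pr_mono fun ω hω => hω.1
  have h3 : Pr C ≤ Real.exp (∑ _e ∈ F, psi l - l * (T' - z)) := by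
    refine hP2 C F (fun _ => l) (l * (T' - z)) fun ω hω => ?_
    rw [sum_ite_const]
    exact mul_le_mul_of_nonneg_left hω hl0
  have hFc : (F.card : ℝ) = (B'.card.choose 2 : ℕ) - (w.choose 2 : ℕ) := by
    have := card_sdiff_add_card_eq_card (prs_mono (inter_subset_right : B ∩ B' ⊆ B'))
    rw [card_prs, card_prs] at this
    rw [eq_sub_iff_add_eq]
    exact_mod_cast this
  have hN0 : (0 : ℝ) ≤ (w.choose 2 : ℕ) := by positivity
  have hNw : ((w.choose 2 : ℕ) : ℝ) ≤ w * B'.card / 20 := by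
    rw [Nat.cast_choose_two]
    have h10 : (10 : ℝ) * w ≤ B'.card := by exact_mod_cast hw
    have hw0 : (0 : ℝ) ≤ w := by positivity
    nlinarith
  have hL : 0 ≤ Real.log n := Real.log_natCast_nonneg n
  have hnum := OVS.num (Real.log n) (xx n δ B.card) (xx n δ B'.card) l (rho b0) w B'.card
    (w.choose 2 : ℕ) hL hX.xpos hxx hl0 hX'.l2 hρ (by positivity) hN0 hNw hX'.x2 hX'.r2
  have hp : (T : ℝ) / (B.card.choose 2 : ℕ) = xx n δ B.card + 1 / 2 := by
    unfold xx; ring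
  have hpsi := hAN.2.1 l
  have hexp : ∑ _e ∈ F, psi l - l * (T' - z) ≤
      ((B'.card.choose 2 : ℕ) * psi l - l * T') + 28 / 100 * Real.log n * w := by
    rw [sum_const, nsmul_eq_mul, hFc, hz, hp]
    have := mul_le_mul_of_nonneg_left hpsi hN0
    nlinarith
  have h4 : Pr C ≤ (((B'.card.choose 2 : ℕ) + 1) * tail (B'.card.choose 2) T') *
      Real.exp (28 / 100 * Real.log n * w) := by
    refine h3.trans ((Real.exp_le_exp.2 hexp).trans ?_)
    rw [Real.exp_add]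
    exact mul_le_mul_of_nonneg_right hX'.types (Real.exp_pos _).le
  refine h1.trans ?_
  rw [hP1 A C (prs B) F hA hC (disjoint_new B B')]
  exact mul_le_mul h2 h4 (Pr_nonneg _) (tail_nonneg _ _)

end Pool.Agent.MP_f8284b_co.U85
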