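import Pool.Agent.MP_f8284b_co.U85.Basic

set_option autoImplicit false

/-! Row OVT: the sum over all overlapping sets. -/

namespace Pool.Agent.MP_f8284b_co.U85

open Finset

namespace OVT

lemma card_grp {V : Type} [Fintype V] [DecidableEq V] (B : Finset V) (b' w : ℕ)
    (S : Finset (Finset V)) (hS : ∀ B' ∈ S, B'.card = b' ∧ (B ∩ B').card = w) :
    S.card ≤ B.card.choose w * (Fintype.card V).choose (b' - w) := by
  rw [← card_univ, ← card_powersetCard, ← card_powersetCard, ← card_product]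
  refine card_le_card_of_injOn (fun B' => (B ∩ B', B' \ B)) (fun B' h => ?_) fun X _ Y _ e => ?_
  · obtain ⟨h1, h2⟩ := hS B' h
    refine mem_coe.2 (mem_product.2 ⟨mem_powersetCard.2 ⟨inter_subset_left, h2⟩,
      mem_powersetCard.2 ⟨subset_univ _, ?_⟩⟩)
    have := card_sdiff_add_card_inter B' B
    rw [inter_comm] at this
    show (B' \ B).card = b' - w
    omega
  · obtain ⟨e1, e2⟩ := Prod.mk.inj e
    rw [← sdiff_union_inter X B, ← sdiff_union_inter Y B, inter_comm X, inter_comm Y, e1, e2]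

lemma pow_le {x Λ : ℝ} (h0 : 0 ≤ x) (h : x ≤ Real.exp Λ) (k : ℕ) : x ^ k ≤ Real.exp (Λ * k) := by
  rw [mul_comm, Real.exp_nat_mul]
  exact pow_le_pow_left₀ h0 h k

lemma ch_le {b : ℕ} {Λ : ℝ} (h : (b : ℝ) ≤ Real.exp Λ) (k : ℕ) :
    (b.choose k : ℝ) ≤ Real.exp (Λ * k) :=
  le_trans (by exact_mod_cast Nat.choose_le_pow b k) (pow_le (Nat.cast_nonneg _) h k)

lemma small {L Λ c1 c2 c3 r N t w : ℝ} (hΛ : 7 ≤ Λ) (hL : 10 ^ 9 * Λ ≤ L) (hw : 1 ≤ w)
    (h1 : c1 ≤ Real.exp (Λ * w)) (h2 : c2 ≤ c3 * r) (hr : r ≤ Real.exp ((2 * Λ - L) * w))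
    (hN : N ≤ Real.exp (2 * Λ)) (ht : c3 * t ≤ 1) (c20 : 0 ≤ c2) (c30 : 0 ≤ c3) (N0 : 0 ≤ N)
    (t0 : 0 ≤ t) :
    c1 * c2 * (N * t * Real.exp (28 / 100 * L * w)) ≤ Real.exp (-3 * Λ) := by
  have h3 : c2 * t ≤ Real.exp ((2 * Λ - L) * w) := by
    calc c2 * t ≤ c3 * Real.exp ((2 * Λ - L) * w) * t :=
          mul_le_mul_of_nonneg_right (h2.trans (mul_le_mul_of_nonneg_left hr c30)) t0
      _ = c3 * t * Real.exp ((2 * Λ - L) * w) := by ring
      _ ≤ _ := mul_le_of_le_one_left (Real.exp_pos _).le ht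
  calc _ = c1 * (c2 * t * (N * Real.exp (28 / 100 * L * w))) := by ring
    _ ≤ Real.exp (Λ * w) * (Real.exp ((2 * Λ - L) * w) *
        (Real.exp (2 * Λ) * Real.exp (28 / 100 * L * w))) := by
      gcongr
    _ ≤ _ := by
      rw [← Real.exp_add, ← Real.exp_add, ← Real.exp_add, Real.exp_le_exp]
      have h4 : 0 ≤ (w - 1) * (72 / 100 * L - 3 * Λ) := mul_nonneg (by linarith) (by linarith)
      nlinarith

lemma large {L Λ c1 c2 y D : ℝ} (hΛ : 7 ≤ Λ) (hy : 1 ≤ D + y) (h1 : c1 ≤ Real.exp (Λ * (D + y)))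
    (h2 : c2 ≤ Real.exp (L * y)) (c20 : 0 ≤ c2) :
    c1 * c2 * Real.exp (-(L + 4 * Λ) * y - 4 * Λ * D) ≤ Real.exp (-3 * Λ) := by
  calc _ ≤ Real.exp (Λ * (D + y)) * Real.exp (L * y) *
        Real.exp (-(L + 4 * Λ) * y - 4 * Λ * D) := by gcongr
    _ ≤ _ := by
      rw [← Real.exp_add, ← Real.exp_add, Real.exp_le_exp]
      have h4 : 0 ≤ (D + y - 1) * Λ := mul_nonneg (by linarith) (by linarith)
      nlinarith

end OVT

open OVT

theorem rowOVT : RowOVT := by
  intro hS hL hPB h1 h3 V _ _ n b0 D0 g δ hV hP hX h2 B b' hb0 hB hc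
  obtain ⟨f1, f2, f3, f4, -, f6, f7⟩ := hP.facts
  have hbig := hP.big
  have hb : (1000 : ℝ) ≤ b0 := by exact_mod_cast le_trans (Nat.le_add_left _ _) hP.gb
  have hle : b' ≤ B.card := by omega
  have hXB := hX B.card (by omega) hB
  have hXB' := hX b' hb0 (by omega)
  have hgap : ((B.card : ℝ) - b') * xx n δ B.card ≤ 6 * B.card * (xx n δ b' - xx n δ B.card) := by
    rcases hc with hc | hc
    · rw [hc]; simp
    · exact h2 _ _ hb0 hc hB
  have hB' : (B.card : ℝ) ≤ 2 * b0 := by exact_mod_cast hB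
  have hle' : (b' : ℝ) ≤ B.card := by exact_mod_cast hle
  have hb0' : (b0 : ℝ) ≤ b' := by exact_mod_cast hb0
  have hxx : xx n δ B.card ≤ xx n δ b' := by
    have a1 := mul_nonneg (sub_nonneg.2 hle') hXB.xpos.le
    have a2 : (0 : ℝ) < 6 * B.card := by linarith
    have a3 := (mul_nonneg_iff_of_pos_left a2).1 (a1.trans hgap)
    linarith
  set Λ := Real.log (2 * b0) with hΛ
  set L := Real.log n with hLn
  set τ := tail (B.card.choose 2) (thr n δ B.card) with hτ
  have τ0 : 0 ≤ τ := tail_nonneg _ _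
  have e2 : Real.exp (2 * Λ) = (2 * b0) ^ 2 := by
    rw [← f6, ← Real.exp_nat_mul]; norm_num
  have e3 : Real.exp (-3 * Λ) = ((2 * b0) ^ 3 : ℝ)⁻¹ := by
    rw [← f6, ← Real.exp_nat_mul, ← Real.exp_neg]; norm_num
  have hn : (2 * b0 : ℝ) ^ 2 ≤ n := by
    rw [← e2, ← f7, Real.exp_le_exp]; linarith
  have hn0 : (0 : ℝ) < n := by nlinarith
  have hn2 : 2 * b' ≤ n := by
    have : (2 * b' : ℝ) ≤ n := by nlinarith
    exact_mod_cast this
  set S := (univ.powersetCard b').filter (fun B' : Finset V => B' ≠ B ∧ ¬ Disjoint B B') with hSd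
  have hmap : ∀ B' ∈ S, (B ∩ B').card ∈ Icc 1 b' := fun B' h => by
    obtain ⟨a1, -, a3⟩ := mem_filter.1 h
    refine mem_Icc.2 ⟨card_pos.2 (not_disjoint_iff_nonempty_inter.1 a3), ?_⟩
    rw [← (mem_powersetCard.1 a1).2]
    exact card_le_card inter_subset_right
  rw [← sum_fiberwise_of_maps_to hmap]
  have key : ∀ w ∈ Icc 1 b', ∑ B' ∈ S.filter (fun B' => (B ∩ B').card = w),
      Pr (Both n b0 δ B B') ≤ τ * Real.exp (-3 * Λ) := by
    intro w hw
    obtain ⟨w1, w2⟩ := mem_Icc.1 hw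
    have hm : ∀ B' ∈ S.filter (fun B' => (B ∩ B').card = w),
        B'.card = b' ∧ (B ∩ B').card = w := fun B' h =>
      ⟨(mem_powersetCard.1 (mem_filter.1 (mem_filter.1 h).1).1).2, (mem_filter.1 h).2⟩
    have hcard : ((S.filter (fun B' => (B ∩ B').card = w)).card : ℝ) ≤
        (B.card.choose w : ℝ) * (n.choose (b' - w) : ℝ) := by
      have := card_grp B b' w _ hm
      rw [hV] at this
      exact_mod_cast this
    have fin : ∀ c : ℝ, 0 ≤ c → (∀ B' ∈ S.filter (fun B' => (B ∩ B').card = w),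
        Pr (Both n b0 δ B B') ≤ τ * c) →
        (B.card.choose w : ℝ) * (n.choose (b' - w) : ℝ) * c ≤ Real.exp (-3 * Λ) →
        ∑ B' ∈ S.filter (fun B' => (B ∩ B').card = w), Pr (Both n b0 δ B B') ≤
          τ * Real.exp (-3 * Λ) := by
      intro c c0 a1 a2
      refine (sum_le_card_nsmul _ _ _ a1).trans ?_
      rw [nsmul_eq_mul, mul_left_comm]
      exact mul_le_mul_of_nonneg_left ((mul_le_mul_of_nonneg_right hcard c0).trans a2) τ0
    by_cases hs : 10 * w ≤ b'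
    · refine fin (((b'.choose 2 : ℕ) + 1) * tail (b'.choose 2) (thr n δ b') *
        Real.exp (28 / 100 * L * w)) (mul_nonneg (mul_nonneg (by positivity) (tail_nonneg _ _))
          (Real.exp_pos _).le) (fun B' h => ?_) ?_
      · obtain ⟨rfl, rfl⟩ := hm B' h
        exact hS hPB h1 V n b0 D0 g δ B B' hP hb0 hle hXB hXB' hxx hs
      · refine small f1 hbig (by exact_mod_cast w1) (ch_le (hB'.trans f6.ge) w)
          (h3.2.2 n b' w w2 hn2 (by exact_mod_cast hn0)) (pow_le (by positivity) ?_ w) ?_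
          (hXB'.up.trans hP.dhi) (Nat.cast_nonneg _) (Nat.cast_nonneg _) (by positivity)
          (tail_nonneg _ _)
        · rw [Real.exp_sub, e2, f7]
          exact div_le_div_of_nonneg_right (by nlinarith) hn0.le
        · rw [e2, Nat.cast_choose_two]
          nlinarith
    · rcases (S.filter (fun B' => (B ∩ B').card = w)).eq_empty_or_nonempty with he | ⟨B₀, h0⟩
      · rw [he, sum_empty]
        exact mul_nonneg τ0 (Real.exp_pos _).le
      have hne : w < B.card := by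
        obtain ⟨a1, a2⟩ := hm B₀ h0
        by_contra hcon
        have a3 : B ∩ B₀ = B := eq_of_subset_of_card_le inter_subset_left (by omega)
        have a4 : B ∩ B₀ = B₀ := eq_of_subset_of_card_le inter_subset_right (by omega)
        exact (mem_filter.1 (mem_filter.1 h0).1).2.1 (a4.symm.trans a3)
      refine fin (Real.exp (-(L + 4 * Λ) * ((b' : ℝ) - w) - 4 * Λ * ((B.card : ℝ) - b')))
        (Real.exp_pos _).le (fun B' h => ?_) ?_
      · have hne' := (mem_filter.1 (mem_filter.1 h).1).2.1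
        obtain ⟨rfl, rfl⟩ := hm B' h
        exact hL hPB h1 V n b0 D0 g δ B B' hP hb0 hle hB hXB hXB' hgap hne' (not_le.1 hs)
      · refine large f1 ?_ ?_ ?_ (Nat.cast_nonneg _)
        · have : (w : ℝ) + 1 ≤ B.card := by exact_mod_cast hne
          linarith
        · rw [← Nat.choose_symm hne.le, sub_add_sub_cancel, ← Nat.cast_sub hne.le]
          exact ch_le (hB'.trans f6.ge) _
        · rw [← Nat.cast_sub w2]
          exact ch_le f7.ge _
  refine (sum_le_card_nsmul _ _ _ key).trans ?_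
  rw [nsmul_eq_mul, Nat.card_Icc, Nat.add_sub_cancel, mul_left_comm, div_eq_mul_inv, e3]
  refine mul_le_mul_of_nonneg_left ?_ τ0
  rw [← div_eq_mul_inv, ← one_div, div_le_div_iff₀ (by positivity) (by positivity)]
  have a1 : (b' : ℝ) * b0 ^ 2 ≤ 2 * b0 * b0 ^ 2 :=
    mul_le_mul_of_nonneg_right (hle'.trans hB') (by positivity)
  have a2 : (0 : ℝ) ≤ b0 ^ 3 := by positivity
  nlinarith

end Pool.Agent.MP_f8284b_co.U85
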