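import Pool.Agent.MP_f8284b_co.U85.Basic

set_option autoImplicit false

/-! Padding tuples with empty sets. -/

namespace Pool.Agent.MP_f8284b_co.U85

open Finset Function

namespace PAD

theorem pad {V κ ι : Type} [Fintype V] [DecidableEq V] [Fintype κ] [DecidableEq κ] [Fintype ι]
    [DecidableEq ι] (ω : Sym2 V → Bool) {f : κ → ι} (hf : Injective f) (c : κ → ℕ) (z : ℕ) :
    dat ω (extend f c 0) z = dat ω c z := by
  have off : ∀ (W : ι → Finset V), (∀ i, (W i).card = extend f c 0 i) → ∀ i, (¬ ∃ k, f k = i) →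
      W i = ∅ := fun W h i hi => card_eq_zero.1 ((h i).trans (extend_apply' _ _ _ hi))
  have sm : ∀ (W : ι → Finset V), (∀ i, (¬ ∃ k, f k = i) → W i = ∅) →
      ∑ k, ein ω (W (f k)) = ∑ i, ein ω (W i) := fun W h =>
    Fintype.sum_of_injective f hf _ _ (fun i hi => by rw [h i hi, ein_empty]) fun _ => rfl
  unfold dat
  refine card_bij (fun W _ => fun k => W (f k)) (fun W hW => ?_) (fun W hW W' hW' e => ?_)
    fun W hW => ?_
  · obtain ⟨a, b, d⟩ := (mem_filter.1 hW).2
    exact mem_filter.2 ⟨mem_univ _, fun k => (a _).trans (hf.extend_apply _ _ k),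
      fun k l h => b _ _ (hf.ne h), (sm W (off W a)).trans d⟩
  · funext i
    by_cases h : ∃ k, f k = i
    · obtain ⟨k, rfl⟩ := h
      exact congrFun e k
    · rw [off W (mem_filter.1 hW).2.1 i h, off W' (mem_filter.1 hW').2.1 i h]
  · obtain ⟨a, b, d⟩ := (mem_filter.1 hW).2
    have e1 : ∀ k, extend f W (fun _ => ∅) (f k) = W k := fun k => hf.extend_apply _ _ k
    have e2 : ∀ i, (¬ ∃ k, f k = i) → extend f W (fun _ => ∅) i = ∅ := fun i hi =>
      extend_apply' _ _ _ hi
    refine ⟨extend f W fun _ => ∅, mem_filter.2 ⟨mem_univ _, fun i => ?_, fun i j h => ?_, ?_⟩,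
      funext e1⟩
    · by_cases h : ∃ k, f k = i
      · obtain ⟨k, rfl⟩ := h
        rw [e1, hf.extend_apply, a]
      · rw [e2 i h, extend_apply' _ _ _ h]
        rfl
    · by_cases hi : ∃ k, f k = i
      · by_cases hj : ∃ k, f k = j
        · obtain ⟨k, rfl⟩ := hi
          obtain ⟨l, rfl⟩ := hj
          rw [e1, e1]
          exact b k l fun e => h (congrArg f e)
        · rw [e2 j hj]
          exact disjoint_empty_right _
      · rw [e2 i hi]
        exact disjoint_empty_left _
    · rw [← sm _ e2, ← d]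
      simp only [e1]

end PAD

theorem rowPAD : RowPAD := by
  intro V _ _ t ω ω' h κ _ _ hκ c z
  obtain ⟨f⟩ : Nonempty (κ ↪ Fin t) :=
    Function.Embedding.nonempty_of_card_le (by rwa [Fintype.card_fin])
  rw [← PAD.pad ω f.injective, ← PAD.pad ω' f.injective, h]

end Pool.Agent.MP_f8284b_co.U85
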