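import Mathlib

set_option autoImplicit false

namespace Pool.Agent.MP_f8284b_co.U85

open Classical in
/-- The Potts partition function with `t` external fields, in subset form: the sum over edge
subsets `A` of `v ^ |A|` times the product, over the components `C` of the spanning subgraph with
edge set `A`, of `q + z_1 ^ |C| + ... + z_t ^ |C|`. For `t = 0` it is the sum of
`v ^ |A| * q ^ k(A)`, the Potts form of the Tutte polynomial. -/
noncomputable def potts {n t : ℕ} (G : SimpleGraph (Fin n)) (q v : ℤ) (z : Fin t → ℤ) : ℤ :=
  ∑ A ∈ G.edgeFinset.powerset, v ^ A.card *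
    ∏ C : (SimpleGraph.fromEdgeSet (A : Set (Sym2 (Fin n)))).ConnectedComponent,
      (q + ∑ k : Fin t, z k ^ Nat.card C.supp)

end Pool.Agent.MP_f8284b_co.U85
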