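import Mathlib
import Pool.Agent.MP_f8284b_co.U85.Basic
import Pool.Agent.MP_f8284b_co.U85.PDefs

set_option autoImplicit false

/-! The Potts function with `t` fields determines the specialisation `Uspec t`. -/

namespace Pool.Agent.MP_f8284b_co.U85

open Finset Filter Topology

namespace PT

lemma coeff_prod_top {R I : Type} [CommRing R] (S : Finset I) (f : I → Polynomial R) (d : I → ℕ)
    (h : ∀ i ∈ S, (f i).natDegree ≤ d i) :
    (∏ i ∈ S, f i).natDegree ≤ ∑ i ∈ S, d i ∧
      (∏ i ∈ S, f i).coeff (∑ i ∈ S, d i) = ∏ i ∈ S, (f i).coeff (d i) := by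
  classical
  induction S using Finset.induction_on with
  | empty => simp
  | insert a S ha ih =>
    obtain ⟨i1, i2⟩ := ih (fun i hi => h i (mem_insert_of_mem hi))
    have h0 := h a (mem_insert_self _ _)
    rw [prod_insert ha, sum_insert ha, prod_insert ha]
    exact ⟨le_trans Polynomial.natDegree_mul_le (add_le_add h0 i1),
      by rw [Polynomial.coeff_mul_add_eq_of_natDegree_le h0 i1, i2]⟩

lemma sum_supp {n : ℕ} (G : SimpleGraph (Fin n)) [Fintype G.ConnectedComponent] :
    ∑ C : G.ConnectedComponent, Nat.card C.supp = n := by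
  classical
  have h := card_eq_sum_card_fiberwise (s := (univ : Finset (Fin n)))
    (t := (univ : Finset G.ConnectedComponent)) (f := G.connectedComponentMk)
    (fun _ _ => mem_coe.2 (mem_univ _))
  rw [card_univ, Fintype.card_fin] at h
  conv_rhs => rw [h]
  refine sum_congr rfl fun C _ => ?_
  rw [Nat.card_eq_fintype_card, Fintype.card_subtype]
  exact congrArg card (filter_congr fun v _ => by simp)

lemma one_le_supp {n : ℕ} (G : SimpleGraph (Fin n)) (C : G.ConnectedComponent) :
    1 ≤ Nat.card C.supp := by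
  obtain ⟨v, hv⟩ := C.nonempty_supp
  haveI : Nonempty C.supp := ⟨⟨v, hv⟩⟩
  exact Nat.card_pos

open Classical in
/-- the polynomial behind `potts` -/
noncomputable def PP (t : ℕ) {n : ℕ} (G : SimpleGraph (Fin n)) :
    MvPolynomial (Option (Option (Fin t))) ℤ :=
  ∑ A ∈ G.edgeFinset.powerset, MvPolynomial.X (some none) ^ A.card *
    ∏ C : (SimpleGraph.fromEdgeSet (A : Set (Sym2 (Fin n)))).ConnectedComponent,
      (MvPolynomial.X none + ∑ k : Fin t, MvPolynomial.X (some (some k)) ^ Nat.card C.supp)

lemma eval_PP (t : ℕ) {n : ℕ} (G : SimpleGraph (Fin n)) (x : Option (Option (Fin t)) → ℤ) :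
    MvPolynomial.eval x (PP t G) = potts G (x none) (x (some none)) (fun k => x (some (some k))) := by
  unfold PP potts
  simp only [map_sum, map_mul, map_pow, map_prod, map_add, MvPolynomial.eval_X]

/-- grading substitution -/
noncomputable def gr (t : ℕ) :
    Option (Option (Fin t)) → Polynomial (MvPolynomial (Option (Fin t)) ℤ)
  | none => Polynomial.X
  | some none => Polynomial.C (MvPolynomial.X none - 1)
  | some (some k) => Polynomial.C (MvPolynomial.X (some k)) * Polynomial.X

lemma coeff_PP (hU1 : RowUD1) (t : ℕ) {n : ℕ} (G : SimpleGraph (Fin n)) :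
    (MvPolynomial.aeval (gr t) (PP t G)).coeff n = Uspec t G := by
  classical
  unfold PP Uspec Upoly
  simp only [map_sum, map_mul, map_pow, map_prod, map_add, map_sub, map_one,
    MvPolynomial.aeval_X, gr, subst, Polynomial.finset_sum_coeff]
  refine sum_congr rfl fun A _ => ?_
  have hf : ∀ s : ℕ, (Polynomial.X + ∑ k : Fin t,
      (Polynomial.C (MvPolynomial.X (some k)) * Polynomial.X) ^ s :
        Polynomial (MvPolynomial (Option (Fin t)) ℤ)) =
      Polynomial.X + Polynomial.C (∑ k : Fin t, MvPolynomial.X (some k) ^ s) * Polynomial.X ^ s := by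
    intro s
    simp only [mul_pow, map_sum, map_pow, sum_mul]
  have h := (coeff_prod_top (R := MvPolynomial (Option (Fin t)) ℤ) univ
    (fun C : (SimpleGraph.fromEdgeSet (A : Set (Sym2 (Fin n)))).ConnectedComponent =>
      Polynomial.X + Polynomial.C (∑ k : Fin t, MvPolynomial.X (some k) ^ Nat.card C.supp) *
        Polynomial.X ^ Nat.card C.supp) (fun C => Nat.card C.supp) (fun C _ => by
      refine le_trans (Polynomial.natDegree_add_le _ _) (max_le ?_ ?_)
      · exact le_trans Polynomial.natDegree_X_le (one_le_supp _ C)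
      · exact Polynomial.natDegree_C_mul_X_pow_le _ _)).2
  rw [sum_supp] at h
  have e1 : (Polynomial.C (MvPolynomial.X none) - 1 :
      Polynomial (MvPolynomial (Option (Fin t)) ℤ)) ^ A.card =
      Polynomial.C ((MvPolynomial.X none - 1) ^ A.card) := by simp
  simp only [hf]
  rw [e1, Polynomial.coeff_C_mul, h, prod_mul_distrib, prod_pow_eq_pow_sum, mul_right_comm,
    ← pow_add, add_comm, hU1 n A]
  congr 1
  refine prod_congr rfl fun C _ => ?_
  rw [Polynomial.coeff_add, Polynomial.coeff_C_mul_X_pow, if_pos rfl, Polynomial.coeff_X, add_comm]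
  congr 1
  by_cases h1 : Nat.card C.supp = 1
  · rw [if_pos h1, if_pos h1.symm]
  · rw [if_neg h1, if_neg (fun h2 => h1 h2.symm)]

end PT

theorem uspec_of_potts (hU1 : RowUD1) (t : ℕ) {n : ℕ} (G H : SimpleGraph (Fin n))
    (h : ∀ (q v : ℤ) (z : Fin t → ℤ), potts G q v z = potts H q v z) : Uspec t G = Uspec t H := by
  have : PT.PP t G = PT.PP t H :=
    MvPolynomial.funext fun x => by rw [PT.eval_PP, PT.eval_PP, h]
  rw [← PT.coeff_PP hU1, ← PT.coeff_PP hU1, this]

theorem potts_of_uspec (hU1 : RowUD1) (t : ℕ) (h : Tendsto (fun n : ℕ =>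
      (Nat.card {G : SimpleGraph (Fin n) //
          ∀ H : SimpleGraph (Fin n), Uspec t G = Uspec t H → Nonempty (G ≃g H)} : ℝ) /
        (Nat.card (SimpleGraph (Fin n)) : ℝ)) atTop (𝓝 1)) :
    Tendsto (fun n : ℕ =>
      (Nat.card {G : SimpleGraph (Fin n) // ∀ H : SimpleGraph (Fin n),
          (∀ (q v : ℤ) (z : Fin t → ℤ), potts G q v z = potts H q v z) → Nonempty (G ≃g H)} : ℝ) /
        (Nat.card (SimpleGraph (Fin n)) : ℝ)) atTop (𝓝 1) := by
  refine tendsto_of_tendsto_of_tendsto_of_le_of_le h tendsto_const_nhds (fun n => ?_) (fun n => ?_)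
  · refine div_le_div_of_nonneg_right ?_ (by positivity)
    refine Nat.cast_le.2 (Nat.card_le_card_of_injective
      (fun G => ⟨G.1, fun H hH => G.2 H (uspec_of_potts hU1 t _ _ hH)⟩) ?_)
    intro G G' hG
    exact Subtype.ext (Subtype.mk.inj hG)
  · refine div_le_one_of_le₀ ?_ (by positivity)
    exact Nat.cast_le.2 (Finite.card_subtype_le _)

end Pool.Agent.MP_f8284b_co.U85
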