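import Pool.Agent.MP_f8284b_co.U85.Basic

set_option autoImplicit false
set_option linter.unusedSectionVars false

/-! Row SA: the vertices of the blocks are matched. -/

namespace Pool.Agent.MP_f8284b_co.U85

open Finset PowerSeries

namespace SA

variable {V K R : Type} [DecidableEq V]

open Classical in
/-- the lowest coefficient that a vertex contributes in a slot -/
noncomputable def F (ω : Sym2 V → Bool) (B : K × R → Finset V) (u : V) (k : K) (o : Option R) :
    ℚ :=
  if ∃ r, u ∈ B (k, r) then coeff 0 (gen ω B {u} k o) else coeff 1 (gen ω B {u} k o)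

variable {ω : Sym2 V → Bool} {B : K × R → Finset V} {u : V} {k k0 : K} {r0 : R}

lemma F_pos (h : ∃ r, u ∈ B (k, r)) (o : Option R) :
    F ω B u k o = coeff 0 (gen ω B {u} k o) := if_pos h

lemma F_neg (h : ¬ ∃ r, u ∈ B (k, r)) (o : Option R) :
    F ω B u k o = coeff 1 (gen ω B {u} k o) := if_neg h

lemma zero_of (h : ¬ ∃ r, u ∈ B (k, r)) (o : Option R) : coeff 0 (gen ω B {u} k o) = 0 := by
  cases o with
  | none => simp
  | some r =>
    rw [gen_some]
    split_ifs
    · rw [coeff_zero_gen1, if_pos (disjoint_singleton_left.2 fun e => h ⟨r, e⟩)]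
    · simp

lemma not_ex (hd : ∀ i i', i ≠ i' → Disjoint (B i) (B i')) (hu : u ∈ B (k0, r0)) (hk : k ≠ k0) :
    ¬ ∃ r, u ∈ B (k, r) := fun ⟨r, e⟩ =>
  disjoint_left.1 (hd (k, r) (k0, r0) fun h => hk (congrArg Prod.fst h)) e hu

lemma F_self (hu : u ∈ B (k0, r0)) : F ω B u k0 (some r0) = -1 := by
  rw [F_pos ⟨r0, hu⟩, gen_some, if_pos ⟨u, hu⟩, coeff_zero_gen1,
    if_neg fun h => disjoint_singleton_left.1 h hu]

lemma mem_of_ne (h : ∃ r, u ∈ B (k0, r)) (h1 : F ω B u k0 (some r0) ≠ 0) : u ∈ B (k0, r0) := by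
  by_contra hc
  rw [F_pos h, gen_some] at h1
  split_ifs at h1
  · exact h1 (by rw [coeff_zero_gen1, if_pos (disjoint_singleton_left.2 hc)])
  · exact h1 (by simp)

lemma F_lab (h : ¬ ∃ r, u ∈ B (k, r)) {r : R} (hr : (B (k, r)).Nonempty) :
    F ω B u k (some r) = lab ω {u} (B (k, r)) := by
  rw [F_neg h, gen_some, if_pos hr, coeff_one_gen1,
    if_pos (disjoint_singleton_left.2 fun e => h ⟨r, e⟩)]

variable [Fintype K] [DecidableEq K]

lemma prod_read (hd : ∀ i i', i ≠ i' → Disjoint (B i) (B i')) (hu : u ∈ B (k0, r0))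
    (hk : k ≠ k0) (o : Option R) :
    ∏ l, F ω B u l (if l = k0 then some r0 else if l = k then o else none) = - F ω B u k o := by
  rw [← mul_prod_erase univ _ (mem_univ k0), if_pos rfl, F_self hu,
    prod_eq_single_of_mem k (mem_erase.2 ⟨hk, mem_univ k⟩) fun l hl h => by
      rw [if_neg (ne_of_mem_erase hl), if_neg h, F_neg (not_ex hd hu (ne_of_mem_erase hl))]
      simp, if_neg hk, if_pos rfl, neg_one_mul]

open Classical in
lemma coeff_one_root (cf : RowCF) (hd : ∀ i i', i ≠ i' → Disjoint (B i) (B i')) {s : ℕ}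
    (hs : Fintype.card K = s + 1) (E : ℕ) (x : K → Option R) :
    coeff s ((1 + X : PowerSeries ℚ) ^ E * ∏ k, gen ω B {u} k (x k)) =
      if ∃ i, u ∈ B i then ∏ k, F ω B u k (x k) else 0 := by
  split_ifs with h
  · obtain ⟨⟨k0, r0⟩, hu⟩ := h
    have hc : (univ.erase k0).card = s := by rw [card_erase_of_mem (mem_univ _), card_univ, hs]; rfl
    have := (cf K (univ.erase k0) (fun k => gen ω B {u} k (x k))
      ((1 + X) ^ E * gen ω B {u} k0 (x k0))
      fun k hk => zero_of (not_ex hd hu (ne_of_mem_erase hk)) _).2.1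
    rw [hc] at this
    rw [← mul_prod_erase univ _ (mem_univ k0), ← mul_assoc, this,
      ← mul_prod_erase univ _ (mem_univ k0), F_pos ⟨r0, hu⟩,
      prod_congr rfl fun k hk => F_neg (not_ex hd hu (ne_of_mem_erase hk)) (x k)]
    simp
  · exact (cf K univ (fun k => gen ω B {u} k (x k)) _
      fun k _ => zero_of (fun ⟨r, e⟩ => h ⟨_, e⟩) _).1 s (by rw [card_univ, hs]; omega)

open Classical in
lemma coeff_ten [Fintype V] [Fintype {u : V // ∃ i, u ∈ B i}] (cf : RowCF)
    (hd : ∀ i i', i ≠ i' → Disjoint (B i) (B i')) {s : ℕ}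
    (hs : Fintype.card K = s + 1) (x : K → Option R) :
    coeff s (ten ω B 1 x) = ∑ u : {u : V // ∃ i, u ∈ B i}, ∏ k, F ω B u.1 k (x k) := by
  rw [ten, sum_rts_one, map_sum, sum_congr rfl fun u _ => coeff_one_root cf hd hs _ x,
    ← sum_filter]
  exact sum_subtype _ (by simp) fun u => ∏ k, F ω B u k (x k)

open Classical in
lemma card_sub [Fintype V] [Fintype R] [Fintype {u : V // ∃ i, u ∈ B i}]
    (hd : ∀ i i', i ≠ i' → Disjoint (B i) (B i')) :
    Fintype.card {u : V // ∃ i, u ∈ B i} = ∑ i, (B i).card := by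
  rw [← card_biUnion fun i _ i' _ h => hd i i' h]
  exact Fintype.card_of_subtype _ (by simp)

open Classical in
lemma indep [Fintype V] [Fintype R] {p : ℕ} {B : Sl p × R → Finset V} (ind : RowIND) (sp : RowSP)
    (hd : ∀ i i', i ≠ i' → Disjoint (B i) (B i')) (hg : Gen ω B) (a : Fin 3) :
    LinearIndependent ℚ fun u : {u : V // ∃ i, u ∈ B i} =>
      fun y : Fin (p + 1) → Option R => ∏ k, F ω B u.1 (a, k) (y k) := by
  refine ind sp V R _ p ω B a Subtype.val (fun u k o => F ω B u.1 (a, k) o) hg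
    Subtype.val_injective (fun u => ?_) fun u k => ?_
  · by_cases h : ∃ k r, u.1 ∈ B ((a, k), r)
    · obtain ⟨k0, r0, h⟩ := h
      refine ⟨k0, some r0, by rw [F_self h]; norm_num, fun k hk r hr _ => ?_⟩
      exact F_lab (not_ex hd h fun e => hk (congrArg Prod.snd e)) hr
    · refine ⟨0, none, ?_, fun k _ r hr _ => F_lab (fun e => h ⟨k, e⟩) hr⟩
      rw [F_neg fun e => h ⟨0, e⟩]
      simp
  · by_cases h : ∃ r, u.1 ∈ B ((a, k), r)
    · exact ⟨1, 0, fun r hr => by rw [F_pos h, gen_some, if_pos hr]; simp⟩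
    · exact ⟨0, 1, fun r hr => by rw [F_neg h, gen_some, if_pos hr]; simp⟩

lemma three {p : ℕ} (f : Sl p → Option R → ℚ) (a b c : Fin (p + 1) → Option R) :
    ∏ k : Sl p, f k (![a, b, c] k.1 k.2) =
      (∏ k, f (0, k) (a k)) * (∏ k, f (1, k) (b k)) * ∏ k, f (2, k) (c k) := by
  rw [prod_Sl]; rfl

end SA

open SA in
theorem rowSA : RowSA := by
  classical
  intro cf lu ind sp V R _ _ _ _ p ω ω' B B' sh hg h
  have hs : Fintype.card (Sl p) = 3 * p + 2 + 1 := by rw [card_Sl]; ring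
  obtain ⟨e, he⟩ := lu {u : V // ∃ i, u ∈ B i} {u : V // ∃ i, u ∈ B' i} (Fin (p + 1) → Option R)
    (fun u y => ∏ k, F ω B u.1 (0, k) (y k)) (fun u y => ∏ k, F ω B u.1 (1, k) (y k))
    (fun u y => ∏ k, F ω B u.1 (2, k) (y k)) (fun u y => ∏ k, F ω' B' u.1 (0, k) (y k))
    (fun u y => ∏ k, F ω' B' u.1 (1, k) (y k)) (fun u y => ∏ k, F ω' B' u.1 (2, k) (y k))
    (by rw [card_sub sh.1, card_sub sh.2.1, sum_congr rfl fun i _ => sh.2.2 i])
    (indep ind sp sh.1 hg 0) (indep ind sp sh.1 hg 1) (indep ind sp sh.1 hg 2) fun a b c => by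
      have := h fun k => ![a, b, c] k.1 k.2
      rw [coeff_ten cf sh.1 hs, coeff_ten cf sh.2.1 hs] at this
      exact (sum_congr rfl fun u _ => (three (F ω B u.1) a b c).symm).trans
        (this.trans (sum_congr rfl fun u _ => three (F ω' B' u.1) a b c))
  have key : ∀ u (x : Sl p → Option R),
      ∏ k, F ω B u.1 k (x k) = ∏ k, F ω' B' (e u).1 k (x k) := fun u x => by
    rw [prod_Sl, prod_Sl]
    exact he u (fun k => x (0, k)) (fun k => x (1, k)) fun k => x (2, k)
  refine ⟨e, fun u ⟨k0, r0⟩ hu => ?_⟩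
  have h1 : (e u).1 ∈ B' (k0, r0) := by
    obtain ⟨k, hk⟩ := exists_ne k0
    have h2 := key u fun l => if l = k0 then some r0 else if l = k then none else none
    rw [prod_read sh.1 hu hk, F_neg (not_ex sh.1 hu hk)] at h2
    have h3 := prod_ne_zero_iff.1 (h2 ▸ (by simp) : ∏ l, F ω' B' (e u).1 l
      (if l = k0 then some r0 else if l = k then none else none) ≠ 0)
    obtain ⟨⟨k1, r1⟩, h4⟩ := (e u).2
    by_cases h5 : k1 = k0
    · subst h5
      exact mem_of_ne ⟨r1, h4⟩ (by simpa using h3 k1 (mem_univ _))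
    · have := h3 k1 (mem_univ _)
      rw [if_neg h5, ite_self, F_pos ⟨r1, h4⟩] at this
      exact absurd (by simp) this
  refine ⟨h1, fun k hk o => ?_⟩
  cases o with
  | none => rfl
  | some r =>
    have h2 := key u fun l => if l = k0 then some r0 else if l = k then some r else none
    have n1 := not_ex sh.1 hu hk
    have n2 := not_ex sh.2.1 h1 hk
    rw [prod_read sh.1 hu hk, prod_read sh.2.1 h1 hk, neg_inj] at h2
    rw [gen_some, gen_some]
    by_cases hr : (B (k, r)).Nonempty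
    · have hr' := (sh.nonempty_iff _).2 hr
      rw [F_lab n1 hr, F_lab n2 hr', Nat.cast_inj] at h2
      rw [if_pos hr, if_pos hr', gen1, gen1, h2,
        if_pos (disjoint_singleton_left.2 fun e => n1 ⟨r, e⟩),
        if_pos (disjoint_singleton_left.2 fun e => n2 ⟨r, e⟩)]
    · rw [if_neg hr, if_neg fun e => hr ((sh.nonempty_iff _).1 e)]

end Pool.Agent.MP_f8284b_co.U85
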