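import Pool.Agent.MP_f8284b_co.U85.Basic

set_option autoImplicit false

/-! Step B: a bijection of the vertices that respects blocks and labels. -/

namespace Pool.Agent.MP_f8284b_co.U85

open Finset PowerSeries

namespace SB

variable {V K R : Type} [Fintype V] [DecidableEq V] [Fintype K] [DecidableEq K]

/-- the factor of the vertex `u` in the slot `k` -/
noncomputable def fa (ω : Sym2 V → Bool) (B : K × R → Finset V) (u : V) (k : K) (o : Option R) :
    ℚ := (ein ω (univ \ {u}) : ℚ) * coeff 0 (gen ω B {u} k o) + coeff 1 (gen ω B {u} k o)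

/-- the part of the term of `u` that is not a product -/
noncomputable def rem (ω : Sym2 V → Bool) (B : K × R → Finset V) (u : V) (x : K → Option R) : ℚ :=
  coeff (Fintype.card K) ((1 + X) ^ ein ω (univ \ {u}) * ∏ k, gen ω B {u} k (x k)) -
    ∏ k, fa ω B u k (x k)

variable {ω : Sym2 V → Bool} {B : K × R → Finset V} {u : V} {x : K → Option R}

omit [Fintype K] [DecidableEq K] in
lemma fa_none (k : K) : fa ω B u k none = 1 := by simp [fa]

omit [Fintype V] [Fintype K] [DecidableEq K] in
lemma gen_in {i : K × R} (h : u ∈ B i) : gen ω B {u} i.1 (some i.2) = -1 := by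
  rw [gen_some, if_pos ⟨u, h⟩, gen1_of_not_disjoint _ (by simpa using h)]

omit [Fintype K] [DecidableEq K] in
lemma fa_in {i : K × R} (h : u ∈ B i) : fa ω B u i.1 (some i.2) = -(ein ω (univ \ {u}) : ℚ) := by
  simp [fa, gen_in h, coeff_one]

omit [Fintype K] [DecidableEq K] in
lemma fa_out {i : K × R} (n : (B i).Nonempty) (h : u ∉ B i) :
    fa ω B u i.1 (some i.2) = lab ω {u} (B i) := by
  have d : Disjoint {u} (B i) := by simpa using h
  rw [fa, gen_some, if_pos n, coeff_zero_gen1, coeff_one_gen1, if_pos d, if_pos d, mul_zero,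
    zero_add]

omit [Fintype V] [Fintype K] [DecidableEq K] in
lemma zero {k : K} {o : Option R} (h : ∀ r, o = some r → u ∉ B (k, r)) :
    coeff 0 (gen ω B {u} k o) = 0 := by
  rcases o with _ | r
  · simp
  · rw [gen_some]
    split_ifs
    · rw [coeff_zero_gen1, if_pos (by simpa using h r rfl)]
    · simp

omit [DecidableEq K] in
lemma nohole (cf : RowCF) (h : ∀ k r, x k = some r → u ∉ B (k, r)) : rem ω B u x = 0 := by
  have z : ∀ k, coeff 0 (gen ω B {u} k (x k)) = 0 := fun k => zero (h k)
  rw [rem, ← card_univ, (cf K univ _ _ fun k _ => z k).2.1, coeff_pow_one_add]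
  simp only [fa, z, mul_zero, zero_add, Nat.choose_zero_right, Nat.cast_one, one_mul, sub_self]

lemma hole (cf : RowCF) (d : ∀ i i', i ≠ i' → Disjoint (B i) (B i')) {i : K × R} (h : u ∈ B i)
    (e : x i.1 = some i.2) :
    rem ω B u x = -coeff (Fintype.card K) (∏ k ∈ univ.erase i.1, gen ω B {u} k (x k)) := by
  have z : ∀ k ∈ univ.erase i.1, coeff 0 (gen ω B {u} k (x k)) = 0 := fun k hk =>
    zero fun r _ c => disjoint_left.1 (d i (k, r) fun f => ne_of_mem_erase hk (by rw [f])) h c
  have := (cf K _ _ (-(1 + X) ^ ein ω (univ \ {u})) z).2.2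
  rw [card_erase_add_one (mem_univ _), card_univ] at this
  rw [rem, ← mul_prod_erase _ _ (mem_univ i.1), ← mul_prod_erase _ _ (mem_univ i.1), e, gen_in h,
    fa_in h, ← mul_assoc, mul_neg_one, this, map_neg, map_neg, coeff_pow_one_add, coeff_pow_one_add,
    prod_congr (g := fun k => coeff 1 (gen ω B {u} k (x k))) (f := fun k => fa ω B u k (x k)) rfl
      fun k hk => by rw [fa, z k hk, mul_zero, zero_add]]
  simp

lemma rem_in [DecidableEq R] (cf : RowCF) (d : ∀ i i', i ≠ i' → Disjoint (B i) (B i'))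
    {i : K × R} (h : u ∈ B i) : rem ω B u x = if x i.1 = some i.2 then
      -coeff (Fintype.card K) (∏ k ∈ univ.erase i.1, gen ω B {u} k (x k)) else 0 := by
  split_ifs with e
  · exact hole cf d h e
  · refine nohole cf fun k r a c => e ?_
    by_contra f
    exact disjoint_left.1 (d i (k, r) fun g => f (by rw [g]; exact a)) h c

omit [DecidableEq K] in
lemma sum_sub [Fintype {u : V // ∃ i, u ∈ B i}] (cf : RowCF) :
    ∑ u, rem ω B u x = ∑ u : {u : V // ∃ i, u ∈ B i}, rem ω B u.1 x := by
  classical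
  rw [← sum_subtype (univ.filter fun u => ∃ i, u ∈ B i) (by simp) fun u => rem ω B u x, sum_filter]
  refine sum_congr rfl fun u _ => ?_
  split_ifs with c
  · rfl
  · exact nohole cf fun k r _ h => c ⟨_, h⟩

omit [DecidableEq K] in
lemma ten_eq : coeff (Fintype.card K) (ten ω B 1 x) =
    ∑ u, ∏ k, fa ω B u k (x k) + ∑ u, rem ω B u x := by
  rw [ten, sum_rts_one, map_sum, ← sum_add_distrib]
  exact sum_congr rfl fun u _ => by rw [rem, add_sub_cancel]

lemma prod_single (k : K) (o : Option R) :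
    ∏ l, fa ω B u l (Function.update (fun _ => none) k o l) = fa ω B u k o := by
  rw [prod_eq_single k (fun l _ h => by rw [Function.update_of_ne h, fa_none]) (by simp),
    Function.update_self]

end SB

open SB in
theorem rowSB : RowSB := by
  intro cf lu ind sp V R _ _ _ _ p ω ω' B B' sh ge pos ⟨e, he⟩ ht
  classical
  have h1 : ∀ x : Sl p → Option R,
      ∑ u, ∏ k, fa ω B u k (x k) = ∑ u, ∏ k, fa ω' B' u k (x k) := fun x => by
    have := ht x
    rw [← card_Sl, ten_eq, ten_eq, sum_sub cf, sum_sub cf, ← e.sum_comp,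
      sum_congr (g := fun u => rem ω' B' (e u).1 x) (f := fun u => rem ω B u.1 x) rfl
        fun u _ => ?_] at this
    · exact add_right_cancel this
    · obtain ⟨i, hi⟩ := u.2
      obtain ⟨a, b⟩ := he u i hi
      rw [rem_in cf sh.1 hi, rem_in cf sh.2.1 a,
        prod_congr rfl fun k hk => b k (ne_of_mem_erase hk) (x k)]
  have li : ∀ a : Fin 3, LinearIndependent ℚ
      fun u => fun y : Fin (p + 1) → Option R => ∏ k, fa ω B u (a, k) (y k) := fun a =>
    ind sp V R V p ω B a id (fun u k o => fa ω B u (a, k) o) ge Function.injective_id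
      (fun u => ⟨0, none, by rw [fa_none]; exact one_ne_zero,
        fun k _ r n h => fa_out (i := ((a, k), r)) n h⟩)
      fun u k => ⟨ein ω (univ \ {u}), 1, fun r n => by rw [fa, gen_some, if_pos n, one_mul]; rfl⟩
  obtain ⟨φ, hφ⟩ := lu V V _ _ _ _ (fun u y => ∏ k, fa ω' B' u (0, k) (y k))
    (fun u y => ∏ k, fa ω' B' u (1, k) (y k)) (fun u y => ∏ k, fa ω' B' u (2, k) (y k)) le_rfl
    (li 0) (li 1) (li 2) fun a b c => by
      simpa only [prod_Sl, Matrix.cons_val_zero, Matrix.cons_val_one, Matrix.cons_val] using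
        h1 fun k => ![a, b, c] k.1 k.2
  have h2 : ∀ u k o, fa ω B u k o = fa ω' B' (φ u) k o := fun u k o => by
    rw [← prod_single, ← prod_single (ω := ω'), prod_Sl, prod_Sl]
    exact hφ u _ _ _
  have h3 : ∀ u i, u ∈ B i → φ u ∈ B' i := fun u i h => by
    by_contra c
    have a := h2 u i.1 (some i.2)
    rw [fa_in h, fa_out ((sh.nonempty_iff i).2 ⟨u, h⟩) c] at a
    have b : (0 : ℚ) < ein ω (univ \ {u}) := Nat.cast_pos.2 (pos u)
    have d : (0 : ℚ) ≤ lab ω' {φ u} (B' i) := Nat.cast_nonneg _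
    linarith
  have h4 : ∀ u i, u ∈ B i ↔ φ u ∈ B' i := fun u i => by
    rw [← eq_of_subset_of_card_le (s := (B i).map φ.toEmbedding) (t := B' i)
      (fun v hv => by
        obtain ⟨w, a, rfl⟩ := mem_map.1 hv
        exact h3 w i a) (by rw [card_map, sh.2.2])]
    exact (mem_map' φ.toEmbedding).symm
  refine ⟨φ, fun u i => ⟨h4 u i, fun h => ?_⟩⟩
  rcases (B i).eq_empty_or_nonempty with n | n
  · rw [n, card_eq_zero.1 ((sh.2.2 i).trans (by rw [n, card_empty])), lab_empty, lab_empty]
  · have a := h2 u i.1 (some i.2)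
    rw [fa_out n h, fa_out ((sh.nonempty_iff i).2 n) (mt (h4 u i).2 h)] at a
    exact_mod_cast a

end Pool.Agent.MP_f8284b_co.U85
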