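import Mathlib
import Pool.Agent.MP_f8284b_co.U85.Basic

set_option autoImplicit false

namespace Pool.Agent.MP_f8284b_co.U85

open Finset PowerSeries

namespace SC

variable {V R : Type} [DecidableEq V]

lemma gen_map {K : Type} {ω ω' : Sym2 V → Bool} {B B' : K × R → Finset V} {φ : V ≃ V}
    (hs : Shape B B') (h : OutB ω ω' B B' φ) (ρ : Finset V) (k : K) (o : Option R) :
    gen ω' B' (ρ.map φ.toEmbedding) k o = gen ω B ρ k o := by
  cases o with
  | none => rfl
  | some r =>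
    rw [gen_some, gen_some]
    have hd : Disjoint (ρ.map φ.toEmbedding) (B' (k, r)) ↔ Disjoint ρ (B (k, r)) := by
      simp only [disjoint_left, mem_map, Equiv.coe_toEmbedding]
      constructor
      · intro h1 a ha hb; exact h1 ⟨a, ha, rfl⟩ ((h a _).1.1 hb)
      · rintro h1 _ ⟨a, ha, rfl⟩ hb; exact h1 ha ((h a _).1.2 hb)
    by_cases hn : (B (k, r)).Nonempty
    · rw [if_pos hn, if_pos ((hs.nonempty_iff _).2 hn)]
      unfold gen1
      by_cases h1 : Disjoint ρ (B (k, r))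
      · rw [if_pos h1, if_pos (hd.2 h1), lab_eq_sum ω', lab_eq_sum ω, sum_map,
          sum_congr rfl (fun a ha => (h a _).2 (disjoint_left.1 h1 ha))]
        rfl
      · rw [if_neg h1, if_neg (fun h2 => h1 (hd.1 h2))]
    · rw [if_neg hn, if_neg (fun h2 => hn ((hs.nonempty_iff _).1 h2))]

/-- the index tuple built from two tuples -/
def xt {p : ℕ} (r1 r2 : Fin p → R) : Sl p → Option R := fun k =>
  if k.1 = 0 then Fin.cases none (fun i => some (r1 i)) k.2
  else if k.1 = 1 then Fin.cases none (fun i => some (r2 i)) k.2 else none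

lemma prod_xt {p : ℕ} (ω : Sym2 V → Bool) (B : Sl p × R → Finset V) (ρ : Finset V)
    (r1 r2 : Fin p → R) (h1 : ∀ k, (B (((0 : Fin 3), k.succ), r1 k)).Nonempty)
    (h2 : ∀ k, (B (((1 : Fin 3), k.succ), r2 k)).Nonempty) :
    ∏ k, gen ω B ρ k (xt r1 r2 k) = X ^ (p + 3) *
      (∏ k, gen1 ω ρ (B (((0 : Fin 3), k.succ), r1 k))) *
        ∏ k, gen1 ω ρ (B (((1 : Fin 3), k.succ), r2 k)) := by
  rw [prod_Sl, Fin.prod_univ_succ, Fin.prod_univ_succ (fun k => gen ω B ρ (1, k) _)]
  have e0 : ∀ k : Fin p, gen ω B ρ (0, k.succ) (xt r1 r2 (0, k.succ)) =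
      gen1 ω ρ (B (((0 : Fin 3), k.succ), r1 k)) := fun k => by
    have : xt r1 r2 (0, k.succ) = some (r1 k) := by simp [xt]
    rw [this, gen_some, if_pos (h1 k)]
  have e1 : ∀ k : Fin p, gen ω B ρ (1, k.succ) (xt r1 r2 (1, k.succ)) =
      gen1 ω ρ (B (((1 : Fin 3), k.succ), r2 k)) := fun k => by
    have : xt r1 r2 (1, k.succ) = some (r2 k) := by simp [xt]
    rw [this, gen_some, if_pos (h2 k)]
  have e2 : ∀ k : Fin (p + 1), gen ω B ρ (2, k) (xt r1 r2 (2, k)) = X := fun k => by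
    have : xt r1 r2 (2, k) = none := by simp [xt]
    rw [this, gen_none]
  have e3 : xt r1 r2 (0, 0) = none := by simp [xt]
  have e4 : xt r1 r2 (1, 0) = none := by simp [xt]
  simp only [e0, e1, e2, e3, e4, gen_none, prod_const, card_univ, Fintype.card_fin]
  ring

end SC

open SC in
theorem rowSC : RowSC := by
  intro hCF hSP V R _ _ _ _ p ω ω' B B' φ hs hG hB hT u w huw
  obtain ⟨l1, s1, n1, k1⟩ := hG u w 0 0
  obtain ⟨l2, s2, n2, k2⟩ := hG w u 1 0
  simp only [Fin.succAbove_zero] at s1 n1 k1 s2 n2 k2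
  set j := 3 * (p + 1) with hj
  set c : ℚ := (∑ r : Fin p → R, l1 r * ∏ k, (lab ω {u, w} (B (((0 : Fin 3), k.succ), r k)) : ℚ)) *
    ∑ r : Fin p → R, l2 r * ∏ k, (lab ω {w, u} (B (((1 : Fin 3), k.succ), r k)) : ℚ) with hc
  have hc0 : c ≠ 0 := mul_ne_zero n1 n2
  have key : ∀ (ρ : Finset V) (e : ℕ), ρ.card = 2 →
      ∑ r1 : Fin p → R, ∑ r2 : Fin p → R, l1 r1 * (l2 r2 *
        coeff j ((1 + X) ^ e * ∏ k, gen ω B ρ k (xt r1 r2 k))) =
      if ρ = {u, w} then c else 0 := by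
    intro ρ e hρ
    have red : ∀ r1 r2 : Fin p → R, l1 r1 * (l2 r2 *
        coeff j ((1 + X) ^ e * ∏ k, gen ω B ρ k (xt r1 r2 k))) = l1 r1 * (l2 r2 *
        coeff j ((1 + X) ^ e * (X ^ (p + 3) *
          (∏ k, gen1 ω ρ (B (((0 : Fin 3), k.succ), r1 k))) *
            ∏ k, gen1 ω ρ (B (((1 : Fin 3), k.succ), r2 k))))) := by
      intro r1 r2
      by_cases a1 : l1 r1 = 0
      · simp [a1]
      by_cases a2 : l2 r2 = 0
      · simp [a2]
      rw [prod_xt ω B ρ r1 r2 (fun k => (s1 r1 a1 k).1) (fun k => (s2 r2 a2 k).1)]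
    by_cases hu : u ∈ ρ
    · by_cases hw : w ∈ ρ
      · have hρe : ρ = {u, w} := by
          symm
          apply eq_of_subset_of_card_le
          · intro a ha
            rcases mem_insert.1 ha with rfl | ha
            · exact hu
            · rw [mem_singleton.1 ha]; exact hw
          · rw [hρ, card_pair huw]
        rw [if_pos hρe, hc, sum_mul_sum]
        refine sum_congr rfl fun r1 _ => sum_congr rfl fun r2 _ => ?_
        by_cases a1 : l1 r1 = 0
        · simp [a1]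
        by_cases a2 : l2 r2 = 0
        · simp [a2]
        have d1 : ∀ k, Disjoint ρ (B (((0 : Fin 3), k.succ), r1 k)) := fun k => by
          rw [hρe]; simp [(s1 r1 a1 k).2.1, (s1 r1 a1 k).2.2]
        have d2 : ∀ k, Disjoint ρ (B (((1 : Fin 3), k.succ), r2 k)) := fun k => by
          rw [hρe]; simp [(s2 r2 a2 k).2.1, (s2 r2 a2 k).2.2]
        rw [red, coeff_mul]
        have A1 := hCF (Fin p) univ (fun k => gen1 ω ρ (B (((0 : Fin 3), k.succ), r1 k))) 1
          (fun k _ => by rw [coeff_zero_gen1, if_pos (d1 k)])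
        have A2 := hCF (Fin p) univ (fun k => gen1 ω ρ (B (((1 : Fin 3), k.succ), r2 k))) 1
          (fun k _ => by rw [coeff_zero_gen1, if_pos (d2 k)])
        simp only [one_mul, card_univ, Fintype.card_fin, coeff_one_gen1, d1, d2, if_true,
          coeff_zero_one] at A1 A2
        obtain ⟨q1, e1⟩ : X ^ p ∣ ∏ k, gen1 ω ρ (B (((0 : Fin 3), k.succ), r1 k)) :=
          X_pow_dvd_iff.2 A1.1
        obtain ⟨q2, e2⟩ : X ^ p ∣ ∏ k, gen1 ω ρ (B (((1 : Fin 3), k.succ), r2 k)) :=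
          X_pow_dvd_iff.2 A2.1
        have f1 := A1.2.1
        have f2 := A2.2.1
        rw [e1, coeff_X_pow_mul', if_pos le_rfl, Nat.sub_self] at f1
        rw [e2, coeff_X_pow_mul', if_pos le_rfl, Nat.sub_self] at f2
        rw [← coeff_mul, e1, e2]
        have e3 : ((1 + X) ^ e * (X ^ (p + 3) * (X ^ p * q1) * (X ^ p * q2)) : ℚ⟦X⟧) =
            X ^ j * ((1 + X) ^ e * (q1 * q2)) := by rw [hj]; ring
        rw [e3, coeff_X_pow_mul', if_pos le_rfl, Nat.sub_self]
        simp only [coeff_zero_eq_constantCoeff, map_mul, map_pow, map_add, map_one,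
          constantCoeff_X, add_zero, one_pow, one_mul] at f1 f2 ⊢
        rw [f1, f2, pair_comm w u, ← hρe]; ring
      · rw [if_neg (fun h => hw (by rw [h]; simp))]
        refine sum_eq_zero fun r1 _ => ?_
        have := (hSP V R p j ω _ l2 ρ (by omega) (k2 ρ hρ.le hw)).2
          ((1 + X) ^ e * (X ^ (p + 3) * ∏ k, gen1 ω ρ (B (((0 : Fin 3), k.succ), r1 k)))) j le_rfl
        simp only [red]
        rw [← mul_sum]
        simp only [mul_assoc] at this ⊢
        rw [this, mul_zero]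
    · rw [if_neg (fun h => hu (by rw [h]; simp)), sum_comm]
      refine sum_eq_zero fun r2 _ => ?_
      have := (hSP V R p j ω _ l1 ρ (by omega) (k1 ρ hρ.le hu)).2
        ((1 + X) ^ e * (X ^ (p + 3) * ∏ k, gen1 ω ρ (B (((1 : Fin 3), k.succ), r2 k)))) j le_rfl
      simp only [red]
      rw [← mul_zero (l2 r2), ← this, mul_sum]
      refine sum_congr rfl fun r1 _ => ?_
      rw [mul_left_comm]
      congr 3
      ring
  have app : ∀ (S : Finset (Finset V)) (e : Finset V → ℕ), (∀ ρ ∈ S, ρ.card = 2) →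
      ∑ r1 : Fin p → R, ∑ r2 : Fin p → R, l1 r1 * (l2 r2 *
        coeff j (∑ ρ ∈ S, (1 + X) ^ e ρ * ∏ k, gen ω B ρ k (xt r1 r2 k))) =
      if {u, w} ∈ S then c else 0 := by
    intro S e hS
    simp only [map_sum, mul_sum]
    rw [← sum_ite_eq' S ({u, w} : Finset V) (fun _ => c),
      ← sum_congr rfl (fun ρ hρ => key ρ (e ρ) (hS ρ hρ))]
    rw [sum_comm (s := S)]
    refine sum_congr rfl fun r1 _ => ?_
    rw [sum_comm]
  have hL := app (rts ω univ 2) (fun ρ => ein ω (univ \ ρ)) (fun ρ hρ => (mem_rts.1 hρ).2.1)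
  let E : Finset V ≃ Finset V := φ.finsetCongr
  have hR := app ((rts ω' univ 2).map E.symm.toEmbedding) (fun ρ => ein ω' (univ \ E ρ))
    (fun ρ hρ => by
      rw [mem_map_equiv, Equiv.symm_symm] at hρ
      have := (mem_rts.1 hρ).2.1
      rwa [Equiv.finsetCongr_apply, card_map] at this)
  have hten : ∀ x : Sl p → Option R, ten ω' B' 2 x =
      ∑ ρ ∈ (rts ω' univ 2).map E.symm.toEmbedding,
        (1 + X) ^ ein ω' (univ \ E ρ) * ∏ k, gen ω B ρ k (x k) := by
    intro x
    unfold ten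
    rw [sum_map]
    refine sum_congr rfl fun ρ _ => ?_
    simp only [Equiv.coe_toEmbedding, Equiv.apply_symm_apply]
    congr 1
    refine prod_congr rfl fun k _ => ?_
    rw [← gen_map hs hB (E.symm ρ) k (x k), ← Equiv.finsetCongr_apply, Equiv.apply_symm_apply]
  simp only [← hten, ← hT] at hR
  have hLR : (if {u, w} ∈ rts ω univ 2 then c else 0) =
      if {u, w} ∈ (rts ω' univ 2).map E.symm.toEmbedding then c else 0 := by
    rw [← hL, ← hR]; rfl
  have hφ : φ u ≠ φ w := fun h => huw (φ.injective h)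
  have m1 : {u, w} ∈ rts ω univ 2 ↔ ω s(u, w) = true := by
    rw [mem_rts, ein_pair ω huw, card_pair huw]; simp
  have m2 : {u, w} ∈ (rts ω' univ 2).map E.symm.toEmbedding ↔ ω' s(φ u, φ w) = true := by
    have : E {u, w} = {φ u, φ w} := by simp [E]
    rw [mem_map_equiv, Equiv.symm_symm, this, mem_rts, ein_pair ω' hφ, card_pair hφ]; simp
  rw [Bool.eq_iff_iff, ← m1, ← m2]
  by_cases a1 : {u, w} ∈ rts ω univ 2 <;>
    by_cases a2 : {u, w} ∈ (rts ω' univ 2).map E.symm.toEmbedding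
  · exact ⟨fun _ => a2, fun _ => a1⟩
  · rw [if_pos a1, if_neg a2] at hLR; exact absurd hLR hc0
  · rw [if_neg a1, if_pos a2] at hLR; exact absurd hLR.symm hc0
  · exact ⟨fun h => absurd h a1, fun h => absurd h a2⟩

end Pool.Agent.MP_f8284b_co.U85
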