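import Pool.Agent.MP_f8284b_co.U85.Basic

set_option autoImplicit false

/-! What killing weights also kill. -/

namespace Pool.Agent.MP_f8284b_co.U85

open Finset

theorem rowSP : RowSP := by
  intro V R _ _ p j ω Y l ρ hj hk
  refine ⟨fun α β => ?_, fun P s hs => ?_⟩
  · have e : ∀ r : Fin p → R, ∏ k, (α k * PowerSeries.coeff 0 (gen1 ω ρ (Y k (r k))) +
        β k * PowerSeries.coeff 1 (gen1 ω ρ (Y k (r k)))) = ∑ c : Fin p → Fin 2,
          (∏ k, ![α k, β k] (c k)) * ∏ k, PowerSeries.coeff (c k) (gen1 ω ρ (Y k (r k))) := by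
      intro r
      simp only [← prod_mul_distrib]
      rw [← Fintype.piFinset_univ, ← prod_univ_sum (fun _ => univ)
        fun k (i : Fin 2) => ![α k, β k] i * PowerSeries.coeff i (gen1 ω ρ (Y k (r k)))]
      simp [Fin.sum_univ_two]
    simp only [e, mul_sum]
    rw [sum_comm]
    refine sum_eq_zero fun c _ => ?_
    simp only [mul_left_comm (l _), ← mul_sum]
    rw [hk (fun k => c k) fun k => (Nat.lt_succ_iff.1 (c k).2).trans hj, mul_zero]
  · simp only [PowerSeries.coeff_mul, PowerSeries.coeff_prod, mul_sum]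
    rw [sum_comm]
    refine sum_eq_zero fun x hx => ?_
    rw [sum_comm]
    refine sum_eq_zero fun c hc => ?_
    simp only [mul_left_comm (l _), ← mul_sum]
    rw [hk c fun k => ?_, mul_zero]
    have h1 : ∑ i, c i = x.2 := (mem_finsuppAntidiag.1 hc).1
    have h2 := single_le_sum (f := c) (fun _ _ => Nat.zero_le _) (mem_univ k)
    have h3 := mem_antidiagonal.1 hx
    omega

end Pool.Agent.MP_f8284b_co.U85
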