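import Mathlib
import Pool.Agent.MP_f8284b_co.U85.Basic

set_option autoImplicit false

/-! Resampling coordinates chosen by the other coordinates. -/

namespace Pool.Agent.MP_f8284b_co.U85

open Finset

namespace SW

variable {E I : Type}

open Classical in
/-- the resampled configuration -/
noncomputable def res (pos : (E → Bool) → I → Option E) (ω : E → Bool) (β : I → Bool) : E → Bool :=
  fun e => if h : ∃ i, pos ω i = some e then β h.choose else ω e

/-- the values that were overwritten -/
def old (pos : (E → Bool) → I → Option E) (ω : E → Bool) (β : I → Bool) : I → Bool :=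
  fun i => match pos ω i with
    | some e => ω e
    | none => β i

/-- exchange of the chosen coordinates with the fresh sample -/
noncomputable def swap (pos : (E → Bool) → I → Option E) (x : (E → Bool) × (I → Bool)) :
    (E → Bool) × (I → Bool) := (res pos x.1 x.2, old pos x.1 x.2)

lemma swap_invol (F : Finset E) (pos : (E → Bool) → I → Option E)
    (h1 : ∀ ω ω' : E → Bool, (∀ e, e ∉ F → ω e = ω' e) → pos ω = pos ω')
    (h2 : ∀ ω i e, pos ω i = some e → e ∈ F)
    (h3 : ∀ ω i i' e, pos ω i = some e → pos ω i' = some e → i = i') :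
    Function.Involutive (swap pos) := by
  rintro ⟨ω, β⟩
  have hp : pos (res pos ω β) = pos ω := by
    apply h1
    intro e he
    unfold res
    rw [dif_neg]
    rintro ⟨i, hi⟩
    exact he (h2 ω i e hi)
  have ha : res pos (res pos ω β) (old pos ω β) = ω := by
    funext e
    by_cases h : ∃ i, pos ω i = some e
    · have h' : ∃ i, pos (res pos ω β) i = some e := by rw [hp]; exact h
      have hs : pos ω h'.choose = some e := (congrFun hp _).symm.trans h'.choose_spec
      have e1 : res pos (res pos ω β) (old pos ω β) e = old pos ω β h'.choose := dif_pos h'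
      rw [e1]
      unfold old
      rw [hs]
    · have h' : ¬ ∃ i, pos (res pos ω β) i = some e := by rw [hp]; exact h
      have e1 : res pos (res pos ω β) (old pos ω β) e = res pos ω β e := dif_neg h'
      rw [e1]
      exact dif_neg h
  have hb : old pos (res pos ω β) (old pos ω β) = β := by
    funext i
    cases hi : pos ω i with
    | none =>
      have hi' : pos (res pos ω β) i = none := by rw [hp]; exact hi
      unfold old
      rw [hi', hi]
    | some e =>
      have hi' : pos (res pos ω β) i = some e := by rw [hp]; exact hi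
      have h : ∃ i, pos ω i = some e := ⟨i, hi⟩
      have e1 : old pos (res pos ω β) (old pos ω β) i = res pos ω β e := by
        unfold old
        rw [hi']
      have e2 : res pos ω β e = β h.choose := dif_pos h
      rw [e1, e2, h3 ω h.choose i e h.choose_spec hi]
  show (res pos (res pos ω β) (old pos ω β), old pos (res pos ω β) (old pos ω β)) = (ω, β)
  rw [ha, hb]

end SW

open Classical in
theorem rowSW : RowSW := by
  intro E I _ _ _ _ F pos Bad η h1 h2 h3 h4
  have hinv := SW.swap_invol F pos h1 h2 h3
  have hN : (0 : ℝ) < Fintype.card (E → Bool) := by exact_mod_cast Fintype.card_pos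
  have hM : (0 : ℝ) < Fintype.card (I → Bool) := by exact_mod_cast Fintype.card_pos
  have key : ∑ x : (E → Bool) × (I → Bool), (if Bad x.1 then (1 : ℝ) else 0) =
      ∑ x : (E → Bool) × (I → Bool), (if Bad (SW.res pos x.1 x.2) then (1 : ℝ) else 0) :=
    (Equiv.sum_comp hinv.toPerm (fun x => if Bad x.1 then (1 : ℝ) else 0)).symm
  rw [Fintype.sum_prod_type, Fintype.sum_prod_type] at key
  have hL : ∑ ω : E → Bool, ∑ _β : I → Bool, (if Bad ω then (1 : ℝ) else 0) =
      (∑ ω : E → Bool, if Bad ω then (1 : ℝ) else 0) * Fintype.card (I → Bool) := by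
    rw [sum_mul]
    refine sum_congr rfl fun ω _ => ?_
    rw [sum_const, card_univ, nsmul_eq_mul, mul_comm]
  have hR : ∑ ω : E → Bool, ∑ β : I → Bool, (if Bad (SW.res pos ω β) then (1 : ℝ) else 0) ≤
      Fintype.card (E → Bool) * (η * Fintype.card (I → Bool)) := by
    rw [← card_univ (α := E → Bool), ← nsmul_eq_mul, ← sum_const]
    refine sum_le_sum fun ω _ => ?_
    have h5 : Pr (fun β : I → Bool => Bad (SW.res pos ω β)) ≤ η := by
      refine le_trans (le_of_eq (Pr_congr fun β => iff_of_eq (congrArg Bad ?_))) (h4 ω)
      funext e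
      unfold SW.res
      by_cases h : ∃ i, pos ω i = some e
      · rw [dif_pos h, dif_pos h]
      · rw [dif_neg h, dif_neg h]
    rw [Pr_eq_sum, div_le_iff₀ hM] at h5
    exact h5
  rw [Pr_eq_sum, div_le_iff₀ hN]
  have h6 : (∑ ω : E → Bool, if Bad ω then (1 : ℝ) else 0) * Fintype.card (I → Bool) ≤
      (η * Fintype.card (E → Bool)) * Fintype.card (I → Bool) := by
    rw [← hL]
    refine le_trans (le_of_eq key) (le_trans hR (le_of_eq ?_))
    ring
  exact le_of_mul_le_mul_right h6 hM

end Pool.Agent.MP_f8284b_co.U85
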