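import Pool.Agent.MP_f8284b_co.U85.Basic

set_option autoImplicit false

/-! The low coefficients of the tensor are determined by the binomial moments. -/

namespace Pool.Agent.MP_f8284b_co.U85

open Finset

namespace TEN

open PowerSeries

/-- equality of the coefficients up to `j` -/
def Eqv (j : ℕ) (f g : PowerSeries ℚ) : Prop := ∀ s, s ≤ j → coeff s f = coeff s g

lemma Eqv.mul {j : ℕ} {f g : PowerSeries ℚ} (P : PowerSeries ℚ) (h : Eqv j f g) :
    Eqv j (P * f) (P * g) := fun s hs => by
  rw [coeff_mul, coeff_mul]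
  exact sum_congr rfl fun p hp => by rw [h p.2 (by have := mem_antidiagonal.1 hp; omega)]

lemma Eqv.sub {j : ℕ} {f g f' g' : PowerSeries ℚ} (h : Eqv j f g) (k : Eqv j f' g') :
    Eqv j (f - f') (g - g') := fun s hs => by rw [map_sub, map_sub, h s hs, k s hs]

variable {V K R : Type} [Fintype V] [DecidableEq V] [DecidableEq K] [DecidableEq R]

/-- the tensor, expanded in some slots -/
noncomputable def TT (ω : Sym2 V → Bool) (B : K × R → Finset V) (r : ℕ) (x : K → Option R)
    (J : Finset (K × R)) (S : Finset K) : PowerSeries ℚ :=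
  ∑ ρ ∈ rts ω univ r, (1 + X) ^ ein ω (univ \ ρ) *
    ((∏ i ∈ J, if Disjoint ρ (B i) then (1 + X) ^ lab ω ρ (B i) else 0) *
      ∏ k ∈ S, gen ω B ρ k (x k))

lemma base (edg : RowEDG) (ω : Sym2 V → Bool) {B : K × R → Finset V}
    (hB : ∀ i i', i ≠ i' → Disjoint (B i) (B i')) (r : ℕ) (x : K → Option R) (J : Finset (K × R)) :
    TT ω B r x J ∅ = (1 + X) ^ (ein ω univ - ein ω (univ \ J.biUnion B)) *
      ∑ ρ ∈ rts ω (univ \ J.biUnion B) r, (1 + X) ^ ein ω ((univ \ J.biUnion B) \ ρ) := by
  have e : rts ω (univ \ J.biUnion B) r =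
      (rts ω univ r).filter fun ρ => Disjoint ρ (J.biUnion B) := by
    ext ρ
    simp only [mem_rts, mem_filter, subset_sdiff, subset_univ, true_and]
    tauto
  rw [e, sum_filter, mul_sum, TT]
  refine sum_congr rfl fun ρ _ => ?_
  rw [prod_empty, mul_one]
  by_cases h : Disjoint ρ (J.biUnion B)
  · have h1 := edg V (K × R) ω B J ρ hB h
    have h2 := ein_mono ω (subset_univ (univ \ J.biUnion B))
    rw [if_pos h, prod_congr rfl fun i hi => if_pos ((disjoint_biUnion_right _ _ _).1 h i hi),
      prod_pow_eq_pow_sum, ← pow_add, ← pow_add]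
    congr 1
    omega
  · rw [if_neg h, mul_zero]
    rw [disjoint_biUnion_right] at h
    push Not at h
    obtain ⟨i, hi, h⟩ := h
    rw [prod_eq_zero hi (if_neg h), mul_zero]

omit [Fintype V] in
lemma coeff_kel (ω : Sym2 V → Bool) (U : Finset V) (r s : ℕ) :
    coeff s (∑ ρ ∈ rts ω U r, (1 + X : PowerSeries ℚ) ^ ein ω (U \ ρ)) = (kel ω U r s : ℚ) := by
  rw [map_sum, kel, Nat.cast_sum]
  exact sum_congr rfl fun ρ _ => coeff_pow_one_add _ _

omit [Fintype V] in
lemma kel_zero (ω : Sym2 V → Bool) (U : Finset V) : kel ω U 0 1 = ein ω U := by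
  simp [kel, rts_zero]

omit [DecidableEq R] in
lemma step_none (ω : Sym2 V → Bool) (B : K × R → Finset V) (r : ℕ) {x : K → Option R}
    (J : Finset (K × R)) {S : Finset K} {k : K} (hk : k ∉ S) (e : x k = none) :
    TT ω B r x J (insert k S) = X * TT ω B r x J S := by
  rw [TT, TT, mul_sum]
  refine sum_congr rfl fun ρ _ => ?_
  rw [prod_insert hk, e, gen]
  ring

omit [DecidableEq R] in
lemma step_empty (ω : Sym2 V → Bool) (B : K × R → Finset V) (r : ℕ) {x : K → Option R}
    (J : Finset (K × R)) {S : Finset K} {k : K} (hk : k ∉ S) {a : R} (e : x k = some a)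
    (h : ¬(B (k, a)).Nonempty) : TT ω B r x J (insert k S) = 0 := by
  refine sum_eq_zero fun ρ _ => ?_
  rw [prod_insert hk, e, gen, if_neg h]
  ring

lemma step_some (ω : Sym2 V → Bool) (B : K × R → Finset V) (r : ℕ) {x : K → Option R}
    {J : Finset (K × R)} {S : Finset K} {k : K} (hk : k ∉ S) {a : R} (e : x k = some a)
    (h : (B (k, a)).Nonempty) (hJ : (k, a) ∉ J) :
    TT ω B r x J (insert k S) = TT ω B r x (insert (k, a) J) S - TT ω B r x J S := by
  rw [TT, TT, TT, ← sum_sub_distrib]
  refine sum_congr rfl fun ρ _ => ?_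
  rw [prod_insert hk, prod_insert hJ, e, gen, if_pos h, gen1]
  ring

end TEN

open TEN in
theorem rowTEN : RowTEN := by
  intro edg V K R _ _ _ _ _ ω ω' B B' j hj hS hk r s hr hs x
  have he : ∀ J : Finset (K × R), J.card ≤ Fintype.card K →
      ein ω (univ \ J.biUnion B) = ein ω' (univ \ J.biUnion B') := fun J hJ => by
    rw [← kel_zero, ← kel_zero]
    exact hk J hJ 0 1 (by omega) hj
  have h0 : ein ω univ = ein ω' univ := by simpa using he ∅ (by simp)
  have key : ∀ (S : Finset K) (J : Finset (K × R)), (∀ i ∈ J, i.1 ∉ S) →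
      J.card + S.card ≤ Fintype.card K → Eqv j (TT ω B r x J S) (TT ω' B' r x J S) := by
    intro S
    induction S using Finset.induction_on with
    | empty =>
      intro J _ hJ
      rw [base edg ω hS.1, base edg ω' hS.2.1, h0, he J hJ]
      exact Eqv.mul _ fun t ht => by rw [coeff_kel, coeff_kel, hk J hJ r t hr ht]
    | insert k S hkS ih =>
      intro J h1 h2
      rw [card_insert_of_notMem hkS] at h2
      have ihJ := ih J (fun i hi c => h1 i hi (mem_insert_of_mem c)) (by omega)
      rcases e : x k with _ | a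
      · rw [step_none ω B r J hkS e, step_none ω' B' r J hkS e]
        exact ihJ.mul _
      · by_cases h : (B (k, a)).Nonempty
        · have hJ : (k, a) ∉ J := fun c => h1 _ c (mem_insert_self _ _)
          rw [step_some ω B r hkS e h hJ, step_some ω' B' r hkS e ((hS.nonempty_iff _).2 h) hJ]
          refine (ih _ (fun i hi c => ?_) (by rw [card_insert_of_notMem hJ]; omega)).sub ihJ
          rcases mem_insert.1 hi with rfl | hi
          exacts [hkS c, h1 i hi (mem_insert_of_mem c)]
        · rw [step_empty ω B r J hkS e h,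
            step_empty ω' B' r J hkS e fun c => h ((hS.nonempty_iff _).1 c)]
          exact fun _ _ => rfl
  simpa [TT, ten] using key univ ∅ (by simp) (by simp) s hs

end Pool.Agent.MP_f8284b_co.U85
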