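import Pool.Agent.MP_f8284b_co.U85.Basic

set_option autoImplicit false

/-! Row TOP: removing isolated blocks from the data. -/

namespace Pool.Agent.MP_f8284b_co.U85

open Finset

namespace TOP

variable {V I : Type} [Fintype V] [DecidableEq V] [DecidableEq I] {ω : Sym2 V → Bool}
  {sz : I → ℕ} {g : ℕ} {B : I → Finset V}

omit [Fintype V] [DecidableEq I] in
lemma gap (h : Iso ω sz g B) {i : I} {W : Finset V} (c : W.card = (B i).card) (n : W ≠ B i) :
    ein ω W + g < ein ω (B i) := by
  rcases (B i).eq_empty_or_nonempty with e | e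
  · rw [e, card_empty, card_eq_zero] at c
    exact absurd (c.trans e.symm) n
  · exact (h.1 i e).2 W (c.trans (h.1 i e).1) n

omit [Fintype V] in
lemma forced (h : Iso ω sz g B) {J : Finset I} {W : J → Finset V}
    (c : ∀ i, (W i).card = (B i).card) (s : ∑ i : J, ein ω (B i) ≤ ∑ i, ein ω (W i) + g) (i : J) :
    W i = B i := by
  by_contra n
  have a := gap h (c i) n
  have b : ∑ k ∈ univ.erase i, ein ω (W k) ≤ ∑ k ∈ univ.erase i, ein ω (B k.1) :=
    sum_le_sum fun k _ => by
      by_cases e : W k = B k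
      · rw [e]
      · exact (Nat.le_add_right _ g).trans (gap h (c k) e).le
  rw [← add_sum_erase _ _ (mem_univ i), ← add_sum_erase _ (fun k => ein ω (W k)) (mem_univ i)] at s
  omega

lemma sub_iff {J : Finset I} {X : Finset V} :
    X ⊆ univ \ J.biUnion B ↔ ∀ i : J, Disjoint (B i) X := by
  rw [subset_sdiff, and_iff_right (subset_univ _), disjoint_biUnion_right, Subtype.forall]
  simp only [disjoint_comm]

lemma one (h : Iso ω sz g B) (J : Finset I) {β β' : ℕ} (z : ℕ)
    (hg : β.choose 2 + β'.choose 2 ≤ g) :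
    dat ω (Sum.elim (fun i : J => (B i).card) fun b : Bool => cond b β' β)
      (∑ i : J, ein ω (B i) + z) = dat2 ω (univ \ J.biUnion B) β β' z := by
  have key : ∀ W : J ⊕ Bool → Finset V, (∀ k, (W k).card =
      Sum.elim (fun i : J => (B i).card) (fun b : Bool => cond b β' β) k) →
      ∑ k, ein ω (W k) = ∑ i : J, ein ω (B i) + z → ∀ i, W (.inl i) = B i := fun W c s => by
    refine forced h (fun i => c (.inl i)) ?_
    have a := ein_le ω (W (.inr false))
    have b := ein_le ω (W (.inr true))
    rw [show (W (.inr false)).card = β from c _] at a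
    rw [show (W (.inr true)).card = β' from c _] at b
    rw [Fintype.sum_sum_type, Fintype.sum_bool] at s
    omega
  unfold dat dat2
  refine card_nbij' (fun W => (W (.inr false), W (.inr true)))
    (fun X => Sum.elim (fun i : J => B i) fun b : Bool => cond b X.2 X.1) ?_ ?_ ?_ ?_
  · intro W hW
    obtain ⟨c, d, s⟩ := (mem_filter.1 hW).2
    have k := key W c s
    rw [Fintype.sum_sum_type, Fintype.sum_bool] at s
    simp only [k] at s
    have u : ∀ b, W (.inr b) ⊆ univ \ J.biUnion B := fun b =>
      sub_iff.2 fun i => k i ▸ d _ _ Sum.inl_ne_inr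
    refine mem_filter.2 ⟨mem_product.2 ⟨mem_powersetCard.2 ⟨u _, c _⟩, mem_powersetCard.2 ⟨u _, c _⟩⟩,
      d _ _ (by simp), ?_⟩
    dsimp only
    omega
  · intro X hX
    obtain ⟨a, d, s⟩ := mem_filter.1 hX
    obtain ⟨a1, a2⟩ := mem_product.1 a
    obtain ⟨u1, c1⟩ := mem_powersetCard.1 a1
    obtain ⟨u2, c2⟩ := mem_powersetCard.1 a2
    have u : ∀ (b : Bool) (i : J), Disjoint (B i) (cond b X.2 X.1) := fun b => by
      cases b
      exacts [sub_iff.1 u1, sub_iff.1 u2]
    refine mem_filter.2 ⟨mem_univ _, ?_, ?_, ?_⟩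
    · rintro (i | _ | _)
      exacts [rfl, c1, c2]
    · rintro (i | b) (k | b') n
      · exact h.2 _ _ fun e => n (congrArg _ (Subtype.ext e))
      · exact u b' i
      · exact (u b k).symm
      · cases b <;> cases b'
        exacts [absurd rfl n, d, d.symm, absurd rfl n]
    · rw [Fintype.sum_sum_type, Fintype.sum_bool, ← s, add_comm (ein ω X.1)]
      rfl
  · intro W hW
    obtain ⟨c, -, s⟩ := (mem_filter.1 hW).2
    funext k
    rcases k with i | _ | _
    exacts [(key W c s i).symm, rfl, rfl]
  · exact fun X _ => rfl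

end TOP

theorem rowTOP : RowTOP := by
  intro V I _ _ _ t g ω ω' sz B B' J β β' z hs h h' e hJ hg
  rw [← TOP.one h J z hg, ← TOP.one h' J z hg]
  simp only [fun i => (e i).1, fun i => (e i).2]
  exact hs _ (by simpa using hJ) _ _

end Pool.Agent.MP_f8284b_co.U85
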