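import Mathlib
import Pool.Agent.MP_f8284b_co.U85.Basic

set_option autoImplicit false

/-! Rank is at most size, and component sizes add up. -/

namespace Pool.Agent.MP_f8284b_co.U85

open Finset

namespace UD1

variable {V : Type}

/-- a chosen vertex of the component of `v` -/
noncomputable def rt (G : SimpleGraph V) (v : V) : V := Quot.out (G.connectedComponentMk v)

lemma rt_mk (G : SimpleGraph V) (v : V) :
    G.connectedComponentMk (rt G v) = G.connectedComponentMk v := Quot.out_eq _

lemma rt_reach (G : SimpleGraph V) (v : V) : G.Reachable v (rt G v) :=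
  (SimpleGraph.ConnectedComponent.exact (rt_mk G v)).symm

lemma rt_adj (G : SimpleGraph V) {v w : V} (h : G.Adj v w) : rt G v = rt G w := by
  unfold rt; rw [SimpleGraph.ConnectedComponent.sound h.reachable]

lemma par (G : SimpleGraph V) (v : V) (h : v ≠ rt G v) :
    ∃ p, G.Adj v p ∧ G.dist p (rt G p) < G.dist v (rt G v) := by
  obtain ⟨w, hw⟩ := (rt_reach G v).exists_walk_length_eq_dist
  generalize hr : rt G v = r at w hw h
  cases w with
  | nil => exact absurd rfl h
  | cons ha w' =>
    refine ⟨_, ha, ?_⟩
    rw [← rt_adj G ha, hr, ← hw]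
    exact Nat.lt_succ_of_le (SimpleGraph.dist_le w')

lemma card_le [Fintype V] [DecidableEq V] (A : Finset (Sym2 V)) :
    Fintype.card V ≤ A.card +
      Nat.card (SimpleGraph.fromEdgeSet (A : Set (Sym2 V))).ConnectedComponent := by
  classical
  set G := SimpleGraph.fromEdgeSet (A : Set (Sym2 V)) with hG
  choose p hp hd using par G
  have h1 : (univ.filter (fun v => v ≠ rt G v)).card ≤ A.card := by
    refine card_le_card_of_injOn (fun v => if h : v ≠ rt G v then s(v, p v h) else s(v, v)) ?_ ?_
    · intro v hv
      have hv' : v ≠ rt G v := by simpa using hv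
      have := hp v hv'
      rw [hG, SimpleGraph.fromEdgeSet_adj] at this
      simp only [dif_pos hv']
      exact this.1
    · intro v hv w hw hvw
      have hv' : v ≠ rt G v := by simpa using hv
      have hw' : w ≠ rt G w := by simpa using hw
      simp only [dif_pos hv', dif_pos hw', Sym2.eq_iff] at hvw
      rcases hvw with h | h
      · exact h.1
      · have h3 := hd v hv'
        have h4 := hd w hw'
        rw [h.2] at h3
        rw [← h.1] at h4
        omega
  have h2 : (univ.filter (fun v => ¬ v ≠ rt G v)).card ≤ Nat.card G.ConnectedComponent := by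
    rw [Nat.card_eq_fintype_card, ← card_univ]
    refine card_le_card_of_injOn G.connectedComponentMk (fun _ _ => by simp) ?_
    intro v hv w hw hvw
    have hv' : v = rt G v := by simpa using hv
    have hw' : w = rt G w := by simpa using hw
    rw [hv', hw']; unfold rt; rw [hvw]
  have h3 := card_filter_add_card_filter_not (s := (univ : Finset V)) (fun v => v ≠ rt G v)
  rw [card_univ] at h3
  omega

lemma sum_supp [Fintype V] (G : SimpleGraph V) [Fintype G.ConnectedComponent] :
    ∑ C : G.ConnectedComponent, Nat.card C.supp = Fintype.card V := by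
  classical
  rw [← card_univ, card_eq_sum_card_fiberwise (f := G.connectedComponentMk) (t := univ)
    (fun _ _ => by simp)]
  refine sum_congr rfl fun C _ => ?_
  rw [Nat.card_eq_fintype_card, Fintype.card_subtype]
  congr 1
  ext v
  simp

end UD1

theorem rowUD1 : RowUD1 := by
  intro n A _
  have h1 := UD1.card_le A
  have h2 := UD1.sum_supp (SimpleGraph.fromEdgeSet (A : Set (Sym2 (Fin n))))
  have h3 : ∑ C : (SimpleGraph.fromEdgeSet (A : Set (Sym2 (Fin n)))).ConnectedComponent,
      Nat.card C.supp =
      ∑ C : (SimpleGraph.fromEdgeSet (A : Set (Sym2 (Fin n)))).ConnectedComponent,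
        ((Nat.card C.supp - 1) + 1) := by
    refine sum_congr rfl fun C _ => ?_
    have : 0 < Nat.card C.supp := by
      have := C.nonempty_supp.to_subtype
      exact Nat.card_pos
    omega
  rw [sum_add_distrib, sum_const, card_univ, smul_eq_mul, mul_one, h2,
    ← Nat.card_eq_fintype_card (α := SimpleGraph.ConnectedComponent _)] at h3
  rw [Fintype.card_fin] at h1 h3
  omega

end Pool.Agent.MP_f8284b_co.U85
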