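import Pool.Agent.MP_f8284b_co.U85.Basic

set_option autoImplicit false

/-! The product over components as a sum over colourings. -/

namespace Pool.Agent.MP_f8284b_co.U85

open Finset SimpleGraph

namespace UD2

/-- weight of a component of size `s` with colour `o` -/
def wt {R : Type} [CommSemiring R] {t : ℕ} (z : Fin t → R) (s : ℕ) : Option (Fin t) → R
  | none => if s = 1 then 1 else 0
  | some k => z k ^ s

lemma sum_wt {R : Type} [CommSemiring R] {t : ℕ} (z : Fin t → R) (s : ℕ) :
    (∑ k, z k ^ s) + (if s = 1 then 1 else 0) = ∑ o, wt z s o := by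
  rw [Fintype.sum_option, add_comm]; rfl

variable {V : Type} (G : SimpleGraph V)

lemma card_ne_one {u w : V} (h : G.Adj u w) : Nat.card (G.connectedComponentMk u).supp ≠ 1 := by
  intro h1
  have hs := (Nat.card_eq_one_iff_unique.1 h1).1
  have : (⟨u, rfl⟩ : (G.connectedComponentMk u).supp) =
      ⟨w, (ConnectedComponent.connectedComponentMk_eq_of_adj h).symm⟩ := Subsingleton.elim _ _
  exact h.ne (congrArg Subtype.val this)

lemma card_eq_one {u : V} (h : ∀ w, ¬ G.Adj u w) :
    Nat.card (G.connectedComponentMk u).supp = 1 := by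
  have key : ∀ w : V, G.Reachable u w → w = u := by
    rintro w ⟨p⟩
    cases p with
    | nil => rfl
    | cons ha _ => exact absurd ha (h _)
  refine Nat.card_eq_one_iff_unique.2 ⟨⟨fun a b => Subtype.ext ?_⟩, ⟨⟨u, rfl⟩⟩⟩
  rw [key a (ConnectedComponent.exact a.2).symm, key b (ConnectedComponent.exact b.2).symm]

lemma card_fibre [Fintype V] [Fintype G.ConnectedComponent] {O : Type} [DecidableEq O]
    (a : G.ConnectedComponent → O) (o : O) :
    (univ.filter (fun v => a (G.connectedComponentMk v) = o)).card =
      ∑ C, if a C = o then Nat.card C.supp else 0 := by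
  classical
  rw [card_eq_sum_card_fiberwise (f := G.connectedComponentMk) (t := univ) (fun _ _ => by simp)]
  refine sum_congr rfl fun C _ => ?_
  rw [filter_filter]
  split_ifs with h
  · rw [Nat.card_eq_card_toFinset]
    congr 1
    ext v
    simp only [mem_filter, mem_univ, true_and, Set.mem_toFinset, ConnectedComponent.mem_supp_iff]
    exact ⟨fun h' => h'.2, fun h' => ⟨h' ▸ h, h'⟩⟩
  · rw [card_eq_zero, filter_eq_empty_iff]
    rintro v - ⟨h1, h2⟩
    exact h (h2 ▸ h1)

open Classical in
lemma main [Fintype V] [DecidableEq V] [Fintype G.ConnectedComponent] {R : Type} [CommSemiring R]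
    {t : ℕ} (z : Fin t → R) :
    ∏ C : G.ConnectedComponent, ((∑ k, z k ^ Nat.card C.supp) +
      (if Nat.card C.supp = 1 then 1 else 0)) =
    ∑ κ : V → Option (Fin t), if (∀ u w, G.Adj u w → κ u = κ w ∧ κ u ≠ none) then
      ∏ k, z k ^ (univ.filter (fun v => κ v = some k)).card else 0 := by
  simp only [sum_wt]
  rw [prod_univ_sum, Fintype.piFinset_univ]
  refine Fintype.sum_of_injective (fun a => a ∘ G.connectedComponentMk)
    (fun a b h => funext fun C => C.ind (fun v => congrFun h v)) _ _ (fun κ hκ => ?_) fun a => ?_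
  · refine if_neg fun hc => hκ ⟨ConnectedComponent.lift κ fun v w p _ => ?_, rfl⟩
    induction p with
    | nil => rfl
    | cons ha p ih => exact (hc _ _ ha).1.trans (ih (by simp_all [Walk.cons_isPath_iff]))
  · split_ifs with hc
    · simp only [Function.comp_apply, card_fibre G a, ← prod_pow_eq_pow_sum]
      rw [prod_comm]
      refine prod_congr rfl fun C _ => ?_
      induction C using ConnectedComponent.ind with
      | _ u =>
        cases ho : a (G.connectedComponentMk u) with
        | none =>
          rw [card_eq_one G fun w hw => (hc u w hw).2 ho]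
          simp [wt]
        | some k => simp [wt, pow_ite, prod_ite_eq]
    · push Not at hc
      obtain ⟨u, w, h, h'⟩ := hc
      have h0 : a (G.connectedComponentMk u) = none :=
        h' (congrArg a (ConnectedComponent.connectedComponentMk_eq_of_adj h))
      refine prod_eq_zero (mem_univ (G.connectedComponentMk u)) ?_
      rw [h0]
      exact if_neg (card_ne_one G h)

end UD2

theorem rowUD2 : RowUD2 := by
  intro n t A _ hA
  classical
  rw [UD2.main]
  refine sum_congr rfl fun κ _ => ?_
  have : (∀ u w, (SimpleGraph.fromEdgeSet (A : Set (Sym2 (Fin n)))).Adj u w →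
      κ u = κ w ∧ κ u ≠ none) ↔ ∀ u w, s(u, w) ∈ A → κ u = κ w ∧ κ u ≠ none := by
    refine forall₂_congr fun u w => imp_congr_left ?_
    rw [fromEdgeSet_adj]
    exact ⟨fun h => h.1, fun h => ⟨h, fun e => hA _ h (Sym2.mk_isDiag_iff.2 e)⟩⟩
  simp only [this]

end Pool.Agent.MP_f8284b_co.U85
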