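import Pool.Agent.MP_f8284b_co.U85.Basic

set_option autoImplicit false

/-! The specialisation as a sum over colourings. -/

namespace Pool.Agent.MP_f8284b_co.U85

open Finset

namespace UD3

open Classical in
/-- edges with both ends of one colour -/
noncomputable def mono {n t : ℕ} (G : SimpleGraph (Fin n)) (κ : Fin n → Option (Fin t)) :
    Finset (Sym2 (Fin n)) :=
  G.edgeFinset.filter fun e => ∀ u w, e = s(u, w) → κ u = κ w ∧ κ u ≠ none

open Classical in
lemma filter_eq {n t : ℕ} (G : SimpleGraph (Fin n)) (κ : Fin n → Option (Fin t)) :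
    G.edgeFinset.powerset.filter (fun A => ∀ u w, s(u, w) ∈ A → κ u = κ w ∧ κ u ≠ none) =
      (mono G κ).powerset := by
  ext A
  rw [mem_filter, mem_powerset, mem_powerset]
  constructor
  · rintro ⟨h1, h2⟩ e he
    exact mem_filter.2 ⟨h1 he, fun u w h => h2 u w (h ▸ he)⟩
  · intro h
    exact ⟨fun e he => (mem_filter.1 (h he)).1, fun u w he => (mem_filter.1 (h he)).2 u w rfl⟩

lemma card_mono {n t : ℕ} (G : SimpleGraph (Fin n)) (κ : Fin n → Option (Fin t)) :
    (mono G κ).card = ∑ k : Fin t, ein (om G) (univ.filter (fun v => κ v = some k)) := by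
  classical
  have e : mono G κ = univ.biUnion fun k : Fin t =>
      (prs (univ.filter (fun v => κ v = some k))).filter (fun e => om G e = true) := by
    ext e
    induction e using Sym2.ind with
    | _ u w =>
      simp only [mono, om, mem_filter, mem_biUnion, mem_univ, true_and, mk_mem_prs,
        SimpleGraph.mem_edgeFinset, SimpleGraph.mem_edgeSet, decide_eq_true_eq]
      constructor
      · rintro ⟨h1, h2⟩
        obtain ⟨h3, h4⟩ := h2 u w rfl
        obtain ⟨k, hk⟩ := Option.ne_none_iff_exists'.1 h4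
        exact ⟨k, ⟨hk, h3 ▸ hk, h1.ne⟩, h1⟩
      · rintro ⟨k, ⟨h1, h2, -⟩, h3⟩
        refine ⟨h3, fun a b h => ?_⟩
        rcases Sym2.eq_iff.1 h with ⟨rfl, rfl⟩ | ⟨rfl, rfl⟩
        · exact ⟨h1.trans h2.symm, by simp [h1]⟩
        · exact ⟨h2.trans h1.symm, by simp [h2]⟩
  rw [e, card_biUnion]
  · rfl
  · intro k _ l _ hkl
    refine disjoint_filter_filter (disjoint_prs (disjoint_left.2 fun v h1 h2 => hkl ?_))
    exact Option.some_injective _ ((mem_filter.1 h1).2.symm.trans (mem_filter.1 h2).2)

end UD3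

open UD3 in
theorem rowUD3 : RowUD3 := by
  classical
  intro h1 h2 n t G
  have e1 : Uspec t G = ∑ A ∈ G.edgeFinset.powerset, ∑ κ : Fin n → Option (Fin t),
      if (∀ u w, s(u, w) ∈ A → κ u = κ w ∧ κ u ≠ none) then
        (∏ k : Fin t, MvPolynomial.X (some k) ^ (univ.filter (fun v => κ v = some k)).card) *
          (MvPolynomial.X none - 1) ^ A.card else 0 := by
    unfold Uspec Upoly
    rw [map_sum]
    refine sum_congr rfl fun A hA => ?_
    simp only [map_mul, map_prod, map_pow, map_sub, map_one, MvPolynomial.aeval_X, subst]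
    rw [prod_mul_distrib, prod_pow_eq_pow_sum, mul_right_comm, ← pow_add, add_comm, h1 n A,
      h2 n t A fun e he => G.not_isDiag_of_mem_edgeSet
        (SimpleGraph.mem_edgeFinset.1 (mem_powerset.1 hA he)), mul_sum]
    refine sum_congr rfl fun κ _ => ?_
    split_ifs
    · exact mul_comm _ _
    · exact mul_zero _
  rw [e1, sum_comm]
  refine sum_congr rfl fun κ _ => ?_
  rw [← sum_filter, filter_eq, ← mul_sum, ← UD3.card_mono]
  have := sum_pow_mul_eq_add_pow (MvPolynomial.X none - 1 : MvPolynomial (Option (Fin t)) ℤ) 1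
    (mono G κ)
  simp only [one_pow, mul_one, sub_add_cancel] at this
  rw [this]

end Pool.Agent.MP_f8284b_co.U85
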