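import Mathlib
import Pool.Agent.MP_f8284b_co.U85.Basic

set_option autoImplicit false

/-! The data are coefficients of the sum over colourings. -/

namespace Pool.Agent.MP_f8284b_co.U85

open Finset

namespace UD4

variable {n t : ℕ}

/-- the exponent vector -/
noncomputable def dd (c : Fin t → ℕ) (z : ℕ) : Option (Fin t) →₀ ℕ :=
  Finsupp.equivFunOnFinite.symm fun o => o.elim z c

lemma dd_inj {c c' : Fin t → ℕ} {z z' : ℕ} : dd c z = dd c' z' ↔ (∀ k, c k = c' k) ∧ z = z' :=
  ⟨fun h => ⟨fun k => DFunLike.congr_fun h (some k), DFunLike.congr_fun h none⟩,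
    fun h => by rw [funext h.1, h.2]⟩

lemma mono_eq (c : Fin t → ℕ) (z : ℕ) :
    ((∏ k : Fin t, MvPolynomial.X (some k) ^ c k) * MvPolynomial.X none ^ z :
      MvPolynomial (Option (Fin t)) ℤ) = MvPolynomial.monomial (dd c z) 1 := by
  rw [MvPolynomial.monomial_eq, MvPolynomial.C_1, one_mul,
    Finsupp.prod_fintype _ _ fun _ => pow_zero _, Fintype.prod_option, mul_comm]
  rfl

lemma dat_eq (ω : Sym2 (Fin n) → Bool) (c : Fin t → ℕ) (z : ℕ) :
    (univ.filter fun κ : Fin n → Option (Fin t) =>
      (∀ k, (univ.filter (fun v => κ v = some k)).card = c k) ∧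
        ∑ k : Fin t, ein ω (univ.filter (fun v => κ v = some k)) = z).card = dat ω c z := by
  unfold dat
  refine card_bij (fun κ _ k => univ.filter fun v => κ v = some k) ?_ ?_ ?_
  · intro κ hκ
    simp only [mem_filter, mem_univ, true_and] at hκ ⊢
    refine ⟨hκ.1, fun k l ne => disjoint_filter.2 fun v _ a b => ne ?_, hκ.2⟩
    exact Option.some.inj (a.symm.trans b)
  · intro κ _ κ' _ e
    have m : ∀ v k, κ v = some k ↔ κ' v = some k := fun v k => by
      simpa using Finset.ext_iff.1 (congrFun e k) v
    exact funext fun v => Option.ext (m v)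
  · intro W hW
    simp only [mem_filter, mem_univ, true_and] at hW
    have e : ∀ k, (univ.filter fun v =>
        (if h : ∃ l, v ∈ W l then some h.choose else none) = some k) = W k := fun k => by
      ext v
      simp only [mem_filter, mem_univ, true_and]
      split_ifs with h
      · refine ⟨fun q => Option.some.inj q ▸ h.choose_spec, fun q => congrArg some ?_⟩
        by_contra ne
        exact disjoint_left.1 (hW.2.1 _ _ ne) h.choose_spec q
      · exact ⟨fun q => absurd q (by simp), fun q => absurd ⟨k, q⟩ h⟩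
    refine ⟨fun v => if h : ∃ l, v ∈ W l then some h.choose else none, ?_, funext e⟩
    simp only [mem_filter, mem_univ, true_and, e]
    exact ⟨hW.1, hW.2.2⟩

lemma coeff_eq (ω : Sym2 (Fin n) → Bool) (c : Fin t → ℕ) (z : ℕ) :
    MvPolynomial.coeff (dd c z) (∑ κ : Fin n → Option (Fin t),
      (∏ k : Fin t, MvPolynomial.X (some k) ^ (univ.filter (fun v => κ v = some k)).card) *
        MvPolynomial.X none ^ (∑ k : Fin t, ein ω (univ.filter (fun v => κ v = some k))) :
          MvPolynomial (Option (Fin t)) ℤ) = dat ω c z := by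
  rw [MvPolynomial.coeff_sum, ← dat_eq]
  simp only [mono_eq, MvPolynomial.coeff_monomial, dd_inj, sum_boole]

end UD4

theorem rowUD4 : RowUD4 := fun n t ω ω' h c z => by
  have := congrArg (MvPolynomial.coeff (UD4.dd c z)) h
  rw [UD4.coeff_eq, UD4.coeff_eq] at this
  exact_mod_cast this

end Pool.Agent.MP_f8284b_co.U85
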