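import Pool.Agent.MP_f8284b_co.U85.Basic

set_option autoImplicit false

/-! The thresholds of two sizes that are far apart differ. -/

namespace Pool.Agent.MP_f8284b_co.U85

open Finset

namespace X2

lemma core {x x' u ε η a c : ℝ} (hx : 0 < x) (hx' : 0 < x') (hε : 0 ≤ ε) (hu : 5000 * ε ≤ u)
    (hu1 : u ≤ 1) (ha : 0 < a) (hη : η ≤ ε * a) (hc : 0 < c) (h1 : x ^ 2 * ((1 + u) * c) ≤ a + η)
    (h2 : a - η ≤ x' ^ 2 * c * (1 + 4 * ε)) : x * (1 + u / 6) ≤ x' := by
  have hu0 : 0 ≤ u := by linarith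
  have k1 : (1 + u / 2) * ((1 + ε) * (1 + 4 * ε)) ≤ (1 + u) * (1 - ε) := by
    have e1 : (1 + ε) * (1 + 4 * ε) ≤ 1 + 6 * ε := by nlinarith
    have e2 : (1 + u / 2) * ((1 + ε) * (1 + 4 * ε)) ≤ (1 + u / 2) * (1 + 6 * ε) :=
      mul_le_mul_of_nonneg_left e1 (by linarith)
    nlinarith
  have k2 : (1 + u / 2) * x ^ 2 * ((1 + u) * c * (1 + 4 * ε)) ≤
      x' ^ 2 * ((1 + u) * c * (1 + 4 * ε)) :=
    calc (1 + u / 2) * x ^ 2 * ((1 + u) * c * (1 + 4 * ε))
        = x ^ 2 * ((1 + u) * c) * ((1 + u / 2) * (1 + 4 * ε)) := by ring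
      _ ≤ (1 + ε) * a * ((1 + u / 2) * (1 + 4 * ε)) :=
          mul_le_mul_of_nonneg_right (by linarith) (by positivity)
      _ = (1 + u / 2) * ((1 + ε) * (1 + 4 * ε)) * a := by ring
      _ ≤ (1 + u) * (1 - ε) * a := mul_le_mul_of_nonneg_right k1 ha.le
      _ = (1 + u) * (a - ε * a) := by ring
      _ ≤ (1 + u) * (x' ^ 2 * c * (1 + 4 * ε)) :=
          mul_le_mul_of_nonneg_left (by linarith) (by positivity)
      _ = _ := by ring
  have k3 := le_of_mul_le_mul_right k2 (by positivity)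
  have k4 : (1 + u / 6) ^ 2 ≤ 1 + u / 2 := by nlinarith
  refine (pow_le_pow_iff_left₀ (by positivity) hx'.le two_ne_zero).1 ?_
  rw [mul_pow, mul_comm]
  exact (mul_le_mul_of_nonneg_right k4 (by positivity)).trans k3

end X2

theorem rowX2 : RowX2 := by
  intro an3 n b0 D0 g δ b b' hP h1 h2 h3 hs hs' hf
  obtain ⟨f1, -, f3, f4, -⟩ := hP.facts
  have hb0 : 1000 ≤ b0 := le_trans (Nat.le_add_left _ _) hP.gb
  have r0 : (1000 : ℝ) ≤ b0 := by exact_mod_cast hb0
  have r1 : (b0 : ℝ) ≤ b' := by exact_mod_cast h1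
  have r2 : (b' : ℝ) + D0 ≤ b := by exact_mod_cast h2
  have r3 : (b : ℝ) ≤ 2 * b0 := by exact_mod_cast h3
  have r4 : (1 : ℝ) ≤ D0 := by exact_mod_cast f4
  have big := hP.big
  have gap := hP.gap
  have a1 := an3.2.1 n b b' (by omega) (by omega) (by omega)
  have a2 := (an3.1 n b' (by omega) (by omega)).1
  have a3 : Real.log b' ≤ Real.log (2 * b0) := Real.log_le_log (by linarith) (by linarith)
  have a4 : 1 ≤ Real.log (n.choose b') / b' := by
    rw [le_div_iff₀ (by linarith)]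
    have : (b' : ℝ) * 1 ≤ b' * (Real.log n - Real.log b') :=
      mul_le_mul_of_nonneg_left (by linarith) (by linarith)
    linarith
  have sU := hs.sU
  have sL := hs'.sL
  have x2 := hf.x2
  have hx := hs.xpos
  have hx' := hs'.xpos
  generalize xx n δ b = x at *
  generalize xx n δ b' = x' at *
  generalize Real.log (n.choose b') / b' = a at *
  generalize Real.log (n.choose b) / b = a₀ at *
  generalize Real.log (2 * b0) = Λ at *
  generalize Real.log n = L at *
  have hL : 0 ≤ L := by linarith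
  have bp : (0 : ℝ) < b := by linarith
  have hε : 0 ≤ L / b0 := by positivity
  have hu : 5000 * (L / b0) ≤ (b - b') / b := by
    rw [← mul_div_assoc, div_le_div_iff₀ (by linarith) bp]
    nlinarith
  have hu1 : ((b : ℝ) - b') / b ≤ 1 := (div_le_one bp).2 (by linarith)
  have hη : 2 * Λ / b0 ≤ L / b0 * a :=
    (div_le_div_of_nonneg_right (by linarith) (by linarith)).trans (le_mul_of_one_le_right hε a4)
  have e1 : (1 + ((b : ℝ) - b') / b) * (b' - 1) ≤ b - 1 := by
    have : ((b : ℝ) - b') / b * (b' - 1) ≤ b - b' := by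
      rw [div_mul_eq_mul_div, div_le_iff₀ bp]
      exact mul_le_mul_of_nonneg_left (by linarith) (by linarith)
    linarith
  have e2 : 3 * x' ^ 2 ≤ 4 * (L / b0) := by
    rw [← mul_div_assoc, le_div_iff₀ (by linarith)]
    have : x' ^ 2 * b0 ≤ x' ^ 2 * b' := mul_le_mul_of_nonneg_left r1 (by positivity)
    linarith
  have hc : (0 : ℝ) < b' - 1 := by linarith
  have := X2.core hx hx' hε hu hu1 (by linarith) hη hc
    ((mul_le_mul_of_nonneg_left e1 (by positivity)).trans (by linarith))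
    (sL.trans (mul_le_mul_of_nonneg_left (by linarith) (by positivity)))
  have e3 : ((b : ℝ) - b') * x = 6 * b * (x * (1 + (b - b') / b / 6) - x) := by
    field_simp
    ring
  rw [e3]
  exact mul_le_mul_of_nonneg_left (by linarith) (by positivity)

end Pool.Agent.MP_f8284b_co.U85
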