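import Mathlib
import Pool.Agent.MP_f8284b_co.U85.Basic

set_option autoImplicit false

/-! The facts on one threshold. -/

namespace Pool.Agent.MP_f8284b_co.U85

open Finset

namespace XF

lemma num {L Λ x b b0 q : ℝ} (h7 : 7 ≤ Λ) (hL : 10 ^ 9 * Λ ≤ L) (hb0 : 1000 ≤ b0)
    (hb : b0 ≤ b) (hD : 10 ^ 4 * L ≤ b0) (q1 : L - Λ ≤ q) (q2 : q ≤ L) (hx : 0 < x)
    (sU : x ^ 2 * (b - 1) ≤ q + 2 * Λ / b0)
    (sL : q - 2 * Λ / b0 ≤ x ^ 2 * (b - 1) * (1 + 3 * x ^ 2)) :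
    97 / 100 * L ≤ x ^ 2 * b ∧ x ^ 2 * b ≤ 121 / 100 * L ∧ x ≤ 1 / 25 := by
  have h1 : 2 * Λ / b0 ≤ Λ := by
    rw [div_le_iff₀ (by linarith)]; nlinarith
  have hx2 : 0 < x ^ 2 := by positivity
  have h2 : x ^ 2 * b ≤ 121 / 100 * L := by
    have : x ^ 2 * b * (9 / 10) ≤ x ^ 2 * (b - 1) := by nlinarith
    linarith
  have h3 : x ^ 2 ≤ 1 / 1000 := by
    by_contra hc
    have : 1 / 1000 * b ≤ x ^ 2 * b := by nlinarith [not_le.1 hc]
    linarith
  refine ⟨?_, h2, by nlinarith⟩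
  have h4 : x ^ 2 * (b - 1) * (1 + 3 * x ^ 2) ≤ x ^ 2 * b * (1003 / 1000) :=
    mul_le_mul (by nlinarith) (by linarith) (by positivity) (by nlinarith)
  linarith

lemma halve (h2 : RowAN2) (N T k : ℕ) (h : 5 * (T + k) + 2 ≤ 3 * N) :
    tail N T ≤ 2 ^ k * tail N (T + k) := by
  induction k with
  | zero => simp
  | succ k ih =>
    have h3 := h2.2.2.1 N (T + k) (by omega)
    calc tail N T ≤ 2 ^ k * tail N (T + k) := ih (by omega)
      _ ≤ 2 ^ k * (2 * tail N (T + k + 1)) := by gcongr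
      _ = 2 ^ (k + 1) * tail N (T + (k + 1)) := by rw [pow_succ, mul_assoc, add_assoc]

end XF

theorem rowXF : RowXF := by
  intro h1 h2 h3 n b0 D0 g δ b hP hb hb' hX
  obtain ⟨f7, fδ, fn, fD, fρ, -, -⟩ := hP.facts
  have hb0 : (1000 : ℝ) ≤ b0 := by exact_mod_cast le_trans (Nat.le_add_left _ _) hP.gb
  have hbR : (b0 : ℝ) ≤ b := by exact_mod_cast hb
  have hbR' : (b : ℝ) ≤ 2 * b0 := by exact_mod_cast hb'
  have hD : 10 ^ 4 * Real.log n ≤ b0 := hP.gap.trans (by exact_mod_cast hP.gapb)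
  have hbpos : (0 : ℝ) < b := by linarith
  obtain ⟨a1, a2⟩ := h3.1 n b (by exact_mod_cast hbpos) (hb'.trans fn)
  have hlb : Real.log b ≤ Real.log (2 * b0) := Real.log_le_log hbpos hbR'
  have q1 : Real.log n - Real.log (2 * b0) ≤ Real.log (n.choose b) / b := by
    rw [le_div_iff₀ hbpos]; nlinarith
  have q2 : Real.log (n.choose b) / b ≤ Real.log n := by
    rw [div_le_iff₀ hbpos]; linarith
  have hx := hX.xpos
  obtain ⟨x1, x2, x3⟩ := XF.num f7 hP.big hb0 hbR hD q1 q2 hx hX.sU hX.sL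
  have hN : (b : ℝ) ≤ (b.choose 2 : ℕ) := by
    rw [Nat.cast_choose_two]; nlinarith
  have hNpos : (0 : ℝ) < (b.choose 2 : ℕ) := by linarith
  have hT : (thr n δ b : ℝ) = (1 / 2 + xx n δ b) * (b.choose 2 : ℕ) := by
    unfold xx; field_simp; ring
  have hTlt : (thr n δ b : ℝ) < (b.choose 2 : ℕ) := by rw [hT]; nlinarith
  have hTpos : (0 : ℝ) < thr n δ b := by rw [hT]; positivity
  have hTpos' : 0 < thr n δ b := by exact_mod_cast hTpos
  have hlam : lam n δ b = Real.log ((1 / 2 + xx n δ b) / (1 / 2 - xx n δ b)) := by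
    unfold lam
    congr 1
    rw [div_eq_div_iff (by linarith) (by linarith), hT]
    ring
  obtain ⟨l1, l2⟩ := h1.2.2.2 _ hx.le x3
  have hρ := rho_nonneg b0
  have hbig := hP.big
  have hΛ : 0 < Real.log (2 * b0) := by linarith
  refine ⟨hx, by exact_mod_cast hTlt, ?_, ?_, x1, x2, hlam ▸ l1, hlam ▸ l2, ?_, ?_, ?_, ?_, ?_⟩
  · refine Nat.sInf_mem (s := {T : ℕ | (n.choose b : ℝ) * tail (b.choose 2) T ≤ δ})
      ⟨b.choose 2 + 1, ?_⟩
    simp [tail, fδ.le]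
  · have h4 : ¬ (n.choose b : ℝ) * tail (b.choose 2) (thr n δ b - 1) ≤ δ :=
      Nat.notMem_of_lt_sInf (s := {T : ℕ | (n.choose b : ℝ) * tail (b.choose 2) T ≤ δ})
        (Nat.sub_lt hTpos' one_pos)
    have e : thr n δ b - 1 + (g + 1) = thr n δ b + g := by omega
    have hg : 100 * (g : ℝ) + 1000 ≤ b0 := by exact_mod_cast hP.gb
    have h5 := XF.halve h2 (b.choose 2) (thr n δ b - 1) (g + 1) (by
      rw [e]
      have : 5 * ((thr n δ b : ℝ) + g) + 2 ≤ 3 * (b.choose 2 : ℕ) := by rw [hT]; nlinarith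
      exact_mod_cast this)
    rw [e] at h5
    rw [div_le_iff₀ (by positivity)]
    have h6 := mul_le_mul_of_nonneg_left h5 (Nat.cast_nonneg (α := ℝ) (n.choose b))
    linarith [not_le.1 h4]
  · unfold lam
    have h4 : (0 : ℝ) < (b.choose 2 : ℕ) - (thr n δ b : ℝ) := by linarith
    rw [Real.exp_log (div_pos hTpos h4)]
    field_simp
    ring
  · exact h2.1 _ _ hTpos' (by exact_mod_cast hTlt)
  · refine abs_le_of_sq_le_sq' ?_ (by positivity) |>.2
    have : 97 / 100 * Real.log n * b0 ≤ xx n δ b ^ 2 * b * b :=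
      mul_le_mul x1 hbR (by linarith) (by positivity)
    rw [mul_pow, mul_pow, fρ]
    nlinarith
  · refine abs_le_of_sq_le_sq' ?_ (by linarith) |>.2
    have h4 : xx n δ b ^ 2 * b0 ≤ 121 / 100 * Real.log n :=
      le_trans (mul_le_mul_of_nonneg_left hbR (by positivity)) x2
    have h5 := mul_le_mul_of_nonneg_right h4 hΛ.le
    rw [mul_pow, mul_pow, fρ]
    nlinarith
  · refine abs_le_of_sq_le_sq' ?_ (by positivity) |>.2
    have h4 : 97 / 100 * Real.log n ≤ xx n δ b ^ 2 * (2 * b0) :=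
      le_trans x1 (mul_le_mul_of_nonneg_left hbR' (by positivity))
    have h5 := mul_le_mul_of_nonneg_right h4 hΛ.le
    rw [mul_pow, fρ]
    nlinarith

end Pool.Agent.MP_f8284b_co.U85
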