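import Pool.Agent.MP_f8284b_co.U85.Basic

set_option autoImplicit false

/-! Sharp two-sided bounds on one threshold. -/

namespace Pool.Agent.MP_f8284b_co.U85

open Finset

namespace XSA

lemma up {N x l Λ : ℝ} (hN : 1 ≤ N) (hx : 0 < x) (hx' : x ≤ 3 / 2) (hl : 0 ≤ l) (hΛ : 7 ≤ Λ)
    (h : 0 ≤ x - 1 / N → 2 * N * (x - 1 / N) ^ 2 ≤ l + Λ) : 2 * N * x ^ 2 ≤ l + 2 * Λ := by
  have h0 : 0 < N := by linarith
  have e : N * (1 / N) = 1 := by field_simp
  have p : 0 < 1 / N := by positivity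
  rcases le_or_gt 0 (x - 1 / N) with c | c
  · have := h c
    have e2 : 2 * N * (x - 1 / N) ^ 2 = 2 * N * x ^ 2 - 4 * x + 2 * (1 / N) := by
      field_simp
      ring
    linarith
  · have : N * x ≤ 1 := by nlinarith
    nlinarith

lemma low {x t : ℝ} (hx : 0 < x) (h1 : 4 * x ≤ t) (h2 : t ≤ 44 / 10 * x) :
    t * x - t ^ 2 / 8 + t ^ 4 / 64 ≤ 2 * x ^ 2 + 6 * x ^ 4 := by
  have a : t ^ 4 ≤ (44 / 10 * x) ^ 4 := pow_le_pow_left₀ (by linarith) h2 4
  have b : 0 < x ^ 4 := by positivity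
  nlinarith [sq_nonneg (t - 4 * x)]

end XSA

open XSA in
theorem rowXS : RowXS := by
  intro a1 a2 a3 n b0 D0 g δ b hp hb hb'
  obtain ⟨h7, hδ, hn, -, -, hΛ, -⟩ := hp.facts
  have big := hp.big
  have gap := hp.gap
  have gapb : (D0 : ℝ) ≤ b0 := by exact_mod_cast hp.gapb
  have hbr : (b0 : ℝ) ≤ b := by exact_mod_cast hb
  have hbr' : (b : ℝ) ≤ 2 * b0 := by exact_mod_cast hb'
  have dlo := hp.dlo
  have dhi := hp.dhi
  obtain ⟨Λ, eΛ⟩ : ∃ Λ, Λ = Real.log (2 * b0) := ⟨_, rfl⟩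
  obtain ⟨L, eL⟩ : ∃ L, L = Real.log n := ⟨_, rfl⟩
  obtain ⟨N, eN⟩ : ∃ N, N = b.choose 2 := ⟨_, rfl⟩
  have hN : (N : ℝ) = b * (b - 1) / 2 := by rw [eN, Nat.cast_choose_two]
  have b2 : (1000 : ℝ) ≤ b0 := by linarith
  have bpos : 0 < b := by
    have : (0 : ℝ) < b := by linarith
    exact_mod_cast this
  obtain ⟨l1, l2⟩ := a3.1 n b bpos (hb'.trans hn)
  have Cpos : (0 : ℝ) < n.choose b := by exact_mod_cast Nat.choose_pos (hb'.trans hn)
  have lb : Real.log b ≤ Real.log (2 * b0) := Real.log_le_log (by linarith) hbr'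
  have bb : (b : ℝ) * 1000 ≤ b * b := mul_le_mul_of_nonneg_left (by linarith) (by linarith)
  have N1 : (1 : ℝ) ≤ N := by rw [hN]; linarith
  have lN : Real.log (N + 1) ≤ 2 * Real.log (2 * b0) := by
    have : (N : ℝ) + 1 ≤ (2 * b0) ^ 2 := by
      have := pow_le_pow_left₀ (by linarith) hbr' 2
      rw [hN]
      linarith
    have h2 := Real.log_le_log (by linarith) this
    rwa [Real.log_pow, Nat.cast_ofNat] at h2
  have lδ : -Real.log (2 * b0) ≤ Real.log δ := by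
    rw [← Real.log_inv]
    refine Real.log_le_log (by positivity) ?_
    rw [inv_le_iff_one_le_mul₀ (by positivity)]
    linarith
  rw [← eΛ] at h7 big lb lN lδ
  rw [← eL] at big gap l1 l2
  obtain ⟨l, el⟩ : ∃ l, l = Real.log (n.choose b) := ⟨_, rfl⟩
  rw [← el] at l1 l2
  have l3 : L - Λ ≤ l := by
    have : 1 * (L - Real.log b) ≤ b * (L - Real.log b) :=
      mul_le_mul_of_nonneg_right (by linarith) (by linarith)
    linarith
  have mem : N + 1 ∈ {T : ℕ | (n.choose b : ℝ) * tail N T ≤ δ} := by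
    simp [tail, hδ.le]
  obtain ⟨T, eT⟩ : ∃ T, T = thr n δ b := ⟨_, rfl⟩
  have eT' : T = sInf {T : ℕ | (n.choose b : ℝ) * tail N T ≤ δ} := by rw [eT, eN]; rfl
  have t1 : (n.choose b : ℝ) * tail N T ≤ δ := eT' ▸ Nat.sInf_mem ⟨_, mem⟩
  have t2 : T ≤ N + 1 := eT' ▸ Nat.sInf_le mem
  have key : ∀ y : ℝ, Real.exp y ≤ (N + 1) * tail N T → l + y ≤ 2 * Λ := fun y hy => by
    have h1 : (n.choose b : ℝ) * Real.exp y ≤ N + 1 := by
      have := mul_le_mul_of_nonneg_left hy Cpos.le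
      have := mul_le_mul_of_nonneg_left (t1.trans dhi) (by linarith : (0 : ℝ) ≤ N + 1)
      linarith
    have h2 := Real.log_le_log (by positivity) h1
    rw [Real.log_mul Cpos.ne' (Real.exp_pos _).ne', Real.log_exp, ← el] at h2
    linarith
  have t3 : N < 2 * T := by
    by_contra hc
    have := key 0 (by rw [Real.exp_zero]; exact a2.2.1 N T (not_lt.1 hc))
    linarith
  obtain ⟨x, ex⟩ : ∃ x, x = xx n δ b := ⟨_, rfl⟩
  have eT2 : (T : ℝ) = N * (1 / 2 + x) := by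
    rw [ex, xx, ← eT, ← eN]
    field_simp
    ring
  have t3' : (N : ℝ) < 2 * T := by exact_mod_cast t3
  have t2' : (T : ℝ) ≤ N + 1 := by exact_mod_cast t2
  have x0 : 0 < x := by
    by_contra hc
    have := mul_le_mul_of_nonneg_left (not_lt.1 hc) (by linarith : (0 : ℝ) ≤ N)
    linarith
  have x1 : x ≤ 3 / 2 := by
    by_contra hc
    have := mul_lt_mul_of_pos_left (not_le.1 hc) (by linarith : (0 : ℝ) < N)
    linarith
  have sU : 2 * N * x ^ 2 ≤ l + 2 * Λ := up N1 x0 x1 (by linarith) h7 fun hy => by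
    obtain ⟨S, rfl⟩ : ∃ S, T = S + 1 := ⟨T - 1, by omega⟩
    have n1 : ¬ (n.choose b : ℝ) * tail N S ≤ δ :=
      Nat.notMem_of_lt_sInf (s := {T : ℕ | (n.choose b : ℝ) * tail N T ≤ δ}) (by omega)
    have eS : (S : ℝ) = N * (1 / 2 + (x - 1 / N)) := by
      push_cast at eT2
      have : (N : ℝ) * (1 / N) = 1 := by field_simp
      linear_combination eT2 + this
    generalize x - 1 / N = y at hy eS
    have n2 := a2.2.2.2 N S (4 * y) (by linarith)
    have n3 := a1.1 0 (4 * y)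
    have p0 : psi 0 = 0 := by simp [psi]
    rw [zero_add, p0, Real.exp_zero] at n3
    have n4 : δ ≤ n.choose b * Real.exp (N * psi (4 * y) - 4 * y * S) :=
      (not_le.1 n1).le.trans (mul_le_mul_of_nonneg_left n2 Cpos.le)
    have n5 := Real.log_le_log hδ n4
    rw [Real.log_mul Cpos.ne' (Real.exp_pos _).ne', Real.log_exp, ← el, eS] at n5
    have n6 := mul_le_mul_of_nonneg_left n3 (by linarith : (0 : ℝ) ≤ N)
    linarith
  have bp : (0 : ℝ) < b := by linarith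
  have fr : 2 * Λ / b ≤ 2 * Λ / b0 := div_le_div_of_nonneg_left (by linarith) (by linarith) hbr
  have x2 : x ≤ 1 / 25 := by
    by_contra hc
    have c1 : (1 / 25 : ℝ) ^ 2 ≤ x ^ 2 := pow_le_pow_left₀ (by norm_num) (not_le.1 hc).le 2
    have c2 : 2 * (N : ℝ) * (1 / 25) ^ 2 ≤ b * L + 2 * Λ :=
      (mul_le_mul_of_nonneg_left c1 (by linarith)).trans (by linarith)
    rw [hN] at c2
    have c3 : b * (10 ^ 4 * L) ≤ b * b := mul_le_mul_of_nonneg_left (by linarith) bp.le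
    have c4 : b * 7 ≤ b * L := mul_le_mul_of_nonneg_left (by linarith) bp.le
    have c5 : 1 * L ≤ b * L := mul_le_mul_of_nonneg_right (by linarith) (by linarith)
    linarith
  have t4 : T < N := by
    have := mul_le_mul_of_nonneg_left x2 (by linarith : (0 : ℝ) ≤ N)
    have : (T : ℝ) < N := by linarith
    exact_mod_cast this
  obtain ⟨m1, m2⟩ := a1.2.2.2 x x0.le x2
  have el' : (T : ℝ) / (N - T) = (1 / 2 + x) / (1 / 2 - x) := by
    have : (0 : ℝ) < 1 / 2 - x := by linarith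
    have : (N : ℝ) - T = N * (1 / 2 - x) := by rw [eT2]; ring
    rw [this, eT2, mul_div_mul_left _ _ (by linarith)]
  have k1 := key _ (a2.1 N T (by omega) t4)
  rw [el'] at k1
  generalize Real.log ((1 / 2 + x) / (1 / 2 - x)) = t at m1 m2 k1
  have k2 := mul_le_mul_of_nonneg_left (a1.2.2.1 t) (by linarith : (0 : ℝ) ≤ N)
  have k3 := mul_le_mul_of_nonneg_left (low x0 m1 m2) (by linarith : (0 : ℝ) ≤ N)
  have sL : l - 2 * Λ ≤ N * (2 * x ^ 2 + 6 * x ^ 4) := by
    rw [eT2] at k1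
    linarith
  refine ⟨ex ▸ x0, ?_, ?_⟩
  · rw [← ex, ← el, ← eΛ]
    have : x ^ 2 * (b - 1) ≤ (l + 2 * Λ) / b := by
      rw [le_div_iff₀ bp]
      rw [hN] at sU
      linarith
    rw [add_div] at this
    linarith
  · rw [← ex, ← el, ← eΛ]
    have : (l - 2 * Λ) / b ≤ x ^ 2 * (b - 1) * (1 + 3 * x ^ 2) := by
      rw [div_le_iff₀ bp]
      rw [hN] at sL
      linarith
    rw [sub_div] at this
    linarith

end Pool.Agent.MP_f8284b_co.U85
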