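import Mathlib
import Pool.Agent.MP_f8284b_co.U85.Glue
import Pool.Agent.MP_f8284b_co.U85.PT
import Pool.Agent.MP_f8284b_co.U85.PAD
import Pool.Agent.MP_f8284b_co.U85.INH
import Pool.Agent.MP_f8284b_co.U85.TOP
import Pool.Agent.MP_f8284b_co.U85.KE1
import Pool.Agent.MP_f8284b_co.U85.KEL
import Pool.Agent.MP_f8284b_co.U85.EDG
import Pool.Agent.MP_f8284b_co.U85.TEN
import Pool.Agent.MP_f8284b_co.U85.CF
import Pool.Agent.MP_f8284b_co.U85.SP
import Pool.Agent.MP_f8284b_co.U85.LU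
import Pool.Agent.MP_f8284b_co.U85.IND
import Pool.Agent.MP_f8284b_co.U85.SA
import Pool.Agent.MP_f8284b_co.U85.SB
import Pool.Agent.MP_f8284b_co.U85.SC
import Pool.Agent.MP_f8284b_co.U85.UD1
import Pool.Agent.MP_f8284b_co.U85.UD2
import Pool.Agent.MP_f8284b_co.U85.UD3
import Pool.Agent.MP_f8284b_co.U85.UD4
import Pool.Agent.MP_f8284b_co.U85.PB
import Pool.Agent.MP_f8284b_co.U85.AN1
import Pool.Agent.MP_f8284b_co.U85.AN2
import Pool.Agent.MP_f8284b_co.U85.AN3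
import Pool.Agent.MP_f8284b_co.U85.XS
import Pool.Agent.MP_f8284b_co.U85.XF
import Pool.Agent.MP_f8284b_co.U85.X2
import Pool.Agent.MP_f8284b_co.U85.FL1
import Pool.Agent.MP_f8284b_co.U85.FL2
import Pool.Agent.MP_f8284b_co.U85.OVS
import Pool.Agent.MP_f8284b_co.U85.OVL
import Pool.Agent.MP_f8284b_co.U85.OVT
import Pool.Agent.MP_f8284b_co.U85.BAD
import Pool.Agent.MP_f8284b_co.U85.CH
import Pool.Agent.MP_f8284b_co.U85.MANY
import Pool.Agent.MP_f8284b_co.U85.ODL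
import Pool.Agent.MP_f8284b_co.U85.SW
import Pool.Agent.MP_f8284b_co.U85.KILL
import Pool.Agent.MP_f8284b_co.U85.GOOD
import Pool.Agent.MP_f8284b_co.U85.NUM
import Pool.Agent.MP_f8284b_co.U85.TR

set_option autoImplicit false

namespace Pool.Agent.MP_f8284b_co.U85

open Filter Topology

theorem main_uspec : ∃ t : ℕ, Tendsto (fun n : ℕ =>
      (Nat.card {G : SimpleGraph (Fin n) //
          ∀ H : SimpleGraph (Fin n), Uspec t G = Uspec t H → Nonempty (G ≃g H)} : ℝ) /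
        (Nat.card (SimpleGraph (Fin n)) : ℝ)) atTop (𝓝 1) :=
  glue rowPAD rowINH rowTOP rowKE1 rowKEL rowEDG rowTEN rowCF rowSP rowLU rowIND rowSA rowSB rowSC
    rowUD1 rowUD2 rowUD3 rowUD4 rowPB rowAN1 rowAN2 rowAN3 rowXS rowXF rowX2 rowFL1 rowFL2 rowOVS
    rowOVL rowOVT rowBAD rowCH rowMANY rowODL rowSW rowKILL rowGOOD rowNUM rowTR

theorem main_potts : ∃ t : ℕ, Tendsto (fun n : ℕ =>
      (Nat.card {G : SimpleGraph (Fin n) // ∀ H : SimpleGraph (Fin n),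
          (∀ (q v : ℤ) (z : Fin t → ℤ), potts G q v z = potts H q v z) → Nonempty (G ≃g H)} : ℝ) /
        (Nat.card (SimpleGraph (Fin n)) : ℝ)) atTop (𝓝 1) :=
  main_uspec.imp fun t h => potts_of_uspec rowUD1 t h

end Pool.Agent.MP_f8284b_co.U85
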