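import Mathlib
import Pool.Agent.MP_f8284b_co.U85.Basic

set_option autoImplicit false

namespace Pool.Agent.MP_f8284b_co.U85

namespace LU

open Finset

variable {F : Type} [Field F] {U W : Type} [Fintype U] [Fintype W] [DecidableEq U] [DecidableEq W]

omit [DecidableEq W] in
theorem card_le_of_diag (X Y : U → W → F) (d : W → F)
    (h : ∀ a b, ∑ s, X a s * Y b s * d s = if a = b then 1 else 0) :
    Fintype.card U ≤ Fintype.card W := by
  have h1 : (Matrix.of X) * (Matrix.of fun s b => Y b s * d s) = 1 := by
    ext a b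
    simp only [Matrix.mul_apply, Matrix.of_apply, Matrix.one_apply, ← mul_assoc, h]
  have h2 := Matrix.rank_mul_le_left (Matrix.of X) (Matrix.of fun s b => Y b s * d s)
  rw [h1, Matrix.rank_one] at h2
  exact h2.trans (Matrix.rank_le_card_width _)

theorem left_inv_of_diag (e : U ≃ W) (X Y : U → W → F) (d : W → F)
    (h : ∀ a b, ∑ s, X a s * Y b s * d s = if a = b then 1 else 0) :
    ∃ P : W → U → F, ∀ s t, ∑ a, P s a * X a t = if s = t then 1 else 0 := by
  have h1 : (Matrix.of X) * (Matrix.of fun s b => Y b s * d s) = 1 := by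
    ext a b
    simp only [Matrix.mul_apply, Matrix.of_apply, Matrix.one_apply, ← mul_assoc, h]
  have h2 := (Matrix.mul_eq_one_comm_of_equiv e).1 h1
  refine ⟨fun s b => Y b s * d s, fun s t => ?_⟩
  have := congrFun (congrFun h2 s) t
  simpa only [Matrix.mul_apply, Matrix.of_apply, Matrix.one_apply] using this

/-- In a decomposition of the diagonal tensor of minimal length every row has one entry. -/
theorem row_single (e : U ≃ W) (X Y Z : U → W → F)
    (h : ∀ a b c, ∑ s, X a s * Y b s * Z c s = if a = b ∧ b = c then 1 else 0)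
    (c : U) (s t : W) (hs : Z c s ≠ 0) (ht : Z c t ≠ 0) : s = t := by
  have hd : ∀ a b, ∑ s, X a s * Y b s * (∑ c, Z c s) = if a = b then 1 else 0 := by
    intro a b
    simp only [mul_sum]
    rw [sum_comm]
    simp only [h]
    by_cases hab : a = b <;> simp [hab]
  obtain ⟨P, hP⟩ := left_inv_of_diag e X Y _ hd
  obtain ⟨Q, hQ⟩ := left_inv_of_diag e Y X (fun s => ∑ c, Z c s) fun a b => by
    rw [← if_congr (eq_comm (a := b) (b := a)) rfl rfl, ← hd b a]
    exact sum_congr rfl fun s _ => by ring
  have key : ∀ s t, P s c * Q t c = if s = t then Z c s else 0 := by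
    intro s t
    have e1 : ∑ a, ∑ b, P s a * Q t b * ∑ r, X a r * Y b r * Z c r = P s c * Q t c := by
      simp only [h]
      rw [sum_eq_single c, sum_eq_single c]
      · simp
      · intro b _ hb; simp [hb]
      · simp
      · intro a _ ha
        refine sum_eq_zero fun b _ => ?_
        rw [if_neg (fun hh => ha (hh.1.trans hh.2)), mul_zero]
      · simp
    have e2 : ∑ a, ∑ b, P s a * Q t b * ∑ r, X a r * Y b r * Z c r =
        ∑ r, (∑ a, P s a * X a r) * (∑ b, Q t b * Y b r) * Z c r := by
      calc _ = ∑ a, ∑ r, ∑ b, P s a * X a r * (Q t b * Y b r) * Z c r := by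
            refine sum_congr rfl fun a _ => ?_
            rw [sum_comm]
            refine sum_congr rfl fun b _ => ?_
            rw [mul_sum]
            exact sum_congr rfl fun r _ => by ring
        _ = _ := by
            rw [sum_comm]
            refine sum_congr rfl fun r _ => ?_
            rw [sum_mul_sum, sum_mul]
            exact sum_congr rfl fun a _ => by rw [sum_mul]
    rw [← e1, e2]
    simp only [hP, hQ]
    rw [sum_eq_single s]
    · by_cases hst : s = t
      · simp [hst]
      · simp [hst, Ne.symm hst]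
    · intro r _ hr; simp [Ne.symm hr]
    · simp
  by_contra hst
  have a1 := key s s
  have a2 := key t t
  have a3 := key s t
  rw [if_pos rfl] at a1 a2
  rw [if_neg hst, mul_eq_zero] at a3
  rcases a3 with a3 | a3
  · exact hs (by rw [← a1, a3, zero_mul])
  · exact ht (by rw [← a2, a3, mul_zero])

/-- `LU`: three-way uniqueness, with dual functionals. -/
theorem lu_dual {I J K : Type} (x : U → I → F) (y : U → J → F) (z : U → K → F)
    (x' : W → I → F) (y' : W → J → F) (z' : W → K → F)
    (ξ : U → (I → F) →ₗ[F] F) (η : U → (J → F) →ₗ[F] F) (ζ : U → (K → F) →ₗ[F] F)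
    (hξ : ∀ a b, ξ a (x b) = if a = b then 1 else 0)
    (hη : ∀ a b, η a (y b) = if a = b then 1 else 0)
    (hζ : ∀ a b, ζ a (z b) = if a = b then 1 else 0)
    (hc : Fintype.card W ≤ Fintype.card U)
    (h : ∀ i j k, ∑ u, x u i * y u j * z u k = ∑ w, x' w i * y' w j * z' w k) :
    ∃ φ : U ≃ W, ∀ u i j k, x u i * y u j * z u k = x' (φ u) i * y' (φ u) j * z' (φ u) k := by
  have app : ∀ {L T T' : Type} [Fintype T] [Fintype T'] (l : (L → F) →ₗ[F] F) (v : T → L → F)
      (v' : T' → L → F) (g : T → F) (g' : T' → F), (∀ i, ∑ u, v u i * g u = ∑ w, v' w i * g' w) →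
      ∑ u, l (v u) * g u = ∑ w, l (v' w) * g' w := by
    intro L T T' _ _ l v v' g g' hh
    have : ∑ u, g u • v u = ∑ w, g' w • v' w := by
      funext i
      simp only [Finset.sum_apply, Pi.smul_apply, smul_eq_mul, mul_comm (g _), mul_comm (g' _), hh]
    have := congrArg l this
    simpa only [map_sum, map_smul, smul_eq_mul, mul_comm (g _), mul_comm (g' _)] using this
  have h1 : ∀ a j k, y a j * z a k = ∑ w, ξ a (x' w) * (y' w j * z' w k) := by
    intro a j k
    rw [← app (ξ a) x x' (fun u => y u j * z u k) (fun w => y' w j * z' w k) fun i => by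
      simpa only [mul_assoc] using h i j k]
    simp [hξ]
  have h2 : ∀ b i k, x b i * z b k = ∑ w, η b (y' w) * (x' w i * z' w k) := by
    intro b i k
    rw [← app (η b) y y' (fun u => x u i * z u k) (fun w => x' w i * z' w k) fun j => by
      simpa only [mul_assoc, mul_left_comm (x _ _), mul_left_comm (x' _ _)] using h i j k]
    simp [hη]
  have h3 : ∀ b c i, x b i * ζ c (z b) = ∑ w, ζ c (z' w) * (η b (y' w) * x' w i) := by
    intro b c i
    have := app (T := Unit) (ζ c) (fun _ => z b) z' (fun _ => x b i)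
      (fun w => η b (y' w) * x' w i) fun k => by
        rw [Fintype.sum_unique, mul_comm, h2]
        exact sum_congr rfl fun w _ => by ring
    rw [Fintype.sum_unique, mul_comm] at this
    exact this
  have h4 : ∀ a b c, ∑ w, ξ a (x' w) * η b (y' w) * ζ c (z' w) =
      if a = b ∧ b = c then 1 else 0 := by
    intro a b c
    have := app (T := Unit) (ξ a) (fun _ => x b) x' (fun _ => ζ c (z b))
      (fun w => η b (y' w) * ζ c (z' w)) fun i => by
        rw [Fintype.sum_unique, h3]
        exact sum_congr rfl fun w _ => by ring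
    rw [Fintype.sum_unique, hξ, hζ] at this
    simp only [mul_assoc]
    rw [← this]
    by_cases h5 : a = b <;> by_cases h6 : b = c <;> simp [h5, h6, eq_comm]
  have hd : ∀ a b, ∑ s, ξ a (x' s) * η b (y' s) * (∑ c, ζ c (z' s)) = if a = b then 1 else 0 := by
    intro a b
    simp only [mul_sum]
    rw [sum_comm]
    simp only [h4]
    by_cases hab : a = b <;> simp [hab]
  have e : U ≃ W := Fintype.equivOfCardEq (le_antisymm (card_le_of_diag _ _ _ hd) hc)
  have hex : ∀ a, ∃ w, ξ a (x' w) * η a (y' w) * ζ a (z' w) ≠ 0 := by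
    intro a
    by_contra hh
    push Not at hh
    have := h4 a a a
    simp [hh] at this
  choose φ hφ using hex
  have hX : ∀ a w, ξ a (x' w) ≠ 0 → w = φ a := fun a w hw =>
    row_single e (fun b w => η b (y' w)) (fun c w => ζ c (z' w)) (fun a w => ξ a (x' w))
      (fun b c a => by
        have := h4 a b c
        rw [if_congr (show (a = b ∧ b = c) ↔ (b = c ∧ c = a) from
          ⟨fun q => ⟨q.2, (q.1.trans q.2).symm⟩, fun q => ⟨(q.1.trans q.2).symm, q.1⟩⟩) rfl rfl]
          at this
        rw [← this]
        exact sum_congr rfl fun w _ => by ring) a w (φ a) hw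
      (left_ne_zero_of_mul (left_ne_zero_of_mul (hφ a)))
  have hZ : ∀ a w, ζ a (z' w) ≠ 0 → w = φ a := fun a w hw =>
    row_single e (fun a w => ξ a (x' w)) (fun b w => η b (y' w)) (fun c w => ζ c (z' w)) h4
      a w (φ a) hw (right_ne_zero_of_mul (hφ a))
  have sX : ∀ a (g : W → F), ∑ w, ξ a (x' w) * g w = ξ a (x' (φ a)) * g (φ a) := fun a g =>
    sum_eq_single _ (fun w _ hw => by
      rw [not_not.1 fun hh => hw (hX a w hh), zero_mul]) (by simp)
  have sZ : ∀ a (g : W → F), ∑ w, ζ a (z' w) * g w = ζ a (z' (φ a)) * g (φ a) := fun a g =>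
    sum_eq_single _ (fun w _ hw => by
      rw [not_not.1 fun hh => hw (hZ a w hh), zero_mul]) (by simp)
  have hone : ∀ a, ξ a (x' (φ a)) * (η a (y' (φ a)) * ζ a (z' (φ a))) = 1 := by
    intro a
    have := h4 a a a
    simp only [mul_assoc] at this
    rw [sX] at this
    simpa using this
  have hinj : Function.Injective φ := by
    intro a c hac
    by_contra hne
    have := h4 a a c
    simp only [mul_assoc] at this
    rw [sX, if_neg fun q => hne q.2] at this
    have b1 := left_ne_zero_of_mul (left_ne_zero_of_mul (hφ a))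
    have b2 := right_ne_zero_of_mul (left_ne_zero_of_mul (hφ a))
    have b3 := right_ne_zero_of_mul (hφ c)
    rw [← hac] at b3
    exact mul_ne_zero b1 (mul_ne_zero b2 b3) this
  refine ⟨Equiv.ofBijective φ ((Fintype.bijective_iff_injective_and_card φ).2
    ⟨hinj, Fintype.card_congr e⟩), fun u i j k => ?_⟩
  have a1 := h1 u j k
  have a2 := h3 u u i
  rw [sX] at a1
  rw [sZ, hζ, if_pos rfl, mul_one] at a2
  rw [Equiv.ofBijective_apply, mul_assoc, a1, a2]
  linear_combination x' (φ u) i * y' (φ u) j * z' (φ u) k * hone u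

/-- `LU` for linearly independent families. -/
theorem lu_indep {I J K : Type} (x : U → I → F) (y : U → J → F) (z : U → K → F)
    (x' : W → I → F) (y' : W → J → F) (z' : W → K → F)
    (hx : LinearIndependent F x) (hy : LinearIndependent F y) (hz : LinearIndependent F z)
    (hc : Fintype.card W ≤ Fintype.card U)
    (h : ∀ i j k, ∑ u, x u i * y u j * z u k = ∑ w, x' w i * y' w j * z' w k) :
    ∃ φ : U ≃ W, ∀ u i j k, x u i * y u j * z u k = x' (φ u) i * y' (φ u) j * z' (φ u) k := by
  have dual : ∀ {L : Type} (v : U → L → F), LinearIndependent F v →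
      ∃ ξ : U → (L → F) →ₗ[F] F, ∀ a b, ξ a (v b) = if a = b then 1 else 0 := by
    intro L v hv
    obtain ⟨g, hg⟩ := LinearMap.exists_leftInverse_of_injective (Finsupp.linearCombination F v)
      (LinearMap.ker_eq_bot.2 hv)
    refine ⟨fun a => Finsupp.lapply a ∘ₗ g, fun a b => ?_⟩
    have := LinearMap.congr_fun hg (Finsupp.single b 1)
    simp only [LinearMap.comp_apply, Finsupp.linearCombination_single, one_smul,
      LinearMap.id_apply] at this
    simp [this, Finsupp.single_apply, eq_comm]
  obtain ⟨ξ, hξ⟩ := dual x hx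
  obtain ⟨η, hη⟩ := dual y hy
  obtain ⟨ζ, hζ⟩ := dual z hz
  exact lu_dual x y z x' y' z' ξ η ζ hξ hη hζ hc h

end LU

theorem rowLU : RowLU := by
  classical
  intro U U' X _ _ x y z x' y' z' hc hx hy hz h
  exact LU.lu_indep x y z x' y' z' hx hy hz hc h

end Pool.Agent.MP_f8284b_co.U85
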