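import Mathlib
import Pool.Agent.MP_f8284b_co.U85.Basic

set_option autoImplicit false

namespace Pool.Agent.MP_f8284b_co.U85

namespace ODL

open Finset Module

variable {F : Type} [Field F] {R : Type} [Fintype R] [DecidableEq R]

/-- A subspace of dimension `d` is separated by `d` coordinates. -/
theorem exists_coords (d : ℕ) : ∀ U : Submodule F (R → F), finrank F U ≤ d →
    ∃ D : Finset R, D.card ≤ d ∧ ∀ v ∈ U, (∀ i ∈ D, v i = 0) → v = 0 := by
  induction d with
  | zero =>
    intro U hU
    refine ⟨∅, le_rfl, fun v hv _ => ?_⟩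
    have : U = ⊥ := Submodule.finrank_eq_zero.1 (Nat.le_zero.1 hU)
    rw [this] at hv
    exact hv
  | succ d ih =>
    intro U hU
    by_cases h : ∀ v ∈ U, v = 0
    · exact ⟨∅, Nat.zero_le _, fun v hv _ => h v hv⟩
    push Not at h
    obtain ⟨v, hv, hv0⟩ := h
    obtain ⟨i, hi⟩ := Function.ne_iff.1 hv0
    have hlt : U ⊓ LinearMap.ker (LinearMap.proj (R := F) (φ := fun _ : R => F) i) < U := by
      refine lt_of_le_of_ne inf_le_left fun h => hi ?_
      have : v ∈ U ⊓ LinearMap.ker (LinearMap.proj (R := F) (φ := fun _ : R => F) i) := by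
        rw [h]; exact hv
      exact this.2
    obtain ⟨D, hD, hD'⟩ := ih _ (Nat.lt_succ_iff.1
      (lt_of_lt_of_le (Submodule.finrank_lt_finrank_of_lt hlt) hU))
    refine ⟨insert i D, (card_insert_le _ _).trans (Nat.succ_le_succ hD), fun w hw h => ?_⟩
    exact hD' w ⟨hw, h i (mem_insert_self _ _)⟩ fun j hj => h j (mem_insert_of_mem hj)

/-- The vector `c + bits` on `A`, zero off `A`. -/
def bvec (A : Finset R) (c : R → F) (β : R → Bool) : R → F :=
  fun i => if i ∈ A then c i + (if β i then 1 else 0) else 0

open Classical in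
/-- A subspace of dimension `d` holds at most `2 ^ d` points of a translated cube. -/
theorem cube_count (U : Submodule F (R → F)) (d : ℕ) (hU : finrank F U ≤ d) (A : Finset R)
    (c : R → F) :
    (univ.filter fun β : R → Bool => bvec A c β ∈ U).card * 2 ^ A.card ≤
      2 ^ d * 2 ^ Fintype.card R := by
  obtain ⟨D, hD, hD'⟩ := exists_coords d U hU
  have h1 : (univ.filter fun β : R → Bool => bvec A c β ∈ U).card ≤ (D ∪ Aᶜ).powerset.card := by
    refine card_le_card_of_injOn (fun β => (D ∪ Aᶜ).filter fun i => β i = true)
      (fun β _ => mem_coe.2 (mem_powerset.2 (filter_subset _ _))) fun β hβ γ hγ h => ?_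
    have hβ' := (mem_filter.1 (mem_coe.1 hβ)).2
    have hγ' := (mem_filter.1 (mem_coe.1 hγ)).2
    have hag : ∀ i ∈ D ∪ Aᶜ, β i = γ i := by
      intro i hi
      have := Finset.ext_iff.1 h i
      simp only [mem_filter, hi, true_and] at this
      exact Bool.eq_iff_iff.2 this
    have h0 := hD' _ (U.sub_mem hβ' hγ') fun i hi => by
      simp only [Pi.sub_apply, bvec, hag i (mem_union_left _ hi), sub_self]
    funext i
    by_cases hi : i ∈ A
    · have := congrFun h0 i
      simp only [Pi.sub_apply, bvec, hi, if_true, Pi.zero_apply, add_sub_add_left_eq_sub] at this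
      cases hb : β i <;> cases hg : γ i <;> simp_all
    · exact hag i (mem_union_right _ (mem_compl.2 hi))
  rw [card_powerset] at h1
  have h2 : (D ∪ Aᶜ).card + A.card ≤ d + Fintype.card R := by
    have := card_union_le D Aᶜ
    have := card_compl_add_card A
    omega
  calc _ ≤ 2 ^ (D ∪ Aᶜ).card * 2 ^ A.card := Nat.mul_le_mul_right _ h1
    _ ≤ _ := by rw [← pow_add, ← pow_add]; exact Nat.pow_le_pow_right (by norm_num) h2

/-- Tensoring with a fixed vector in the first slot. -/
def tens (p : ℕ) (v : R → F) : ((Fin p → R) → F) →ₗ[F] ((Fin (p + 1) → R) → F) where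
  toFun w := fun x => v (x 0) * w (Fin.tail x)
  map_add' w w' := by funext x; simp [mul_add]
  map_smul' a w := by funext x; simp [mul_left_comm]

omit [DecidableEq R] in
/-- The vectors with a large fibre span a small space. -/
theorem span_large (p r : ℕ) (V : Submodule F ((Fin (p + 1) → R) → F))
    (hV : finrank F V < r ^ (p + 1)) :
    finrank F (Submodule.span F {v : R → F | r ^ p ≤ finrank F (V.comap (tens p v))}) ≤ r := by
  by_contra hlt
  push Not at hlt
  obtain ⟨f, hf, -, hi⟩ := Submodule.exists_fun_fin_finrank_span_eq F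
    {v : R → F | r ^ p ≤ finrank F (V.comap (tens p v))}
  let v : Fin r → R → F := fun i => f (Fin.castLE hlt.le i)
  have hv : LinearIndependent F v := hi.comp _ (Fin.castLE_injective _)
  choose w hw using fun i : Fin r => exists_linearIndependent_of_le_finrank (hf (Fin.castLE hlt.le i))
  let t : Fin r × Fin (r ^ p) → V := fun q => ⟨tens p (v q.1) (w q.1 q.2), (w q.1 q.2).2⟩
  have ht : LinearIndependent F t := by
    rw [Fintype.linearIndependent_iff]
    intro g hg
    have h1 : ∀ i (x : Fin p → R), ∑ j, g (i, j) * (w i j).1 x = 0 := by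
      intro i x
      refine Fintype.linearIndependent_iff.1 hv (fun i => ∑ j, g (i, j) * (w i j).1 x) ?_ i
      funext a
      have := congrFun (congrArg Subtype.val hg) (Fin.cons a x)
      rw [Fintype.sum_prod_type] at this
      simp only [AddSubmonoidClass.coe_finsetSum, Finset.sum_apply, SetLike.val_smul,
        Pi.smul_apply, smul_eq_mul, t, tens, LinearMap.coe_mk, AddHom.coe_mk, Fin.cons_zero,
        Fin.tail_cons, ZeroMemClass.coe_zero, Pi.zero_apply] at this
      rw [Finset.sum_apply, Pi.zero_apply, ← this]
      refine sum_congr rfl fun i _ => ?_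
      rw [Pi.smul_apply, smul_eq_mul, sum_mul]
      exact sum_congr rfl fun j _ => by ring
    rintro ⟨i, j⟩
    refine Fintype.linearIndependent_iff.1 (hw i) (fun j => g (i, j)) ?_ j
    refine Subtype.ext (funext fun x => ?_)
    have := h1 i x
    simpa only [AddSubmonoidClass.coe_finsetSum, Finset.sum_apply, SetLike.val_smul,
      Pi.smul_apply, smul_eq_mul, ZeroMemClass.coe_zero, Pi.zero_apply] using this
  have := ht.fintype_card_le_finrank
  rw [Fintype.card_prod, Fintype.card_fin, Fintype.card_fin, ← pow_succ'] at this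
  omega

/-- The product vector. -/
def pvec (p : ℕ) (A : Fin p → Finset R) (c : Fin p → R → F) (β : Fin p → R → Bool) :
    (Fin p → R) → F :=
  fun x => ∏ k, bvec (A k) (c k) (β k) (x k)

open Classical in
/-- `ODL`: a product of translated cube points rarely lies in a fixed small subspace. -/
theorem odl (r p : ℕ) : ∀ (A : Fin p → Finset R) (c : Fin p → R → F)
    (V : Submodule F ((Fin p → R) → F)), (∀ k, 2 * r ≤ (A k).card) → finrank F V < r ^ p →
    (univ.filter fun β : Fin p → R → Bool => pvec p A c β ∈ V).card * 2 ^ r ≤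
      p * (2 ^ Fintype.card R) ^ p := by
  induction p with
  | zero =>
    intro A c V _ hV
    have : V = ⊥ := Submodule.finrank_eq_zero.1 (by simpa using hV)
    rw [this, filter_false_of_mem]
    · simp
    intro β _ h
    have := congrFun ((Submodule.mem_bot F).1 h) default
    simp [pvec] at this
  | succ p ih =>
    intro A c V hA hV
    set S := {v : R → F | r ^ p ≤ finrank F (V.comap (tens p v))} with hS
    have hsp : finrank F (Submodule.span F S) ≤ r := span_large p r V hV
    have hc := cube_count _ r hsp (A 0) (c 0)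
    have hB : Fintype.card (R → Bool) = 2 ^ Fintype.card R := by simp
    have hBp : Fintype.card (Fin p → R → Bool) = (2 ^ Fintype.card R) ^ p := by
      rw [Fintype.card_fun, hB, Fintype.card_fin]
    have e1 : (univ.filter fun β : Fin (p + 1) → R → Bool => pvec (p + 1) A c β ∈ V).card =
        ∑ b : R → Bool, (univ.filter fun γ : Fin p → R → Bool =>
          pvec p (Fin.tail A) (Fin.tail c) γ ∈ V.comap (tens p (bvec (A 0) (c 0) b))).card := by
      simp only [card_filter]
      rw [← Fintype.sum_prod_type']
      refine (Fintype.sum_equiv (Fin.consEquiv fun _ => R → Bool) _ _ fun q => ?_).symm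
      have : pvec (p + 1) A c (Fin.consEquiv (fun _ => R → Bool) q) =
          tens p (bvec (A 0) (c 0) q.1) (pvec p (Fin.tail A) (Fin.tail c) q.2) := by
        funext x
        simp only [pvec, Fin.prod_univ_succ, tens, LinearMap.coe_mk, AddHom.coe_mk]
        rfl
      rw [this]
      rfl
    have e2 : ∀ b : R → Bool, (univ.filter fun γ : Fin p → R → Bool =>
          pvec p (Fin.tail A) (Fin.tail c) γ ∈ V.comap (tens p (bvec (A 0) (c 0) b))).card * 2 ^ r ≤
        (if bvec (A 0) (c 0) b ∈ Submodule.span F S then (2 ^ Fintype.card R) ^ p * 2 ^ r else 0) +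
          p * (2 ^ Fintype.card R) ^ p := by
      intro b
      split_ifs with h
      · refine le_trans (Nat.mul_le_mul_right _ ?_) (Nat.le_add_right _ _)
        rw [← hBp]
        exact card_le_univ _
      · rw [zero_add]
        refine ih _ _ _ (fun k => hA k.succ) (not_le.1 fun h' => h (Submodule.subset_span h'))
    have e3 : (univ.filter fun β : R → Bool => bvec (A 0) (c 0) β ∈ Submodule.span F S).card *
        2 ^ r ≤ 2 ^ Fintype.card R := by
      refine Nat.le_of_mul_le_mul_right ?_ (Nat.pos_of_ne_zero (pow_ne_zero r two_ne_zero))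
      calc _ = (univ.filter fun β : R → Bool =>
            bvec (A 0) (c 0) β ∈ Submodule.span F S).card * 2 ^ (2 * r) := by
            rw [mul_assoc, ← pow_add, two_mul]
        _ ≤ _ := Nat.mul_le_mul_left _ (Nat.pow_le_pow_right (by norm_num) (hA 0))
        _ ≤ _ := hc
        _ = _ := mul_comm _ _
    rw [e1, sum_mul]
    refine (sum_le_sum fun b _ => e2 b).trans ?_
    rw [sum_add_distrib, ← sum_filter, sum_const, sum_const, card_univ, hB, smul_eq_mul,
      smul_eq_mul]
    calc _ = (univ.filter fun β : R → Bool => bvec (A 0) (c 0) β ∈ Submodule.span F S).card *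
        2 ^ r * (2 ^ Fintype.card R) ^ p + 2 ^ Fintype.card R * (p * (2 ^ Fintype.card R) ^ p) := by
          ring
      _ ≤ 2 ^ Fintype.card R * (2 ^ Fintype.card R) ^ p +
          2 ^ Fintype.card R * (p * (2 ^ Fintype.card R) ^ p) :=
          Nat.add_le_add_right (Nat.mul_le_mul_right _ e3) _
      _ = _ := by ring

end ODL

theorem rowODL : RowODL := by
  classical
  intro R _ _ p m act c S hact hS
  have h := ODL.odl m p (fun k => Finset.univ.filter fun r => act k r) c S hact hS
  have hc : Fintype.card (Fin p → R → Bool) = (2 ^ Fintype.card R) ^ p := by simp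
  have h' : ((Finset.univ.filter fun β : Fin p → R → Bool =>
      ODL.pvec p (fun k => Finset.univ.filter fun r => act k r) c β ∈ S).card : ℝ) * 2 ^ m ≤
      p * (Fintype.card (Fin p → R → Bool) : ℝ) := by
    rw [hc]; exact_mod_cast h
  have hpos : (0 : ℝ) < Fintype.card (Fin p → R → Bool) := by exact_mod_cast Fintype.card_pos
  refine le_trans (Pr_mono (C := fun β : Fin p → R → Bool =>
    ODL.pvec p (fun k => Finset.univ.filter fun r => act k r) c β ∈ S) fun β hβ => ?_) ?_
  · have e : ODL.pvec p (fun k => Finset.univ.filter fun r => act k r) c β =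
        fun r : Fin p → R => ∏ k,
          (if act k (r k) then c k (r k) + (if β k (r k) = true then 1 else 0) else 0) := by
      funext r
      simp only [ODL.pvec, ODL.bvec, Finset.mem_filter, Finset.mem_univ, true_and]
    rw [e]; exact hβ
  · unfold Pr
    rw [div_le_div_iff₀ hpos (by positivity), Finset.filter_congr_decidable]
    exact h'

end Pool.Agent.MP_f8284b_co.U85
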